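import Pool.Agent.AESY.Defs

/-!
# Free ends with light arcs, on codes: definitions

A branch of linear size in which every long run towards its root starts behind a light arc; light arcs start at distance at
least five from the root of the branch.
-/

set_option autoImplicit false

namespace AESY

open Finset AE15 AED AEB AELT AEK AEJ AEY AEN AET AESF
open scoped Classical

/-- `InL` without light arcs in the first `n` levels -/
def InLd (l K : ℕ) : ℕ → Bool → ℕ → ℕ → Fd → Prop
  | _, _, _, _, .nil => True
  | n, e, S, j, .node d c s => (if d then (n = 0 ∧ e = false ∧ K * (blk c + 1) ≤ S) ∨ InLd l K (n - 1) true (c.size + 1) 0 c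
      else j + 1 ≤ l ∧ InLd l K (n - 1) true (c.size + 1) (j + 1) c) ∧ InLd l K n false S j s ∧
      (e = true → ∀ q ∈ s.trees, q.2.size ≤ c.size)

/-- all conditions on the forest -/
def FOLd (b l K n : ℕ) (F : Fd) : Prop := F.len ≤ b ∧ F.Deg b ∧ InLd l K n true (F.size + 1) 0 F

/-- the statement for coded trees: a branch at the root, of linear size, in which the long runs towards its root start
behind light arcs -/
def FELSt : Prop := ∀ b l : ℕ, 1 ≤ b → ∀ θ : ℝ, 0 < θ → ∃ K C : ℕ, ∀ {V : Type} {R : V → V → Prop}, AE32.Tour R →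
  ∀ (c F : Fd) (d : Bool), c.len ≤ b → c.Deg b → (d, F) ∈ c.trees → FOLd b l K 5 F →
    θ * (c.size + 1) ≤ (F.size + 1 : ℝ) → ∀ X : Finset V, c.size + 1 + C ≤ X.card → In R c (fun _ => True) X

end AESY
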