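import Pool.Agent.AEN.CodH
import Pool.Agent.AESY.FLDefs

/-!
# The code of a branch without long runs which do not start behind a light arc
-/

set_option autoImplicit false
set_option linter.unusedSectionVars false

namespace AESY

open Finset Relation AE15 AED AEB AET AELT AEJ LTT AEK AEY AEN
open scoped Classical

section glue

variable {τ : Type*} [Fintype τ] {E P : τ → τ → Prop}

theorem mkY_inLd_tail {L K n S j : ℕ} (v : τ) (g : τ → Fd) (l : List τ)
    (h : ∀ c ∈ l, (E v c → (n = 0 ∧ K * (AEB.blk (g c) + 1) ≤ S) ∨ InLd L K (n - 1) true ((g c).size + 1) 0 (g c)) ∧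
      (¬ E v c → j + 1 ≤ L ∧ InLd L K (n - 1) true ((g c).size + 1) (j + 1) (g c))) :
    InLd L K n false S j (mkY E v g l) := by
  induction l with
  | nil => trivial
  | cons c l ih =>
    refine ⟨?_, ih fun d hd => h d (List.mem_cons_of_mem _ hd), by simp⟩
    obtain ⟨h1, h2⟩ := h c List.mem_cons_self
    by_cases he : E v c
    · simp only [he, decide_true, if_true, true_and]
      exact h1 he
    · simp only [he, decide_false, Bool.false_eq_true, if_false]
      exact h2 he

theorem mkY_inLd_head {L K n S j : ℕ} (v : τ) (g : τ → Fd) (m : τ) (l : List τ)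
    (hm : (E v m → InLd L K (n - 1) true ((g m).size + 1) 0 (g m)) ∧
      (¬ E v m → j + 1 ≤ L ∧ InLd L K (n - 1) true ((g m).size + 1) (j + 1) (g m)))
    (hs : ∀ c ∈ l, (g c).size ≤ (g m).size)
    (h : ∀ c ∈ l, (E v c → (n = 0 ∧ K * (AEB.blk (g c) + 1) ≤ S) ∨ InLd L K (n - 1) true ((g c).size + 1) 0 (g c)) ∧
      (¬ E v c → j + 1 ≤ L ∧ InLd L K (n - 1) true ((g c).size + 1) (j + 1) (g c))) :
    InLd L K n true S j (mkY E v g (m :: l)) := by
  refine ⟨?_, mkY_inLd_tail v g l h, ?_⟩
  · by_cases he : E v m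
    · simp only [he, decide_true, if_true]
      exact Or.inr (hm.1 he)
    · simp only [he, decide_false, Bool.false_eq_true, if_false]
      exact hm.2 he
  · intro _ q hq
    rw [mkY_trees, List.mem_map] at hq
    obtain ⟨c, hc, rfl⟩ := hq
    exact hs c hc

/-- `v` is not behind a light arc which lies behind `r₀`, at depth at least `g` -/
def NLD (E P : τ → τ → Prop) (K : ℕ) (hm : τ → τ) (dp : τ → ℕ) (g : ℕ) (r₀ v : τ) : Prop :=
  ∀ u w, u ∈ AE32.desc P r₀ → g ≤ dp u → P u w → E u w → w ≠ hm u →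
    K * (inY E P w).card ≤ (AE32.desc P u).card → v ∉ AE32.desc P w

/-- **the code of a branch without long runs which do not start behind a light arc** -/
theorem codes_hLd {rk : τ → ℕ} (hE : ∀ a b, P a b → rk a < rk b) (hin : ∀ a b c, P a c → P b c → a = b)
    (hP : ∀ a c, P a c → E a c ∨ E c a) (hanti : ∀ a c, E a c → ¬ E c a) {L K : ℕ} (hm : τ → τ)
    (hmain : ∀ u w, P u w → P u (hm u) ∧ (AE32.desc P w).card ≤ (AE32.desc P (hm u)).card) {r₀ : τ} {dp : τ → ℕ} {g₀ : ℕ}
    (hdp : ∀ u w, u ∈ AE32.desc P r₀ → P u w → dp w = dp u + 1)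
    (h7 : ∀ f : ℕ → τ, (∀ i ≤ L, E (f i) (f (i + 1)) ∧ P (f (i + 1)) (f i)) → f (L + 1) ∈ AE32.desc P r₀ →
      ¬ NLD E P K hm dp g₀ r₀ (f 0)) (n : ℕ) :
    ∀ v, (AE32.desc P v).card = n → v ∈ AE32.desc P r₀ → ∀ j, WkH E P r₀ j v → NLD E P K hm dp g₀ r₀ v →
      InLd L K (g₀ - dp v) true ((codH E P hm v).size + 1) j (codH E P hm v) := by
  have hh : ∀ u w, P u w → P u (hm u) := fun u w h => (hmain u w h).1
  have hcodv := codH_cod' (E := E) hE hh
  induction n using Nat.strong_induction_on with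
  | _ n ih =>
    intro v hv hvr j hw hNL
    have hsize := cod_size hE hin hP (hcodv v)
    by_cases hne : ∃ w, P v w
    swap
    · have h1 : codH E P hm v = .nil := by
        rw [codH_eq hE hh, ordH, if_neg hne]
        rfl
      rw [h1]
      exact trivial
    obtain ⟨w₀, hw₀⟩ := hne
    have hmv : P v (hm v) := hh v w₀ hw₀
    have hcr : ∀ c, P v c → c ∈ AE32.desc P r₀ := fun c hc => AE32.mem_desc.2 ((AE32.mem_desc.1 hvr).tail hc)
    obtain ⟨l', hl'⟩ : ∃ l', l' = ((univ.filter (fun w => P v w)).erase (hm v)).toList := ⟨_, rfl⟩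
    have hl3 : ∀ c ∈ l', P v c ∧ c ≠ hm v := by
      intro c hc
      rw [hl', Finset.mem_toList, mem_erase, mem_filter] at hc
      exact ⟨hc.2.2, hc.1⟩
    have hcode : codH E P hm v = mkY E v (codH E P hm) (hm v :: l') := by
      rw [codH_eq hE hh, ordH, if_pos ⟨w₀, hw₀⟩, hl']
    have hlt : ∀ c, P v c → (AE32.desc P c).card < n := by
      intro c hc
      rw [← hv]
      exact card_desc_lt hE hc
    have hdc : ∀ c, P v c → g₀ - dp v - 1 = g₀ - dp c := by
      intro c hc
      rw [hdp v c hvr hc]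
      omega
    obtain ⟨g, hgdef⟩ : ∃ g : τ → Fd, g = codH E P hm := ⟨_, rfl⟩
    rw [← hgdef] at hcode hcodv hsize ih ⊢
    have hsz : ∀ c ∈ l', (g c).size ≤ (g (hm v)).size := by
      intro c hc
      have h4 := (hmain v c (hl3 c hc).1).2
      have h5 := cod_size hE hin hP (hcodv c)
      have h6 := cod_size hE hin hP (hcodv (hm v))
      omega
    have hNLc : ∀ c, P v c → (E v c → c ≠ hm v → g₀ ≤ dp v → ¬ K * (inY E P c).card ≤ (AE32.desc P v).card) →
        NLD E P K hm dp g₀ r₀ c := by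
      intro c hc hcl u w hur hgu huw hE' hwm hKw hcw
      rcases (AE32.mem_desc.1 hcw).cases_tail with h1 | ⟨e, h1, h2⟩
      · subst h1
        obtain rfl := hin _ _ _ huw hc
        exact hcl hE' hwm hgu hKw
      · obtain rfl := hin _ _ _ h2 hc
        exact hNL u w hur hgu huw hE' hwm hKw (AE32.mem_desc.2 h1)
    have hany : ∀ c, P v c → (E v c → (c = hm v → InLd L K (g₀ - dp v - 1) true ((g c).size + 1) 0 (g c)) ∧
        ((g₀ - dp v = 0 ∧ K * (AEB.blk (g c) + 1) ≤ (mkY E v g (hm v :: l')).size + 1) ∨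
          InLd L K (g₀ - dp v - 1) true ((g c).size + 1) 0 (g c))) ∧
        (¬ E v c → j + 1 ≤ L ∧ InLd L K (g₀ - dp v - 1) true ((g c).size + 1) (j + 1) (g c)) := by
      intro c hc
      rw [hdc c hc]
      refine ⟨fun he => ⟨fun hcm => ?_, ?_⟩, fun he => ?_⟩
      · exact ih _ (hlt c hc) c rfl (hcr c hc) 0 (wkH_zero (hcr c hc)) (hNLc c hc fun _ h => absurd hcm h)
      · by_cases hlight : g₀ ≤ dp v ∧ K * (inY E P c).card ≤ (AE32.desc P v).card
        · left
          refine ⟨by omega, ?_⟩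
          rw [blk_inY hE hin hP hanti (hcodv c), ← hcode, hsize]
          exact hlight.2
        · right
          exact ih _ (hlt c hc) c rfl (hcr c hc) 0 (wkH_zero (hcr c hc)) (hNLc c hc fun _ _ hg hK => hlight ⟨hg, hK⟩)
      · have h0 : E c v := (hP _ _ hc).resolve_left he
        have h5 : WkH E P r₀ (j + 1) c := wkH_succ hw h0 hc
        have h6 := hNLc c hc fun h => absurd h he
        refine ⟨?_, ih _ (hlt c hc) c rfl (hcr c hc) (j + 1) h5 h6⟩
        obtain ⟨f, f1, f2, f3⟩ := h5
        by_contra hj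
        push Not at hj
        have h4 : ∀ s, s ≤ j + 1 → f (j + 1 - s) ∈ AE32.desc P r₀ := by
          intro s
          induction s with
          | zero => intro _; exact f3
          | succ s ihs =>
            intro hs
            have h5 := ihs (by omega)
            have h6 := (f2 (j + 1 - (s + 1)) (by omega)).2
            rw [show j + 1 - (s + 1) + 1 = j + 1 - s by omega] at h6
            exact AE32.mem_desc.2 ((AE32.mem_desc.1 h5).tail h6)
        have h5 := h4 (j + 1 - (L + 1)) (by omega)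
        rw [show j + 1 - (j + 1 - (L + 1)) = L + 1 by omega] at h5
        exact h7 f (fun i hi => f2 i (by omega)) h5 (f1 ▸ h6)
    rw [hcode]
    refine mkY_inLd_head v g (hm v) l' ⟨fun he => ((hany _ hmv).1 he).1 rfl, (hany _ hmv).2⟩ hsz ?_
    intro c hc
    have hcv := (hl3 c hc).1
    exact ⟨fun he => ((hany c hcv).1 he).2, (hany c hcv).2⟩

end glue

end AESY
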