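import Pool.Agent.AESF.T2Core
import Pool.Agent.AESF.StX
import Pool.Agent.AESF.FE3

/-!
# Free ends without the cleanliness condition: definitions and statements
-/

set_option autoImplicit false

namespace AESY

open Finset AE15 AED AELT AEB AEY AEN AESF
open scoped Classical

/-- the trees which hang by arcs away from the common vertex -/
def outs : Fd → List Fd
  | .nil => []
  | .node d c s => if d then c :: outs s else outs s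

theorem mem_outs {F c : Fd} : c ∈ outs F ↔ (true, c) ∈ F.trees := by
  induction F with
  | nil => simp [outs, Fd.trees]
  | node d e s _ ih => cases d <;> simp [outs, Fd.trees, ih]

/-- the trees which hang by arcs away from the vertices of the in-closure, the root included -/
def pnd : Fd → List Fd
  | .nil => []
  | .node d c s => if d then c :: pnd s else pnd c ++ pnd s

/-- the trees which hang by arcs away from the vertices of the in-closure, the root excluded -/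
def pin : Fd → List Fd
  | .nil => []
  | .node d c s => if d then pin s else pnd c ++ pin s

/-- a vertex with the children forest `F`: its in-closure is bounded, the trees hanging on the in-closure by arcs away from
it are in the class `I`, and those which do not hang on the root itself are small -/
structure NY (b q : ℕ) (t : ℝ) (I : Fd → Prop) (F : Fd) : Prop where
  len : F.len ≤ b
  deg : F.Deg b
  blk : AEB.blk F ≤ q
  out : ∀ D ∈ outs F, I D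
  pin : ∀ D ∈ pin F, I D ∧ (D.size + 1 : ℝ) ≤ t

/-- the first three levels of a branch: bounded in-closures, small trees on them; the heavy chain is in the class `H` -/
structure Top3Y (b q : ℕ) (t : ℝ) (I H : Fd → Prop) (F : Fd) : Prop where
  n0 : NY b q t I F
  n1 : ∀ c ∈ outs F, NY b q t I c
  n2 : ∀ c ∈ outs F, ∀ c' ∈ outs c, NY b q t I c'
  heavy : ∃ c₁ c₂ c₃ : Fd, c₁ ∈ outs F ∧ c₂ ∈ outs c₁ ∧ c₃ ∈ outs c₂ ∧ H c₁ ∧ H c₂ ∧ H c₃ ∧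
    F.size ≤ b * (c₁.size + 1) ∧ c₁.size ≤ b * (c₂.size + 1) ∧ c₂.size ≤ b * (c₃.size + 1)

/-- the case of a large set before the place -/
def T2YSt : Prop := ∀ b q : ℕ, 1 ≤ b → ∀ θ : ℝ, 0 < θ → ∃ ω₀ : ℝ, 0 < ω₀ ∧ ∀ ω : ℝ, 0 < ω → ω ≤ ω₀ → ∃ ζ₀ : ℝ, 0 < ζ₀ ∧
  ∀ ζ : ℝ, 0 < ζ → ζ ≤ ζ₀ → ∀ lam : ℝ, 0 < lam → ∀ J : ℕ, ∃ a₁₀ : ℝ, 0 < a₁₀ ∧ ∀ a1 : ℝ, 0 < a1 → a1 ≤ a₁₀ →
    ∃ a₂₀ : ℝ, 0 < a₂₀ ∧ ∀ a2 : ℝ, 0 < a2 → a2 ≤ a₂₀ → ∀ k0 : ℝ, 0 < k0 →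
    ∃ (N e m c1 m0 : ℕ) (τb d ε : ℝ), 1 ≤ N ∧ 0 < τb ∧ 0 < d ∧ 0 < ε ∧ ∀ (I : ℕ → Fd → Prop) (H : Fd → Prop) (nb Cb : ℕ),
      BxL N e m τb d I H nb Cb → ∃ C : ℝ,
      ∀ {V : Type} {R : V → V → Prop}, AE32.Tour R → ∀ (X U : Finset V) (𝓛 : Finset (Finset V)) (k : ℝ), k0 ≤ k → k ≤ 1 →
        𝓛.card ≤ J → ∀ F s : Fd, (Fd.node true F s).len ≤ b → (Fd.node true F s).Deg b →
          (∀ n, F.size + 1 ≤ n → Top3Y b q (ε * (F.size + 1)) (I n) H F) → θ * X.card ≤ (F.size + 1 : ℝ) →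
            ((Fd.node true F s).size : ℝ) + 1 + C ≤ X.card →
            (CutD R X U 𝓛 (blk s + c1) ω ζ lam (a1 * k ^ 2) (a2 * k ^ 2) ∨
              ∃ K, ThickD R X U K 𝓛 (blk s + c1) ω ζ k lam (a1 * k ^ 2) (a2 * k ^ 2)) →
              blk s + c1 + m0 ≤ U.card → In R (.node true F s) (fun _ => True) X

/-- the case of a small set before the place -/
def T1YSt : Prop := ∀ b q : ℕ, 1 ≤ b → ∀ θ : ℝ, 0 < θ → ∃ ω₀ : ℝ, 0 < ω₀ ∧ ∀ ω : ℝ, 0 < ω → ω ≤ ω₀ → ∃ ζ₀ : ℝ, 0 < ζ₀ ∧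
  ∀ ζ : ℝ, 0 < ζ → ζ ≤ ζ₀ → ∀ lam : ℝ, 0 < lam → ∀ J : ℕ, ∃ a₁₀ : ℝ, 0 < a₁₀ ∧ ∀ a1 : ℝ, 0 < a1 → a1 ≤ a₁₀ →
    ∃ a₂₀ : ℝ, 0 < a₂₀ ∧ ∀ a2 : ℝ, 0 < a2 → a2 ≤ a₂₀ → ∀ k0 : ℝ, 0 < k0 → ∀ c1 m0 : ℕ,
    ∃ (N e m : ℕ) (τb d ε : ℝ), 1 ≤ N ∧ 0 < τb ∧ 0 < d ∧ 0 < ε ∧ ∀ (I : ℕ → Fd → Prop) (H : Fd → Prop) (nb Cb : ℕ),
      BxL N e m τb d I H nb Cb → ∃ C : ℝ,
      ∀ {V : Type} {R : V → V → Prop}, AE32.Tour R → ∀ (X U K : Finset V) (𝓛 : Finset (Finset V)) (k : ℝ), k0 ≤ k → k ≤ 1 →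
        𝓛.card ≤ J → ∀ F s : Fd, (Fd.node true F s).len ≤ b → (Fd.node true F s).Deg b →
          (∀ n, F.size + 1 ≤ n → Top3Y b q (ε * (F.size + 1)) (I n) H F) → θ * X.card ≤ (F.size + 1 : ℝ) →
            ((Fd.node true F s).size : ℝ) + 1 + C ≤ X.card →
            ThickD R X U K 𝓛 (blk s + c1) ω ζ k lam (a1 * k ^ 2) (a2 * k ^ 2) → U.card ≤ blk s + c1 + m0 →
              In R (.node true F s) (fun _ => True) X

/-- the branches which hang by arcs towards the vertices of the first three levels have at most `t` vertices -/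
structure TopE (t : ℝ) (F : Fd) : Prop where
  i0 : ∀ W, (false, W) ∈ F.trees → (W.size + 1 : ℝ) ≤ t
  i1 : ∀ c ∈ outs F, ∀ W, (false, W) ∈ c.trees → (W.size + 1 : ℝ) ≤ t
  i2 : ∀ c ∈ outs F, ∀ c' ∈ outs c, ∀ W, (false, W) ∈ c'.trees → (W.size + 1 : ℝ) ≤ t

/-- the statement for coded trees, small branches towards the first three levels -/
def SFYSt : Prop := ∀ b l : ℕ, 1 ≤ b → ∀ θ : ℝ, 0 < θ → ∃ (ε : ℝ) (C : ℕ), 0 < ε ∧
    ∀ {V : Type} {R : V → V → Prop}, AE32.Tour R → ∀ c F : Fd, c.len ≤ b → c.Deg b → (true, F) ∈ c.trees →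
      θ * (c.size + 1) ≤ (F.size + 1 : ℝ) → FOK b l 0 F → Sd true F → TopE (ε * (F.size + 1)) F →
      ∀ X : Finset V, c.size + 1 + C ≤ X.card → In R c (fun _ => True) X

/-- the first three levels: bounded in-closures, small branches towards them, small in-closures of the trees below -/
structure ClnY (q K : ℕ) (t : ℝ) (F : Fd) : Prop where
  small : TopE t F
  b0 : AEB.blk F ≤ q
  b1 : ∀ c ∈ outs F, AEB.blk c ≤ q
  b2 : ∀ c ∈ outs F, ∀ c' ∈ outs c, AEB.blk c' ≤ q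
  l0 : ∀ D ∈ pin F, K * (AEB.blk D + 1) ≤ F.size + 1
  l1 : ∀ c ∈ outs F, ∀ D ∈ pin c, K * (AEB.blk D + 1) ≤ F.size + 1
  l2 : ∀ c ∈ outs F, ∀ c' ∈ outs c, ∀ D ∈ pnd c', K * (AEB.blk D + 1) ≤ F.size + 1

/-- the statement for coded trees: a line at the root, which hangs by an arc away from the root -/
def SFXYSt : Prop := ∀ b l : ℕ, 1 ≤ b → ∃ A₀ : ℕ, ∀ A' : ℕ, A₀ ≤ A' → ∀ θw : ℝ, 0 < θw → θw ≤ 1 / 2 →
  ∀ (q : ℕ) (θ : ℝ), 0 < θ → ∃ (ε₀ μ₀ ε : ℝ) (K₀ : ℕ), 0 < ε₀ ∧ 0 < μ₀ ∧ 0 < ε ∧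
    ∀ ε₁ μ₁ : ℝ, ε₁ ≤ ε₀ → μ₁ ≤ μ₀ → ∀ K : ℕ, K₀ ≤ K → ∀ M : ℕ, ∃ C : ℕ,
    ∀ {V : Type} {R : V → V → Prop}, AE32.Tour R → ∀ c F : Fd, c.len ≤ b → c.Deg b → (true, F) ∈ c.trees →
      θ * (c.size + 1) ≤ (F.size + 1 : ℝ) → ClnY q K (ε * (F.size + 1)) F →
      FX b l K (fun e => WcU b l K A' θw ε₁ μ₁ M e ∧ (2 * b) ^ (2 * l + 9) * (e.size + 1) < F.size + 1) 0 F →
      ∀ X : Finset V, c.size + 1 + C ≤ X.card → In R c (fun _ => True) X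

/-- the statement for coded trees: a branch at the root, of linear size, without long runs towards its root -/
def FEYSt : Prop := ∀ b l : ℕ, 1 ≤ b → ∀ θ : ℝ, 0 < θ → ∃ C : ℕ, ∀ {V : Type} {R : V → V → Prop}, AE32.Tour R →
  ∀ (c F : Fd) (d : Bool), c.len ≤ b → c.Deg b → (d, F) ∈ c.trees → FOK b l 0 F →
    θ * (c.size + 1) ≤ (F.size + 1 : ℝ) → ∀ X : Finset V, c.size + 1 + C ≤ X.card → In R c (fun _ => True) X

end AESY
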