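import Pool.Agent.AESY.FE

/-!
# Bounded-degree oriented trees with a large thin branch, or a large branch without long runs towards its root, behind an
edge

The final sentence, from the statements for the two cases.
-/

set_option autoImplicit false

namespace AESY

open Finset Relation AE15 AED AEB AELT AEK AEJ AESF
open scoped Classical

/-- **Trees with a thin branch of linear size behind an edge**: every vertex of the component `B` of `T - uv` which contains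
`v` is within distance `D` of a path which starts at `v` and leads away from `u`. -/
def ThinEndSt : Prop := ∀ (Δ D : ℕ) (θ : ℝ), 0 < θ → ∃ C : ℕ, ∀ k n : ℕ, k + C ≤ n → ∀ R : Fin n → Fin n → Prop,
    (∀ a, ¬ R a a) → (∀ a b, a ≠ b → R a b ∨ R b a) → (∀ a b, R a b → ¬ R b a) →
    ∀ (E : Fin (k + 1) → Fin (k + 1) → Prop) (G : SimpleGraph (Fin (k + 1))),
      (∀ a b, E a b → ¬ E b a) → G = SimpleGraph.fromRel E →
      G.IsTree → (∀ v, (G.neighborSet v).ncard ≤ Δ) →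
      (∃ u v, G.Adj u v ∧ θ * k ≤ ({x | G.dist v x < G.dist u x}.ncard : ℝ) ∧
        ∃ (p : ℕ → Fin (k + 1)) (m : ℕ), p 0 = v ∧
          (∀ i < m, G.Adj (p i) (p (i + 1)) ∧ G.dist u (p (i + 1)) = G.dist u (p i) + 1) ∧
          ∀ x, G.dist v x < G.dist u x → ∃ i ≤ m, G.dist (p i) x ≤ D) →
      ∃ f : Fin (k + 1) → Fin n, Function.Injective f ∧ ∀ a b, E a b → R (f a) (f b)

/-- **The final sentence.** `{x | dist v x < dist u x}` is the component of `T - uv` which contains `v`. -/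
def FreeEndYSt : Prop := ∀ (Δ l : ℕ) (θ : ℝ), 0 < θ → ∃ C : ℕ, ∀ k n : ℕ, k + C ≤ n → ∀ R : Fin n → Fin n → Prop,
    (∀ a, ¬ R a a) → (∀ a b, a ≠ b → R a b ∨ R b a) → (∀ a b, R a b → ¬ R b a) →
    ∀ (E : Fin (k + 1) → Fin (k + 1) → Prop) (G : SimpleGraph (Fin (k + 1))),
      (∀ a b, E a b → ¬ E b a) → G = SimpleGraph.fromRel E →
      G.IsTree → (∀ v, (G.neighborSet v).ncard ≤ Δ) →
      (∃ u v, G.Adj u v ∧ θ * k ≤ ({x | G.dist v x < G.dist u x}.ncard : ℝ) ∧
        ((∃ (p : ℕ → Fin (k + 1)) (m : ℕ), p 0 = v ∧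
            (∀ i < m, G.Adj (p i) (p (i + 1)) ∧ G.dist u (p (i + 1)) = G.dist u (p i) + 1) ∧
            ∀ x, G.dist v x < G.dist u x → ∃ i ≤ m, G.dist (p i) x ≤ l) ∨
          ∃ F : Fin (k + 1) → Fin (k + 1) → Prop, (F = E ∨ F = fun x y => E y x) ∧
            ∀ q : ℕ → Fin (k + 1), (∀ i ≤ l, F (q i) (q (i + 1)) ∧ G.dist v (q (i + 1)) < G.dist v (q i)) →
              ¬ G.dist v (q 0) < G.dist u (q 0))) →
      ∃ f : Fin (k + 1) → Fin n, Function.Injective f ∧ ∀ a b, E a b → R (f a) (f b)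

theorem end_y (h : FEYSt) (Δ l : ℕ) {θ : ℝ} (hθ : 0 < θ) : ∃ C : ℕ, ∀ k n : ℕ, k + C ≤ n →
    ∀ R : Fin n → Fin n → Prop,
    (∀ a, ¬ R a a) → (∀ a b, a ≠ b → R a b ∨ R b a) → (∀ a b, R a b → ¬ R b a) →
    ∀ E : Fin (k + 1) → Fin (k + 1) → Prop,
      (∀ a b, E a b → ¬ E b a) →
      (SimpleGraph.fromRel E).IsTree →
      (∀ v, ((SimpleGraph.fromRel E).neighborSet v).ncard ≤ Δ) →
      (∃ u v, (SimpleGraph.fromRel E).Adj u v ∧
        θ * k ≤ ({x | (SimpleGraph.fromRel E).dist v x < (SimpleGraph.fromRel E).dist u x}.ncard : ℝ) ∧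
        (∀ q : ℕ → Fin (k + 1), (∀ i ≤ l, E (q i) (q (i + 1)) ∧
          (SimpleGraph.fromRel E).dist v (q (i + 1)) < (SimpleGraph.fromRel E).dist v (q i)) →
          ¬ (SimpleGraph.fromRel E).dist v (q 0) < (SimpleGraph.fromRel E).dist u (q 0))) →
      ∃ f : Fin (k + 1) → Fin n, Function.Injective f ∧ ∀ a b, E a b → R (f a) (f b) := by
  obtain ⟨C, hC⟩ := h (max Δ 1) l (le_max_right _ _) (θ / 2) (by positivity)
  refine ⟨C + 1, ?_⟩
  rintro k n hn R h1 h2 h3 E h4 h5 h6 ⟨u, v, huv, hθv, hv⟩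
  have h6' : ∀ v, {w | E v w ∨ E w v}.ncard ≤ max Δ 1 := by
    intro v
    refine le_trans (le_of_eq ?_) ((h6 v).trans (le_max_left _ _))
    congr 1
    ext w
    rw [SimpleGraph.mem_neighborSet, SimpleGraph.fromRel_adj]
    constructor
    · intro h
      refine ⟨?_, h⟩
      rintro rfl
      rcases h with h | h
      · exact h4 _ _ h h
      · exact h4 _ _ h h
    · intro h
      exact h.2
  obtain ⟨c, F, g1, g2, g3, g4, g5, g6, -, g8⟩ := graph_b h4 h5 h6' huv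
  have hk : 1 ≤ k := by
    by_contra hk
    obtain rfl : k = 0 := by omega
    have := u.isLt
    have := v.isLt
    exact huv.ne (Fin.ext (by omega))
  have hk1 : (1 : ℝ) ≤ k := by exact_mod_cast hk
  have h7 : In R c (fun _ => True) univ := by
    refine hC ⟨h1, h2, h3⟩ c F _ g2 g3 g4 (g6 l hv) ?_ univ ?_
    · have g5' : (F.size : ℝ) + 1 =
          {x | (SimpleGraph.fromRel E).dist v x < (SimpleGraph.fromRel E).dist u x}.ncard := by exact_mod_cast g5
      rw [g1, g5']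
      refine le_trans ?_ hθv
      nlinarith
    · rw [g1, card_univ, Fintype.card_fin]
      omega
  obtain ⟨f, f1, -, -, f4⟩ := g8 h7
  exact ⟨f, f1, f4⟩

/-- **the final sentence** -/
theorem free_endY_of (h1 : ThinEndSt) (h2 : FEYSt) : FreeEndYSt := by
  intro Δ l θ hθ
  obtain ⟨C₁, g1⟩ := h1 Δ l θ hθ
  obtain ⟨C₂, g2⟩ := end_y h2 Δ l hθ
  refine ⟨C₁ + C₂, ?_⟩
  rintro k n hn R a1 a2 a3 E G b1 rfl b2 b3 ⟨u, v, huv, hk, h | ⟨F, hF | hF, hv⟩⟩
  · exact g1 k n (by omega) R a1 a2 a3 E _ b1 rfl b2 b3 ⟨u, v, huv, hk, h⟩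
  · subst hF
    exact g2 k n (by omega) R a1 a2 a3 F b1 b2 b3 ⟨u, v, huv, hk, hv⟩
  · subst hF
    have he : SimpleGraph.fromRel (fun a b => E b a) = SimpleGraph.fromRel E := by
      ext a b
      rw [SimpleGraph.fromRel_adj, SimpleGraph.fromRel_adj, or_comm]
    obtain ⟨f, hf1, hf2⟩ := g2 k n (by omega) (fun a b => R b a) a1 (fun a b hab => (a2 a b hab).symm) (fun a b => a3 b a)
      (fun a b => E b a) (fun a b => b1 b a) (by rw [he]; exact b2) (by rw [he]; exact b3)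
      ⟨u, v, by rw [he]; exact huv, by rw [he]; exact hk, by rw [he]; exact hv⟩
    exact ⟨f, hf1, fun a b hab => hf2 b a hab⟩

end AESY
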