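import Pool.Agent.AESY.CodL
import Pool.Agent.AESY.EndY

/-!
# Bounded-degree oriented trees with a large thin branch, or a large branch whose long runs towards its root start behind
light arcs, behind an edge

The final sentence, from the statements for the two cases.
-/

set_option autoImplicit false

namespace AESY

open Finset Relation AE15 AED AEB AELT AEK AEJ AESF
open scoped Classical

/-- The tree `G` is rooted at `u`: `h y` is a child of `y` with the largest number of vertices behind it, for all `y` with a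
child (the vertices behind `y` are the `x` with `dist u x = dist u y + dist y x`) -/
def MainChild {τ : Type*} (G : SimpleGraph τ) (u : τ) (h : τ → τ) : Prop :=
  ∀ y z, G.Adj y z → G.dist u z = G.dist u y + 1 → G.Adj y (h y) ∧ G.dist u (h y) = G.dist u y + 1 ∧
    {x | G.dist u x = G.dist u z + G.dist z x}.ncard ≤ {x | G.dist u x = G.dist u (h y) + G.dist (h y) x}.ncard

/-- Let `B` be the component of `G - uv` which contains `v`, and `F` the arcs. For every directed path `q 0, …, q (l + 1)` in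
`B` towards `v` there is an arc `y, z` from a vertex `y` of `B` at distance at least `5` from `v` to a child `z ≠ h y` such
that `q 0` is behind `z`, and `K` times the number of vertices behind `z` with a directed path to `z` is at most the number of
vertices behind `y` -/
def LightRuns {τ : Type*} (l K : ℕ) (F : τ → τ → Prop) (G : SimpleGraph τ) (u v : τ) (h : τ → τ) : Prop :=
  ∀ q : ℕ → τ, (∀ i ≤ l, F (q i) (q (i + 1)) ∧ G.dist v (q (i + 1)) < G.dist v (q i)) → G.dist v (q 0) < G.dist u (q 0) →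
    ∃ y z, G.dist v y < G.dist u y ∧ 5 ≤ G.dist v y ∧ F y z ∧ G.dist u z = G.dist u y + 1 ∧ z ≠ h y ∧
      K * {x | Relation.ReflTransGen (fun a b => F a b ∧ G.dist u a = G.dist u b + 1) x z}.ncard ≤
        {x | G.dist u x = G.dist u y + G.dist y x}.ncard ∧
      G.dist u (q 0) = G.dist u z + G.dist z (q 0)

/-- **The final sentence.** `{x | dist v x < dist u x}` is the component of `T - uv` which contains `v`. -/
def FreeEndLSt : Prop := ∀ (Δ l : ℕ) (θ : ℝ), 0 < θ → ∃ K C : ℕ, ∀ k n : ℕ, k + C ≤ n → ∀ R : Fin n → Fin n → Prop,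
    (∀ a, ¬ R a a) → (∀ a b, a ≠ b → R a b ∨ R b a) → (∀ a b, R a b → ¬ R b a) →
    ∀ (E : Fin (k + 1) → Fin (k + 1) → Prop) (G : SimpleGraph (Fin (k + 1))),
      (∀ a b, E a b → ¬ E b a) → G = SimpleGraph.fromRel E →
      G.IsTree → (∀ v, (G.neighborSet v).ncard ≤ Δ) →
      (∃ u v, G.Adj u v ∧ θ * k ≤ ({x | G.dist v x < G.dist u x}.ncard : ℝ) ∧
        ((∃ (p : ℕ → Fin (k + 1)) (m : ℕ), p 0 = v ∧
            (∀ i < m, G.Adj (p i) (p (i + 1)) ∧ G.dist u (p (i + 1)) = G.dist u (p i) + 1) ∧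
            ∀ x, G.dist v x < G.dist u x → ∃ i ≤ m, G.dist (p i) x ≤ l) ∨
          ∃ (F : Fin (k + 1) → Fin (k + 1) → Prop) (h : Fin (k + 1) → Fin (k + 1)), (F = E ∨ F = fun x y => E y x) ∧
            MainChild G u h ∧ LightRuns l K F G u v h)) →
      ∃ f : Fin (k + 1) → Fin n, Function.Injective f ∧ ∀ a b, E a b → R (f a) (f b)

/-- **Every oriented tree with an edge `u v` is coded, from `u`, by a forest in which the branch at `v` is one of the trees;
this tree has no long runs towards its root which do not start behind a light arc if the branch has none.** -/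
theorem graph_l {k b : ℕ} {E : Fin (k + 1) → Fin (k + 1) → Prop} (h4 : ∀ a c, E a c → ¬ E c a)
    (h5 : (SimpleGraph.fromRel E).IsTree) (h6 : ∀ v, {w | E v w ∨ E w v}.ncard ≤ b) {u v : Fin (k + 1)}
    (huv : (SimpleGraph.fromRel E).Adj u v) {hm : Fin (k + 1) → Fin (k + 1)} (hmc : MainChild (SimpleGraph.fromRel E) u hm) :
    ∃ c F : Fd, c.size = k ∧ c.len ≤ b ∧ c.Deg b ∧ (decide (E u v), F) ∈ c.trees ∧
      F.size + 1 = {x | (SimpleGraph.fromRel E).dist v x < (SimpleGraph.fromRel E).dist u x}.ncard ∧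
      (∀ l K : ℕ, LightRuns l K E (SimpleGraph.fromRel E) u v hm → FOLd b l K 5 F) ∧
      ∀ {V : Type} {R : V → V → Prop} {N : V → Prop} {X : Finset V}, In R c N X →
        ∃ f : Fin (k + 1) → V, Function.Injective f ∧ (∀ a, f a ∈ X) ∧ N (f u) ∧ ∀ a c, E a c → R (f a) (f c) := by
  obtain ⟨G, hG⟩ : ∃ G, G = SimpleGraph.fromRel E := ⟨_, rfl⟩
  rw [← hG] at h5 huv hmc ⊢
  obtain ⟨P, hPdef⟩ : ∃ P : Fin (k + 1) → Fin (k + 1) → Prop, P = fun a c => G.Adj a c ∧ G.dist u c = G.dist u a + 1 :=
    ⟨_, rfl⟩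
  have hPi : ∀ a c, P a c ↔ G.Adj a c ∧ G.dist u c = G.dist u a + 1 := fun a c => by rw [hPdef]
  have hE : ∀ a c, P a c → G.dist u a < G.dist u c := by
    intro a c h
    rw [hPi] at h
    have := h.2
    omega
  have hin : ∀ a b c, P a c → P b c → a = b := by
    intro a b c h1 h2
    rw [hPi] at h1 h2
    exact parent_unique' h5 u h1.1 h2.1 h1.2 h2.2
  have hP : ∀ a c, P a c → E a c ∨ E c a := by
    intro a c h
    rw [hPi] at h
    have h1 := h.1
    rw [hG, SimpleGraph.fromRel_adj] at h1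
    exact h1.2
  have hadj : ∀ a c, E a c → G.Adj a c := by
    intro a c hac
    rw [hG, SimpleGraph.fromRel_adj]
    refine ⟨?_, Or.inl hac⟩
    rintro rfl
    exact h4 _ _ hac hac
  have huv1 : G.dist u v = 1 := SimpleGraph.dist_eq_one_iff_adj.2 huv
  have huvP : P u v := (hPi _ _).2 ⟨huv, by rw [huv1, SimpleGraph.dist_self]⟩
  have hdesc : ∀ y x, x ∈ AE32.desc P y ↔ G.dist u x = G.dist u y + G.dist y x := by
    intro y x
    rw [AE32.mem_desc, hPdef]
    constructor
    · intro h
      exact (dist_of_desc h5 u y h).symm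
    · intro h
      exact desc_of_dist h5 u y _ x rfl h.symm
  have hdescc : ∀ y, (AE32.desc P y).card = {x | G.dist u x = G.dist u y + G.dist y x}.ncard := by
    intro y
    rw [← Set.ncard_coe_finset]
    congr 1
    ext x
    rw [mem_coe]
    exact hdesc y x
  have hreach : ∀ x, x ∈ AE32.desc P v ↔ G.dist v x < G.dist u x := by
    intro x
    rw [AE32.mem_desc, hPdef]
    have h1 : G.dist u x ≤ G.dist u v + G.dist v x := h5.connected.dist_triangle
    constructor
    · intro h
      have h2 := dist_of_desc h5 u v h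
      omega
    · intro h
      exact desc_of_dist h5 u v _ x rfl (by omega)
  have hdv : ∀ x, x ∈ AE32.desc P v → G.dist u x = G.dist v x + 1 := by
    intro x hx
    have := (hdesc v x).1 hx
    omega
  have hchild : ∀ a w, a ∈ AE32.desc P v → P a w → G.dist v w = G.dist v a + 1 := by
    intro a w ha haw
    have hw : w ∈ AE32.desc P v := AE32.mem_desc.2 ((AE32.mem_desc.1 ha).tail haw)
    have h1 := hdv a ha
    have h2 := hdv w hw
    have h3 := ((hPi _ _).1 haw).2
    omega
  have hmain : ∀ a w, P a w → P a (hm a) ∧ (AE32.desc P w).card ≤ (AE32.desc P (hm a)).card := by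
    intro a w haw
    obtain ⟨g1, g2, g3⟩ := hmc a w ((hPi _ _).1 haw).1 ((hPi _ _).1 haw).2
    exact ⟨(hPi _ _).2 ⟨g1, g2⟩, by rw [hdescc, hdescc]; exact g3⟩
  have hh : ∀ a w, P a w → P a (hm a) := fun a w h => (hmain a w h).1
  have hc := AEN.codH_cod' (E := E) (rk := fun v => G.dist u v) hE hh u
  have hFc := AEN.codH_cod' (E := E) (rk := fun v => G.dist u v) hE hh v
  have hF := AEN.mem_codH (E := E) (rk := fun v => G.dist u v) hE hh huvP
  obtain ⟨c, hcdef⟩ : ∃ c, c = AEN.codH E P hm u := ⟨_, rfl⟩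
  obtain ⟨F, hFdef⟩ : ∃ F, F = AEN.codH E P hm v := ⟨_, rfl⟩
  rw [← hcdef] at hc hF
  rw [← hFdef] at hFc hF
  have hvc := vc_of_cod (h := fun v => G.dist u v) hE hin hP h6 hc
  have hvF := vc_of_cod (h := fun v => G.dist u v) hE hin hP h6 hFc
  have hroot : AE32.desc P u = univ := by
    rw [eq_univ_iff_forall]
    intro x
    rw [AE32.mem_desc, hPdef]
    exact desc_of_dist h5 u u _ x rfl (by rw [SimpleGraph.dist_self, zero_add])
  have hsz := hvc.size
  rw [hroot, card_univ, Fintype.card_fin] at hsz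
  refine ⟨c, F, by omega, hvc.len, hvc.deg, hF, ?_, ?_, ?_⟩
  · rw [hvF.size, ← Set.ncard_coe_finset]
    congr 1
    ext x
    rw [mem_coe]
    exact hreach x
  · intro l K hL
    refine ⟨hvF.len, hvF.deg, ?_⟩
    have hkey := codes_hLd (E := E) (P := P) (rk := fun v => G.dist u v) hE hin hP h4 (L := l) (K := K) hm hmain (r₀ := v)
      (dp := fun x => G.dist v x) (g₀ := 5) hchild ?_ _ v rfl (AE32.self_mem_desc v) 0
      (AEN.wkH_zero (AE32.self_mem_desc v)) ?_
    · rw [SimpleGraph.dist_self, Nat.sub_zero, ← hFdef] at hkey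
      exact hkey
    · -- no long runs
      intro q hq hql hNL
      have hdown : ∀ s, s ≤ l + 1 → q (l + 1 - s) ∈ AE32.desc P v := by
        intro s
        induction s with
        | zero => intro _; exact hql
        | succ s ih =>
          intro hs
          have h6 := ih (by omega)
          have h7 := (hq (l + 1 - (s + 1)) (by omega)).2
          rw [show l + 1 - (s + 1) + 1 = l + 1 - s by omega] at h7
          exact AE32.mem_desc.2 ((AE32.mem_desc.1 h6).tail h7)
      have hq0 : q 0 ∈ AE32.desc P v := by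
        have := hdown (l + 1) le_rfl
        rwa [Nat.sub_self] at this
      obtain ⟨y, z, y1, y2, y3, y4, y5, y6, y7⟩ := hL q (fun i hi => ⟨(hq i hi).1, by
        have h7 := hdown (l + 1 - (i + 1)) (by omega)
        rw [show l + 1 - (l + 1 - (i + 1)) = i + 1 by omega] at h7
        have := hchild _ _ h7 (hq i hi).2
        omega⟩) ((hreach _).1 hq0)
      refine hNL y z ((hreach y).2 y1) y2 ((hPi _ _).2 ⟨hadj _ _ y3, y4⟩) y3 y5 ?_ ((hdesc z (q 0)).2 y7)
      rw [hdescc]
      refine le_trans (Nat.mul_le_mul_left _ (le_of_eq ?_)) y6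
      rw [← Set.ncard_coe_finset]
      congr 1
      ext x
      rw [mem_coe, AEY.mem_inY]
      have he : (fun a b => E a b ∧ P b a) = fun a b => E a b ∧ G.dist u a = G.dist u b + 1 := by
        funext a b
        apply propext
        rw [hPi]
        exact ⟨fun h => ⟨h.1, h.2.2⟩, fun h => ⟨h.1, (hadj _ _ h.1).symm, h.2⟩⟩
      rw [he]
      rfl
    · -- `v` is not behind a light arc
      intro y w hy _ hyw _ _ _ hvw
      have h1 := (hdesc w v).1 hvw
      have h2 := ((hPi _ _).1 hyw).2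
      have h3 := hdv y hy
      omega
  · rintro V R N X ⟨x, hx, A, hA, hxA, hN', hS⟩
    obtain ⟨f, p1, p2, p3, p4⟩ := hvc.emb hxA hS
    rw [hroot] at p2 p3 p4
    refine ⟨f, fun a b hab => p3 a (mem_univ _) b (mem_univ _) hab, fun a => ?_, by rw [p1]; exact hN', fun a c hac => ?_⟩
    · have := p2 a (mem_univ _)
      rw [mem_insert] at this
      rcases this with h | h
      · rw [h]
        exact hx
      · exact hA h
    · rcases h5.dist_eq_dist_add_one_of_adj u (hadj _ _ hac) with h | h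
      · have h1 := p4 c (mem_univ _) a ((hPi _ _).2 ⟨(hadj _ _ hac).symm, h⟩)
        have h2 : ¬ E c a := h4 _ _ hac
        simpa [Adj, h2] using h1
      · have h1 := p4 a (mem_univ _) c ((hPi _ _).2 ⟨hadj _ _ hac, h⟩)
        simpa [Adj, hac] using h1

theorem end_l (h : FELSt) (Δ l : ℕ) {θ : ℝ} (hθ : 0 < θ) : ∃ K C : ℕ, ∀ k n : ℕ, k + C ≤ n →
    ∀ R : Fin n → Fin n → Prop,
    (∀ a, ¬ R a a) → (∀ a b, a ≠ b → R a b ∨ R b a) → (∀ a b, R a b → ¬ R b a) →
    ∀ E : Fin (k + 1) → Fin (k + 1) → Prop,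
      (∀ a b, E a b → ¬ E b a) →
      (SimpleGraph.fromRel E).IsTree →
      (∀ v, ((SimpleGraph.fromRel E).neighborSet v).ncard ≤ Δ) →
      (∃ (u v : Fin (k + 1)) (h : Fin (k + 1) → Fin (k + 1)), (SimpleGraph.fromRel E).Adj u v ∧
        θ * k ≤ ({x | (SimpleGraph.fromRel E).dist v x < (SimpleGraph.fromRel E).dist u x}.ncard : ℝ) ∧
        MainChild (SimpleGraph.fromRel E) u h ∧ LightRuns l K E (SimpleGraph.fromRel E) u v h) →
      ∃ f : Fin (k + 1) → Fin n, Function.Injective f ∧ ∀ a b, E a b → R (f a) (f b) := by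
  obtain ⟨K, C, hC⟩ := h (max Δ 1) l (le_max_right _ _) (θ / 2) (by positivity)
  refine ⟨K, C + 1, ?_⟩
  rintro k n hn R h1 h2 h3 E h4 h5 h6 ⟨u, v, hm, huv, hθv, hmc, hv⟩
  have h6' : ∀ v, {w | E v w ∨ E w v}.ncard ≤ max Δ 1 := by
    intro v
    refine le_trans (le_of_eq ?_) ((h6 v).trans (le_max_left _ _))
    congr 1
    ext w
    rw [SimpleGraph.mem_neighborSet, SimpleGraph.fromRel_adj]
    constructor
    · intro h
      refine ⟨?_, h⟩
      rintro rfl
      rcases h with h | h
      · exact h4 _ _ h h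
      · exact h4 _ _ h h
    · intro h
      exact h.2
  obtain ⟨c, F, g1, g2, g3, g4, g5, g6, g8⟩ := graph_l h4 h5 h6' huv hmc
  have hk : 1 ≤ k := by
    by_contra hk
    obtain rfl : k = 0 := by omega
    have := u.isLt
    have := v.isLt
    exact huv.ne (Fin.ext (by omega))
  have hk1 : (1 : ℝ) ≤ k := by exact_mod_cast hk
  have h7 : In R c (fun _ => True) univ := by
    refine hC ⟨h1, h2, h3⟩ c F _ g2 g3 g4 (g6 l K hv) ?_ univ ?_
    · have g5' : (F.size : ℝ) + 1 =
          {x | (SimpleGraph.fromRel E).dist v x < (SimpleGraph.fromRel E).dist u x}.ncard := by exact_mod_cast g5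
      rw [g1, g5']
      refine le_trans ?_ hθv
      nlinarith
    · rw [g1, card_univ, Fintype.card_fin]
      omega
  obtain ⟨f, f1, -, -, f4⟩ := g8 h7
  exact ⟨f, f1, f4⟩

/-- **the final sentence** -/
theorem free_endL_of (h1 : ThinEndSt) (h2 : FELSt) : FreeEndLSt := by
  intro Δ l θ hθ
  obtain ⟨C₁, g1⟩ := h1 Δ l θ hθ
  obtain ⟨K, C₂, g2⟩ := end_l h2 Δ l hθ
  refine ⟨K, C₁ + C₂, ?_⟩
  rintro k n hn R a1 a2 a3 E G b1 rfl b2 b3 ⟨u, v, huv, hk, h | ⟨F, h, hF | hF, hmc, hv⟩⟩
  · exact g1 k n (by omega) R a1 a2 a3 E _ b1 rfl b2 b3 ⟨u, v, huv, hk, h⟩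
  · subst hF
    exact g2 k n (by omega) R a1 a2 a3 F b1 b2 b3 ⟨u, v, h, huv, hk, hmc, hv⟩
  · subst hF
    have he : SimpleGraph.fromRel (fun a b => E b a) = SimpleGraph.fromRel E := by
      ext a b
      rw [SimpleGraph.fromRel_adj, SimpleGraph.fromRel_adj, or_comm]
    obtain ⟨f, hf1, hf2⟩ := g2 k n (by omega) (fun a b => R b a) a1 (fun a b hab => (a2 a b hab).symm) (fun a b => a3 b a)
      (fun a b => E b a) (fun a b => b1 b a) (by rw [he]; exact b2) (by rw [he]; exact b3)
      ⟨u, v, h, by rw [he]; exact huv, by rw [he]; exact hk, by rw [he]; exact hmc, by rw [he]; exact hv⟩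
    exact ⟨f, hf1, fun a b hab => hf2 b a hab⟩

end AESY
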