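import Pool.Agent.AESF.FE3
import Pool.Agent.AESF.RootX
import Pool.Agent.AESY.Defs

/-!
# Free ends without conditions near the root: the dichotomy, on codes

A branch without long runs towards its root which hangs by an arc towards its parent is rigid, at every vertex of the tree.
-/

set_option autoImplicit false

namespace AESY

open Finset AE15 AED AEB AELT AEK AEJ AEY AEN AET AESF
open scoped Classical

theorem inR_le {l : ℕ} {F : Fd} : ∀ {j j' : ℕ}, j' ≤ j → InR l j F → InR l j' F := by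
  induction F with
  | nil => intro j j' _ _; trivial
  | node d c s ihc ihs =>
    intro j j' hj h
    refine ⟨?_, ihs hj h.2⟩
    have h1 := h.1
    cases d with
    | true =>
      simp only [if_true] at h1 ⊢
      exact h1
    | false =>
      simp only [Bool.false_eq_true, if_false] at h1 ⊢
      exact ⟨by omega, ihc (by omega) h1.2⟩

/-- the trees of a forest without long runs towards its root -/
theorem fok_any {b l : ℕ} {F : Fd} (h : FOK b l 0 F) {p : Bool × Fd} (hp : p ∈ F.trees) : FOK b l 0 p.2 := by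
  have h2 := (Fd.deg_iff b F).1 h.2.1 p hp
  exact ⟨h2.1, h2.2, inR_le (Nat.zero_le _) (h.2.2.child hp).1⟩

theorem fok_monoB {b b' l : ℕ} (hb : b ≤ b') {F : Fd} (h : FOK b l 0 F) : FOK b' l 0 F :=
  ⟨h.1.trans hb, AEK.deg_mono hb h.2.1, h.2.2⟩

/-- **rigid branches without long runs towards their roots**, at the root of the tree -/
theorem rig_fok (b l : ℕ) (hb : 1 ≤ b) {θ : ℝ} (hθ : 0 < θ) : ∃ C : ℕ, ∀ {V : Type} {R : V → V → Prop}, AE32.Tour R →
    ∀ c F : Fd, c.len ≤ b → c.Deg b → (false, F) ∈ c.trees → FOK b l 0 F → θ * (c.size + 1) ≤ (F.size + 1 : ℝ) →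
      ∀ X : Finset V, c.size + 1 + C ≤ X.card → In R c (fun _ => True) X := by
  obtain ⟨A', hM⟩ := AEN.mainSt b l hb
  obtain ⟨θ', hθ'⟩ : ∃ t : ℝ, t = min (θ / 2) (1 / 2) := ⟨_, rfl⟩
  have ht0 : 0 < θ' := by rw [hθ']; exact lt_min (by positivity) (by norm_num)
  have ht1 : θ' ≤ θ / 2 := by rw [hθ']; exact min_le_left _ _
  have ht2 : θ' ≤ 1 / 2 := by rw [hθ']; exact min_le_right _ _
  obtain ⟨ε₂, μ₂, K₂, -, -, hM⟩ := hM θ' ht0 ht2
  obtain ⟨C₂, hM⟩ := hM 0
  obtain ⟨m, hm⟩ : ∃ m : ℕ, m = ∑ i ∈ range (l + 1), b ^ i := ⟨_, rfl⟩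
  obtain ⟨B, hB⟩ := exists_nat_ge ((m : ℝ) / (θ / 2))
  have hB' : (m : ℝ) ≤ θ / 2 * B := by
    rw [div_le_iff₀ (by positivity)] at hB
    linarith
  refine ⟨C₂ + 4 * B, ?_⟩
  intro V R hT c F hl hD hF hFO hθF X hX
  have hFs : (srt F).size = F.size := (srt_eqt F).size
  have hFO' : FOK b l 0 (srt F) := ⟨by rw [(srt_eqt F).len]; exact hFO.1, (srt_eqt F).deg b hFO.2.1, srt_inR F hFO.2.2⟩
  have hsd := srt_sd F
  obtain ⟨s, hs⟩ := AER.eqt_first hF
  have he : Eqt c (.node false (srt F) s) := hs.trans ((srt_eqt F).node false s)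
  have hmem : (false, srt F) ∈ (Fd.node false (srt F) s).trees := by simp [Fd.trees]
  have hsz := he.size
  have hlen : (Fd.node false (srt F) s).len ≤ b := by rw [he.len]; exact hl
  have hdeg : (Fd.node false (srt F) s).Deg b := he.deg b hD
  suffices h : In R (.node false (srt F) s) (fun _ => True) X by
    obtain ⟨x, hx, A, hA, hxA, hN, hE⟩ := h
    exact ⟨x, hx, A, hA, hxA, trivial, he.emb hE⟩
  by_cases hsm : c.size + 1 ≤ B
  · refine AEX.un_four hT b _ hlen hdeg X ?_
    have e1 : ((c.size + 1 + (C₂ + 4 * B) : ℕ) : ℝ) ≤ X.card := by exact_mod_cast hX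
    have e2 : ((c.size + 1 : ℕ) : ℝ) ≤ B := by exact_mod_cast hsm
    rw [hsz]
    push_cast at e1 e2
    have e3 : (0 : ℝ) ≤ c.size := Nat.cast_nonneg _
    have e5 : (0 : ℝ) ≤ C₂ := Nat.cast_nonneg _
    linarith
  · push Not at hsm
    have hblk : AEB.blk (srt F) + 1 ≤ m := by
      have := hFO'.blk_le (Nat.zero_le _)
      rwa [Nat.sub_zero, ← hm] at this
    refine (hM hT le_rfl le_rfl 1).1 _ hlen hdeg (BlN.rig _ (false, srt F) (F.size - AEB.blk (srt F)) hmem ?_ ?_) X
      (by rw [hsz]; omega)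
    · refine Or.inl ⟨rfl, FX.of_fol (fol_of_fok hFO' hsd), ?_, ?_⟩
      · intro f f' hf hf' D hDm
        right
        have h2 : (true, f) ∈ (srt F).trees := hv_mem hf
        exact fol_of_fok (fok_mem (fok_mem hFO' h2 rfl) hDm rfl) ((hsd.mem h2).mem hDm)
      · have h3 : dcl (srt F) + AEB.blk (srt F) ≤ (srt F).size := AEJ.dcl_add_blk_le _
        simp only
        omega
    · rw [hsz]
      have e1 : (B : ℝ) ≤ c.size + 1 := by exact_mod_cast hsm.le
      have e2 : θ / 2 * B ≤ θ / 2 * (c.size + 1) := mul_le_mul_of_nonneg_left e1 (by positivity)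
      have e3 : θ' * ((c.size : ℝ) + 1) ≤ θ / 2 * (c.size + 1) := mul_le_mul_of_nonneg_right ht1 (by positivity)
      have e4 : (F.size : ℝ) ≤ ((F.size - AEB.blk (srt F) : ℕ) : ℝ) + AEB.blk (srt F) := by
        exact_mod_cast (by omega : F.size ≤ (F.size - AEB.blk (srt F)) + AEB.blk (srt F))
      have e5 : (AEB.blk (srt F) : ℝ) + 1 ≤ m := by exact_mod_cast hblk
      linarith

/-- **rigid branches without long runs towards their roots**, anywhere in the tree -/
theorem rig_any (b l : ℕ) (hb : 1 ≤ b) {θ : ℝ} (hθ : 0 < θ) : ∃ C : ℕ, ∀ {V : Type} {R : V → V → Prop}, AE32.Tour R →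
    ∀ (c : Fd) (d0 : Bool) (q : Bool × Fd) (m : ℕ), c.len ≤ b → c.Deg b → AESK.PtT 0 (d0, c) q m → ∀ D : Fd,
      (false, D) ∈ q.2.trees → FOK b l 0 D → θ * (c.size + 1) ≤ (D.size + 1 : ℝ) →
        ∀ X : Finset V, c.size + 1 + C ≤ X.card → In R c (fun _ => True) X := by
  obtain ⟨C, h⟩ := rig_fok (b + 1) l (by omega) hθ
  refine ⟨C, ?_⟩
  intro V R hT c d0 q m hl hD hP D hDq hDO hθD X hX
  obtain ⟨c', g1, g2, g3, g4, -, g6⟩ := reroot_in hP hl hD
  exact g6 X (h hT c' D g2 g3 (g1 _ hDq) (fok_monoB (by omega) hDO) (by rw [g4]; exact hθD) X (by rw [g4]; exact hX))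

/-- **the dichotomy** -/
theorem fey_of (h : SFYSt) : FEYSt := by
  intro b l hb θ hθ
  obtain ⟨ε, C₁, hε, h⟩ := h b l hb θ hθ
  obtain ⟨C₂, h2⟩ := rig_fok b l hb hθ
  obtain ⟨C₃, h3⟩ := rig_any b l hb (θ := ε * θ) (by positivity)
  refine ⟨C₁ + C₂ + C₃, ?_⟩
  intro V R hT c F d hl hD hF hFO hθF X hX
  cases d with
  | false => exact h2 hT c F hl hD hF hFO hθF X (by omega)
  | true =>
    -- the sorted branch
    have hFs : (srt F).size = F.size := (srt_eqt F).size
    have hFO' : FOK b l 0 (srt F) := ⟨by rw [(srt_eqt F).len]; exact hFO.1, (srt_eqt F).deg b hFO.2.1,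
      srt_inR F hFO.2.2⟩
    obtain ⟨s, hs⟩ := AER.eqt_first hF
    have he : Eqt c (.node true (srt F) s) := hs.trans ((srt_eqt F).node true s)
    have hmem : (true, srt F) ∈ (Fd.node true (srt F) s).trees := by simp [Fd.trees]
    have hsz := he.size
    have hlen : (Fd.node true (srt F) s).len ≤ b := by rw [he.len]; exact hl
    have hdeg : (Fd.node true (srt F) s).Deg b := he.deg b hD
    suffices h : In R (.node true (srt F) s) (fun _ => True) X by
      obtain ⟨x, hx, A, hA, hxA, hN, hE⟩ := h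
      exact ⟨x, hx, A, hA, hxA, trivial, he.emb hE⟩
    have hθF' : θ * ((Fd.node true (srt F) s).size + 1) ≤ ((srt F).size + 1 : ℝ) := by rw [hsz, hFs]; exact hθF
    have hX' : (Fd.node true (srt F) s).size + 1 + (C₁ + C₂ + C₃) ≤ X.card := by rw [hsz]; exact hX
    by_cases hbig : TopE (ε * ((srt F).size + 1)) (srt F)
    · exact h hT _ (srt F) hlen hdeg hmem hθF' hFO' (srt_sd F) hbig X (by omega)
    · have p0 : AESK.PtT 0 (true, Fd.node true (srt F) s) (true, Fd.node true (srt F) s) 0 := AESK.PtT.refl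
      have p1 := AESK.PtT.step _ (true, srt F) _ p0 hmem (Nat.zero_le _)
      have fin : ∀ (q : Bool × Fd) (m : ℕ), AESK.PtT 0 (true, Fd.node true (srt F) s) q m → FOK b l 0 q.2 →
          ∀ D, (false, D) ∈ q.2.trees → ε * ((srt F).size + 1) < (D.size + 1 : ℝ) →
            In R (.node true (srt F) s) (fun _ => True) X := by
        intro q m hP hq D hDq hkD
        refine h3 hT _ true q m hlen hdeg hP D hDq (fok_any hq hDq) ?_ X (by omega)
        have e1 : ε * (θ * ((Fd.node true (srt F) s).size + 1)) ≤ ε * ((srt F).size + 1) :=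
          mul_le_mul_of_nonneg_left hθF' hε.le
        linarith
      by_contra hcon
      apply hbig
      refine ⟨fun D hDF => ?_, fun G hG D hDG => ?_, fun G hG H hH D hDH => ?_⟩
      · by_contra hc
        push Not at hc
        exact hcon (fin _ _ p1 hFO' D hDF hc)
      · rw [mem_outs] at hG
        by_contra hc
        push Not at hc
        exact hcon (fin _ _ (AESK.PtT.step _ (true, G) _ p1 hG (Nat.zero_le _)) (fok_any hFO' hG) D hDG hc)
      · rw [mem_outs] at hG hH
        by_contra hc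
        push Not at hc
        exact hcon (fin _ _ (AESK.PtT.step _ (true, H) _ (AESK.PtT.step _ (true, G) _ p1 hG (Nat.zero_le _)) hH
          (Nat.zero_le _)) (fok_any (fok_any hFO' hG) hH) D hDH hc)

end AESY
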