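import Pool.Agent.AESY.FE

/-!
# Free ends without conditions near the root: from the statement with exits to the one without
-/

set_option autoImplicit false

namespace AESY

open Finset AE15 AED AEB AELT AEK AEJ AEY AEN AET AESF
open scoped Classical

theorem fok_pnd {b l : ℕ} {F : Fd} : ∀ {j : ℕ}, F.Deg b → InR l j F → ∀ D ∈ pnd F, FOK b l 0 D := by
  induction F with
  | nil => intro j _ _ D hD; simp [pnd] at hD
  | node d c s ihc ihs =>
    intro j hd h D hD
    have h1 := h.1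
    cases d with
    | true =>
      simp only [if_true] at h1
      simp only [pnd, if_true, List.mem_cons] at hD
      rcases hD with rfl | hD
      · exact ⟨hd.1, hd.2.1, h1⟩
      · exact ihs hd.2.2 h.2 D hD
    | false =>
      simp only [Bool.false_eq_true, if_false] at h1
      simp only [pnd, Bool.false_eq_true, if_false, List.mem_append] at hD
      rcases hD with hD | hD
      · exact ihc hd.2.1 h1.2 D hD
      · exact ihs hd.2.2 h.2 D hD

theorem fok_pin {b l : ℕ} {F : Fd} : ∀ {j : ℕ}, F.Deg b → InR l j F → ∀ D ∈ pin F, FOK b l 0 D := by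
  induction F with
  | nil => intro j _ _ D hD; simp [pin] at hD
  | node d c s ihc ihs =>
    intro j hd h D hD
    have h1 := h.1
    cases d with
    | true =>
      simp only [pin, if_true] at hD
      exact ihs hd.2.2 h.2 D hD
    | false =>
      simp only [Bool.false_eq_true, if_false] at h1
      simp only [pin, Bool.false_eq_true, if_false, List.mem_append] at hD
      rcases hD with hD | hD
      · exact fok_pnd hd.2.1 h1.2 D hD
      · exact ihs hd.2.2 h.2 D hD

/-- **without exits** -/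
theorem sfy_of (hX : SFXYSt) : SFYSt := by
  intro b l hb θ hθ
  obtain ⟨A₀, hA⟩ := hX b l hb
  obtain ⟨m, hm⟩ : ∃ m : ℕ, m = ∑ i ∈ range (l + 1), b ^ i := ⟨_, rfl⟩
  obtain ⟨ε₀, μ₀, ε, K₀, -, -, hε, h1⟩ := hA A₀ le_rfl (1 / 2) (by norm_num) le_rfl m θ hθ
  obtain ⟨C₁, h1⟩ := h1 ε₀ μ₀ le_rfl le_rfl K₀ le_rfl 0
  obtain ⟨B, hB⟩ := exists_nat_ge (((K₀ * m : ℕ) : ℝ) / θ)
  have hB' : ((K₀ * m : ℕ) : ℝ) ≤ θ * B := by
    rw [div_le_iff₀ hθ] at hB
    linarith
  refine ⟨ε, C₁ + 4 * B, hε, ?_⟩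
  intro V R hT c F hl hD hF hθF hFO hsd hTop X hX
  by_cases hsm : c.size + 1 ≤ B
  · refine AEX.un_four hT b _ hl hD X ?_
    have e1 : ((c.size + 1 + (C₁ + 4 * B) : ℕ) : ℝ) ≤ X.card := by exact_mod_cast hX
    have e2 : ((c.size + 1 : ℕ) : ℝ) ≤ B := by exact_mod_cast hsm
    push_cast at e1 e2
    have e3 : (0 : ℝ) ≤ c.size := Nat.cast_nonneg _
    have e4 : (0 : ℝ) ≤ C₁ := Nat.cast_nonneg _
    linarith
  · push Not at hsm
    have hbig : K₀ * m ≤ F.size + 1 := by
      have e1 : (B : ℝ) ≤ c.size + 1 := by exact_mod_cast hsm.le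
      have e2 : θ * B ≤ θ * (c.size + 1) := mul_le_mul_of_nonneg_left e1 hθ.le
      have e3 : ((K₀ * m : ℕ) : ℝ) ≤ ((F.size + 1 : ℕ) : ℝ) := by
        push_cast at hB' ⊢
        linarith
      exact_mod_cast e3
    have hblk : ∀ D : Fd, FOK b l 0 D → AEB.blk D + 1 ≤ m := by
      intro D hDO
      have := hDO.blk_le (Nat.zero_le _)
      rwa [Nat.sub_zero, ← hm] at this
    have hK : ∀ D : Fd, FOK b l 0 D → K₀ * (AEB.blk D + 1) ≤ F.size + 1 := fun D hDO =>
      (Nat.mul_le_mul_left _ (hblk D hDO)).trans hbig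
    have g1 : ∀ c ∈ outs F, FOK b l 0 c := fun c hc => fok_any hFO (mem_outs.1 hc)
    have g2 : ∀ c ∈ outs F, ∀ c' ∈ outs c, FOK b l 0 c' := fun c hc c' hc' => fok_any (g1 c hc) (mem_outs.1 hc')
    refine h1 hT c F hl hD hF hθF ⟨hTop, (Nat.le_of_succ_le (hblk F hFO)), fun c hc => Nat.le_of_succ_le (hblk c (g1 c hc)),
      fun c hc c' hc' => Nat.le_of_succ_le (hblk c' (g2 c hc c' hc')), fun D hD => hK D (fok_pin hFO.2.1 hFO.2.2 D hD),
      fun c hc D hD => hK D (fok_pin (g1 c hc).2.1 (g1 c hc).2.2 D hD),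
      fun c hc c' hc' D hD => hK D (fok_pnd (g2 c hc c' hc').2.1 (g2 c hc c' hc').2.2 D hD)⟩
      (FX.of_fol (fol_of_fok hFO hsd)) X (by omega)

end AESY
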