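import Pool.Agent.AESY.FE
import Pool.Agent.AESY.SfyOf
import Pool.Agent.AESY.FLDefs

/-!
# Free ends with light arcs, on codes

A branch of linear size in which every long run towards its root starts behind a light arc; light arcs start at distance at
least five from the root of the branch.
-/

set_option autoImplicit false

namespace AESY

open Finset AE15 AED AEB AELT AEK AEJ AEY AEN AET AESF
open scoped Classical

theorem InLd.toL {l K : ℕ} (F : Fd) : ∀ {n : ℕ} {e : Bool} {S j : ℕ}, InLd l K n e S j F → InL l K e S j F := by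
  induction F with
  | nil => intro n e S j _; trivial
  | node d c s ihc ihs =>
    intro n e S j h
    refine ⟨?_, ihs h.2.1, h.2.2⟩
    have h1 := h.1
    cases d with
    | true =>
      simp only [if_true] at h1 ⊢
      exact h1.imp (fun h => h.2) ihc
    | false =>
      simp only [Bool.false_eq_true, if_false] at h1 ⊢
      exact ⟨h1.1, ihc h1.2⟩

theorem InLd.mono_K {l K K' : ℕ} (hK : K' ≤ K) (F : Fd) : ∀ {n : ℕ} {e : Bool} {S j : ℕ}, InLd l K n e S j F →
    InLd l K' n e S j F := by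
  induction F with
  | nil => intro n e S j _; trivial
  | node d c s ihc ihs =>
    intro n e S j h
    refine ⟨?_, ihs h.2.1, h.2.2⟩
    have h1 := h.1
    cases d with
    | true =>
      simp only [if_true] at h1 ⊢
      exact h1.imp (fun h => ⟨h.1, h.2.1, (Nat.mul_le_mul_right _ hK).trans h.2.2⟩) ihc
    | false =>
      simp only [Bool.false_eq_true, if_false] at h1 ⊢
      exact ⟨h1.1, ihc h1.2⟩

theorem InLd.mono_j {l K : ℕ} (F : Fd) : ∀ {n : ℕ} {e : Bool} {S j j' : ℕ}, j' ≤ j → InLd l K n e S j F →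
    InLd l K n e S j' F := by
  induction F with
  | nil => intro n e S j j' _ _; trivial
  | node d c s ihc ihs =>
    intro n e S j j' hj h
    refine ⟨?_, ihs hj h.2.1, h.2.2⟩
    have h1 := h.1
    cases d with
    | true =>
      simp only [if_true] at h1 ⊢
      exact h1
    | false =>
      simp only [Bool.false_eq_true, if_false] at h1 ⊢
      exact ⟨by omega, ihc (by omega) h1.2⟩

theorem InLd.child {l K n S j : ℕ} {e : Bool} {F : Fd} (h : InLd l K n e S j F) {p : Bool × Fd} (hp : p ∈ F.trees) :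
    (p.1 = true → (n = 0 ∧ K * (blk p.2 + 1) ≤ S) ∨ InLd l K (n - 1) true (p.2.size + 1) 0 p.2) ∧
      (p.1 = false → j + 1 ≤ l ∧ InLd l K (n - 1) true (p.2.size + 1) (j + 1) p.2) := by
  induction F generalizing e with
  | nil => simp [Fd.trees] at hp
  | node d c s _ ihs =>
    simp only [Fd.trees, List.mem_cons] at hp
    rcases hp with rfl | hp
    · cases d with
      | true =>
        have h1 := h.1
        simp only [if_true] at h1
        exact ⟨fun _ => h1.imp (fun h => ⟨h.1, h.2.2⟩) id, by simp⟩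
      | false =>
        have h1 := h.1
        simp only [Bool.false_eq_true, if_false] at h1
        exact ⟨by simp, fun _ => h1⟩
    · exact ihs h.2.1 hp

theorem FOLd.fol {b l K n : ℕ} {F : Fd} (h : FOLd b l K n F) : FOL b l K 0 F := ⟨h.1, h.2.1, InLd.toL F h.2.2⟩

theorem FOLd.mono_K {b l K K' n : ℕ} {F : Fd} (hK : K' ≤ K) (h : FOLd b l K n F) : FOLd b l K' n F :=
  ⟨h.1, h.2.1, InLd.mono_K hK F h.2.2⟩

/-- the trees at the first levels -/
theorem FOLd.sub {b l K n : ℕ} {F : Fd} (h : FOLd b l K (n + 1) F) {p : Bool × Fd} (hp : p ∈ F.trees) :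
    FOLd b l K n p.2 := by
  obtain ⟨h4, h5⟩ := (Fd.deg_iff b F).1 h.2.1 p hp
  obtain ⟨h6, h7⟩ := h.2.2.child hp
  obtain ⟨d, D⟩ := p
  cases d with
  | true =>
    rcases h6 rfl with h8 | h8
    · exact absurd h8.1 (Nat.succ_ne_zero n)
    · exact ⟨h4, h5, h8⟩
  | false => exact ⟨h4, h5, InLd.mono_j D (Nat.zero_le _) (h7 rfl).2⟩

theorem FOLd.tame {b l K n : ℕ} {F : Fd} (h : FOLd b l K (n + 2) F) : TameR b l K F := by
  intro c c' hc _ D hD
  exact Or.inr ((h.sub (hv_mem hc)).sub hD).fol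

theorem tame_mono_K {b l K K' : ℕ} (hK : K' ≤ K) {F : Fd} (h : TameR b l K F) : TameR b l K' F :=
  fun c c' h1 h2 D hD => (h c c' h1 h2 D hD).imp id fun h => h.mono_K hK

theorem fol_monoB {b b' l K j : ℕ} (hb : b ≤ b') {F : Fd} (h : FOL b l K j F) : FOL b' l K j F :=
  ⟨h.1.trans hb, AEK.deg_mono hb h.2.1, h.2.2⟩

/-- **rigid branches with light arcs**, at the root of the tree -/
theorem rig_fol (b l : ℕ) (hb : 1 ≤ b) {θ : ℝ} (hθ : 0 < θ) : ∃ K C : ℕ, ∀ {V : Type} {R : V → V → Prop},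
    AE32.Tour R → ∀ c F : Fd, c.len ≤ b → c.Deg b → (false, F) ∈ c.trees → FOL b l K 0 F → TameR b l K F →
      θ * (c.size + 1) ≤ (F.size + 1 : ℝ) → ∀ X : Finset V, c.size + 1 + C ≤ X.card → In R c (fun _ => True) X := by
  obtain ⟨A', hM⟩ := AEN.mainSt b l hb
  obtain ⟨θ', hθ'⟩ : ∃ t : ℝ, t = min (θ / 2) (1 / 2) := ⟨_, rfl⟩
  have ht0 : 0 < θ' := by rw [hθ']; exact lt_min (by positivity) (by norm_num)
  have ht1 : θ' ≤ θ / 2 := by rw [hθ']; exact min_le_left _ _
  have ht2 : θ' ≤ 1 / 2 := by rw [hθ']; exact min_le_right _ _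
  obtain ⟨ε₂, μ₂, K₂, -, -, hM⟩ := hM θ' ht0 ht2
  obtain ⟨C₂, hM⟩ := hM 0
  obtain ⟨m, hm⟩ : ∃ m : ℕ, m = ∑ i ∈ range (l + 1), b ^ i := ⟨_, rfl⟩
  obtain ⟨B, hB⟩ := exists_nat_ge ((m : ℝ) / (θ / 2))
  have hB' : (m : ℝ) ≤ θ / 2 * B := by
    rw [div_le_iff₀ (by positivity)] at hB
    linarith
  refine ⟨K₂, C₂ + 4 * B, ?_⟩
  intro V R hT c F hl hD hF hFO hta hθF X hX
  by_cases hsm : c.size + 1 ≤ B
  · refine AEX.un_four hT b _ hl hD X ?_
    have e1 : ((c.size + 1 + (C₂ + 4 * B) : ℕ) : ℝ) ≤ X.card := by exact_mod_cast hX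
    have e2 : ((c.size + 1 : ℕ) : ℝ) ≤ B := by exact_mod_cast hsm
    push_cast at e1 e2
    have e3 : (0 : ℝ) ≤ c.size := Nat.cast_nonneg _
    have e5 : (0 : ℝ) ≤ C₂ := Nat.cast_nonneg _
    linarith
  · push Not at hsm
    have hblk : AEB.blk F + 1 ≤ m := by
      have := hFO.blk_le (Nat.zero_le _)
      rwa [Nat.sub_zero, ← hm] at this
    refine (hM hT le_rfl le_rfl 1).1 _ hl hD (BlN.rig _ (false, F) (F.size - AEB.blk F) hF ?_ ?_) X (by omega)
    · refine Or.inl ⟨rfl, FX.of_fol hFO, hta, ?_⟩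
      have h3 : dcl F + AEB.blk F ≤ F.size := AEJ.dcl_add_blk_le _
      simp only
      omega
    · have e1 : (B : ℝ) ≤ c.size + 1 := by exact_mod_cast hsm.le
      have e2 : θ / 2 * B ≤ θ / 2 * (c.size + 1) := mul_le_mul_of_nonneg_left e1 (by positivity)
      have e3 : θ' * ((c.size : ℝ) + 1) ≤ θ / 2 * (c.size + 1) := mul_le_mul_of_nonneg_right ht1 (by positivity)
      have e4 : (F.size : ℝ) ≤ ((F.size - AEB.blk F : ℕ) : ℝ) + AEB.blk F := by
        exact_mod_cast (by omega : F.size ≤ (F.size - AEB.blk F) + AEB.blk F)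
      have e5 : (AEB.blk F : ℝ) + 1 ≤ m := by exact_mod_cast hblk
      linarith

/-- **rigid branches with light arcs**, anywhere in the tree -/
theorem rig_folA (b l : ℕ) (hb : 1 ≤ b) {θ : ℝ} (hθ : 0 < θ) : ∃ K C : ℕ, ∀ {V : Type} {R : V → V → Prop},
    AE32.Tour R → ∀ (c : Fd) (d0 : Bool) (q : Bool × Fd) (m : ℕ), c.len ≤ b → c.Deg b →
      AESK.PtT 0 (d0, c) q m → ∀ D : Fd, (false, D) ∈ q.2.trees → FOL b l K 0 D → TameR b l K D →
        θ * (c.size + 1) ≤ (D.size + 1 : ℝ) → ∀ X : Finset V, c.size + 1 + C ≤ X.card → In R c (fun _ => True) X := by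
  obtain ⟨K, C, h⟩ := rig_fol (b + 1) l (by omega) hθ
  refine ⟨K, C, ?_⟩
  intro V R hT c d0 q m hl hD hP D hDq hDO hta hθD X hX
  obtain ⟨c', g1, g2, g3, g4, -, g6⟩ := reroot_in hP hl hD
  exact g6 X (h hT c' D g2 g3 (g1 _ hDq) (fol_monoB (by omega) hDO)
    (fun e e' h1 h2 E hE => (hta e e' h1 h2 E hE).imp id (fol_monoB (by omega))) (by rw [g4]; exact hθD) X
    (by rw [g4]; exact hX))

theorem pnd_lt {b l K N : ℕ} {F : Fd} : ∀ {e : Bool} {S j : ℕ}, F.Deg b → InL l K e S j F → S ≤ N → F.size ≤ N →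
    ∀ D ∈ pnd F, K * (blk D + 1) ≤ N ∨ FOL b l K 0 D := by
  induction F with
  | nil => intro e S j _ _ _ _ D hD; simp [pnd] at hD
  | node d c s ihc ihs =>
    intro e S j hd h hS hF D hD
    have h1 := h.1
    simp only [Fd.size] at hF
    cases d with
    | true =>
      simp only [if_true] at h1
      simp only [pnd, if_true, List.mem_cons] at hD
      rcases hD with rfl | hD
      · rcases h1 with h1 | h1
        · exact Or.inl (h1.2.trans hS)
        · exact Or.inr ⟨hd.1, hd.2.1, h1⟩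
      · exact ihs hd.2.2 h.2.1 hS (by omega) D hD
    | false =>
      simp only [Bool.false_eq_true, if_false] at h1
      simp only [pnd, Bool.false_eq_true, if_false, List.mem_append] at hD
      rcases hD with hD | hD
      · exact ihc hd.2.1 h1.2 (by omega) (by omega) D hD
      · exact ihs hd.2.2 h.2.1 hS (by omega) D hD

theorem pin_sub_pnd {F D : Fd} (h : D ∈ pin F) : D ∈ pnd F := by
  induction F with
  | nil => simp [pin] at h
  | node d c s _ ihs =>
    cases d with
    | true =>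
      simp only [pin, if_true] at h
      simp only [pnd, if_true, List.mem_cons]
      exact Or.inr (ihs h)
    | false =>
      simp only [pin, Bool.false_eq_true, if_false, List.mem_append] at h
      simp only [pnd, Bool.false_eq_true, if_false, List.mem_append]
      exact h.imp id ihs

/-- **free ends with light arcs, on codes** -/
theorem fel_of (hX : SFXYSt) : FELSt := by
  intro b l hb θ hθ
  obtain ⟨A₀, hA⟩ := hX b l hb
  obtain ⟨m, hm⟩ : ∃ m : ℕ, m = ∑ i ∈ range (l + 1), b ^ i := ⟨_, rfl⟩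
  obtain ⟨ε₀, μ₀, ε, K₀, -, -, hε, h1⟩ := hA A₀ le_rfl (1 / 2) (by norm_num) le_rfl m θ hθ
  obtain ⟨K₂, C₂, h2⟩ := rig_fol b l hb hθ
  obtain ⟨K₃, C₃, h3⟩ := rig_folA b l hb (θ := ε * θ) (by positivity)
  obtain ⟨K, hK⟩ : ∃ K : ℕ, K = max K₀ (max K₂ K₃) := ⟨_, rfl⟩
  have hK0 : K₀ ≤ K := by rw [hK]; exact le_max_left _ _
  have hK2 : K₂ ≤ K := by rw [hK]; exact (le_max_left _ _).trans (le_max_right _ _)
  have hK3 : K₃ ≤ K := by rw [hK]; exact (le_max_right _ _).trans (le_max_right _ _)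
  obtain ⟨C₁, h1⟩ := h1 ε₀ μ₀ le_rfl le_rfl K hK0 0
  obtain ⟨B, hB⟩ := exists_nat_ge (((K * m : ℕ) : ℝ) / θ)
  have hB' : ((K * m : ℕ) : ℝ) ≤ θ * B := by
    rw [div_le_iff₀ hθ] at hB
    linarith
  refine ⟨K, C₁ + C₂ + C₃ + 4 * B, ?_⟩
  intro V R hT c F d hl hD hF hFO hθF X hX
  cases d with
  | false => exact h2 hT c F hl hD hF (hFO.fol.mono_K hK2) (tame_mono_K hK2 hFO.tame) hθF X (by omega)
  | true =>
    by_cases hsm : c.size + 1 ≤ B
    · refine AEX.un_four hT b _ hl hD X ?_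
      have e1 : ((c.size + 1 + (C₁ + C₂ + C₃ + 4 * B) : ℕ) : ℝ) ≤ X.card := by exact_mod_cast hX
      have e2 : ((c.size + 1 : ℕ) : ℝ) ≤ B := by exact_mod_cast hsm
      push_cast at e1 e2
      have e3 : (0 : ℝ) ≤ c.size := Nat.cast_nonneg _
      have e4 : (0 : ℝ) ≤ C₁ := Nat.cast_nonneg _
      have e5 : (0 : ℝ) ≤ C₂ := Nat.cast_nonneg _
      have e6 : (0 : ℝ) ≤ C₃ := Nat.cast_nonneg _
      linarith
    push Not at hsm
    have hbig : K * m ≤ F.size + 1 := by
      have e1 : (B : ℝ) ≤ c.size + 1 := by exact_mod_cast hsm.le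
      have e2 : θ * B ≤ θ * (c.size + 1) := mul_le_mul_of_nonneg_left e1 hθ.le
      have e3 : ((K * m : ℕ) : ℝ) ≤ ((F.size + 1 : ℕ) : ℝ) := by
        push_cast at hB' ⊢
        linarith
      exact_mod_cast e3
    by_cases htop : TopE (ε * (F.size + 1)) F
    · -- small branches towards the first levels
      have hsz : ∀ G : Fd, ∀ e ∈ outs G, e.size + 1 ≤ G.size := by
        intro G e he
        exact size_lt_of_mem (mem_outs.1 he)
      have hb' : ∀ {G : Fd} {n : ℕ}, FOLd b l K n G → AEB.blk G ≤ m := by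
        intro G n hG
        have := hG.fol.blk_le (Nat.zero_le _)
        rw [Nat.sub_zero, ← hm] at this
        omega
      have hlt : ∀ {G : Fd} {n : ℕ}, FOLd b l K n G → G.size ≤ F.size → ∀ D ∈ pnd G, K * (AEB.blk D + 1) ≤ F.size + 1 := by
        intro G n hG hGF D hDG
        rcases pnd_lt hG.2.1 (InLd.toL G hG.2.2) (N := F.size + 1) (by omega) (by omega) D hDG with h | h
        · exact h
        · have h4 := h.blk_le (Nat.zero_le _)
          rw [Nat.sub_zero, ← hm] at h4
          exact (Nat.mul_le_mul_left _ h4).trans hbig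
      refine h1 hT c F hl hD hF hθF ⟨htop, hb' hFO, fun e he => ?_, fun e he e' he' => ?_, fun D hDp => ?_,
        fun e he D hDp => ?_, fun e he e' he' D hDp => ?_⟩ (FX.of_fol hFO.fol) X (by omega)
      · exact hb' (hFO.sub (mem_outs.1 he))
      · exact hb' ((hFO.sub (mem_outs.1 he)).sub (mem_outs.1 he'))
      · exact hlt hFO le_rfl D (pin_sub_pnd hDp)
      · have g1 := hsz F e he
        have g3 : e.size ≤ F.size := by omega
        exact hlt (hFO.sub (mem_outs.1 he)) g3 D (pin_sub_pnd hDp)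
      · have g1 := hsz F e he
        have g2 := hsz e e' he'
        have g3 : e'.size ≤ F.size := by omega
        exact hlt ((hFO.sub (mem_outs.1 he)).sub (mem_outs.1 he')) g3 D hDp
    · -- a large branch towards one of the first vertices
      have p0 : AESK.PtT 0 (true, c) (true, c) 0 := AESK.PtT.refl
      have p1 := AESK.PtT.step _ (true, F) _ p0 hF (Nat.zero_le _)
      have fin : ∀ (q : Bool × Fd) (k n : ℕ), AESK.PtT 0 (true, c) q k → FOLd b l K (n + 3) q.2 →
          ∀ D, (false, D) ∈ q.2.trees → ε * (F.size + 1) < (D.size + 1 : ℝ) → In R c (fun _ => True) X := by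
        intro q k n hP hq D hDq hkD
        have hDO : FOLd b l K (n + 2) D := hq.sub hDq
        refine h3 hT c true q k hl hD hP D hDq (hDO.fol.mono_K hK3) (tame_mono_K hK3 hDO.tame) ?_ X (by omega)
        have e1 : ε * (θ * ((c.size : ℝ) + 1)) ≤ ε * (F.size + 1) := mul_le_mul_of_nonneg_left hθF hε.le
        linarith
      by_contra hcon
      apply htop
      refine ⟨fun D hDF => ?_, fun G hG D hDG => ?_, fun G hG H hH D hDH => ?_⟩
      · by_contra hc
        push Not at hc
        exact hcon (fin _ _ 2 p1 hFO D hDF hc)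
      · rw [mem_outs] at hG
        by_contra hc
        push Not at hc
        exact hcon (fin _ _ 1 (AESK.PtT.step _ (true, G) _ p1 hG (Nat.zero_le _)) (hFO.sub hG) D hDG hc)
      · rw [mem_outs] at hG hH
        by_contra hc
        push Not at hc
        exact hcon (fin _ _ 0 (AESK.PtT.step _ (true, H) _ (AESK.PtT.step _ (true, G) _ p1 hG (Nat.zero_le _)) hH
          (Nat.zero_le _)) ((hFO.sub hG).sub hH) D hDH hc)

end AESY
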