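import Pool.Agent.AESY.SpnC
import Pool.Agent.AESF.GraphB

/-!
# Branches of oriented trees in which all long runs meet one path: the code
-/

set_option autoImplicit false
set_option linter.unusedSectionVars false

namespace AESY

open Finset Relation AE15 AED AEB AELT AEK AEJ AESF
open scoped Classical

section

variable {τ : Type*} [Fintype τ] {E P : τ → τ → Prop}

/-- the runs towards the root which stay in the set `T`, except possibly for their last vertex, are short -/
theorem inR_run (hP : ∀ a c, P a c → E a c ∨ E c a) {l : ℕ} {T : τ → Prop} (hT : ∀ a c, T a → P a c → T c)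
    (hno : ∀ q : ℕ → τ, (∀ i ≤ l, E (q i) (q (i + 1)) ∧ P (q (i + 1)) (q i)) → ¬ ∀ i ≤ l, T (q i)) :
    ∀ (F : Fd) (a : τ) (L : List τ) (j : ℕ) (q : ℕ → τ), CodL E P a L F → (∀ w ∈ L, P a w ∧ T w) → q 0 = a →
      (∀ i < j, E (q i) (q (i + 1)) ∧ P (q (i + 1)) (q i)) → (∀ i < j, T (q i)) → j ≤ l → InR l j F
  | .nil, _, _, _, _, _, _, _, _, _, _ => trivial
  | .node d c s, a, [], _, _, h, _, _, _, _, _ => by simp [CodL] at h
  | .node d c s, a, w :: L, j, q, h, hl, hq0, hq, hqT, hjl => by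
    obtain ⟨h1, ⟨l', h2, h3, h4⟩, h5⟩ := h
    obtain ⟨hw, hTw⟩ := hl w List.mem_cons_self
    have hl' : ∀ u ∈ l', P w u ∧ T u := fun u hu => ⟨(h3 u).1 hu, hT w u hTw ((h3 u).1 hu)⟩
    refine ⟨?_, inR_run hP hT hno s a L j q h5 (fun u hu => hl u (List.mem_cons_of_mem _ hu)) hq0 hq hqT hjl⟩
    by_cases hE : E a w
    · have hd : d = true := by
        rw [h1]
        exact decide_eq_true hE
      subst hd
      simp only [if_true]
      exact inR_run hP hT hno c w l' 0 (fun _ => w) h4 hl' rfl (fun i hi => absurd hi (Nat.not_lt_zero i))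
        (fun i hi => absurd hi (Nat.not_lt_zero i)) (Nat.zero_le _)
    · have hd : d = false := by
        rw [h1]
        exact decide_eq_false hE
      subst hd
      simp only [Bool.false_eq_true, if_false]
      have hEw : E w a := (hP a w hw).resolve_left hE
      have hq' : ∀ i < j + 1, E ((fun i => if i = 0 then w else q (i - 1)) i)
          ((fun i => if i = 0 then w else q (i - 1)) (i + 1)) ∧
          P ((fun i => if i = 0 then w else q (i - 1)) (i + 1)) ((fun i => if i = 0 then w else q (i - 1)) i) := by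
        intro i hi
        cases i with
        | zero =>
          simp only [if_true, Nat.zero_add, one_ne_zero, if_false, Nat.sub_self, hq0]
          exact ⟨hEw, hw⟩
        | succ i =>
          simp only [Nat.succ_ne_zero, if_false, Nat.add_sub_cancel]
          exact hq i (by omega)
      have hqT' : ∀ i < j + 1, T ((fun i => if i = 0 then w else q (i - 1)) i) := by
        intro i hi
        cases i with
        | zero =>
          simp only [if_true]
          exact hTw
        | succ i =>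
          simp only [Nat.succ_ne_zero, if_false, Nat.add_sub_cancel]
          exact hqT i (by omega)
      have hj : j + 1 ≤ l := by
        by_contra hc
        obtain rfl : j = l := by omega
        exact hno (fun i => if i = 0 then w else q (i - 1)) (fun i hi => hq' i (by omega)) (fun i hi => hqT' i (by omega))
      exact ⟨hj, inR_run hP hT hno c w l' (j + 1) (fun i => if i = 0 then w else q (i - 1)) h4 hl' rfl hq' hqT' hj⟩

/-- the code of the reversed tree -/
theorem codL_mrr (hP : ∀ a c, P a c → E a c ∨ E c a) (h4 : ∀ a c, E a c → ¬ E c a) :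
    ∀ (F : Fd) (a : τ) (L : List τ), CodL E P a L F → (∀ w ∈ L, P a w) →
      CodL (fun x y => E y x) P a L (mrr F)
  | .nil, _, [], _, _ => trivial
  | .nil, _, _ :: _, h, _ => by simp [CodL] at h
  | .node d c s, _, [], h, _ => by simp [CodL] at h
  | .node d c s, a, w :: L, h, hl => by
    obtain ⟨h1, ⟨l', h2, h3, h4'⟩, h5⟩ := h
    refine ⟨?_, ⟨l', h2, h3, codL_mrr hP h4 c w l' h4' (fun u hu => (h3 u).1 hu)⟩,
      codL_mrr hP h4 s a L h5 (fun u hu => hl u (List.mem_cons_of_mem _ hu))⟩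
    rw [h1]
    rcases hP a w (hl w List.mem_cons_self) with h | h
    · simp [h, h4 _ _ h]
    · simp [h, h4 _ _ h]

theorem cod_mrr (hP : ∀ a c, P a c → E a c ∨ E c a) (h4 : ∀ a c, E a c → ¬ E c a) {a : τ} {F : Fd} (h : Cod E P a F) :
    Cod (fun x y => E y x) P a (mrr F) := by
  obtain ⟨L, h1, h2, h3⟩ := h
  exact ⟨L, h1, h2, codL_mrr hP h4 F a L h3 (fun w hw => (h2 w).1 hw)⟩

/-- the trees of a coded forest, one of them first -/
theorem codL_perm {a w : τ} : ∀ (L : List τ) (F : Fd), CodL E P a L F → L.Nodup → w ∈ L →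
    ∃ c L', F.trees.Perm ((decide (E a w), c) :: L') ∧ Cod E P w c ∧
      ∀ q ∈ L', ∃ w' ∈ L, w' ≠ w ∧ q.1 = decide (E a w') ∧ Cod E P w' q.2
  | [], _, _, _, hw => absurd hw (by simp)
  | u :: L, .nil, h, _, _ => by simp [CodL] at h
  | u :: L, .node d c s, h, hL, hw => by
    obtain ⟨h1, h2, h5⟩ := h
    rw [List.nodup_cons] at hL
    by_cases huw : w = u
    · subst huw
      refine ⟨c, s.trees, by rw [Fd.trees, h1], h2, ?_⟩
      intro q hq
      obtain ⟨w', g1, g2, g3⟩ := codL_trees s a L h5 q hq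
      exact ⟨w', List.mem_cons_of_mem _ g1, fun h => hL.1 (h ▸ g1), g2, g3⟩
    · have hw' : w ∈ L := (List.mem_cons.1 hw).resolve_left huw
      obtain ⟨c', L', g1, g2, g3⟩ := codL_perm L s h5 hL.2 hw'
      refine ⟨c', (d, c) :: L', ?_, g2, ?_⟩
      · rw [Fd.trees]
        exact (g1.cons _).trans (List.Perm.swap _ _ _)
      · intro q hq
        rcases List.mem_cons.1 hq with rfl | hq
        · exact ⟨u, List.mem_cons_self, fun h => huw h.symm, h1, h2⟩
        · obtain ⟨w', e1, e2⟩ := g3 q hq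
          exact ⟨w', List.mem_cons_of_mem _ e1, e2⟩

theorem cod_perm {a w : τ} {F : Fd} (h : Cod E P a F) (hw : P a w) :
    ∃ c L', F.trees.Perm ((decide (E a w), c) :: L') ∧ Cod E P w c ∧
      ∀ q ∈ L', ∃ w', P a w' ∧ w' ≠ w ∧ q.1 = decide (E a w') ∧ Cod E P w' q.2 := by
  obtain ⟨L, h1, h2, h3⟩ := h
  obtain ⟨c, L', g1, g2, g3⟩ := codL_perm L F h3 h1 ((h2 w).2 hw)
  refine ⟨c, L', g1, g2, fun q hq => ?_⟩
  obtain ⟨w', e1, e2⟩ := g3 q hq
  exact ⟨w', (h2 w').1 e1, e2⟩

/-- a branch which stays in `T` has bounded runs -/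
theorem rbq_of (hP : ∀ a c, P a c → E a c ∨ E c a) (h4 : ∀ a c, E a c → ¬ E c a) {l : ℕ} {T : τ → Prop}
    (hT : ∀ a c, T a → P a c → T c)
    (hno : ∀ F : τ → τ → Prop, (F = E ∨ F = fun x y => E y x) → ∀ q : ℕ → τ,
      (∀ i ≤ l, F (q i) (q (i + 1)) ∧ P (q (i + 1)) (q i)) → ¬ ∀ i ≤ l, T (q i))
    {a w : τ} (hw : P a w) (hTw : T w) {c : Fd} (hc : Cod E P w c) : RBq l (decide (E a w), c) := by
  have h1 : CodL E P a [w] (.node (decide (E a w)) c .nil) := ⟨rfl, hc, trivial⟩
  have h2 := codL_mrr hP h4 _ _ _ h1 (fun x hx => by rw [List.mem_singleton.1 hx]; exact hw)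
  have hl : ∀ x ∈ [w], P a x ∧ T x := fun x hx => by rw [List.mem_singleton.1 hx]; exact ⟨hw, hTw⟩
  refine ⟨?_, ?_⟩
  · exact inR_run hP hT (hno E (Or.inl rfl)) _ a [w] 0 (fun _ => a) h1 hl rfl (fun i hi => absurd hi (Nat.not_lt_zero i))
      (fun i hi => absurd hi (Nat.not_lt_zero i)) (Nat.zero_le _)
  · exact inR_run (fun x y h => (hP x y h).symm) hT (hno _ (Or.inr rfl)) _ a [w] 0 (fun _ => a) h2 hl rfl
      (fun i hi => absurd hi (Nat.not_lt_zero i)) (fun i hi => absurd hi (Nat.not_lt_zero i)) (Nat.zero_le _)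

/-- **the code of a branch in which all long runs meet the path `p`** -/
theorem spine_cod {h : τ → ℕ} (hE : ∀ a b, P a b → h a < h b) (hin : ∀ a b c, P a c → P b c → a = b)
    (hP : ∀ a c, P a c → E a c ∨ E c a) (h4 : ∀ a c, E a c → ¬ E c a) {l m : ℕ} {p : ℕ → τ}
    (hp : ∀ i < m, P (p i) (p (i + 1)))
    (hno : ∀ F : τ → τ → Prop, (F = E ∨ F = fun x y => E y x) → ∀ q : ℕ → τ,
      (∀ i ≤ l, F (q i) (q (i + 1)) ∧ P (q (i + 1)) (q i)) → ¬ ∀ i ≤ l, q i ∈ AE32.desc P (p 0) ∧ ∀ j ≤ m, q i ≠ p j)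
    {F : Fd} (hF : Cod E P (p 0) F) : SP l F := by
  have hpp : ∀ n i, i + n ≤ m → ReflTransGen P (p i) (p (i + n)) := by
    intro n
    induction n with
    | zero => intro i _; exact ReflTransGen.refl
    | succ n ih => intro i hi; exact (ih i (by omega)).tail (hp (i + n) (by omega))
  have hle : ∀ a x, x ∈ AE32.desc P a → h a ≤ h x := by
    intro a x hx
    rw [AE32.mem_desc] at hx
    induction hx with
    | refl => exact le_rfl
    | tail _ h2 ih => exact ih.trans (hE _ _ h2).le
  have hmono : ∀ n i, i + n ≤ m → h (p i) + n ≤ h (p (i + n)) := by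
    intro n
    induction n with
    | zero => intro i _; exact le_rfl
    | succ n ih =>
      intro i hi
      have h1 := ih i (by omega)
      have h2 := hE _ _ (hp (i + n) (by omega))
      rw [show i + (n + 1) = i + n + 1 by omega]
      omega
  have hinj : ∀ i j, i ≤ m → j ≤ m → p i = p j → i = j := by
    intro i j hi hj hij
    rcases le_total i j with h1 | h1
    · have h2 := hmono (j - i) i (by omega)
      rw [show i + (j - i) = j by omega, hij] at h2
      omega
    · have h2 := hmono (i - j) j (by omega)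
      rw [show j + (i - j) = i by omega, hij] at h2
      omega
  have h0 : ∀ i ≤ m, p i ∈ AE32.desc P (p 0) := by
    intro i hi
    have := hpp i 0 (by omega)
    rw [Nat.zero_add] at this
    exact AE32.mem_desc.2 this
  -- the parents of the vertices of the path
  have hpar : ∀ a j, a ∈ AE32.desc P (p 0) → j ≤ m → P a (p j) → ∃ j', j = j' + 1 ∧ a = p j' := by
    intro a j ha hj haj
    cases j with
    | zero =>
      have h1 := hle _ _ ha
      have h2 := hE _ _ haj
      omega
    | succ j => exact ⟨j, rfl, hin _ _ _ haj (hp j (by omega))⟩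
  have hT : ∀ a c, (a ∈ AE32.desc P (p 0) ∧ ∀ j ≤ m, a ≠ p j) → P a c → (c ∈ AE32.desc P (p 0) ∧ ∀ j ≤ m, c ≠ p j) := by
    rintro a c ⟨h1, h2⟩ hac
    refine ⟨AE32.mem_desc.2 ((AE32.mem_desc.1 h1).tail hac), ?_⟩
    rintro j hj rfl
    obtain ⟨j', rfl, h3⟩ := hpar a j h1 hj hac
    exact h2 j' (by omega) h3
  have main : ∀ n i, i + n = m → ∀ F : Fd, Cod E P (p i) F → SP l F := by
    intro n
    induction n with
    | zero =>
      intro i hi F hF
      refine SP.rb F fun q hq => ?_
      obtain ⟨w, w1, w2, w3⟩ := cod_trees hF hq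
      have hTw : w ∈ AE32.desc P (p 0) ∧ ∀ j ≤ m, w ≠ p j := by
        refine ⟨AE32.mem_desc.2 ((AE32.mem_desc.1 (h0 i (by omega))).tail w1), ?_⟩
        rintro j hj rfl
        obtain ⟨j', rfl, h3⟩ := hpar _ j (h0 i (by omega)) hj w1
        have := hinj i j' (by omega) (by omega) h3
        omega
      have := rbq_of hP h4 hT hno w1 hTw w3
      rw [← w2] at this
      exact this
    | succ n ih =>
      intro i hi F hF
      obtain ⟨c, L', g1, g2, g3⟩ := cod_perm hF (hp i (by omega))
      refine SP.step F _ L' g1 (fun q hq => ?_) (ih (i + 1) (by omega) c g2)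
      obtain ⟨w, w1, w2, w3, w4⟩ := g3 q hq
      have hTw : w ∈ AE32.desc P (p 0) ∧ ∀ j ≤ m, w ≠ p j := by
        refine ⟨AE32.mem_desc.2 ((AE32.mem_desc.1 (h0 i (by omega))).tail w1), ?_⟩
        rintro j hj rfl
        obtain ⟨j', rfl, h3⟩ := hpar _ j (h0 i (by omega)) hj w1
        have := hinj i j' (by omega) (by omega) h3
        subst this
        exact w2 rfl
      have := rbq_of hP h4 hT hno w1 hTw w4
      rw [← w3] at this
      exact this
  exact main m 0 (by omega) F hF

end

/-- **Every oriented tree with an edge `u v` such that, in the branch behind it, all long runs meet a path which starts at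
`v` is coded, from `u`, by a forest in which the branch at `v` is one of the trees; this tree has a spine.** -/
theorem graph_spine {k b l : ℕ} {E : Fin (k + 1) → Fin (k + 1) → Prop} (h4 : ∀ a c, E a c → ¬ E c a)
    (h5 : (SimpleGraph.fromRel E).IsTree) (h6 : ∀ v, {w | E v w ∨ E w v}.ncard ≤ b) {u v : Fin (k + 1)}
    (huv : (SimpleGraph.fromRel E).Adj u v) {p : ℕ → Fin (k + 1)} {m : ℕ} (hp0 : p 0 = v)
    (hp : ∀ i < m, (SimpleGraph.fromRel E).Adj (p i) (p (i + 1)) ∧
      (SimpleGraph.fromRel E).dist u (p (i + 1)) = (SimpleGraph.fromRel E).dist u (p i) + 1)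
    (hno : ∀ F : Fin (k + 1) → Fin (k + 1) → Prop, (F = E ∨ F = fun x y => E y x) → ∀ q : ℕ → Fin (k + 1),
      (∀ i ≤ l, F (q i) (q (i + 1)) ∧ (SimpleGraph.fromRel E).dist v (q (i + 1)) < (SimpleGraph.fromRel E).dist v (q i) ∧
        ∀ j ≤ m, q i ≠ p j) →
      ¬ (SimpleGraph.fromRel E).dist v (q 0) < (SimpleGraph.fromRel E).dist u (q 0)) :
    ∃ c F : Fd, c.size = k ∧ c.len ≤ b ∧ c.Deg b ∧ (decide (E u v), F) ∈ c.trees ∧
      F.size + 1 = {x | (SimpleGraph.fromRel E).dist v x < (SimpleGraph.fromRel E).dist u x}.ncard ∧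
      SP l F ∧
      ∀ {V : Type} {R : V → V → Prop} {N : V → Prop} {X : Finset V}, In R c N X →
        ∃ f : Fin (k + 1) → V, Function.Injective f ∧ (∀ a, f a ∈ X) ∧ N (f u) ∧ ∀ a c, E a c → R (f a) (f c) := by
  obtain ⟨G, hG⟩ : ∃ G, G = SimpleGraph.fromRel E := ⟨_, rfl⟩
  rw [← hG] at h5 huv hp hno ⊢
  obtain ⟨P, hPdef⟩ : ∃ P : Fin (k + 1) → Fin (k + 1) → Prop, P = fun a c => G.Adj a c ∧ G.dist u c = G.dist u a + 1 :=
    ⟨_, rfl⟩
  have hPi : ∀ a c, P a c ↔ G.Adj a c ∧ G.dist u c = G.dist u a + 1 := fun a c => by rw [hPdef]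
  have hE : ∀ a c, P a c → G.dist u a < G.dist u c := by
    intro a c h
    rw [hPi] at h
    have := h.2
    omega
  have hin : ∀ a b c, P a c → P b c → a = b := by
    intro a b c h1 h2
    rw [hPi] at h1 h2
    exact parent_unique' h5 u h1.1 h2.1 h1.2 h2.2
  have hP : ∀ a c, P a c → E a c ∨ E c a := by
    intro a c h
    rw [hPi] at h
    have h1 := h.1
    rw [hG, SimpleGraph.fromRel_adj] at h1
    exact h1.2
  have hadj : ∀ a c, E a c → G.Adj a c := by
    intro a c hac
    rw [hG, SimpleGraph.fromRel_adj]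
    refine ⟨?_, Or.inl hac⟩
    rintro rfl
    exact h4 _ _ hac hac
  have huv1 : G.dist u v = 1 := SimpleGraph.dist_eq_one_iff_adj.2 huv
  have huvP : P u v := (hPi _ _).2 ⟨huv, by rw [huv1, SimpleGraph.dist_self]⟩
  have hdesc : ∀ x, x ∈ AE32.desc P v → G.dist u x = G.dist v x + 1 := by
    intro x hx
    rw [AE32.mem_desc, hPdef] at hx
    have h2 := dist_of_desc h5 u v hx
    omega
  have hreach : ∀ x, x ∈ AE32.desc P v ↔ G.dist v x < G.dist u x := by
    intro x
    rw [AE32.mem_desc, hPdef]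
    have h1 : G.dist u x ≤ G.dist u v + G.dist v x := h5.connected.dist_triangle
    constructor
    · intro h
      have h2 := dist_of_desc h5 u v h
      omega
    · intro h
      exact desc_of_dist h5 u v _ x rfl (by omega)
  obtain ⟨c, hc⟩ := exists_cod (E := E) (h := fun v => G.dist u v) hE _ u rfl
  obtain ⟨F, hF, hFc⟩ := cod_mem hc huvP
  have hvc := vc_of_cod (h := fun v => G.dist u v) hE hin hP h6 hc
  have hvF := vc_of_cod (h := fun v => G.dist u v) hE hin hP h6 hFc
  have hroot : AE32.desc P u = univ := by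
    rw [eq_univ_iff_forall]
    intro x
    rw [AE32.mem_desc, hPdef]
    exact desc_of_dist h5 u u _ x rfl (by rw [SimpleGraph.dist_self, zero_add])
  have hsz := hvc.size
  rw [hroot, card_univ, Fintype.card_fin] at hsz
  refine ⟨c, F, by omega, hvc.len, hvc.deg, hF, ?_, ?_, ?_⟩
  · rw [hvF.size, ← Set.ncard_coe_finset]
    congr 1
    ext x
    rw [mem_coe]
    exact hreach x
  · refine spine_cod (h := fun v => G.dist u v) hE hin hP h4 (m := m) (fun i hi => (hPi _ _).2 (hp i hi)) ?_
      (by rw [hp0]; exact hFc)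
    intro F' hF' q hq hqT
    rw [hp0] at hqT
    refine hno F' hF' q (fun i hi => ⟨(hq i hi).1, ?_, (hqT i hi).2⟩) ((hreach _).1 (hqT 0 (Nat.zero_le _)).1)
    have h1 := (hq i hi).2
    have h2 : q (i + 1) ∈ AE32.desc P v := by
      rcases ReflTransGen.cases_tail (AE32.mem_desc.1 (hqT i hi).1) with h | ⟨d, hd, hdq⟩
      · exact absurd (h.trans hp0.symm) ((hqT i hi).2 0 (Nat.zero_le _))
      · rw [hin _ _ _ h1 hdq]
        exact AE32.mem_desc.2 hd
    have h3 := hdesc _ h2
    have h4 := hdesc _ (hqT i hi).1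
    have h5 := hE _ _ h1
    omega
  · rintro V R N X ⟨x, hx, A, hA, hxA, hN', hS⟩
    obtain ⟨f, p1, p2, p3, p4⟩ := hvc.emb hxA hS
    rw [hroot] at p2 p3 p4
    refine ⟨f, fun a b hab => p3 a (mem_univ _) b (mem_univ _) hab, fun a => ?_, by rw [p1]; exact hN', fun a c hac => ?_⟩
    · have := p2 a (mem_univ _)
      rw [mem_insert] at this
      rcases this with h | h
      · rw [h]
        exact hx
      · exact hA h
    · rcases h5.dist_eq_dist_add_one_of_adj u (hadj _ _ hac) with h | h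
      · have h1 := p4 c (mem_univ _) a ((hPi _ _).2 ⟨(hadj _ _ hac).symm, h⟩)
        have h2 : ¬ E c a := h4 _ _ hac
        simpa [Adj, h2] using h1
      · have h1 := p4 a (mem_univ _) c ((hPi _ _).2 ⟨hadj _ _ hac, h⟩)
        simpa [Adj, hac] using h1

end AESY
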