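import Pool.Agent.AESY.SpnA
import Pool.Agent.AESY.SpnG
import Pool.Agent.AESY.EndL

/-!
# Bounded-degree oriented trees with an edge behind which all long runs meet one path, or start behind light arcs

The final sentence, from the statements for the two cases.
-/

set_option autoImplicit false

namespace AESY

open Finset Relation AE15 AED AEB AELT AEK AEJ AESF
open scoped Classical

/-- **Trees with a branch of linear size behind an edge in which all long runs meet one path**: there is a path `p` which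
starts at `v` and leads away from `u`, such that no directed path with `l + 1` arcs in the component `B` of `T - uv` which
contains `v` leads towards `v` and has all its vertices, except possibly for its last vertex, off `p`, in the tree and in the
reversed tree. -/
def SpineEndSt : Prop := ∀ (Δ l : ℕ) (θ : ℝ), 0 < θ → ∃ C : ℕ, ∀ k n : ℕ, k + C ≤ n → ∀ R : Fin n → Fin n → Prop,
    (∀ a, ¬ R a a) → (∀ a b, a ≠ b → R a b ∨ R b a) → (∀ a b, R a b → ¬ R b a) →
    ∀ (E : Fin (k + 1) → Fin (k + 1) → Prop) (G : SimpleGraph (Fin (k + 1))),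
      (∀ a b, E a b → ¬ E b a) → G = SimpleGraph.fromRel E →
      G.IsTree → (∀ v, (G.neighborSet v).ncard ≤ Δ) →
      (∃ u v, G.Adj u v ∧ θ * k ≤ ({x | G.dist v x < G.dist u x}.ncard : ℝ) ∧
        ∃ (p : ℕ → Fin (k + 1)) (m : ℕ), p 0 = v ∧
          (∀ i < m, G.Adj (p i) (p (i + 1)) ∧ G.dist u (p (i + 1)) = G.dist u (p i) + 1) ∧
          ∀ F : Fin (k + 1) → Fin (k + 1) → Prop, (F = E ∨ F = fun x y => E y x) → ∀ q : ℕ → Fin (k + 1),
            (∀ i ≤ l, F (q i) (q (i + 1)) ∧ G.dist v (q (i + 1)) < G.dist v (q i) ∧ ∀ j ≤ m, q i ≠ p j) →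
            ¬ G.dist v (q 0) < G.dist u (q 0)) →
      ∃ f : Fin (k + 1) → Fin n, Function.Injective f ∧ ∀ a b, E a b → R (f a) (f b)

/-- a branch with a spine behind an arc `u → v` -/
theorem spine_out (h : SpnSt) (Δ l : ℕ) {θ : ℝ} (hθ : 0 < θ) : ∃ C : ℕ, ∀ k n : ℕ, k + C ≤ n →
    ∀ R : Fin n → Fin n → Prop,
    (∀ a, ¬ R a a) → (∀ a b, a ≠ b → R a b ∨ R b a) → (∀ a b, R a b → ¬ R b a) →
    ∀ E : Fin (k + 1) → Fin (k + 1) → Prop,
      (∀ a b, E a b → ¬ E b a) →
      (SimpleGraph.fromRel E).IsTree →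
      (∀ v, ((SimpleGraph.fromRel E).neighborSet v).ncard ≤ Δ) →
      ∀ u v, E u v →
        θ * k ≤ ({x | (SimpleGraph.fromRel E).dist v x < (SimpleGraph.fromRel E).dist u x}.ncard : ℝ) →
        (∃ (p : ℕ → Fin (k + 1)) (m : ℕ), p 0 = v ∧
          (∀ i < m, (SimpleGraph.fromRel E).Adj (p i) (p (i + 1)) ∧
            (SimpleGraph.fromRel E).dist u (p (i + 1)) = (SimpleGraph.fromRel E).dist u (p i) + 1) ∧
          ∀ F : Fin (k + 1) → Fin (k + 1) → Prop, (F = E ∨ F = fun x y => E y x) → ∀ q : ℕ → Fin (k + 1),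
            (∀ i ≤ l, F (q i) (q (i + 1)) ∧
              (SimpleGraph.fromRel E).dist v (q (i + 1)) < (SimpleGraph.fromRel E).dist v (q i) ∧ ∀ j ≤ m, q i ≠ p j) →
            ¬ (SimpleGraph.fromRel E).dist v (q 0) < (SimpleGraph.fromRel E).dist u (q 0)) →
      ∃ f : Fin (k + 1) → Fin n, Function.Injective f ∧ ∀ a b, E a b → R (f a) (f b) := by
  obtain ⟨C, hC⟩ := h (max Δ 1) l (le_max_right _ _) (θ / 2) (by positivity)
  refine ⟨C + 1, ?_⟩
  rintro k n hn R h1 h2 h3 E h4 h5 h6 u v hE hθv ⟨p, m, hp0, hp, hno⟩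
  have huv : (SimpleGraph.fromRel E).Adj u v := by
    rw [SimpleGraph.fromRel_adj]
    refine ⟨?_, Or.inl hE⟩
    rintro rfl
    exact h4 _ _ hE hE
  have h6' : ∀ v, {w | E v w ∨ E w v}.ncard ≤ max Δ 1 := by
    intro v
    refine le_trans (le_of_eq ?_) ((h6 v).trans (le_max_left _ _))
    congr 1
    ext w
    rw [SimpleGraph.mem_neighborSet, SimpleGraph.fromRel_adj]
    constructor
    · intro h
      refine ⟨?_, h⟩
      rintro rfl
      rcases h with h | h
      · exact h4 _ _ h h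
      · exact h4 _ _ h h
    · intro h
      exact h.2
  obtain ⟨c, F, g1, g2, g3, g4, g5, g6, g8⟩ := graph_spine h4 h5 h6' huv hp0 hp hno
  have hk : 1 ≤ k := by
    by_contra hk
    obtain rfl : k = 0 := by omega
    have := u.isLt
    have := v.isLt
    exact huv.ne (Fin.ext (by omega))
  have hk1 : (1 : ℝ) ≤ k := by exact_mod_cast hk
  have h7 : In R c (fun _ => True) univ := by
    refine hC ⟨h1, h2, h3⟩ c F g2 g3 (by simpa [hE] using g4) g6 ?_ univ ?_
    · have g5' : (F.size : ℝ) + 1 =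
          {x | (SimpleGraph.fromRel E).dist v x < (SimpleGraph.fromRel E).dist u x}.ncard := by exact_mod_cast g5
      rw [g1, g5']
      refine le_trans ?_ hθv
      nlinarith
    · rw [g1, card_univ, Fintype.card_fin]
      omega
  obtain ⟨f, f1, -, -, f4⟩ := g8 h7
  exact ⟨f, f1, f4⟩

/-- branches with a spine, on graphs -/
theorem spine_end_of (h : SpnSt) : SpineEndSt := by
  intro Δ l θ hθ
  obtain ⟨C, hC⟩ := spine_out h Δ l hθ
  refine ⟨C, ?_⟩
  rintro k n hn R a1 a2 a3 E G b1 rfl b2 b3 ⟨u, v, huv, hk, p, m, hp0, hp, hno⟩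
  have h8 := huv
  rw [SimpleGraph.fromRel_adj] at h8
  rcases h8.2 with hE | hE
  · exact hC k n hn R a1 a2 a3 E b1 b2 b3 u v hE hk ⟨p, m, hp0, hp, hno⟩
  · have he : SimpleGraph.fromRel (fun a b => E b a) = SimpleGraph.fromRel E := by
      ext a b
      rw [SimpleGraph.fromRel_adj, SimpleGraph.fromRel_adj, or_comm]
    obtain ⟨f, hf1, hf2⟩ := hC k n hn (fun a b => R b a) a1 (fun a b hab => (a2 a b hab).symm) (fun a b => a3 b a)
      (fun a b => E b a) (fun a b => b1 b a) (by rw [he]; exact b2) (by rw [he]; exact b3)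
      u v hE (by rw [he]; exact hk) ⟨p, m, hp0, by rw [he]; exact hp, by
        rw [he]
        exact fun F hF => hno F hF.symm⟩
    exact ⟨f, hf1, fun a b hab => hf2 b a hab⟩

/-- **ends with a spine** -/
theorem spine_end (h : SFXYSt) : SpineEndSt := spine_end_of (spn_of h)

/-- **The final sentence.** `{x | dist v x < dist u x}` is the component of `T - uv` which contains `v`. -/
def FreeEndSSt : Prop := ∀ (Δ l : ℕ) (θ : ℝ), 0 < θ → ∃ K C : ℕ, ∀ k n : ℕ, k + C ≤ n → ∀ R : Fin n → Fin n → Prop,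
    (∀ a, ¬ R a a) → (∀ a b, a ≠ b → R a b ∨ R b a) → (∀ a b, R a b → ¬ R b a) →
    ∀ (E : Fin (k + 1) → Fin (k + 1) → Prop) (G : SimpleGraph (Fin (k + 1))),
      (∀ a b, E a b → ¬ E b a) → G = SimpleGraph.fromRel E →
      G.IsTree → (∀ v, (G.neighborSet v).ncard ≤ Δ) →
      (∃ u v, G.Adj u v ∧ θ * k ≤ ({x | G.dist v x < G.dist u x}.ncard : ℝ) ∧
        ((∃ (p : ℕ → Fin (k + 1)) (m : ℕ), p 0 = v ∧
            (∀ i < m, G.Adj (p i) (p (i + 1)) ∧ G.dist u (p (i + 1)) = G.dist u (p i) + 1) ∧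
            ∀ F : Fin (k + 1) → Fin (k + 1) → Prop, (F = E ∨ F = fun x y => E y x) → ∀ q : ℕ → Fin (k + 1),
              (∀ i ≤ l, F (q i) (q (i + 1)) ∧ G.dist v (q (i + 1)) < G.dist v (q i) ∧ ∀ j ≤ m, q i ≠ p j) →
              ¬ G.dist v (q 0) < G.dist u (q 0)) ∨
          ∃ (F : Fin (k + 1) → Fin (k + 1) → Prop) (h : Fin (k + 1) → Fin (k + 1)), (F = E ∨ F = fun x y => E y x) ∧
            MainChild G u h ∧ LightRuns l K F G u v h)) →
      ∃ f : Fin (k + 1) → Fin n, Function.Injective f ∧ ∀ a b, E a b → R (f a) (f b)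

/-- **the final sentence** -/
theorem free_endS_of (h1 : SpineEndSt) (h2 : FELSt) : FreeEndSSt := by
  intro Δ l θ hθ
  obtain ⟨C₁, g1⟩ := h1 Δ l θ hθ
  obtain ⟨K, C₂, g2⟩ := end_l h2 Δ l hθ
  refine ⟨K, C₁ + C₂, ?_⟩
  rintro k n hn R a1 a2 a3 E G b1 rfl b2 b3 ⟨u, v, huv, hk, h | ⟨F, h, hF | hF, hmc, hv⟩⟩
  · exact g1 k n (by omega) R a1 a2 a3 E _ b1 rfl b2 b3 ⟨u, v, huv, hk, h⟩
  · subst hF
    exact g2 k n (by omega) R a1 a2 a3 F b1 b2 b3 ⟨u, v, h, huv, hk, hmc, hv⟩
  · subst hF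
    have he : SimpleGraph.fromRel (fun a b => E b a) = SimpleGraph.fromRel E := by
      ext a b
      rw [SimpleGraph.fromRel_adj, SimpleGraph.fromRel_adj, or_comm]
    obtain ⟨f, hf1, hf2⟩ := g2 k n (by omega) (fun a b => R b a) a1 (fun a b hab => (a2 a b hab).symm) (fun a b => a3 b a)
      (fun a b => E b a) (fun a b => b1 b a) (by rw [he]; exact b2) (by rw [he]; exact b3)
      ⟨u, v, h, by rw [he]; exact huv, by rw [he]; exact hk, by rw [he]; exact hmc, by rw [he]; exact hv⟩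
    exact ⟨f, hf1, fun a b hab => hf2 b a hab⟩

end AESY
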