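import Pool.Agent.AESY.FinalY
import Pool.Agent.AESY.SpnEnd

/-!
# Free ends in which all long runs meet one path, or start behind light arcs: the theorem
-/

set_option autoImplicit false

namespace AESY

/-- **the final theorem** -/
theorem free_endS : FreeEndSSt := free_endS_of (spine_end sfxySt) (fel_of sfxySt)

end AESY
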