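import Pool.Agent.AESY.Defs

/-!
# Free ends without the cleanliness condition: the constants
-/

set_option autoImplicit false

namespace AESY

open Finset AE15 AED AEB AELT AEK AEJ AEY AEN AESF
open scoped Classical

/-- the trees which hang by arcs away from the in-closure -/
private theorem pnd_ok {b l : ℕ} (F : Fd) : ∀ {j : ℕ}, F.Deg b → InR l j F → ∀ D ∈ pnd F, FOK b l 0 D ∧ D.size < F.size := by
  induction F with
  | nil => intro j _ _ D hD; simp [pnd] at hD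
  | node d c s ihc ihs =>
    intro j hd hr D hD
    cases d with
    | true =>
      simp only [pnd, if_true, List.mem_cons] at hD
      have h1 := hr.1
      simp only [if_true] at h1
      rcases hD with rfl | hD
      · refine ⟨⟨hd.1, hd.2.1, h1⟩, ?_⟩
        simp only [Fd.size]
        omega
      · obtain ⟨h2, h3⟩ := ihs hd.2.2 hr.2 D hD
        refine ⟨h2, ?_⟩
        simp only [Fd.size]
        omega
    | false =>
      simp only [pnd, Bool.false_eq_true, if_false, List.mem_append] at hD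
      have h1 := hr.1
      simp only [Bool.false_eq_true, if_false] at h1
      rcases hD with hD | hD
      · obtain ⟨h2, h3⟩ := ihc hd.2.1 h1.2 D hD
        refine ⟨h2, ?_⟩
        simp only [Fd.size]
        omega
      · obtain ⟨h2, h3⟩ := ihs hd.2.2 hr.2 D hD
        refine ⟨h2, ?_⟩
        simp only [Fd.size]
        omega

private theorem pin_ok {b l : ℕ} (F : Fd) : ∀ {j : ℕ}, F.Deg b → InR l j F → ∀ D ∈ pin F, FOK b l 0 D ∧
    ∃ W, (false, W) ∈ F.trees ∧ D.size < W.size := by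
  induction F with
  | nil => intro j _ _ D hD; simp [pin] at hD
  | node d c s _ ihs =>
    intro j hd hr D hD
    cases d with
    | true =>
      simp only [pin, if_true] at hD
      obtain ⟨h2, W, h3, h4⟩ := ihs hd.2.2 hr.2 D hD
      exact ⟨h2, W, by simp [Fd.trees, h3], h4⟩
    | false =>
      simp only [pin, Bool.false_eq_true, if_false, List.mem_append] at hD
      have h1 := hr.1
      simp only [Bool.false_eq_true, if_false] at h1
      rcases hD with hD | hD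
      · obtain ⟨h2, h3⟩ := pnd_ok c hd.2.1 h1.2 D hD
        exact ⟨h2, c, by simp [Fd.trees], h3⟩
      · obtain ⟨h2, W, h3, h4⟩ := ihs hd.2.2 hr.2 D hD
        exact ⟨h2, W, by simp [Fd.trees, h3], h4⟩

/-- a vertex with small branches towards it -/
private theorem ny_of {b l q : ℕ} {t : ℝ} {I : Fd → Prop} {F : Fd} (h : FOK b l 0 F) (hq : ∑ i ∈ range (l + 1), b ^ i ≤ q)
    (hI : ∀ D, FOK b l 0 D → I D) (ht : ∀ W, (false, W) ∈ F.trees → (W.size + 1 : ℝ) ≤ t) : NY b q t I F := by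
  refine ⟨h.1, h.2.1, ?_, ?_, ?_⟩
  · have h1 := h.blk_le (Nat.zero_le l)
    simp only [Nat.sub_zero] at h1
    omega
  · intro D hD
    refine hI D ?_
    have h1 := fok_mem h (mem_outs.1 hD) rfl
    exact h1
  · intro D hD
    obtain ⟨h1, W, h2, h3⟩ := pin_ok F h.2.1 h.2.2 D hD
    refine ⟨hI D h1, le_trans ?_ (ht W h2)⟩
    have : (D.size : ℝ) ≤ W.size := by exact_mod_cast h3.le
    linarith

theorem TopE.mono {t t' : ℝ} {F : Fd} (h : TopE t F) (htt : t ≤ t') : TopE t' F :=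
  ⟨fun W hW => (h.i0 W hW).trans htt, fun c hc W hW => (h.i1 c hc W hW).trans htt,
    fun c hc c' hc' W hW => (h.i2 c hc c' hc' W hW).trans htt⟩

/-- the heavy child is an out-child if the branches towards the root are small -/
private theorem hv_outs {b : ℕ} {t : ℝ} {F : Fd} (hl : F.len ≤ b) (ht : ∀ W, (false, W) ∈ F.trees → (W.size + 1 : ℝ) ≤ t)
    (h0 : (b : ℝ) * t < F.size) (h1 : 1 ≤ F.size) :
    ∃ c, F.hv = some (true, c) ∧ c ∈ outs F ∧ F.size ≤ b * (c.size + 1) := by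
  cases hF : F.hv with
  | none =>
    obtain rfl := hv_none.1 hF
    simp [Fd.size] at h1
  | some p =>
    obtain ⟨d, c⟩ := p
    have h2 := (hv_size hF hl).1
    simp only at h2
    cases d with
    | true => exact ⟨c, rfl, mem_outs.2 (hv_mem hF), h2⟩
    | false =>
      exfalso
      have h3 := ht c (hv_mem hF)
      have h4 : (F.size : ℝ) ≤ b * (c.size + 1) := by exact_mod_cast h2
      have h5 : (b : ℝ) * (c.size + 1) ≤ b * t := mul_le_mul_of_nonneg_left h3 (Nat.cast_nonneg _)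
      linarith only [h0, h4, h5]

/-- **the first three levels** -/
private theorem top3y_of {b l q : ℕ} (hb : 1 ≤ b) (hq : ∑ i ∈ range (l + 1), b ^ i ≤ q) {t : ℝ} (ht : 0 ≤ t) {I H : Fd → Prop}
    {F : Fd} (hF : FOK b l 0 F) (hs : Sd true F) (hI : ∀ D, FOK b l 0 D → I D)
    (hH : ∀ D, FOK b l 0 D → Sd true D → H D) (hT : TopE t F)
    (hbig : (b : ℝ) * (b * (b * t + 1) + 1) < F.size) : Top3Y b q t I H F := by
  have hb' : (1 : ℝ) ≤ b := by exact_mod_cast hb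
  have hout : ∀ {D c : Fd}, FOK b l 0 D → c ∈ outs D → FOK b l 0 c := fun h hc => fok_mem h (mem_outs.1 hc) rfl
  have hbt : 0 ≤ (b : ℝ) * t := by positivity
  refine ⟨ny_of hF hq hI hT.i0, fun c hc => ny_of (hout hF hc) hq hI (hT.i1 c hc),
    fun c hc c' hc' => ny_of (hout (hout hF hc) hc') hq hI (hT.i2 c hc c' hc'), ?_⟩
  have e1 : (b : ℝ) * t + 1 ≤ b * (b * t + 1) := by nlinarith only [hb', hbt]
  have e2 : (b : ℝ) * (b * t + 1) ≤ b * (b * (b * t + 1) + 1) := by nlinarith only [hb', e1]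
  have e3 : (1 : ℝ) ≤ F.size := by nlinarith only [hbig, hbt, e1, e2]
  obtain ⟨c₁, -, hc₁, s1⟩ := hv_outs hF.1 hT.i0 (by linarith) (by exact_mod_cast e3)
  have s1' : (F.size : ℝ) ≤ b * (c₁.size + 1) := by exact_mod_cast s1
  have f1 := hout hF hc₁
  have e4 : (b : ℝ) * (b * t + 1) < c₁.size := by
    by_contra hcon
    push Not at hcon
    have : (b : ℝ) * (c₁.size + 1) ≤ b * (b * (b * t + 1) + 1) := mul_le_mul_of_nonneg_left (by linarith) (by linarith)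
    linarith
  have e5 : (1 : ℝ) ≤ c₁.size := by nlinarith only [hbt, e1, e4]
  obtain ⟨c₂, -, hc₂, s2⟩ := hv_outs f1.1 (hT.i1 c₁ hc₁) (by linarith) (by exact_mod_cast e5)
  have s2' : (c₁.size : ℝ) ≤ b * (c₂.size + 1) := by exact_mod_cast s2
  have f2 := hout f1 hc₂
  have e6 : (b : ℝ) * t < c₂.size := by
    by_contra hcon
    push Not at hcon
    have : (b : ℝ) * (c₂.size + 1) ≤ b * (b * t + 1) := mul_le_mul_of_nonneg_left (by linarith) (by linarith)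
    linarith only [e4, s2', this]
  have e7 : (0 : ℝ) < c₂.size := by linarith only [hbt, e6]
  have e7' : 0 < c₂.size := by exact_mod_cast e7
  obtain ⟨c₃, -, hc₃, s3⟩ := hv_outs f2.1 (hT.i2 c₁ hc₁ c₂ hc₂) e6 e7'
  have f3 := hout f2 hc₃
  have g1 : Sd true c₁ := hs.mem (mem_outs.1 hc₁)
  have g2 : Sd true c₂ := g1.mem (mem_outs.1 hc₂)
  have g3 : Sd true c₃ := g2.mem (mem_outs.1 hc₃)
  exact ⟨c₁, c₂, c₃, hc₁, hc₂, hc₃, hH c₁ f1 g1, hH c₂ f2 g2, hH c₃ f3 g3, s1, s2, s3⟩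

theorem NY.mono {b q : ℕ} {t t' : ℝ} {I : Fd → Prop} {F : Fd} (h : NY b q t I F) (htt : t ≤ t') : NY b q t' I F :=
  ⟨h.len, h.deg, h.blk, h.out, fun D hD => ⟨(h.pin D hD).1, (h.pin D hD).2.trans htt⟩⟩

theorem Top3Y.mono {b q : ℕ} {t t' : ℝ} {I H : Fd → Prop} {F : Fd} (h : Top3Y b q t I H F) (htt : t ≤ t') :
    Top3Y b q t' I H F :=
  ⟨h.n0.mono htt, fun c hc => (h.n1 c hc).mono htt, fun c hc c' hc' => (h.n2 c hc c' hc').mono htt, h.heavy⟩

private theorem pnd_deg {b : ℕ} (F : Fd) : F.Deg b → ∀ D ∈ pnd F, (D.len ≤ b ∧ D.Deg b) ∧ D.size < F.size := by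
  induction F with
  | nil => intro _ D hD; simp [pnd] at hD
  | node d c s ihc ihs =>
    intro hd D hD
    cases d with
    | true =>
      simp only [pnd, if_true, List.mem_cons] at hD
      rcases hD with rfl | hD
      · refine ⟨⟨hd.1, hd.2.1⟩, ?_⟩
        simp only [Fd.size]
        omega
      · obtain ⟨h2, h3⟩ := ihs hd.2.2 D hD
        refine ⟨h2, ?_⟩
        simp only [Fd.size]
        omega
    | false =>
      simp only [pnd, Bool.false_eq_true, if_false, List.mem_append] at hD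
      rcases hD with hD | hD
      · obtain ⟨h2, h3⟩ := ihc hd.2.1 D hD
        refine ⟨h2, ?_⟩
        simp only [Fd.size]
        omega
      · obtain ⟨h2, h3⟩ := ihs hd.2.2 D hD
        refine ⟨h2, ?_⟩
        simp only [Fd.size]
        omega

private theorem pin_deg {b : ℕ} (F : Fd) : F.Deg b → ∀ D ∈ pin F, (D.len ≤ b ∧ D.Deg b) ∧
    ∃ W, (false, W) ∈ F.trees ∧ D.size < W.size := by
  induction F with
  | nil => intro _ D hD; simp [pin] at hD
  | node d c s _ ihs =>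
    intro hd D hD
    cases d with
    | true =>
      simp only [pin, if_true] at hD
      obtain ⟨h2, W, h3, h4⟩ := ihs hd.2.2 D hD
      exact ⟨h2, W, by simp [Fd.trees, h3], h4⟩
    | false =>
      simp only [pin, Bool.false_eq_true, if_false, List.mem_append] at hD
      rcases hD with hD | hD
      · obtain ⟨h2, h3⟩ := pnd_deg c hd.2.1 D hD
        exact ⟨h2, c, by simp [Fd.trees], h3⟩
      · obtain ⟨h2, W, h3, h4⟩ := ihs hd.2.2 D hD
        exact ⟨h2, W, by simp [Fd.trees, h3], h4⟩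

private theorem outs_pnd {F D : Fd} (h : D ∈ outs F) : D ∈ pnd F := by
  induction F with
  | nil => simp [outs] at h
  | node d c s _ ih =>
    cases d with
    | true =>
      simp only [outs, pnd, if_true, List.mem_cons] at h ⊢
      exact h.imp id ih
    | false =>
      simp only [outs, pnd, Bool.false_eq_true, if_false, List.mem_append] at h ⊢
      exact Or.inr (ih h)

private theorem pin_pnd {F D : Fd} (h : D ∈ pin F) : D ∈ pnd F := by
  induction F with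
  | nil => simp [pin] at h
  | node d c s _ ih =>
    cases d with
    | true =>
      simp only [pin, pnd, if_true, List.mem_cons] at h ⊢
      exact Or.inr (ih h)
    | false =>
      simp only [pin, pnd, Bool.false_eq_true, if_false, List.mem_append] at h ⊢
      exact h.imp id ih

/-- a vertex with small branches towards it -/
private theorem ny_of' {b q : ℕ} {t : ℝ} {I : Fd → Prop} {F : Fd} (hl : F.len ≤ b) (hD : F.Deg b) (hq : AEB.blk F ≤ q)
    (hI : ∀ D ∈ outs F, D.len ≤ b → D.Deg b → I D) (hI' : ∀ D ∈ pin F, D.len ≤ b → D.Deg b → I D)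
    (ht : ∀ W, (false, W) ∈ F.trees → (W.size + 1 : ℝ) ≤ t) : NY b q t I F := by
  refine ⟨hl, hD, hq, ?_, ?_⟩
  · intro D h
    obtain ⟨h1, h2⟩ := (Fd.deg_iff b F).1 hD _ (mem_outs.1 h)
    exact hI D h h1 h2
  · intro D h
    obtain ⟨⟨h1, h2⟩, W, h3, h4⟩ := pin_deg F hD D h
    refine ⟨hI' D h h1 h2, le_trans ?_ (ht W h3)⟩
    have : (D.size : ℝ) ≤ W.size := by exact_mod_cast h4.le
    linarith

/-- **the first three levels of a line** -/
theorem top3y_of_fx {b l q K A : ℕ} (hb : 1 ≤ b) (hA : 1 ≤ A) {γB t : ℝ} (hγ : 0 < γB) (hK : 1 ≤ γB * K) (ht : 0 ≤ t)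
    {W : Fd → Prop} {F : Fd} (hF : FX b l K (fun c => W c ∧ A * (2 * b) ^ 3 * (c.size + 1) < F.size + 1) 0 F)
    (hc : ClnY q K t F) (hqn : (q : ℝ) + 1 ≤ γB * (F.size + 1)) (hbig : (b : ℝ) * (b * (b * t + 1) + 1) < F.size)
    {n : ℕ} (hn : F.size + 1 ≤ n) :
    Top3Y b q t (LtX b γB n) (fun D => FX b l K (fun c => W c ∧ A * (c.size + 1) < D.size + 1) 0 D) F := by
  have hn' : (F.size + 1 : ℝ) ≤ n := by exact_mod_cast hn
  have hb' : (1 : ℝ) ≤ b := by exact_mod_cast hb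
  have hbt : 0 ≤ (b : ℝ) * t := by positivity
  have hγn : γB * (F.size + 1) ≤ γB * n := mul_le_mul_of_nonneg_left hn' hγ.le
  have hIq : ∀ {D : Fd}, D.len ≤ b → D.Deg b → AEB.blk D ≤ q → LtX b γB n D := by
    intro D h1 h2 h3
    refine ⟨h1, h2, ?_⟩
    have h4 : (AEB.blk D : ℝ) ≤ q := by exact_mod_cast h3
    linarith only [hqn, hγn, h4]
  have hIK : ∀ {D : Fd}, D.len ≤ b → D.Deg b → K * (AEB.blk D + 1) ≤ F.size + 1 → LtX b γB n D := by
    intro D h1 h2 h3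
    refine ⟨h1, h2, ?_⟩
    have e1 : (K : ℝ) * (AEB.blk D + 1) ≤ F.size + 1 := by exact_mod_cast h3
    have e2 : (AEB.blk D + 1 : ℝ) ≤ γB * K * (AEB.blk D + 1) := by
      have e3 : (0 : ℝ) ≤ AEB.blk D + 1 := by positivity
      exact le_mul_of_one_le_left e3 hK
    calc (AEB.blk D + 1 : ℝ) ≤ γB * K * (AEB.blk D + 1) := e2
      _ = γB * (K * (AEB.blk D + 1)) := by ring
      _ ≤ γB * (F.size + 1) := mul_le_mul_of_nonneg_left e1 hγ.le
      _ ≤ γB * n := hγn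
  have hd : ∀ {D c : Fd}, D.Deg b → c ∈ outs D → c.len ≤ b ∧ c.Deg b := fun h h' =>
    (Fd.deg_iff b _).1 h _ (mem_outs.1 h')
  refine ⟨ny_of' hF.1 hF.2.1 hc.b0 (fun D h h1 h2 => hIq h1 h2 (hc.b1 D h)) (fun D h h1 h2 => hIK h1 h2 (hc.l0 D h))
      hc.small.i0, fun c h => ?_, fun c h c' h' => ?_, ?_⟩
  · obtain ⟨g1, g2⟩ := hd hF.2.1 h
    exact ny_of' g1 g2 (hc.b1 c h) (fun D h3 h1 h2 => hIq h1 h2 (hc.b2 c h D h3))
      (fun D h3 h1 h2 => hIK h1 h2 (hc.l1 c h D h3)) (hc.small.i1 c h)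
  · obtain ⟨g1, g2⟩ := hd (hd hF.2.1 h).2 h'
    exact ny_of' g1 g2 (hc.b2 c h c' h') (fun D h3 h1 h2 => hIK h1 h2 (hc.l2 c h c' h' D (outs_pnd h3)))
      (fun D h3 h1 h2 => hIK h1 h2 (hc.l2 c h c' h' D (pin_pnd h3))) (hc.small.i2 c h c' h')
  · have e1 : (b : ℝ) * t + 1 ≤ b * (b * t + 1) := by nlinarith only [hb', hbt]
    have e2 : (b : ℝ) * (b * t + 1) ≤ b * (b * (b * t + 1) + 1) := by nlinarith only [hb', e1]
    have e3 : (1 : ℝ) ≤ F.size := by nlinarith only [hbig, hbt, e1, e2]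
    obtain ⟨c₁, k₁, hc₁, s1⟩ := hv_outs hF.1 hc.small.i0 (by linarith) (by exact_mod_cast e3)
    have s1' : (F.size : ℝ) ≤ b * (c₁.size + 1) := by exact_mod_cast s1
    obtain ⟨f1, f1'⟩ := hd hF.2.1 hc₁
    have e4 : (b : ℝ) * (b * t + 1) < c₁.size := by
      by_contra hcon
      push Not at hcon
      have : (b : ℝ) * (c₁.size + 1) ≤ b * (b * (b * t + 1) + 1) := mul_le_mul_of_nonneg_left (by linarith only [hcon]) (by linarith)
      linarith
    have e5 : (1 : ℝ) ≤ c₁.size := by nlinarith only [hbt, e1, e4]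
    obtain ⟨c₂, k₂, hc₂, s2⟩ := hv_outs f1 (hc.small.i1 c₁ hc₁) (by linarith) (by exact_mod_cast e5)
    have s2' : (c₁.size : ℝ) ≤ b * (c₂.size + 1) := by exact_mod_cast s2
    obtain ⟨f2, f2'⟩ := hd f1' hc₂
    have e6 : (b : ℝ) * t < c₂.size := by
      by_contra hcon
      push Not at hcon
      have : (b : ℝ) * (c₂.size + 1) ≤ b * (b * t + 1) := mul_le_mul_of_nonneg_left (by linarith only [hcon]) (by linarith only [hb'])
      linarith only [e4, s2', this]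
    have e7 : (0 : ℝ) < c₂.size := by linarith
    have e7' : 0 < c₂.size := by exact_mod_cast e7
    obtain ⟨c₃, k₃, hc₃, s3⟩ := hv_outs f2 (hc.small.i2 c₁ hc₁ c₂ hc₂) e6 e7'
    have g1 := fx_down hb hA (e := 2) hF k₁
    have g2 := fx_down hb hA (e := 1) g1 k₂
    have g3 := fx_down hb hA (e := 0) g2 k₃
    have hmono : ∀ {e : ℕ} {D : Fd}, FX b l K (fun c' => W c' ∧ A * (2 * b) ^ e * (c'.size + 1) < D.size + 1) 0 D →
        FX b l K (fun c' => W c' ∧ A * (c'.size + 1) < D.size + 1) 0 D := by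
      intro e D hD
      refine hD.monoQ fun c' hc' => ⟨hc'.1, lt_of_le_of_lt ?_ hc'.2⟩
      have h1 : 1 ≤ (2 * b) ^ e := Nat.one_le_pow _ _ (by omega)
      exact Nat.mul_le_mul_right _ (Nat.le_mul_of_pos_right _ h1)
    exact ⟨c₁, c₂, c₃, hc₁, hc₂, hc₃, hmono g1, hmono g2, hmono g3, s1, s2, s3⟩

theorem ClnY.mono {q K : ℕ} {t t' : ℝ} {F : Fd} (h : ClnY q K t F) (htt : t ≤ t') : ClnY q K t' F :=
  ⟨h.small.mono htt, h.b0, h.b1, h.b2, h.l0, h.l1, h.l2⟩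

/-- **the statement for coded trees, lines** -/
theorem sfxy_main (hP : PartsSt) (h1 : T1YSt) (h2 : T2YSt) : SFXYSt := by
  intro b l hb
  obtain ⟨A₀, hBx⟩ := bxl_all b l hb
  refine ⟨A₀, ?_⟩
  intro A' hA' θw hθw hθw2 q θ' hθ'
  have hBx := hBx A' hA' θw hθw hθw2
  obtain ⟨θ, hθdef⟩ : ∃ θ : ℝ, θ = θ' / 2 := ⟨_, rfl⟩
  have hθ : 0 < θ := by rw [hθdef]; positivity
  obtain ⟨ω1, hω1, h1⟩ := h1 b q hb θ hθ
  obtain ⟨ω2, hω2, h2⟩ := h2 b q hb θ hθ
  obtain ⟨ω, hω⟩ : ∃ ω : ℝ, ω = min (min ω1 ω2) (min (θ / 8) (1 / 8)) := ⟨_, rfl⟩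
  have hω0 : 0 < ω := by
    rw [hω]
    exact lt_min (lt_min hω1 hω2) (lt_min (by positivity) (by norm_num))
  have hωa : ω ≤ ω1 := by rw [hω]; exact (min_le_left _ _).trans (min_le_left _ _)
  have hωb : ω ≤ ω2 := by rw [hω]; exact (min_le_left _ _).trans (min_le_right _ _)
  have hωθ : ω ≤ θ / 8 := by rw [hω]; exact (min_le_right _ _).trans (min_le_left _ _)
  have hω8 : ω ≤ 1 / 8 := by rw [hω]; exact (min_le_right _ _).trans (min_le_right _ _)
  obtain ⟨ζ1, hζ1, h1⟩ := h1 ω hω0 hωa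
  obtain ⟨ζ2, hζ2, h2⟩ := h2 ω hω0 hωb
  obtain ⟨ζ, hζ⟩ : ∃ ζ : ℝ, ζ = min ζ1 ζ2 := ⟨_, rfl⟩
  have hζ0 : 0 < ζ := by rw [hζ]; exact lt_min hζ1 hζ2
  obtain ⟨lam, J, hlam, hP⟩ := hP ω ζ hω0 hω8 hζ0
  obtain ⟨a11, ha11, h1⟩ := h1 ζ hζ0 (by rw [hζ]; exact min_le_left _ _) lam hlam J
  obtain ⟨a12, ha12, h2⟩ := h2 ζ hζ0 (by rw [hζ]; exact min_le_right _ _) lam hlam J
  obtain ⟨a1, ha1⟩ : ∃ a : ℝ, a = min (min a11 a12) 1 := ⟨_, rfl⟩
  have ha10 : 0 < a1 := by rw [ha1]; exact lt_min (lt_min ha11 ha12) one_pos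
  obtain ⟨a21, ha21, h1⟩ := h1 a1 ha10 (by rw [ha1]; exact (min_le_left _ _).trans (min_le_left _ _))
  obtain ⟨a22, ha22, h2⟩ := h2 a1 ha10 (by rw [ha1]; exact (min_le_left _ _).trans (min_le_right _ _))
  obtain ⟨a2, ha2⟩ : ∃ a : ℝ, a = min (min a21 a22) 1 := ⟨_, rfl⟩
  have ha20 : 0 < a2 := by rw [ha2]; exact lt_min (lt_min ha21 ha22) one_pos
  obtain ⟨k0, n1, hk0, hP⟩ := hP a1 a2 ha10 (by rw [ha1]; exact min_le_right _ _) ha20 (by rw [ha2]; exact min_le_right _ _)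
  obtain ⟨N2, e2, m2, c1, m0, τ2, d2, ε2, hN2, hτ2, hd2, hε2, h2⟩ :=
    h2 a2 ha20 (by rw [ha2]; exact (min_le_left _ _).trans (min_le_right _ _)) k0 hk0
  obtain ⟨N1, e1, m1, τ1, d1, ε1, hN1, hτ1, hd1, hε1, h1⟩ :=
    h1 a2 ha20 (by rw [ha2]; exact (min_le_left _ _).trans (min_le_left _ _)) k0 hk0 c1 m0
  obtain ⟨γ1, ε01, μ01, K1, nb1, hγ1, hε01, hμ01, hB1⟩ := hBx N1 e1 m1 hN1 hτ1 hd1
  obtain ⟨γ2, ε02, μ02, K2, nb2, hγ2, hε02, hμ02, hB2⟩ := hBx N2 e2 m2 hN2 hτ2 hd2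
  obtain ⟨K3, hK3⟩ := exists_nat_ge (max (1 / γ1) (1 / γ2))
  have hb' : (1 : ℝ) ≤ b := by exact_mod_cast hb
  -- the bound for the branches towards the first three levels
  obtain ⟨ε, hε⟩ : ∃ ε : ℝ, ε = min (min ε1 ε2) (1 / (2 * b ^ 3)) := ⟨_, rfl⟩
  have hε0 : 0 < ε := by rw [hε]; exact lt_min (lt_min hε1 hε2) (by positivity)
  have hεa : ε ≤ ε1 := by rw [hε]; exact (min_le_left _ _).trans (min_le_left _ _)
  have hεb : ε ≤ ε2 := by rw [hε]; exact (min_le_left _ _).trans (min_le_right _ _)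
  have hεc : ε * (b : ℝ) ^ 3 ≤ 1 / 2 := by
    have h3 : ε ≤ 1 / (2 * (b : ℝ) ^ 3) := by rw [hε]; exact min_le_right _ _
    rw [le_div_iff₀ (by positivity)] at h3
    linarith only [h3]
  refine ⟨min ε01 ε02, min μ01 μ02, ε, max (max K1 K2) K3, lt_min hε01 hε02, lt_min hμ01 hμ02, hε0, ?_⟩
  intro ε₁ μ₁ hε₁ hμ₁ K hK M
  have hK1 : K1 ≤ K := (le_max_left _ _).trans ((le_max_left _ _).trans hK)
  have hK2 : K2 ≤ K := (le_max_right _ _).trans ((le_max_left _ _).trans hK)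
  have hK3' : max (1 / γ1) (1 / γ2) ≤ K := hK3.trans (by exact_mod_cast (le_max_right _ _).trans hK)
  have hγK1 : 1 ≤ γ1 * K := by
    have := (le_max_left _ _).trans hK3'
    rwa [div_le_iff₀' hγ1] at this
  have hγK2 : 1 ≤ γ2 * K := by
    have := (le_max_right _ _).trans hK3'
    rwa [div_le_iff₀' hγ2] at this
  obtain ⟨Cb1, hB1⟩ := hB1 ε₁ μ₁ (hε₁.trans (min_le_left _ _)) (hμ₁.trans (min_le_left _ _)) K hK1 M
  obtain ⟨Cb2, hB2⟩ := hB2 ε₁ μ₁ (hε₁.trans (min_le_right _ _)) (hμ₁.trans (min_le_right _ _)) K hK2 M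
  obtain ⟨C1, h1⟩ := h1 _ _ nb1 Cb1 (hB1 Cb1 le_rfl)
  obtain ⟨C2, h2⟩ := h2 _ _ nb2 Cb2 (hB2 Cb2 le_rfl)
  obtain ⟨C, hC1, hC2⟩ : ∃ C : ℕ, C1 ≤ C ∧ C2 ≤ C := by
    obtain ⟨C, hC⟩ := exists_nat_ge (max C1 C2)
    exact ⟨C, (le_max_left _ _).trans hC, (le_max_right _ _).trans hC⟩
  -- the size of the branch from which on everything works
  obtain ⟨M', hM1, hM2, hM3⟩ : ∃ M : ℕ, (q : ℝ) + 1 ≤ γ1 * M ∧ (q : ℝ) + 1 ≤ γ2 * M ∧
      2 * (b : ℝ) ^ 2 + 2 * b + 2 ≤ M := by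
    obtain ⟨M1, hM1⟩ := exists_nat_ge (((q : ℝ) + 1) / γ1)
    obtain ⟨M2, hM2⟩ := exists_nat_ge (((q : ℝ) + 1) / γ2)
    have e1 : (0 : ℝ) ≤ M1 := Nat.cast_nonneg _
    have e2 : (0 : ℝ) ≤ M2 := Nat.cast_nonneg _
    have e3 : (0 : ℝ) ≤ 2 * (b : ℝ) ^ 2 + 2 * b + 2 := by positivity
    rw [div_le_iff₀' hγ1] at hM1
    rw [div_le_iff₀' hγ2] at hM2
    refine ⟨M1 + M2 + (2 * b ^ 2 + 2 * b + 2), ?_, ?_, ?_⟩
    · refine hM1.trans (mul_le_mul_of_nonneg_left ?_ hγ1.le)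
      push_cast
      linarith only [e3]
    · refine hM2.trans (mul_le_mul_of_nonneg_left ?_ hγ2.le)
      push_cast
      linarith only [e3]
    · push_cast
      linarith only []
  -- the order from which on everything works
  obtain ⟨B, hB1, hB2, hB3, hB4, hB5⟩ : ∃ B : ℕ, n1 ≤ B ∧ C ≤ B ∧ (c1 : ℝ) ≤ θ / 2 * B ∧ (m0 : ℝ) ≤ ω / 4 * B ∧
      (M' : ℝ) ≤ θ' * B := by
    obtain ⟨B1, hB1⟩ := exists_nat_ge ((c1 : ℝ) / (θ / 2))
    obtain ⟨B2, hB2⟩ := exists_nat_ge ((m0 : ℝ) / (ω / 4))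
    obtain ⟨B3, hB3⟩ := exists_nat_ge ((M' : ℝ) / θ')
    have e1 : (0 : ℝ) ≤ n1 := Nat.cast_nonneg _
    have e2 : (0 : ℝ) ≤ C := Nat.cast_nonneg _
    have e3 : (0 : ℝ) ≤ B1 := Nat.cast_nonneg _
    have e4 : (0 : ℝ) ≤ B2 := Nat.cast_nonneg _
    have e5 : (0 : ℝ) ≤ B3 := Nat.cast_nonneg _
    rw [div_le_iff₀' (by positivity)] at hB1
    rw [div_le_iff₀' (by positivity)] at hB2
    rw [div_le_iff₀' hθ'] at hB3
    refine ⟨n1 + C + B1 + B2 + B3, by omega, by omega, ?_, ?_, ?_⟩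
    · refine hB1.trans (mul_le_mul_of_nonneg_left ?_ (by positivity))
      push_cast
      linarith only []
    · refine hB2.trans (mul_le_mul_of_nonneg_left ?_ (by positivity))
      push_cast
      linarith only []
    · refine hB3.trans (mul_le_mul_of_nonneg_left ?_ hθ'.le)
      push_cast
      linarith only []
  refine ⟨4 * B, ?_⟩
  intro V R hT c F hl hD hF hθF hcl hFX X hX
  by_cases hsm : c.size + 1 ≤ B
  · -- small trees
    refine AEX.un_four hT b c hl hD X ?_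
    have e1 : ((c.size + 1 + 4 * B : ℕ) : ℝ) ≤ X.card := by exact_mod_cast hX
    have e2 : ((c.size + 1 : ℕ) : ℝ) ≤ B := by exact_mod_cast hsm
    push_cast at e1 e2
    have e3 : (0 : ℝ) ≤ c.size := Nat.cast_nonneg _
    linarith only [hω0, hω8, e1, e2]
  · -- large trees
    push Not at hsm
    have hFbig : (M' : ℝ) < F.size + 1 := by
      have e1 : (B : ℝ) < c.size + 1 := by exact_mod_cast hsm
      have e2 : θ' * B < θ' * (c.size + 1) := mul_lt_mul_of_pos_left e1 hθ'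
      linarith only [hB5, hθF, e2]
    have hF0 : (0 : ℝ) ≤ F.size + 1 := by (clear * -; positivity)
    have ht0 : ∀ {ε' : ℝ}, 0 < ε' → 0 ≤ ε' * ((F.size : ℝ) + 1) := fun h => by (clear * - h; positivity)
    have hbig : (b : ℝ) * (b * (b * (ε * (F.size + 1)) + 1) + 1) < F.size := by
      have e1 : (b : ℝ) * (b * (b * (ε * (F.size + 1)) + 1) + 1) = ε * (b : ℝ) ^ 3 * (F.size + 1) + (b : ℝ) ^ 2 + b := by
        ring
      have e2 : ε * (b : ℝ) ^ 3 * (F.size + 1) ≤ 1 / 2 * (F.size + 1) := mul_le_mul_of_nonneg_right hεc hF0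
      rw [e1]
      linarith only [hM3, hFbig, e2]
    have hFX' : FX b l K (fun e => WcU b l K A' θw ε₁ μ₁ M e ∧ (2 * b) ^ (2 * l + 6) * (2 * b) ^ 3 * (e.size + 1) < F.size + 1)
        0 F := by
      refine hFX.monoQ fun e he => ⟨he.1, ?_⟩
      rw [← pow_add]
      exact he.2
    have hA1 : 1 ≤ (2 * b) ^ (2 * l + 6) := Nat.one_le_pow _ _ (by omega)
    have hq1 : (q : ℝ) + 1 ≤ γ1 * (F.size + 1) := hM1.trans (mul_le_mul_of_nonneg_left hFbig.le hγ1.le)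
    have hq2 : (q : ℝ) + 1 ≤ γ2 * (F.size + 1) := hM2.trans (mul_le_mul_of_nonneg_left hFbig.le hγ2.le)
    have hTop1 : ∀ n, F.size + 1 ≤ n → Top3Y b q (ε1 * (F.size + 1)) (LtX b γ1 n) (HX b l K A' θw ε₁ μ₁ M) F :=
      fun n hn => (top3y_of_fx hb hA1 hγ1 hγK1 (ht0 hε0) hFX' hcl hq1 hbig hn).mono
        (mul_le_mul_of_nonneg_right hεa hF0)
    have hTop2 : ∀ n, F.size + 1 ≤ n → Top3Y b q (ε2 * (F.size + 1)) (LtX b γ2 n) (HX b l K A' θw ε₁ μ₁ M) F :=
      fun n hn => (top3y_of_fx hb hA1 hγ2 hγK2 (ht0 hε0) hFX' hcl hq2 hbig hn).mono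
        (mul_le_mul_of_nonneg_right hεb hF0)
    obtain ⟨s, hs⟩ := AER.eqt_first hF
    obtain ⟨Y, hYX, hY⟩ := exists_subset_card_eq (s := X) (n := c.size + 1 + C) (by omega)
    have hY2 : Y.card ≤ 2 * (c.size + 1) := by omega
    have hY2' : (Y.card : ℝ) ≤ 2 * (c.size + 1) := by exact_mod_cast hY2
    have hBY : (B : ℝ) ≤ Y.card := by
      have : B ≤ Y.card := by omega
      exact_mod_cast this
    have hYc : (c.size : ℝ) + 1 + C = Y.card := by
      rw [hY]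
      push_cast
      ring
    have hθY : θ * Y.card ≤ (F.size + 1 : ℝ) := by
      refine le_trans ?_ hθF
      rw [hθdef]
      have e1 := mul_le_mul_of_nonneg_left hY2' hθ'.le
      linarith only [e1]
    have hsz : (Fd.node true F s).size = c.size := hs.size
    have hsz' : F.size + s.size + 1 = c.size := hsz
    have hlen : (Fd.node true F s).len ≤ b := by rw [hs.len]; exact hl
    have hdeg : (Fd.node true F s).Deg b := hs.deg b hD
    have hblk := blk_le s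
    have hp : ((blk s + c1 : ℕ) : ℝ) + 4 * ω * Y.card ≤ Y.card := by
      have e1 : ((blk s + F.size + 1 : ℕ) : ℝ) ≤ Y.card := by
        have : blk s + F.size + 1 ≤ Y.card := by omega
        exact_mod_cast this
      push_cast at e1 ⊢
      have e2 : θ / 2 * B ≤ θ / 2 * Y.card := mul_le_mul_of_nonneg_left hBY (by positivity)
      have e3 : 4 * ω * Y.card ≤ θ / 2 * Y.card := mul_le_mul_of_nonneg_right (by linarith only [hωθ]) (Nat.cast_nonneg _)
      linarith only [hB3, hθY, e1, e2, e3]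
    obtain ⟨k, U, K', 𝓛, hk1, hk2, hJ, hUK⟩ := hP hT Y (blk s + c1) (by omega) hp
    have hIn : In R (.node true F s) (fun _ => True) Y := by
      by_cases hU : blk s + c1 + m0 ≤ U.card
      · refine h2 hT Y U 𝓛 k hk1 hk2 hJ F s hlen hdeg hTop2 hθY ?_ ?_ hU
        · rw [hsz]
          linarith only [hC2, hYc]
        · rcases hUK with h | h
          · exact Or.inl h
          · exact Or.inr ⟨K', h⟩
      · rcases hUK with h | h
        · exfalso
          apply hU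
          have e1 := h.lo
          have e2 : ω / 4 * B ≤ ω / 4 * Y.card := mul_le_mul_of_nonneg_left hBY (by positivity)
          have e3 : ((blk s + c1 + m0 : ℕ) : ℝ) ≤ U.card := by
            push_cast at e1 ⊢
            linarith only [hB4, e2, e1]
          exact_mod_cast e3
        · exact h1 hT Y U K' 𝓛 k hk1 hk2 hJ F s hlen hdeg hTop1 hθY (by rw [hsz]; linarith only [hC1, hYc]) h (by omega)
    obtain ⟨x, hx, A, hA, hxA, hN, hE⟩ := hIn
    refine ⟨x, hYX hx, A, hA.trans hYX, hxA, trivial, ?_⟩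
    exact hs.emb hE

/-- **the statement for coded trees** -/
theorem sfy_main (hP : PartsSt) (h1 : T1YSt) (h2 : T2YSt) : SFYSt := by
  intro b l hb θ' hθ'
  obtain ⟨A₀, hBx⟩ := bxl_all b l hb
  have hBx := hBx A₀ le_rfl (1 / 2) (by norm_num) le_rfl
  obtain ⟨q, hq⟩ : ∃ q : ℕ, q = ∑ i ∈ range (l + 1), b ^ i := ⟨_, rfl⟩
  obtain ⟨θ, hθdef⟩ : ∃ θ : ℝ, θ = θ' / 2 := ⟨_, rfl⟩
  have hθ : 0 < θ := by rw [hθdef]; positivity
  obtain ⟨ω1, hω1, h1⟩ := h1 b q hb θ hθ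
  obtain ⟨ω2, hω2, h2⟩ := h2 b q hb θ hθ
  obtain ⟨ω, hω⟩ : ∃ ω : ℝ, ω = min (min ω1 ω2) (min (θ / 8) (1 / 8)) := ⟨_, rfl⟩
  have hω0 : 0 < ω := by
    rw [hω]
    exact lt_min (lt_min hω1 hω2) (lt_min (by positivity) (by norm_num))
  have hωa : ω ≤ ω1 := by rw [hω]; exact (min_le_left _ _).trans (min_le_left _ _)
  have hωb : ω ≤ ω2 := by rw [hω]; exact (min_le_left _ _).trans (min_le_right _ _)
  have hωθ : ω ≤ θ / 8 := by rw [hω]; exact (min_le_right _ _).trans (min_le_left _ _)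
  have hω8 : ω ≤ 1 / 8 := by rw [hω]; exact (min_le_right _ _).trans (min_le_right _ _)
  obtain ⟨ζ1, hζ1, h1⟩ := h1 ω hω0 hωa
  obtain ⟨ζ2, hζ2, h2⟩ := h2 ω hω0 hωb
  obtain ⟨ζ, hζ⟩ : ∃ ζ : ℝ, ζ = min ζ1 ζ2 := ⟨_, rfl⟩
  have hζ0 : 0 < ζ := by rw [hζ]; exact lt_min hζ1 hζ2
  obtain ⟨lam, J, hlam, hP⟩ := hP ω ζ hω0 hω8 hζ0
  obtain ⟨a11, ha11, h1⟩ := h1 ζ hζ0 (by rw [hζ]; exact min_le_left _ _) lam hlam J
  obtain ⟨a12, ha12, h2⟩ := h2 ζ hζ0 (by rw [hζ]; exact min_le_right _ _) lam hlam J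
  obtain ⟨a1, ha1⟩ : ∃ a : ℝ, a = min (min a11 a12) 1 := ⟨_, rfl⟩
  have ha10 : 0 < a1 := by rw [ha1]; exact lt_min (lt_min ha11 ha12) one_pos
  obtain ⟨a21, ha21, h1⟩ := h1 a1 ha10 (by rw [ha1]; exact (min_le_left _ _).trans (min_le_left _ _))
  obtain ⟨a22, ha22, h2⟩ := h2 a1 ha10 (by rw [ha1]; exact (min_le_left _ _).trans (min_le_right _ _))
  obtain ⟨a2, ha2⟩ : ∃ a : ℝ, a = min (min a21 a22) 1 := ⟨_, rfl⟩
  have ha20 : 0 < a2 := by rw [ha2]; exact lt_min (lt_min ha21 ha22) one_pos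
  obtain ⟨k0, n1, hk0, hP⟩ := hP a1 a2 ha10 (by rw [ha1]; exact min_le_right _ _) ha20 (by rw [ha2]; exact min_le_right _ _)
  obtain ⟨N2, e2, m2, c1, m0, τ2, d2, ε2, hN2, hτ2, hd2, hε2, h2⟩ :=
    h2 a2 ha20 (by rw [ha2]; exact (min_le_left _ _).trans (min_le_right _ _)) k0 hk0
  obtain ⟨N1, e1, m1, τ1, d1, ε1, hN1, hτ1, hd1, hε1, h1⟩ :=
    h1 a2 ha20 (by rw [ha2]; exact (min_le_left _ _).trans (min_le_left _ _)) k0 hk0 c1 m0
  obtain ⟨γ1, ε01, μ01, K1, nb1, hγ1, hε01, hμ01, hB1⟩ := hBx N1 e1 m1 hN1 hτ1 hd1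
  obtain ⟨γ2, ε02, μ02, K2, nb2, hγ2, hε02, hμ02, hB2⟩ := hBx N2 e2 m2 hN2 hτ2 hd2
  obtain ⟨Cb1, hB1⟩ := hB1 ε01 μ01 le_rfl le_rfl K1 le_rfl 0
  obtain ⟨Cb2, hB2⟩ := hB2 ε02 μ02 le_rfl le_rfl K2 le_rfl 0
  obtain ⟨C1, h1⟩ := h1 _ _ nb1 Cb1 (hB1 Cb1 le_rfl)
  obtain ⟨C2, h2⟩ := h2 _ _ nb2 Cb2 (hB2 Cb2 le_rfl)
  obtain ⟨C, hC1, hC2⟩ : ∃ C : ℕ, C1 ≤ C ∧ C2 ≤ C := by
    obtain ⟨C, hC⟩ := exists_nat_ge (max C1 C2)
    exact ⟨C, (le_max_left _ _).trans hC, (le_max_right _ _).trans hC⟩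
  have hb' : (1 : ℝ) ≤ b := by exact_mod_cast hb
  -- the bound for the branches towards the first three levels
  obtain ⟨ε, hε⟩ : ∃ ε : ℝ, ε = min (min ε1 ε2) (1 / (2 * b ^ 3)) := ⟨_, rfl⟩
  have hε0 : 0 < ε := by rw [hε]; exact lt_min (lt_min hε1 hε2) (by positivity)
  have hεa : ε ≤ ε1 := by rw [hε]; exact (min_le_left _ _).trans (min_le_left _ _)
  have hεb : ε ≤ ε2 := by rw [hε]; exact (min_le_left _ _).trans (min_le_right _ _)
  have hεc : ε * (b : ℝ) ^ 3 ≤ 1 / 2 := by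
    have h3 : ε ≤ 1 / (2 * (b : ℝ) ^ 3) := by rw [hε]; exact min_le_right _ _
    rw [le_div_iff₀ (by positivity)] at h3
    linarith only [h3]
  -- the size of the branch from which on everything works
  obtain ⟨M, hM1, hM2, hM3⟩ : ∃ M : ℕ, (q : ℝ) ≤ γ1 * M ∧ (q : ℝ) ≤ γ2 * M ∧ 2 * (b : ℝ) ^ 2 + 2 * b + 2 ≤ M := by
    obtain ⟨M1, hM1⟩ := exists_nat_ge ((q : ℝ) / γ1)
    obtain ⟨M2, hM2⟩ := exists_nat_ge ((q : ℝ) / γ2)
    have e1 : (0 : ℝ) ≤ M1 := Nat.cast_nonneg _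
    have e2 : (0 : ℝ) ≤ M2 := Nat.cast_nonneg _
    have e3 : (0 : ℝ) ≤ 2 * (b : ℝ) ^ 2 + 2 * b + 2 := by positivity
    rw [div_le_iff₀' hγ1] at hM1
    rw [div_le_iff₀' hγ2] at hM2
    refine ⟨M1 + M2 + (2 * b ^ 2 + 2 * b + 2), ?_, ?_, ?_⟩
    · refine hM1.trans (mul_le_mul_of_nonneg_left ?_ hγ1.le)
      push_cast
      linarith only [e3]
    · refine hM2.trans (mul_le_mul_of_nonneg_left ?_ hγ2.le)
      push_cast
      linarith only [e3]
    · push_cast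
      linarith only []
  -- the order from which on everything works
  obtain ⟨B, hB1, hB2, hB3, hB4, hB5⟩ : ∃ B : ℕ, n1 ≤ B ∧ C ≤ B ∧ (c1 : ℝ) ≤ θ / 2 * B ∧ (m0 : ℝ) ≤ ω / 4 * B ∧
      (M : ℝ) ≤ θ' * B := by
    obtain ⟨B1, hB1⟩ := exists_nat_ge ((c1 : ℝ) / (θ / 2))
    obtain ⟨B2, hB2⟩ := exists_nat_ge ((m0 : ℝ) / (ω / 4))
    obtain ⟨B3, hB3⟩ := exists_nat_ge ((M : ℝ) / θ')
    have e1 : (0 : ℝ) ≤ n1 := Nat.cast_nonneg _
    have e2 : (0 : ℝ) ≤ C := Nat.cast_nonneg _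
    have e3 : (0 : ℝ) ≤ B1 := Nat.cast_nonneg _
    have e4 : (0 : ℝ) ≤ B2 := Nat.cast_nonneg _
    have e5 : (0 : ℝ) ≤ B3 := Nat.cast_nonneg _
    rw [div_le_iff₀' (by positivity)] at hB1
    rw [div_le_iff₀' (by positivity)] at hB2
    rw [div_le_iff₀' hθ'] at hB3
    refine ⟨n1 + C + B1 + B2 + B3, by omega, by omega, ?_, ?_, ?_⟩
    · refine hB1.trans (mul_le_mul_of_nonneg_left ?_ (by positivity))
      push_cast
      linarith only []
    · refine hB2.trans (mul_le_mul_of_nonneg_left ?_ (by positivity))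
      push_cast
      linarith only []
    · refine hB3.trans (mul_le_mul_of_nonneg_left ?_ hθ'.le)
      push_cast
      linarith only []
  refine ⟨ε, 4 * B, hε0, ?_⟩
  intro V R hT c F hl hD hF hθF hFO hsd hTE X hX
  by_cases hsm : c.size + 1 ≤ B
  · -- small trees
    refine AEX.un_four hT b c hl hD X ?_
    have e1 : ((c.size + 1 + 4 * B : ℕ) : ℝ) ≤ X.card := by exact_mod_cast hX
    have e2 : ((c.size + 1 : ℕ) : ℝ) ≤ B := by exact_mod_cast hsm
    push_cast at e1 e2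
    have e3 : (0 : ℝ) ≤ c.size := Nat.cast_nonneg _
    linarith only [hω0, hω8, e1, e2]
  · -- large trees
    push Not at hsm
    have hFbig : (M : ℝ) < F.size + 1 := by
      have e1 : (B : ℝ) < c.size + 1 := by exact_mod_cast hsm
      have e2 : θ' * B < θ' * (c.size + 1) := mul_lt_mul_of_pos_left e1 hθ'
      linarith only [hB5, hθF, e2]
    have hF0 : (0 : ℝ) ≤ F.size + 1 := by (clear * -; positivity)
    have ht0 : 0 ≤ ε * ((F.size : ℝ) + 1) := by (clear * - hε0; positivity)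
    have hbig : (b : ℝ) * (b * (b * (ε * (F.size + 1)) + 1) + 1) < F.size := by
      have e1 : (b : ℝ) * (b * (b * (ε * (F.size + 1)) + 1) + 1) = ε * (b : ℝ) ^ 3 * (F.size + 1) + (b : ℝ) ^ 2 + b := by
        ring
      have e2 : ε * (b : ℝ) ^ 3 * (F.size + 1) ≤ 1 / 2 * (F.size + 1) := mul_le_mul_of_nonneg_right hεc hF0
      rw [e1]
      linarith only [hM3, hFbig, e2]
    have hLt : ∀ {γ : ℝ}, 0 < γ → (q : ℝ) ≤ γ * M → ∀ n : ℕ, F.size + 1 ≤ n → ∀ D, FOK b l 0 D → LtX b γ n D := by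
      intro γ hγ hqγ n hn D hD'
      refine ⟨hD'.1, hD'.2.1, ?_⟩
      have e1 := hD'.blk_le (Nat.zero_le l)
      simp only [Nat.sub_zero] at e1
      rw [← hq] at e1
      have e2 : ((AEB.blk D : ℝ) + 1) ≤ q := by exact_mod_cast e1
      have e3 : (F.size + 1 : ℝ) ≤ n := by exact_mod_cast hn
      have e4 : γ * M ≤ γ * n := mul_le_mul_of_nonneg_left (by linarith only [hFbig, e3]) hγ.le
      linarith only [hqγ, e2, e4]
    have hTop1 : ∀ n, F.size + 1 ≤ n → Top3Y b q (ε1 * (F.size + 1)) (LtX b γ1 n) (HX b l K1 A₀ (1 / 2) ε01 μ01 0) F :=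
      fun n hn => (top3y_of hb hq.symm.le ht0 hFO hsd (hLt hγ1 hM1 n hn)
        (fun D h3 h4 => FX.of_fol (fol_of_fok h3 h4)) hTE hbig).mono (mul_le_mul_of_nonneg_right hεa hF0)
    have hTop2 : ∀ n, F.size + 1 ≤ n → Top3Y b q (ε2 * (F.size + 1)) (LtX b γ2 n) (HX b l K2 A₀ (1 / 2) ε02 μ02 0) F :=
      fun n hn => (top3y_of hb hq.symm.le ht0 hFO hsd (hLt hγ2 hM2 n hn)
        (fun D h3 h4 => FX.of_fol (fol_of_fok h3 h4)) hTE hbig).mono (mul_le_mul_of_nonneg_right hεb hF0)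
    obtain ⟨s, hs⟩ := AER.eqt_first hF
    obtain ⟨Y, hYX, hY⟩ := exists_subset_card_eq (s := X) (n := c.size + 1 + C) (by omega)
    have hY2 : Y.card ≤ 2 * (c.size + 1) := by omega
    have hY2' : (Y.card : ℝ) ≤ 2 * (c.size + 1) := by exact_mod_cast hY2
    have hBY : (B : ℝ) ≤ Y.card := by
      have : B ≤ Y.card := by omega
      exact_mod_cast this
    have hYc : (c.size : ℝ) + 1 + C = Y.card := by
      rw [hY]
      push_cast
      ring
    have hθY : θ * Y.card ≤ (F.size + 1 : ℝ) := by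
      refine le_trans ?_ hθF
      rw [hθdef]
      have e1 := mul_le_mul_of_nonneg_left hY2' hθ'.le
      linarith only [e1]
    have hsz : (Fd.node true F s).size = c.size := hs.size
    have hsz' : F.size + s.size + 1 = c.size := hsz
    have hlen : (Fd.node true F s).len ≤ b := by rw [hs.len]; exact hl
    have hdeg : (Fd.node true F s).Deg b := hs.deg b hD
    have hblk := blk_le s
    have hp : ((blk s + c1 : ℕ) : ℝ) + 4 * ω * Y.card ≤ Y.card := by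
      have e1 : ((blk s + F.size + 1 : ℕ) : ℝ) ≤ Y.card := by
        have : blk s + F.size + 1 ≤ Y.card := by omega
        exact_mod_cast this
      push_cast at e1 ⊢
      have e2 : θ / 2 * B ≤ θ / 2 * Y.card := mul_le_mul_of_nonneg_left hBY (by positivity)
      have e3 : 4 * ω * Y.card ≤ θ / 2 * Y.card := mul_le_mul_of_nonneg_right (by linarith only [hωθ]) (Nat.cast_nonneg _)
      linarith only [hB3, hθY, e1, e2, e3]
    obtain ⟨k, U, K', 𝓛, hk1, hk2, hJ, hUK⟩ := hP hT Y (blk s + c1) (by omega) hp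
    have hIn : In R (.node true F s) (fun _ => True) Y := by
      by_cases hU : blk s + c1 + m0 ≤ U.card
      · refine h2 hT Y U 𝓛 k hk1 hk2 hJ F s hlen hdeg hTop2 hθY ?_ ?_ hU
        · rw [hsz]
          linarith only [hC2, hYc]
        · rcases hUK with h | h
          · exact Or.inl h
          · exact Or.inr ⟨K', h⟩
      · rcases hUK with h | h
        · exfalso
          apply hU
          have e1 := h.lo
          have e2 : ω / 4 * B ≤ ω / 4 * Y.card := mul_le_mul_of_nonneg_left hBY (by positivity)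
          have e3 : ((blk s + c1 + m0 : ℕ) : ℝ) ≤ U.card := by
            push_cast at e1 ⊢
            linarith only [hB4, e2, e1]
          exact_mod_cast e3
        · exact h1 hT Y U K' 𝓛 k hk1 hk2 hJ F s hlen hdeg hTop1 hθY (by rw [hsz]; linarith only [hC1, hYc]) h (by omega)
    obtain ⟨x, hx, A, hA, hxA, hN, hE⟩ := hIn
    refine ⟨x, hYX hx, A, hA.trans hYX, hxA, trivial, ?_⟩
    exact hs.emb hE

end AESY
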