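import Pool.Agent.AESY.Defs

/-!
# Free ends: the trees pending on the in-closure
-/

set_option autoImplicit false

namespace AESY

open Finset AE15 AED AELT AEB AESF
open scoped Classical

theorem pnd_deg {b : ℕ} {F : Fd} (h : F.Deg b) : ∀ D ∈ pnd F, D.len ≤ b ∧ D.Deg b := by
  induction F with
  | nil => simp [pnd]
  | node d c s ihc ihs =>
    obtain ⟨h1, h2, h3⟩ := h
    intro D hD
    cases d
    · simp only [pnd, Bool.false_eq_true, if_false, List.mem_append] at hD
      exact hD.elim (ihc h2 D) (ihs h3 D)
    · simp only [pnd, if_true, List.mem_cons] at hD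
      rcases hD with rfl | hD
      · exact ⟨h1, h2⟩
      · exact ihs h3 D hD

theorem pin_deg {b : ℕ} {F : Fd} (h : F.Deg b) : ∀ D ∈ pin F, D.len ≤ b ∧ D.Deg b := by
  induction F with
  | nil => simp [pin]
  | node d c s _ ihs =>
    obtain ⟨h1, h2, h3⟩ := h
    intro D hD
    cases d
    · simp only [pin, Bool.false_eq_true, if_false, List.mem_append] at hD
      exact hD.elim (pnd_deg h2 D) (ihs h3 D)
    · simp only [pin, if_true] at hD
      exact ihs h3 D hD

end AESY
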