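import Pool.Agent.AESY.Defs
import Pool.Agent.AESF.Routes

/-!
# Free ends without the cleanliness condition: the routes, with a linear forbidden set
-/

set_option autoImplicit false

namespace AESY

open Finset AE15 AED AELT AEB AESF
open scoped Classical

variable {V : Type} {R : V → V → Prop}

/-- a forbidden set of linear size: the smallness conditions -/
theorem lin_e {δ a c n : ℝ} (ha : 0 < a) (hδ : 2 * (c * δ) ≤ a) (hn0 : 0 ≤ n) (hn : 2 * c / a ≤ n) :
    c * (δ * n + 1) ≤ a * n := by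
  rw [div_le_iff₀ ha] at hn
  have h1 : 2 * (c * δ) * n ≤ a * n := mul_le_mul_of_nonneg_right hδ hn0
  nlinarith only [hn, h1]

/-- the middle vertices of the broadcast in a part `L` below `w` -/
theorem pick_fY (hT : AE32.Tour R) (b B : ℕ) {L Q E : Finset V} {w : V} {τ : ℝ} (hτ : 0 < τ) (hwE : w ∈ E)
    (hx : ∀ x ∈ Q, τ * L.card ≤ ((nI R L x).card : ℝ)) (hw : ((nI R L w).card : ℝ) ≤ τ / 2 * L.card)
    (hE : ((L ∩ E).card : ℝ) ≤ τ / 4 * L.card) (hQ0 : 0 < Q.card) (hQ : (B : ℝ) ≤ τ / 8 * Q.card)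
    (hL : (b : ℝ) ≤ τ ^ 2 / 32 * L.card) :
    ∃ f : ℕ → V, (∀ j < b, f j ∈ L ∧ f j ∉ E ∧ R w (f j) ∧ B ≤ (Q.filter (fun x => R (f j) x)).card) ∧
      ∀ i < b, ∀ j < b, f i = f j → i = j := by
  obtain ⟨L', hL'⟩ : ∃ L', L' = (L \ E) \ nI R L w := ⟨_, rfl⟩
  have hx' : ∀ x ∈ Q, τ / 4 * L.card ≤ ((nI R L' x).card : ℝ) := by
    intro x hxQ
    have h1 : nI R L x ⊆ nI R L' x ∪ ((L ∩ E) ∪ nI R L w) := by
      intro u hu
      rw [mem_nI] at hu
      rw [mem_union, mem_union, mem_inter, mem_nI, hL', mem_sdiff, mem_sdiff]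
      tauto
    have h2 : ((nI R L x).card : ℝ) ≤ (nI R L' x).card + ((L ∩ E).card + (nI R L w).card) := by
      exact_mod_cast (card_le_card h1).trans ((card_union_le _ _).trans (Nat.add_le_add_left (card_union_le _ _) _))
    have := hx x hxQ
    linarith only [hw, hE, h2, this]
  have hL'L : (L'.card : ℝ) ≤ L.card := by
    rw [hL']
    exact_mod_cast card_le_card (sdiff_subset.trans sdiff_subset)
  have h1 := many (R := R) (L := L') (Q := Q) (a := τ / 8) (by positivity) hQ0 (fun x hxQ => by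
    refine le_trans ?_ (hx' x hxQ)
    have : τ / 4 * (L'.card : ℝ) ≤ τ / 4 * L.card := mul_le_mul_of_nonneg_left hL'L (by positivity)
    linarith only [this])
  obtain ⟨x₀, hx₀⟩ := card_pos.1 hQ0
  have h2 : τ / 4 * (L.card : ℝ) ≤ L'.card :=
    (hx' x₀ hx₀).trans (by exact_mod_cast card_le_card nI_sub)
  have h3 : (b : ℝ) ≤ ((L'.filter (fun f => τ / 8 * Q.card ≤ ((nO R Q f).card : ℝ))).card : ℝ) := by
    refine le_trans ?_ h1
    have : τ / 8 * (τ / 4 * (L.card : ℝ)) ≤ τ / 8 * L'.card := mul_le_mul_of_nonneg_left h2 (by positivity)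
    nlinarith only [hL, this]
  obtain ⟨f, hf, hfi⟩ := choose_inj (F := L'.filter (fun f => τ / 8 * Q.card ≤ ((nO R Q f).card : ℝ))) w b
    (by exact_mod_cast h3)
  refine ⟨f, fun j hj => ?_, hfi⟩
  have h4 := hf j hj
  rw [mem_filter, hL', mem_sdiff, mem_sdiff, mem_nI] at h4
  obtain ⟨⟨⟨h5, h6⟩, h7⟩, h8⟩ := h4
  have hne : f j ≠ w := fun h => h6 (h ▸ hwE)
  refine ⟨h5, h6, ?_, ?_⟩
  · rcases hT.tot (f j) w hne with h9 | h9
    · exact absurd ⟨h5, h9⟩ h7
    · exact h9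
  · have : (B : ℝ) ≤ ((nO R Q (f j)).card : ℝ) := hQ.trans h8
    exact_mod_cast this

/-- **Routes in the case of a cut** -/
theorem route_cutY (b B J : ℕ) {s ω τ₀ lam : ℝ} (hs : 0 < s) (hω : 0 < ω) (hτ₀ : 0 < τ₀) (hlam : 0 < lam) :
    ∃ (N₁ n₀ : ℕ) (δ : ℝ), 0 < δ ∧ ∀ {V : Type} {R : V → V → Prop}, AE32.Tour R → ∀ {X U : Finset V}
      {𝓛 : Finset (Finset V)} {p : ℕ} {ζ τ ν : ℝ}, CutD R X U 𝓛 p ω ζ lam τ ν → 𝓛.card ≤ J → τ₀ ≤ τ →
      16 * ν ≤ s * ω → 8 * ν ≤ τ * lam → n₀ ≤ X.card → ∀ {P Fb Q : Finset V} {y : V}, P ⊆ U →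
      ω / 8 * X.card ≤ (P.card : ℝ) → s * P.card ≤ ((nO R P y).card : ℝ) → (Fb.card : ℝ) ≤ δ * X.card → Q ⊆ X \ U →
      N₁ ≤ Q.card →
      (∃ x ∈ Q, ∃ v ∈ P, v ∉ Fb ∧ R y v ∧ R v x) ∨
      ∃ w ∈ P, w ∉ Fb ∧ R y w ∧ ∃ f : ℕ → V, (∀ j < b, f j ∈ X ∧ f j ∉ U ∧ f j ∉ Fb ∧ f j ≠ w ∧ R w (f j) ∧
        B ≤ (Q.filter (fun x => R (f j) x)).card) ∧ ∀ i < b, ∀ j < b, f i = f j → i = j := by
  obtain ⟨N', hN'⟩ := exists_nat_ge (8 * (B : ℝ) / τ₀)
  obtain ⟨δ, hδ⟩ : ∃ δ : ℝ, δ = min (s * ω / 64) (τ₀ * lam / 16) := ⟨_, rfl⟩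
  have hδ0 : 0 < δ := by rw [hδ]; positivity
  have hδ1 : 2 * (32 * δ) ≤ s * ω := by
    have h1 : δ ≤ s * ω / 64 := by rw [hδ]; exact min_le_left _ _
    linarith only [h1]
  have hδ2 : 2 * (8 * δ) ≤ τ₀ * lam := by
    have h1 : δ ≤ τ₀ * lam / 16 := by rw [hδ]; exact min_le_right _ _
    linarith
  obtain ⟨n₀, hn₀⟩ := exists_nat_ge (2 * 32 / (s * ω) + 2 * 8 / (τ₀ * lam) + 32 * b / (τ₀ ^ 2 * lam))
  refine ⟨J * N' + 1, n₀, δ, hδ0, ?_⟩
  intro V R hT X U 𝓛 p ζ τ ν hC hJ hτ hν1 hν2 hn P Fb Q y hPU hP hy hFb hQ hN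
  have hτ0 : 0 < τ := lt_of_lt_of_le hτ₀ hτ
  have hX : (n₀ : ℝ) ≤ X.card := by exact_mod_cast hn
  have hX0 : (0 : ℝ) ≤ X.card := Nat.cast_nonneg _
  have t1 : 0 ≤ 2 * 32 / (s * ω) := by positivity
  have t2 : 0 ≤ 2 * 8 / (τ₀ * lam) := by positivity
  have t3 : 0 ≤ 32 * (b : ℝ) / (τ₀ ^ 2 * lam) := by positivity
  obtain ⟨e, he⟩ : ∃ e : ℝ, e = δ * X.card := ⟨_, rfl⟩
  have he0 : 0 ≤ e := by rw [he]; (clear * - hδ0; positivity)
  have n1 : 32 * ((e : ℝ) + 1) ≤ s * ω * X.card := by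
    rw [he]
    exact lin_e (by positivity) hδ1 hX0 (by linarith only [hn₀, hX, t2, t3])
  have n2 : 8 * ((e : ℝ) + 1) ≤ τ₀ * lam * X.card := by
    rw [he]
    exact lin_e (by positivity) hδ2 hX0 (by linarith only [hn₀, hX, t1, t3])
  have n3 : 32 * (b : ℝ) ≤ τ₀ ^ 2 * lam * X.card := by
    have : 32 * (b : ℝ) / (τ₀ ^ 2 * lam) ≤ X.card := by linarith only [hn₀, hX, t1, t2]
    rw [div_le_iff₀ (by positivity)] at this
    linarith only [this]
  have hFb' : (Fb.card : ℝ) ≤ e := by rw [he]; exact hFb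
  -- the out-neighbours of `y` in `P`
  have hout : s * ω / 8 * X.card ≤ ((nO R P y).card : ℝ) := by
    have : s * (ω / 8 * X.card) ≤ s * P.card := mul_le_mul_of_nonneg_left hP hs.le
    linarith only [hy, this]
  have hνX : 16 * ν * X.card ≤ s * ω * X.card := mul_le_mul_of_nonneg_right hν1 hX0
  by_cases hA : ∃ x ∈ Q, ((nO R U x).card : ℝ) ≤ ν * X.card
  · left
    obtain ⟨x, hxQ, hx⟩ := hA
    have hxU : x ∉ U := (mem_sdiff.1 (hQ hxQ)).2
    by_contra hc
    push Not at hc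
    have h1 : nO R P y ⊆ Fb ∪ nO R U x := by
      intro v hv
      rw [mem_nO] at hv
      by_cases hvF : v ∈ Fb
      · exact mem_union_left _ hvF
      · have h2 := hc x hxQ v hv.1 hvF hv.2
        have hvU := hPU hv.1
        have hne : v ≠ x := fun h => hxU (h ▸ hvU)
        rcases hT.tot v x hne with h3 | h3
        · exact absurd h3 h2
        · exact mem_union_right _ (mem_nO.2 ⟨hvU, h3⟩)
    have h2 : ((nO R P y).card : ℝ) ≤ Fb.card + (nO R U x).card := by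
      exact_mod_cast (card_le_card h1).trans (card_union_le _ _)
    have : 0 < s * ω * X.card := by linarith only [hFb, he, n1, hout, hνX, hx, h2]
    linarith only [hFb, he, n1, hout, hνX, hx, h2]
  · right
    push Not at hA
    have hL : ∀ x ∈ Q, ∃ L ∈ 𝓛, τ * L.card ≤ ((nI R L x).card : ℝ) := by
      intro x hxQ
      rcases hC.out x (hQ hxQ) with h1 | h1
      · exact absurd h1 (not_le.2 (hA x hxQ))
      · exact h1
    obtain ⟨L, hL𝓛, hLN⟩ := pigeon (N := N') hJ hL (by omega)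
    obtain ⟨Q', hQ'⟩ : ∃ Q', Q' = Q.filter (fun x => τ * L.card ≤ ((nI R L x).card : ℝ)) := ⟨_, rfl⟩
    rw [← hQ'] at hLN
    have hbig : lam * X.card ≤ (L.card : ℝ) := hC.big L hL𝓛
    have hτL : τ * lam * X.card ≤ τ * L.card := by
      have := mul_le_mul_of_nonneg_left hbig hτ0.le
      linarith only [this]
    have hτ₀τ : τ₀ * lam * X.card ≤ τ * lam * X.card :=
      mul_le_mul_of_nonneg_right (mul_le_mul_of_nonneg_right hτ hlam.le) hX0
    have hν2X : 8 * ν * X.card ≤ τ * lam * X.card := mul_le_mul_of_nonneg_right hν2 hX0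
    -- the vertex `w`
    obtain ⟨w, hw⟩ : ((nO R P y) \ (Fb ∪ U.filter (fun w => ∃ L ∈ 𝓛, τ / 2 * L.card < ((nI R L w).card : ℝ)))).Nonempty := by
      rw [← card_pos]
      have h1 := le_card_sdiff (Fb ∪ U.filter (fun w => ∃ L ∈ 𝓛, τ / 2 * L.card < ((nI R L w).card : ℝ))) (nO R P y)
      have h2 := card_union_le Fb (U.filter (fun w => ∃ L ∈ 𝓛, τ / 2 * L.card < ((nI R L w).card : ℝ)))
      have h3 := hC.gen
      have h4 : ((Fb ∪ U.filter (fun w => ∃ L ∈ 𝓛, τ / 2 * L.card < ((nI R L w).card : ℝ))).card : ℝ) ≤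
          e + ν * X.card := by
        have h5 : ((Fb ∪ U.filter (fun w => ∃ L ∈ 𝓛, τ / 2 * L.card < ((nI R L w).card : ℝ))).card : ℝ) ≤
          Fb.card + ((U.filter (fun w => ∃ L ∈ 𝓛, τ / 2 * L.card < ((nI R L w).card : ℝ))).card : ℝ) := by
          exact_mod_cast h2
        linarith only [hFb, he, h3, h5]
      have h6 : ((Fb ∪ U.filter (fun w => ∃ L ∈ 𝓛, τ / 2 * L.card < ((nI R L w).card : ℝ))).card : ℝ) <
          ((nO R P y).card : ℝ) := by
        have : 0 < s * ω * X.card := by linarith only [hFb, he, n1]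
        linarith only [hFb, he, n1, hout, hνX, h4]
      have h7 : (Fb ∪ U.filter (fun w => ∃ L ∈ 𝓛, τ / 2 * L.card < ((nI R L w).card : ℝ))).card < (nO R P y).card := by
        exact_mod_cast h6
      omega
    rw [mem_sdiff, mem_union, not_or, mem_nO, mem_filter, not_and] at hw
    obtain ⟨⟨hwP, hyw⟩, hwF, hwg⟩ := hw
    have hwU := hPU hwP
    have hwL : ((nI R L w).card : ℝ) ≤ τ / 2 * L.card := by
      have h1 := hwg hwU
      push Not at h1
      exact h1 L hL𝓛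
    obtain ⟨f, hf, hfi⟩ := pick_fY hT b B (L := L) (Q := Q') (E := insert w (U ∪ Fb)) (w := w) hτ0 (mem_insert_self _ _)
      (fun x hx => by rw [hQ', mem_filter] at hx; exact hx.2) hwL (by
        have h1 : L ∩ insert w (U ∪ Fb) ⊆ insert w ((L ∩ U) ∪ Fb) := by
          intro u hu
          rw [mem_inter, mem_insert, mem_union] at hu
          rw [mem_insert, mem_union, mem_inter]
          tauto
        have h2 : ((L ∩ insert w (U ∪ Fb)).card : ℝ) ≤ (L ∩ U).card + Fb.card + 1 := by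
          exact_mod_cast (card_le_card h1).trans ((card_insert_le _ _).trans (Nat.add_le_add_right (card_union_le _ _) _))
        have h3 := hC.dis L hL𝓛
        linarith only [hFb, he, n2, hτL, hτ₀τ, hν2X, h2, h3]) (by omega) (by
        have h1 : (N' : ℝ) ≤ Q'.card := by exact_mod_cast hLN.le
        have h2 : 8 * (B : ℝ) ≤ τ₀ * N' := by
          rw [div_le_iff₀ hτ₀] at hN'
          linarith only [hN']
        have h3 : τ₀ * (N' : ℝ) ≤ τ * Q'.card := mul_le_mul hτ h1 (Nat.cast_nonneg _) hτ0.le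
        linarith only [h2, h3]) (by
        have h1 : τ₀ ^ 2 ≤ τ ^ 2 := by gcongr
        have h2 : τ₀ ^ 2 * (lam * X.card) ≤ τ ^ 2 * L.card := mul_le_mul h1 hbig (by (clear * - hlam; positivity)) (by positivity)
        linarith only [n3, h2])
    refine ⟨w, hwP, hwF, hyw, f, fun j hj => ?_, hfi⟩
    obtain ⟨h1, h2, h3, h4⟩ := hf j hj
    rw [mem_insert, mem_union, not_or, not_or] at h2
    refine ⟨hC.subL L hL𝓛 h1, h2.2.1, h2.2.2, h2.1, h3, h4.trans (card_le_card ?_)⟩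
    rw [hQ']
    exact filter_subset_filter _ (filter_subset _ _)

/-- **Routes in the case of a thick place** -/
theorem route_thickY (b B J : ℕ) {ω τ₀ lam : ℝ} (hω : 0 < ω) (hτ₀ : 0 < τ₀) (hlam : 0 < lam) :
    ∃ (N₁ n₀ : ℕ) (δ : ℝ), 0 < δ ∧ ∀ {V : Type} {R : V → V → Prop}, AE32.Tour R → ∀ {X U K : Finset V}
      {𝓛 : Finset (Finset V)} {p : ℕ} {ζ k τ ν : ℝ}, ThickD R X U K 𝓛 p ω ζ k lam τ ν → 𝓛.card ≤ J → τ₀ ≤ τ →
      τ ≤ 1 / 8 → 2 * τ ≤ k → 16 * ν ≤ ω → 8 * ν ≤ τ * lam → n₀ ≤ X.card → ∀ {Fb Q : Finset V} {y : V}, y ∈ U →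
      (Fb.card : ℝ) ≤ δ * X.card → Q ⊆ X \ U → N₁ ≤ Q.card →
      ∃ w ∈ K, w ∉ U ∧ w ∉ Fb ∧ R y w ∧ ∃ f : ℕ → V, (∀ j < b, f j ∈ X ∧ f j ∉ U ∧ f j ∉ Fb ∧ f j ≠ w ∧ R w (f j) ∧
        B ≤ (Q.filter (fun x => R (f j) x)).card) ∧ ∀ i < b, ∀ j < b, f i = f j → i = j := by
  obtain ⟨N', hN'⟩ := exists_nat_ge (8 * (B : ℝ) / τ₀)
  obtain ⟨δ, hδ⟩ : ∃ δ : ℝ, δ = min (ω / 64) (min (τ₀ * lam / 16) (τ₀ * ω / 128)) := ⟨_, rfl⟩
  have hδ0 : 0 < δ := by rw [hδ]; positivity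
  have hδ1 : 2 * (32 * δ) ≤ ω := by
    have h1 : δ ≤ ω / 64 := by rw [hδ]; exact min_le_left _ _
    linarith
  have hδ2 : 2 * (8 * δ) ≤ τ₀ * lam := by
    have h1 : δ ≤ τ₀ * lam / 16 := by rw [hδ]; exact (min_le_right _ _).trans (min_le_left _ _)
    linarith
  have hδ3 : 2 * (64 * δ) ≤ τ₀ * ω := by
    have h1 : δ ≤ τ₀ * ω / 128 := by rw [hδ]; exact (min_le_right _ _).trans (min_le_right _ _)
    linarith only [h1]
  obtain ⟨n₀, hn₀⟩ := exists_nat_ge (2 * 32 / ω + 2 * 8 / (τ₀ * lam) +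
    32 * b / (τ₀ ^ 2 * lam) + 2 * 64 / (τ₀ * ω) + 64 * b / (τ₀ ^ 2 * ω))
  refine ⟨(J + 1) * N' + 1, n₀, δ, hδ0, ?_⟩
  intro V R hT X U K 𝓛 p ζ k τ ν hD hJ hτ hτ1 hτk hν1 hν2 hn Fb Q y hy hFb hQ hN
  have hτ0 : 0 < τ := lt_of_lt_of_le hτ₀ hτ
  have hX : (n₀ : ℝ) ≤ X.card := by exact_mod_cast hn
  have hX0 : (0 : ℝ) ≤ X.card := Nat.cast_nonneg _
  obtain ⟨e, he⟩ : ∃ e : ℝ, e = δ * X.card := ⟨_, rfl⟩
  have he0 : 0 ≤ e := by rw [he]; (clear * - hδ0; positivity)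
  have t1 : 0 ≤ 2 * 32 / ω := by positivity
  have t2 : 0 ≤ 2 * 8 / (τ₀ * lam) := by positivity
  have t3 : 0 ≤ 32 * (b : ℝ) / (τ₀ ^ 2 * lam) := by (clear * - hτ₀ hlam; positivity)
  have t4 : 0 ≤ 2 * 64 / (τ₀ * ω) := by positivity
  have t5 : 0 ≤ 64 * (b : ℝ) / (τ₀ ^ 2 * ω) := by (clear * - hτ₀ hω; positivity)
  have n1 : 32 * ((e : ℝ) + 1) ≤ ω * X.card := by
    rw [he]
    exact lin_e (by positivity) hδ1 hX0 (by linarith only [hn₀, hX, t2, t3, t4, t5])
  have n2 : 8 * ((e : ℝ) + 1) ≤ τ₀ * lam * X.card := by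
    rw [he]
    exact lin_e (by positivity) hδ2 hX0 (by linarith only [hn₀, hX, t1, t3, t4, t5])
  have n3 : 32 * (b : ℝ) ≤ τ₀ ^ 2 * lam * X.card := by
    have : 32 * (b : ℝ) / (τ₀ ^ 2 * lam) ≤ X.card := by linarith only [hn₀, hX, t1, t2, t4, t5]
    rw [div_le_iff₀ (by positivity)] at this
    linarith only [this]
  have n4 : 64 * ((e : ℝ) + 1) ≤ τ₀ * ω * X.card := by
    rw [he]
    exact lin_e (by positivity) hδ3 hX0 (by linarith only [hn₀, hX, t1, t2, t3, t5])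
  have n5 : 64 * (b : ℝ) ≤ τ₀ ^ 2 * ω * X.card := by
    have : 64 * (b : ℝ) / (τ₀ ^ 2 * ω) ≤ X.card := by linarith only [hn₀, hX, t1, t2, t3, t4]
    rw [div_le_iff₀ (by positivity)] at this
    linarith only [this]
  have hFb' : (Fb.card : ℝ) ≤ e := by rw [he]; exact hFb
  have hKX : (K.card : ℝ) ≤ X.card := by exact_mod_cast card_le_card hD.subK
  have hK1 : ω / 4 * X.card ≤ (K.card : ℝ) := hD.exK
  have hK8 : 8 * ((e : ℝ) + 1) ≤ K.card := by linarith only [n1, hK1]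
  have hK2 : 2 ≤ K.card := by
    have : (2 : ℝ) ≤ K.card := by linarith only [hτ₀, hτ, hτ1, hFb, he, n1, hK1]
    exact_mod_cast this
  have hXpos : (0 : ℝ) < X.card := by linarith only [hτ₀, hτ, hτ1, hFb, he, n1, hKX, hK1]
  have hdisK : ∀ u ∈ U, u ∉ K := fun u hu => hD.disK hτ0 hτk hK2 hu
  have hyK : y ∉ K := hdisK y hy
  -- the out-neighbours of `y` in `K`
  have hyin := hD.fewK y hy
  have hyc : ((nO R K y).card : ℝ) + (nI R K y).card = K.card := by exact_mod_cast card_nO_add_nI hT hyK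
  have hτK : τ * (K.card : ℝ) ≤ 1 / 8 * K.card := mul_le_mul_of_nonneg_right hτ1 (Nat.cast_nonneg _)
  have hνω : 16 * ν * X.card ≤ ω * X.card := mul_le_mul_of_nonneg_right hν1 hX0
  -- the two kinds
  have hL : ∀ x ∈ Q, ∃ L ∈ insert K 𝓛, τ * L.card ≤ ((nI R L x).card : ℝ) := by
    intro x hxQ
    rcases hD.out x (hQ hxQ) with h1 | ⟨L, h1, h2⟩
    · exact ⟨K, mem_insert_self _ _, h1⟩
    · exact ⟨L, mem_insert_of_mem h1, h2⟩
  obtain ⟨L, hL𝓛, hLN⟩ := pigeon (J := J + 1) (N := N') ((card_insert_le _ _).trans (Nat.add_le_add_right hJ 1)) hL (by omega)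
  obtain ⟨Q', hQ'⟩ : ∃ Q', Q' = Q.filter (fun x => τ * L.card ≤ ((nI R L x).card : ℝ)) := ⟨_, rfl⟩
  rw [← hQ'] at hLN
  have hQx : ∀ x ∈ Q', τ * L.card ≤ ((nI R L x).card : ℝ) := fun x hx => by
    rw [hQ', mem_filter] at hx
    exact hx.2
  have hbb : (B : ℝ) ≤ τ / 8 * Q'.card := by
    have h1 : (N' : ℝ) ≤ Q'.card := by exact_mod_cast hLN.le
    have h2 : 8 * (B : ℝ) ≤ τ₀ * N' := by
      rw [div_le_iff₀ hτ₀] at hN'
      linarith only [hN']
    have h3 : τ₀ * (N' : ℝ) ≤ τ * Q'.card := mul_le_mul hτ h1 (Nat.cast_nonneg _) hτ0.le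
    linarith only [h2, h3]
  have hsub : ∀ f : V, (Q'.filter (fun x => R f x)).card ≤ (Q.filter (fun x => R f x)).card := fun f => by
    rw [hQ']
    exact card_le_card (filter_subset_filter _ (filter_subset _ _))
  rcases mem_insert.1 hL𝓛 with hLK | hL𝓛
  · -- inside the thick part
    rw [hLK] at hQx
    obtain ⟨K₀, hK₀⟩ : ∃ K₀, K₀ = K \ Fb := ⟨_, rfl⟩
    have hK₀c : (K.card : ℝ) ≤ K₀.card + e := by
      have h1 := le_card_sdiff Fb K
      have h2 : K.card ≤ (K \ Fb).card + Fb.card := by omega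
      rw [hK₀]
      have h3 : (K.card : ℝ) ≤ ((K \ Fb).card : ℝ) + Fb.card := by exact_mod_cast h2
      linarith only [hFb, he, h3]
    have hK₀K : K₀ ⊆ K := by rw [hK₀]; exact sdiff_subset
    have hK₀K' : (K₀.card : ℝ) ≤ K.card := by exact_mod_cast card_le_card hK₀K
    have hin : ∀ u : V, ((nI R K u).card : ℝ) ≤ (nI R K₀ u).card + e := by
      intro u
      have h1 : nI R K u ⊆ nI R K₀ u ∪ Fb := by
        intro v hv
        rw [mem_nI] at hv
        rw [mem_union, mem_nI, hK₀, mem_sdiff]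
        tauto
      have h2 : ((nI R K u).card : ℝ) ≤ (nI R K₀ u).card + Fb.card := by
        exact_mod_cast (card_le_card h1).trans (card_union_le _ _)
      linarith only [hFb, he, h2]
    have hτKe : 2 * (e : ℝ) ≤ τ * K.card := by
      have h1 : τ₀ * (ω / 4 * X.card) ≤ τ * K.card := mul_le_mul hτ hK1 (by (clear * - hω hXpos; positivity)) hτ0.le
      linarith only [hτ₀, hτ, hτ1, hFb, he, n4, h1]
    have h1 := many (R := R) (L := K₀) (Q := Q') (a := τ / 4) (by positivity) (by omega) (fun x hx => by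
      have h2 := hQx x hx
      have h3 := hin x
      have h4 : τ * (K₀.card : ℝ) ≤ τ * K.card := mul_le_mul_of_nonneg_left hK₀K' hτ0.le
      linarith only [hτKe, h2, h3, h4])
    obtain ⟨F₁, hF₁⟩ : ∃ F₁, F₁ = K₀.filter (fun f => τ / 4 * Q'.card ≤ ((nO R Q' f).card : ℝ)) := ⟨_, rfl⟩
    rw [← hF₁] at h1
    obtain ⟨K₁, hK₁⟩ : ∃ K₁, K₁ = nO R K₀ y := ⟨_, rfl⟩
    have hK₁in : ∀ f ∈ F₁, k / 4 * X.card ≤ ((nI R K₁ f).card : ℝ) := by
      intro f hf
      rw [hF₁, mem_filter] at hf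
      have h2 := ex_in hD.ex hK2 (hK₀K hf.1)
      have h3 : nI R K f ⊆ nI R K₁ f ∪ (nI R K y ∪ Fb) := by
        intro v hv
        rw [mem_nI] at hv
        rw [mem_union, mem_union, mem_nI, mem_nI, hK₁, mem_nO, hK₀, mem_sdiff]
        have hne : v ≠ y := fun h => hyK (h ▸ hv.1)
        rcases hT.tot v y hne with h4 | h4 <;> tauto
      have h4 : ((nI R K f).card : ℝ) ≤ (nI R K₁ f).card + ((nI R K y).card + Fb.card) := by
        exact_mod_cast (card_le_card h3).trans ((card_union_le _ _).trans (Nat.add_le_add_left (card_union_le _ _) _))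
      have h5 : τ * (K.card : ℝ) ≤ τ * X.card := mul_le_mul_of_nonneg_left hKX hτ0.le
      have h6 : 2 * τ * X.card ≤ k * X.card := mul_le_mul_of_nonneg_right hτk hX0
      have h7 : (e : ℝ) ≤ k / 4 * X.card := by
        have h8 : τ₀ * (ω * X.card) ≤ τ * (4 * X.card) := by
          refine mul_le_mul hτ ?_ (by (clear * - hω hXpos; positivity)) hτ0.le
          linarith only [hKX, hK1]
        linarith only [hτ₀, hτ, hτ1, hFb, he, n4, h6, h8]
      linarith only [hFb, he, hyin, hτKe, h2, h4, h5, h6]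
    have hbF : (b : ℝ) ≤ k / 4 * F₁.card := by
      have h2 : (K₀.card : ℝ) ≥ K.card / 2 := by linarith only [hτ₀, hτ, hτ1, hFb, he, n1, hK1, hK₀c]
      have h3 : τ / 4 * (K.card / 2) ≤ F₁.card := by
        have := mul_le_mul_of_nonneg_left h2 (show 0 ≤ τ / 4 by positivity)
        linarith only [h1, this]
      have h4 : τ / 4 * (ω / 4 * X.card / 2) ≤ F₁.card := by
        have := mul_le_mul_of_nonneg_left hK1 (show 0 ≤ τ / 8 by positivity)
        linarith only [h3, this]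
      have h5 : τ / 2 * (τ / 4 * (ω / 4 * X.card / 2)) ≤ k / 4 * F₁.card :=
        mul_le_mul (by linarith only [hτk]) h4 (by (clear * - hτ0 hω hXpos; positivity)) (by linarith only [hτ₀, hτ, hτk])
      have h6 : τ₀ ^ 2 ≤ τ ^ 2 := by gcongr
      have h7 : τ₀ ^ 2 * (ω * X.card) ≤ τ ^ 2 * (ω * X.card) := mul_le_mul_of_nonneg_right h6 (by (clear * - hω hXpos; positivity))
      nlinarith only [n5, h5, h7]
    have hF₁pos : 0 < F₁.card := by
      rcases Nat.eq_zero_or_pos F₁.card with h | h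
      · exfalso
        rw [h] at h1
        have : 0 < τ / 4 * (K₀.card : ℝ) := by
          have : (0 : ℝ) < K₀.card := by linarith only [hτ₀, hτ, hτ1, hFb, he, n1, hK1, hK₀c]
          (clear * - hτ0 this; positivity)
        simp only [Nat.cast_zero] at h1
        linarith only [this, h1]
      · exact h
    -- the vertex `w`
    obtain ⟨w, hw, hwF⟩ : ∃ w ∈ K₁, k / 4 * F₁.card ≤ ((nO R F₁ w).card : ℝ) := by
      by_contra hc
      push Not at hc
      have h2 : (∑ w ∈ K₁, ((nO R F₁ w).card : ℝ)) = ∑ f ∈ F₁, ((nI R K₁ f).card : ℝ) := by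
        exact_mod_cast sum_nO_eq_sum_nI (R := R) K₁ F₁
      have h3 : F₁.card * (k / 4 * X.card) ≤ ∑ f ∈ F₁, ((nI R K₁ f).card : ℝ) := by
        calc (F₁.card : ℝ) * (k / 4 * X.card) = ∑ _f ∈ F₁, k / 4 * (X.card : ℝ) := by rw [sum_const, nsmul_eq_mul]
          _ ≤ _ := sum_le_sum hK₁in
      have hK₁ne : K₁.Nonempty := by
        rw [← card_pos]
        obtain ⟨f, hf⟩ := card_pos.1 hF₁pos
        have h4 := hK₁in f hf
        have h5 : ((nI R K₁ f).card : ℝ) ≤ K₁.card := by exact_mod_cast card_le_card nI_sub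
        have h6 : 0 < k / 4 * X.card := by
          have : 0 < k := by linarith only [hτ₀, hτ, hτk]
          (clear * - this hXpos; positivity)
        have : (0 : ℝ) < K₁.card := by linarith only [h4, h5, h6]
        exact_mod_cast this
      have h4 : (∑ w ∈ K₁, ((nO R F₁ w).card : ℝ)) < K₁.card * (k / 4 * F₁.card) := by
        calc (∑ w ∈ K₁, ((nO R F₁ w).card : ℝ)) < ∑ _w ∈ K₁, k / 4 * (F₁.card : ℝ) :=
              sum_lt_sum_of_nonempty hK₁ne hc
          _ = _ := by rw [sum_const, nsmul_eq_mul]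
      have h5 : (K₁.card : ℝ) ≤ X.card := by
        refine le_trans ?_ hKX
        rw [hK₁]
        exact_mod_cast card_le_card (nO_sub.trans hK₀K)
      have h6 : (K₁.card : ℝ) * (k / 4 * F₁.card) ≤ X.card * (k / 4 * F₁.card) := by
        apply mul_le_mul_of_nonneg_right h5
        have : 0 < k := by linarith only [hτ₀, hτ, hτk]
        (clear * - this hF₁pos; positivity)
      nlinarith only [h2, h3, h4, h6]
    rw [hK₁, mem_nO, hK₀, mem_sdiff] at hw
    obtain ⟨f, hf, hfi⟩ := choose_inj (F := nO R F₁ w) w b (by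
      have : (b : ℝ) ≤ ((nO R F₁ w).card : ℝ) := hbF.trans hwF
      exact_mod_cast this)
    refine ⟨w, hw.1.1, fun h => hdisK w h hw.1.1, hw.1.2, hw.2, f, fun j hj => ?_, hfi⟩
    have h2 := hf j hj
    rw [mem_nO, hF₁, mem_filter, hK₀, mem_sdiff] at h2
    obtain ⟨⟨⟨h3, h4⟩, h5⟩, h6⟩ := h2
    refine ⟨hD.subK h3, fun h => hdisK _ h h3, h4, ?_, h6, ?_⟩
    · intro h
      rw [h] at h6
      exact hT.irr _ h6
    · refine le_trans ?_ (hsub (f j))
      have h7 : (B : ℝ) ≤ ((nO R Q' (f j)).card : ℝ) := by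
        have : τ / 8 * (Q'.card : ℝ) ≤ τ / 4 * Q'.card := mul_le_mul_of_nonneg_right (by linarith only [hτ₀, hτ]) (Nat.cast_nonneg _)
        linarith only [hbb, h5]
      exact_mod_cast h7
  · -- in a part below
    have hbig : lam * X.card ≤ (L.card : ℝ) := hD.big L hL𝓛
    have hτL : τ * lam * X.card ≤ τ * L.card := by
      have := mul_le_mul_of_nonneg_left hbig hτ0.le
      linarith only [this]
    have hτ₀τ : τ₀ * lam * X.card ≤ τ * lam * X.card :=
      mul_le_mul_of_nonneg_right (mul_le_mul_of_nonneg_right hτ hlam.le) hX0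
    have hν2X : 8 * ν * X.card ≤ τ * lam * X.card := mul_le_mul_of_nonneg_right hν2 hX0
    have hdis := hD.dis hT (by linarith only [hτ₀, hτ, hτ1]) hν1 (by linarith only [hτ₀, hτ, hτ1, hFb, he, n1]) hL𝓛
    obtain ⟨w, hw⟩ : ((nO R K y) \ (Fb ∪ K.filter (fun w => ∃ L ∈ 𝓛, τ / 2 * L.card < ((nI R L w).card : ℝ)))).Nonempty := by
      rw [← card_pos]
      have h1 := le_card_sdiff (Fb ∪ K.filter (fun w => ∃ L ∈ 𝓛, τ / 2 * L.card < ((nI R L w).card : ℝ))) (nO R K y)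
      have h2 := card_union_le Fb (K.filter (fun w => ∃ L ∈ 𝓛, τ / 2 * L.card < ((nI R L w).card : ℝ)))
      have h3 := hD.genK
      have h5 : ((Fb ∪ K.filter (fun w => ∃ L ∈ 𝓛, τ / 2 * L.card < ((nI R L w).card : ℝ))).card : ℝ) ≤
          Fb.card + ((K.filter (fun w => ∃ L ∈ 𝓛, τ / 2 * L.card < ((nI R L w).card : ℝ))).card : ℝ) := by
        exact_mod_cast h2
      have h6 : ((Fb ∪ K.filter (fun w => ∃ L ∈ 𝓛, τ / 2 * L.card < ((nI R L w).card : ℝ))).card : ℝ) <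
          ((nO R K y).card : ℝ) := by
        linarith only [hτ₀, hτ, hτ1, hFb, he, n1, hK1, hyin, hyc, hτK, hνω, h3, h5]
      have h7 : (Fb ∪ K.filter (fun w => ∃ L ∈ 𝓛, τ / 2 * L.card < ((nI R L w).card : ℝ))).card < (nO R K y).card := by
        exact_mod_cast h6
      (clear * - h1 h7; omega)
    rw [mem_sdiff, mem_union, not_or, mem_nO, mem_filter, not_and] at hw
    obtain ⟨⟨hwK, hyw⟩, hwF, hwg⟩ := hw
    have hwL : ((nI R L w).card : ℝ) ≤ τ / 2 * L.card := by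
      have h1 := hwg hwK
      push Not at h1
      exact h1 L hL𝓛
    obtain ⟨f, hf, hfi⟩ := pick_fY hT b B (L := L) (Q := Q') (E := insert w (U ∪ Fb)) (w := w) hτ0 (mem_insert_self _ _)
      hQx hwL (by
        have h1 : L ∩ insert w (U ∪ Fb) ⊆ insert w ((L ∩ U) ∪ Fb) := by
          intro u hu
          rw [mem_inter, mem_insert, mem_union] at hu
          rw [mem_insert, mem_union, mem_inter]
          tauto
        have h2 : ((L ∩ insert w (U ∪ Fb)).card : ℝ) ≤ (L ∩ U).card + Fb.card + 1 := by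
          exact_mod_cast (card_le_card h1).trans ((card_insert_le _ _).trans (Nat.add_le_add_right (card_union_le _ _) _))
        linarith only [hFb, he, n2, hτL, hτ₀τ, hν2X, hdis, h2]) (by omega) hbb (by
        have h1 : τ₀ ^ 2 ≤ τ ^ 2 := by gcongr
        have h2 : τ₀ ^ 2 * (lam * X.card) ≤ τ ^ 2 * L.card := mul_le_mul h1 hbig (by (clear * - hlam hXpos; positivity)) (by positivity)
        linarith only [n3, h2])
    refine ⟨w, hwK, fun h => hdisK w h hwK, hwF, hyw, f, fun j hj => ?_, hfi⟩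
    obtain ⟨h1, h2, h3, h4⟩ := hf j hj
    rw [mem_insert, mem_union, not_or, not_or] at h2
    exact ⟨hD.subL L hL𝓛 h1, h2.2.1, h2.2.2, h2.1, h3, h4.trans (hsub _)⟩

/-- **One step in the case of a thick place**: among many vertices outside `U`, a vertex `f` dominates `B` of them, and `f`
is dominated by a large part of `K` -/
theorem route_oneY (B J : ℕ) {ω τ₀ lam : ℝ} (hω : 0 < ω) (hτ₀ : 0 < τ₀) (hlam : 0 < lam) :
    ∃ (N₁ n₀ : ℕ) (δ : ℝ), 0 < δ ∧ ∀ {V : Type} {R : V → V → Prop}, AE32.Tour R → ∀ {X U K : Finset V}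
      {𝓛 : Finset (Finset V)} {p : ℕ} {ζ k τ ν : ℝ}, ThickD R X U K 𝓛 p ω ζ k lam τ ν → 𝓛.card ≤ J → τ₀ ≤ τ →
      τ ≤ 1 / 8 → 2 * τ ≤ k → 16 * ν ≤ ω → 8 * ν ≤ τ * lam → n₀ ≤ X.card → ∀ {Fb Q : Finset V},
      (Fb.card : ℝ) ≤ δ * X.card → Q ⊆ X \ U → N₁ ≤ Q.card →
      ∃ f ∈ X, f ∉ U ∧ f ∉ Fb ∧ B ≤ (Q.filter (fun x => R f x)).card ∧ k / 2 * X.card ≤ ((nI R K f).card : ℝ) := by
  obtain ⟨N', hN'⟩ := exists_nat_ge (8 * (B : ℝ) / τ₀)
  obtain ⟨δ, hδ⟩ : ∃ δ : ℝ, δ = min (ω / 64) (min (τ₀ * lam / 128) (τ₀ * ω / 128)) := ⟨_, rfl⟩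
  have hδ0 : 0 < δ := by rw [hδ]; positivity
  have hδ1 : 2 * (32 * δ) ≤ ω := by
    have h1 : δ ≤ ω / 64 := by rw [hδ]; exact min_le_left _ _
    linarith
  have hδ2 : 2 * (64 * δ) ≤ τ₀ * lam := by
    have h1 : δ ≤ τ₀ * lam / 128 := by rw [hδ]; exact (min_le_right _ _).trans (min_le_left _ _)
    linarith
  have hδ3 : 2 * (64 * δ) ≤ τ₀ * ω := by
    have h1 : δ ≤ τ₀ * ω / 128 := by rw [hδ]; exact (min_le_right _ _).trans (min_le_right _ _)
    linarith
  obtain ⟨n₀, hn₀⟩ := exists_nat_ge (2 * 32 / ω + 2 * 64 / (τ₀ * lam) + 2 * 64 / (τ₀ * ω))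
  refine ⟨(J + 1) * N' + 1, n₀, δ, hδ0, ?_⟩
  intro V R hT X U K 𝓛 p ζ k τ ν hD hJ hτ hτ1 hτk hν1 hν2 hn Fb Q hFb hQ hN
  have hτ0 : 0 < τ := lt_of_lt_of_le hτ₀ hτ
  have hX : (n₀ : ℝ) ≤ X.card := by exact_mod_cast hn
  have hX0 : (0 : ℝ) ≤ X.card := Nat.cast_nonneg _
  obtain ⟨e, he⟩ : ∃ e : ℝ, e = δ * X.card := ⟨_, rfl⟩
  have he0 : 0 ≤ e := by rw [he]; (clear * - hδ0; positivity)
  have t1 : 0 ≤ 2 * 32 / ω := by positivity
  have t2 : 0 ≤ 2 * 64 / (τ₀ * lam) := by positivity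
  have t3 : 0 ≤ 2 * 64 / (τ₀ * ω) := by positivity
  have n1 : 32 * ((e : ℝ) + 1) ≤ ω * X.card := by
    rw [he]
    exact lin_e (by positivity) hδ1 hX0 (by linarith only [hn₀, hX, t2, t3])
  have n2 : 64 * ((e : ℝ) + 1) ≤ τ₀ * lam * X.card := by
    rw [he]
    exact lin_e (by positivity) hδ2 hX0 (by linarith only [hn₀, hX, t1, t3])
  have n3 : 64 * ((e : ℝ) + 1) ≤ τ₀ * ω * X.card := by
    rw [he]
    exact lin_e (by positivity) hδ3 hX0 (by linarith only [hn₀, hX, t1, t2])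
  have hFb' : (Fb.card : ℝ) ≤ e := by rw [he]; exact hFb
  have hK1 := hD.exK
  have hKX : (K.card : ℝ) ≤ X.card := by exact_mod_cast card_le_card hD.subK
  have hK8 : 8 * ((e : ℝ) + 1) ≤ K.card := by linarith only [n1, hK1]
  have hK2 : 2 ≤ K.card := by
    have h1 : (2 : ℝ) ≤ K.card := by linarith only [hτ₀, hτ, hτ1, hFb, he, n1, hK1]
    exact_mod_cast h1
  have hdisK : ∀ v, v ∈ U → v ∉ K := fun v hv => hD.disK hτ0 hτk hK2 hv
  have hk0 : 0 < k := by linarith only [hτ₀, hτ, hτk]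
  have hL : ∀ x ∈ Q, ∃ L ∈ insert K 𝓛, τ * L.card ≤ ((nI R L x).card : ℝ) := by
    intro x hxQ
    rcases hD.out x (hQ hxQ) with h1 | ⟨L, hL, h1⟩
    · exact ⟨K, mem_insert_self _ _, h1⟩
    · exact ⟨L, mem_insert_of_mem hL, h1⟩
  obtain ⟨L, hL𝓛, hLN⟩ := pigeon (N := N') (J := J + 1) ((card_insert_le _ _).trans (Nat.add_le_add_right hJ 1)) hL
    (by omega)
  obtain ⟨Q', hQ'⟩ : ∃ Q', Q' = Q.filter (fun x => τ * L.card ≤ ((nI R L x).card : ℝ)) := ⟨_, rfl⟩
  rw [← hQ'] at hLN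
  have hQx : ∀ x ∈ Q', τ * L.card ≤ ((nI R L x).card : ℝ) := fun x hx => by
    rw [hQ', mem_filter] at hx; exact hx.2
  have hsub : ∀ f, (nO R Q' f).card ≤ (Q.filter (fun x => R f x)).card := fun f =>
    card_le_card (fun x hx => by
      rw [mem_nO, hQ', mem_filter] at hx
      rw [mem_filter]
      exact ⟨hx.1.1, hx.2⟩)
  have hbQ : (B : ℝ) ≤ τ / 8 * Q'.card := by
    have h1 : (N' : ℝ) ≤ Q'.card := by exact_mod_cast hLN.le
    have h2 : 8 * (B : ℝ) ≤ τ₀ * N' := by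
      rw [div_le_iff₀ hτ₀] at hN'
      linarith only [hN']
    have h3 : τ₀ * (N' : ℝ) ≤ τ * Q'.card := mul_le_mul hτ h1 (Nat.cast_nonneg _) hτ0.le
    linarith only [h2, h3]
  -- the good part of `L`
  suffices hS : ∃ G ⊆ L, (∀ f ∈ G, f ∈ X ∧ f ∉ U ∧ f ∉ Fb ∧ k / 2 * X.card ≤ ((nI R K f).card : ℝ)) ∧
      ((L \ G).card : ℝ) ≤ τ / 2 * L.card ∧ 0 < L.card by
    obtain ⟨G, hGL, hG, hLG, hL0⟩ := hS
    have hGL' : (G.card : ℝ) ≤ L.card := by exact_mod_cast card_le_card hGL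
    have h1 := many (R := R) (L := G) (Q := Q') (a := τ / 4) (by positivity) (by omega) (fun x hx => by
      have h2 := hQx x hx
      have h3 : nI R L x ⊆ nI R G x ∪ (L \ G) := by
        intro v hv
        rw [mem_nI] at hv
        rw [mem_union, mem_nI, mem_sdiff]
        tauto
      have h4 : ((nI R L x).card : ℝ) ≤ (nI R G x).card + (L \ G).card := by
        exact_mod_cast (card_le_card h3).trans (card_union_le _ _)
      have h5 : τ * (G.card : ℝ) ≤ τ * L.card := mul_le_mul_of_nonneg_left hGL' hτ0.le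
      linarith only [hLG, h2, h4, h5])
    have hG0 : 0 < G.card := by
      have h2 : L.card ≤ (L \ G).card + G.card := by
        have := card_sdiff_add_card_inter L G
        have h3 := card_le_card (inter_subset_right : L ∩ G ⊆ G)
        omega
      have h3 : (L.card : ℝ) ≤ (L \ G).card + G.card := by exact_mod_cast h2
      have h4 : (0 : ℝ) < L.card := by exact_mod_cast hL0
      have h5 : τ / 2 * (L.card : ℝ) ≤ 1 / 2 * L.card := mul_le_mul_of_nonneg_right (by linarith only [hτ₀, hτ, hτ1]) h4.le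
      have h6 : (0 : ℝ) < G.card := by linarith only [hLG, h3, h4, h5]
      exact_mod_cast h6
    have h2 : 0 < (G.filter (fun f => τ / 4 * Q'.card ≤ ((nO R Q' f).card : ℝ))).card := by
      have h3 : (0 : ℝ) < ((G.filter (fun f => τ / 4 * Q'.card ≤ ((nO R Q' f).card : ℝ))).card : ℝ) := by
        refine lt_of_lt_of_le ?_ h1
        have : (0 : ℝ) < G.card := by exact_mod_cast hG0
        (clear * - hτ0 hG0; positivity)
      exact_mod_cast h3
    obtain ⟨f, hf⟩ := card_pos.1 h2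
    rw [mem_filter] at hf
    obtain ⟨g1, g2, g3, g4⟩ := hG f hf.1
    refine ⟨f, g1, g2, g3, ?_, g4⟩
    refine le_trans ?_ (hsub f)
    have h7 : (B : ℝ) ≤ ((nO R Q' f).card : ℝ) := by
      have : τ / 8 * (Q'.card : ℝ) ≤ τ / 4 * Q'.card := mul_le_mul_of_nonneg_right (by linarith only [hτ₀, hτ]) (Nat.cast_nonneg _)
      linarith only [hbQ, hf, hf.2]
    exact_mod_cast h7
  rcases mem_insert.1 hL𝓛 with hLK | hL𝓛
  · -- the thick part
    subst hLK
    refine ⟨L \ Fb, sdiff_subset, ?_, ?_, by omega⟩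
    · intro f hf
      rw [mem_sdiff] at hf
      refine ⟨hD.subK hf.1, fun h => hdisK _ h hf.1, hf.2, ?_⟩
      have := ex_in hD.ex hK2 hf.1
      have h2 : 0 ≤ k * X.card := by (clear * - hk0; positivity)
      linarith only [this]
    · have h1 : L \ (L \ Fb) ⊆ Fb := by
        intro v hv
        rw [mem_sdiff, mem_sdiff] at hv
        tauto
      have h2 : ((L \ (L \ Fb)).card : ℝ) ≤ Fb.card := by exact_mod_cast card_le_card h1
      have h3 : τ₀ * (ω / 4 * X.card) ≤ τ * L.card := mul_le_mul hτ hK1 (by (clear * - hω; positivity)) hτ0.le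
      linarith only [hτ₀, hτ, hτ1, hFb, he, n3, h2, h3]
  · -- a part below
    have hbig : lam * X.card ≤ (L.card : ℝ) := hD.big L hL𝓛
    have hLX : (L.card : ℝ) ≤ X.card := by exact_mod_cast card_le_card (hD.subL L hL𝓛)
    have hXpos : (0 : ℝ) < X.card := by linarith only [hτ₀, hτ, hτ1, hFb, he, n1, hK1, hKX]
    have hlam1 : lam ≤ 1 := by
      have h1 : lam * X.card ≤ 1 * X.card := by linarith only [hbig, hLX]
      exact le_of_mul_le_mul_right h1 hXpos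
    have hτL : τ * lam * X.card ≤ τ * L.card := by
      have := mul_le_mul_of_nonneg_left hbig hτ0.le
      linarith only [this]
    have hτ₀τ : τ₀ * lam * X.card ≤ τ * lam * X.card :=
      mul_le_mul_of_nonneg_right (mul_le_mul_of_nonneg_right hτ hlam.le) hX0
    have hν2X : 8 * ν * X.card ≤ τ * lam * X.card := mul_le_mul_of_nonneg_right hν2 hX0
    have hdis := hD.dis hT (by linarith only [hτ₀, hτ, hτ1]) hν1 (by linarith only [hτ₀, hτ, hτ1, hFb, he, n1]) hL𝓛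
    refine ⟨(L \ (U ∪ Fb)) \ L.filter (fun f => ν * X.card < ((nO R K f).card : ℝ)), sdiff_subset.trans sdiff_subset,
      ?_, ?_, ?_⟩
    · intro f hf
      rw [mem_sdiff, mem_sdiff, mem_union, not_or, mem_filter, not_and] at hf
      obtain ⟨⟨hfL, hfU, hfF⟩, hfg⟩ := hf
      refine ⟨hD.subL L hL𝓛 hfL, hfU, hfF, ?_⟩
      have h1 := not_lt.1 (hfg hfL)
      have h3 : (K.card : ℝ) ≤ (nO R K f).card + (nI R K f).card + 1 := by
        by_cases hfK : f ∈ K
        · exact_mod_cast (card_nO_add_nI' hT hfK).symm.le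
        · have := card_nO_add_nI hT hfK
          have : K.card ≤ (nO R K f).card + (nI R K f).card + 1 := by omega
          exact_mod_cast this
      obtain ⟨v, hv⟩ : K.Nonempty := by rw [← card_pos]; omega
      have h4 := ex_in hD.ex hK2 hv
      have h5 : ((nI R K v).card : ℝ) + 1 ≤ K.card := by
        have h6 : nI R K v ⊂ K := by
          refine ⟨nI_sub, fun h => ?_⟩
          have := h hv
          rw [mem_nI] at this
          exact hT.irr _ this.2
        have := card_lt_card h6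
        exact_mod_cast this
      have h6 : 8 * ν ≤ τ := by
        have : τ * lam ≤ τ * 1 := mul_le_mul_of_nonneg_left hlam1 hτ0.le
        linarith only [hν2, this]
      have h7 : ν ≤ k / 2 := by linarith only [hτ₀, hτ, hτk, h6]
      have h8 : ν * X.card ≤ k / 2 * X.card := mul_le_mul_of_nonneg_right h7 hX0
      linarith only [h1, h3, h4, h5, h8]
    · have h1 : L \ ((L \ (U ∪ Fb)) \ L.filter (fun f => ν * X.card < ((nO R K f).card : ℝ))) ⊆
          ((L ∩ U) ∪ Fb) ∪ L.filter (fun f => ν * X.card < ((nO R K f).card : ℝ)) := by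
        intro v hv
        rw [mem_sdiff, mem_sdiff, mem_sdiff, mem_union] at hv
        rw [mem_union, mem_union, mem_inter]
        tauto
      have h2 : ((L \ ((L \ (U ∪ Fb)) \ L.filter (fun f => ν * X.card < ((nO R K f).card : ℝ)))).card : ℝ) ≤
          ((L ∩ U).card + Fb.card) + (L.filter (fun f => ν * X.card < ((nO R K f).card : ℝ))).card := by
        exact_mod_cast (card_le_card h1).trans ((card_union_le _ _).trans (Nat.add_le_add_right (card_union_le _ _) _))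
      have h3 := hD.genL L hL𝓛
      linarith only [hτ₀, hτ, hτ1, hFb, he, n2, hτL, hτ₀τ, hν2X, hdis, h2, h3]
    · have : (0 : ℝ) < L.card := lt_of_lt_of_le (by (clear * - hlam hXpos; positivity)) hbig
      exact_mod_cast this

end AESY
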