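import Pool.Agent.AESY.PlaceB
import Pool.Agent.AESY.Pnd
import Pool.Agent.AESY.RoutesY
import Pool.Agent.AESF.T1Root
import Pool.Agent.AESF.T2
import Pool.Agent.AER.PrepG

/-!
# Free ends without the cleanliness condition: case T1
-/

set_option autoImplicit false

namespace AESY

open Finset AE15 AED AELT AEB AER AESF
open scoped Classical

/-- the in-closure of the branch `F` is placed before `f`, at vertices of large out-degree -/
theorem at_f {V : Type} {R : V → V → Prop} (hT : AE32.Tour R) {b q : ℕ} {t c : ℝ} {I : Fd → Prop} {F : Fd}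
    (hF : NY b q t I F) {f : V} {Y I₀ : Finset V} {N : ℕ} (hI : I₀.card ≤ N)
    (hG : 4 * q + 4 + N ≤ (nI R (Y.filter (fun g => c ≤ ((nO R Y g).card : ℝ))) f).card) :
    ∃ (Sf : Finset V) (P : List (V × Fd)), Sf ⊆ Y ∧ Disjoint Sf I₀ ∧ f ∉ Sf ∧ Sf.card ≤ q ∧
      PGq R F f Sf ((outs F).map (fun c => (f, true, c)) ++ P.map (fun p => (p.1, true, p.2))) ∧
      P.length ≤ b * q ∧ ∀ p ∈ P, p.2.len ≤ b ∧ p.2.Deg b ∧ (p.2.size + 1 : ℝ) ≤ t ∧ c ≤ ((nO R Y p.1).card : ℝ) := by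
  obtain ⟨A, hA⟩ : ∃ A, A = nI R (Y.filter (fun g => c ≤ ((nO R Y g).card : ℝ))) f \ I₀ := ⟨_, rfl⟩
  have hmA : ∀ a ∈ A, a ∈ Y ∧ c ≤ ((nO R Y a).card : ℝ) ∧ R a f ∧ a ∉ I₀ := by
    intro a ha
    rw [hA, mem_sdiff, mem_nI, mem_filter] at ha
    tauto
  obtain ⟨Sf, P, h1, h2, h3, h4, h5⟩ := incore hT hF.len hF.deg hF.blk (z := f) (A := A) (fun a ha => (hmA a ha).2.2.1)
    (by
      have h6 := le_card_sdiff I₀ (nI R (Y.filter (fun g => c ≤ ((nO R Y g).card : ℝ))) f)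
      rw [hA]
      omega)
  refine ⟨Sf, P, fun a ha => (hmA a (h1 ha)).1, ?_, fun h => hT.irr _ (hmA f (h1 h)).2.2.1, h2, h3, h5, ?_⟩
  · rw [disjoint_left]
    intro a ha
    exact (hmA a (h1 ha)).2.2.2
  · intro p hp
    obtain ⟨g1, g2⟩ := h4 p hp
    obtain ⟨g3, g4⟩ := pin_deg hF.deg _ g2
    exact ⟨g3, g4, (hF.pin _ g2).2, (hmA _ (h1 g1)).2.1⟩

/-- the whole top of the branch, the small trees at the in-closure of `F` included -/
theorem top_y {V : Type} {R : V → V → Prop} (hT : AE32.Tour R) {b q : ℕ} {t : ℝ} {I H : Fd → Prop} {F s : Fd}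
    (hF : Top3Y b q t I H F) {y f : V} {Z Sf A₀ Hs Hg : Finset V} {P : List (V × Fd)} {G : List (V × Bool × Fd)}
    (hroot : PGq R (.node true F s) y Z (G ++ [(y, true, F)])) (hyf : R y f)
    (hf : PGq R F f Sf ((outs F).map (fun c => (f, true, c)) ++ P.map (fun p => (p.1, true, p.2))))
    (hE : EmbI R P A₀) (hfZ : f ∉ Z) (hfS : f ∉ Sf) (hZS : Disjoint Z Sf) (hZA : Disjoint (Z ∪ insert f Sf) A₀)
    (hHA : Disjoint Hs A₀) (hZH : Disjoint (Z ∪ insert f Sf) Hs) (hg : Hg ⊆ Hs)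
    (hfH : b * (q + 1) + 1 ≤ (Hg.filter (fun a => R f a)).card)
    (hin : ∀ z ∈ Hg, b * (q + 1) + 4 * q + 4 ≤ (Hs.filter (fun a => R a z)).card) :
    ∃ (Z' : Finset V) (L : List (V × Fd)), Z' ⊆ Hs ∧
      PGq R (.node true F s) y (Z ∪ (insert f Sf ∪ Z' ∪ A₀)) (L.map (fun p => (p.1, true, p.2)) ++ G) ∧
      L.length ≤ b * (b + b * q) ∧ (∀ p ∈ L, p.1 ∈ Z' ∧ I p.2) ∧
      ∃ p ∈ L, H p.2 ∧ (F.size : ℝ) ≤ b * (b * (p.2.size + 1) + 1) := by
  have hcl : (outs F).length ≤ b := (length_outs F).trans hF.n0.len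
  have hcl' : (outs F).length * (q + 1) ≤ b * (q + 1) := Nat.mul_le_mul_right _ hcl
  have h1 : PGq R (.node true F s) y Z ((y, true, F) :: G) := hroot.perm List.perm_append_comm
  have h2 := h1.bind (by simpa [Adj] using hyf) hfS hfZ hZS hf
  rw [List.append_assoc] at h2
  obtain ⟨Z', L, z1, z2, z3, z4, z5, z6, z7⟩ := hosts_open hT Hs Hg hg (outs F) hF.n1 h2 (u := 0)
    (by rw [disjoint_iff_inter_eq_empty.1 hZH]; simp) (by omega) (fun z hz => by have := hin z hz; omega)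
  have h3 : PGq R (.node true F s) y ((Z ∪ insert f Sf) ∪ Z')
      (P.map (fun p => (p.1, true, p.2)) ++ (L.map (fun p => (p.1, true, p.2)) ++ G)) := by
    refine z4.perm ?_
    refine List.perm_iff_count.2 fun a => ?_
    simp only [List.count_append]
    omega
  have h4 := h3.fill (EmbG.of_embI hE) (disjoint_union_left.2 ⟨hZA, disjoint_of_subset_left z1 hHA⟩)
  refine ⟨Z', L, z1, ?_, z5.trans (Nat.mul_le_mul_right _ hcl), z6, ?_⟩
  · have h5 : Z ∪ (insert f Sf ∪ Z' ∪ A₀) = Z ∪ insert f Sf ∪ Z' ∪ A₀ := by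
      rw [← union_assoc, ← union_assoc]
    rw [h5]
    exact h4
  · obtain ⟨c₁, c₂, -, hc₁, hc₂, -, -, j2, -, e1, e2, -⟩ := hF.heavy
    obtain ⟨p, hp, rfl⟩ := z7 c₁ hc₁ c₂ hc₂
    refine ⟨p, hp, j2, ?_⟩
    have e1' : (F.size : ℝ) ≤ b * (c₁.size + 1) := by exact_mod_cast e1
    have e2' : (c₁.size : ℝ) ≤ b * (p.2.size + 1) := by exact_mod_cast e2
    exact e1'.trans (mul_le_mul_of_nonneg_left (by linarith only [e2']) (Nat.cast_nonneg _))

/-- **Case T1** -/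
theorem t1ySt : T1YSt := by
  intro b q hb θ hθ
  have hb1 : (1 : ℝ) ≤ b := by exact_mod_cast hb
  have hb0 : (0 : ℝ) < b := by linarith
  obtain ⟨θ₂, hθ₂⟩ : ∃ θ₂ : ℝ, θ₂ = θ / (2 * (b * b)) := ⟨_, rfl⟩
  have t1 : 0 < θ₂ := by rw [hθ₂]; positivity
  have t2 : θ₂ * (2 * (b * b)) = θ := by rw [hθ₂]; field_simp
  obtain ⟨ng, hgarb⟩ := garbG b hb (θ := θ₂ / 2) (by positivity)
  obtain ⟨γ, hγ, hroot⟩ := t1_root b hb hθ
  have hγ0 : 0 < γ := by linarith only [hγ]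
  obtain ⟨μ, hμ⟩ : ∃ μ : ℝ, μ = min (θ / (16 * γ)) (θ₂ ^ 2 / 16) := ⟨_, rfl⟩
  have hμ0 : 0 < μ := by rw [hμ]; exact lt_min (by positivity) (by positivity)
  have hμ1 : 16 * (γ * μ) ≤ θ := by
    have h1 : μ ≤ θ / (16 * γ) := by rw [hμ]; exact min_le_left _ _
    rw [le_div_iff₀ (by positivity)] at h1
    linarith
  have hμ2 : μ ≤ θ₂ ^ 2 / 16 := by rw [hμ]; exact min_le_right _ _
  refine ⟨1, one_pos, ?_⟩
  intro ω hω hω1
  refine ⟨min (μ / 2) (θ / 8), lt_min (by positivity) (by positivity), ?_⟩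
  intro ζ hζ hζ0 lam hlam J
  have hζ1 : ζ ≤ μ / 2 := hζ0.trans (min_le_left _ _)
  have hζ2 : ζ ≤ θ / 8 := hζ0.trans (min_le_right _ _)
  have hJ0 : (0 : ℝ) ≤ J := Nat.cast_nonneg _
  refine ⟨min (min (1 / 8) (μ / (2 * (J + 1)))) (min (ω / (64 * γ)) (1 / (16 * γ))), ?_, ?_⟩
  · exact lt_min (lt_min (by norm_num) (by positivity)) (lt_min (by positivity) (by positivity))
  intro a₁ ha₁ ha₁'
  have ha₁1 : a₁ ≤ 1 / 8 := ha₁'.trans ((min_le_left _ _).trans (min_le_left _ _))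
  have ha₁2 : a₁ * (2 * (J + 1)) ≤ μ := by
    have := ha₁'.trans ((min_le_left _ _).trans (min_le_right _ _))
    rwa [le_div_iff₀ (by positivity)] at this
  have ha₁3 : 64 * (γ * a₁) ≤ ω := by
    have := ha₁'.trans ((min_le_right _ _).trans (min_le_left _ _))
    rw [le_div_iff₀ (by positivity)] at this
    linarith only [this]
  have ha₁4 : 16 * (γ * a₁) ≤ 1 := by
    have := ha₁'.trans ((min_le_right _ _).trans (min_le_right _ _))
    rw [le_div_iff₀ (by positivity)] at this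
    linarith only [hω1, ha₁, ha₁1, ha₁3]
  refine ⟨min (min (ω / 32) (θ / (8 * (J + 1)))) (a₁ * lam / 8), ?_, ?_⟩
  · exact lt_min (lt_min (by positivity) (by positivity)) (by positivity)
  intro a₂ ha₂ ha₂' k₀ hk₀ c₁ m₀
  have ha₂1 : a₂ ≤ ω / 32 := ha₂'.trans ((min_le_left _ _).trans (min_le_left _ _))
  have ha₂2 : a₂ * (8 * (J + 1)) ≤ θ := by
    have := ha₂'.trans ((min_le_left _ _).trans (min_le_right _ _))
    rwa [le_div_iff₀ (by positivity)] at this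
  have ha₂3 : a₂ ≤ a₁ * lam / 8 := ha₂'.trans (min_le_right _ _)
  obtain ⟨N₁, n₁, δ, hδ, hone⟩ := route_oneY (b * (q + 1) + 1) J (ω := ω) (τ₀ := a₁ * k₀ ^ 2) (lam := lam) hω
    (by positivity) hlam
  obtain ⟨mI, hmI'⟩ : ∃ mI, mI = b * (q + 1) + 4 * q + 4 := ⟨_, rfl⟩
  obtain ⟨N, hN⟩ : ∃ N, N = N₁ + 2 * mI + 1 := ⟨_, rfl⟩
  obtain ⟨e, he⟩ : ∃ e, e = N + q + 1 := ⟨_, rfl⟩
  obtain ⟨mm, hmm⟩ : ∃ mm, mm = 4 * q + 4 + N := ⟨_, rfl⟩
  obtain ⟨δ₀, hδ₀, hroot⟩ := hroot hω hω1 hk₀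
  obtain ⟨C₄, C₃, hroot⟩ := hroot c₁ m₀ e
  obtain ⟨κ, hκ⟩ : ∃ κ : ℝ, κ = δ / 4 := ⟨_, rfl⟩
  have hκ0 : 0 < κ := by rw [hκ]; positivity
  obtain ⟨d, hd⟩ : ∃ d : ℝ, d = min (δ₀ / 2) (min (θ₂ / 8) (κ / 4)) := ⟨_, rfl⟩
  have hd0 : 0 < d := by rw [hd]; exact lt_min (by positivity) (lt_min (by positivity) (by positivity))
  have hd1 : d ≤ δ₀ / 2 := by rw [hd]; exact min_le_left _ _
  have hd2 : d ≤ θ₂ / 8 := by rw [hd]; exact (min_le_right _ _).trans (min_le_left _ _)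
  have hd3 : d ≤ κ / 4 := by rw [hd]; exact (min_le_right _ _).trans (min_le_right _ _)
  obtain ⟨ε, hε⟩ : ∃ ε : ℝ, ε = min (δ₀ / 2) (min (θ₂ / 8) (κ / 4)) / (b * q + 4 : ℕ) := ⟨_, rfl⟩
  have hbq0 : (0 : ℝ) < ((b * q + 4 : ℕ) : ℝ) := by positivity
  have hε0 : 0 < ε := by
    rw [hε]
    exact div_pos (lt_min (by positivity) (lt_min (by positivity) (by positivity))) hbq0
  have hεb : ((b * q + 4 : ℕ) : ℝ) * ε = min (δ₀ / 2) (min (θ₂ / 8) (κ / 4)) := by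
    rw [hε]
    field_simp
  have hε1 : ((b * q + 4 : ℕ) : ℝ) * ε ≤ δ₀ / 2 := by rw [hεb]; exact min_le_left _ _
  have hε2 : ((b * q + 4 : ℕ) : ℝ) * ε ≤ θ₂ / 8 := by rw [hεb]; exact (min_le_right _ _).trans (min_le_left _ _)
  have hε3 : ((b * q + 4 : ℕ) : ℝ) * ε ≤ κ / 4 := by rw [hεb]; exact (min_le_right _ _).trans (min_le_right _ _)
  refine ⟨N, e, b * (b + b * q), θ₂, d, ε, by omega, t1, hd0, hε0, ?_⟩
  intro I₀ H₀ nb Cb hbox
  obtain ⟨nr, hnr⟩ : ∃ nr : ℕ, nr = ⌈2 * ng / θ₂ + 8 * e / θ₂ + 4 * b / θ + 4 * e / κ + 2 * (N + 2 * mm + 2) / δ⌉₊ :=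
    ⟨_, rfl⟩
  refine ⟨((C₄ + n₁ + nr + nb + Cb + C₃ + N + c₁ + m₀ + 2 : ℕ) : ℝ), ?_⟩
  intro V R hT X U K 𝓛 k hk0 hk1 hJ F s hl hD hF hθF hcard hTD hU
  have hcardN : (Fd.node true F s).size + 1 + (C₄ + n₁ + nr + nb + Cb + C₃ + N + c₁ + m₀ + 2) ≤ X.card := by
    exact_mod_cast hcard
  have hsize : (Fd.node true F s).size = F.size + s.size + 1 := rfl
  have hbs : blk s ≤ s.size := AEK.blk_le_size s
  -- numbers
  have hkpos : 0 < k := lt_of_lt_of_le hk₀ hk0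
  have hk2 : k ^ 2 ≤ 1 := pow_le_one₀ hkpos.le hk1
  have hk3 : k₀ ^ 2 ≤ k ^ 2 := pow_le_pow_left₀ hk₀.le hk0 2
  have hk4 : k ^ 2 ≤ k := by rw [sq]; exact mul_le_of_le_one_right hkpos.le hk1
  have hk5 : 0 < k ^ 2 := by positivity
  obtain ⟨τ, hτ⟩ : ∃ τ : ℝ, τ = a₁ * k ^ 2 := ⟨_, rfl⟩
  obtain ⟨ν, hν⟩ : ∃ ν : ℝ, ν = a₂ * k ^ 2 := ⟨_, rfl⟩
  rw [← hτ, ← hν] at hTD
  have hτ0 : 0 < τ := by rw [hτ]; positivity
  have hν0 : 0 < ν := by rw [hν]; positivity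
  have hτ1 : τ ≤ a₁ := by rw [hτ]; exact mul_le_of_le_one_right ha₁.le hk2
  have hτ2 : a₁ * k₀ ^ 2 ≤ τ := by rw [hτ]; exact mul_le_mul_of_nonneg_left hk3 ha₁.le
  have hτ3 : 2 * τ ≤ k := by
    have h1 := mul_le_mul_of_nonneg_right ha₁1 hk5.le
    rw [hτ]
    linarith only [h1, hk4, hk5]
  have hτ4 : 64 * (γ * τ) ≤ ω := by
    have := mul_le_mul_of_nonneg_left hτ1 hγ0.le
    linarith only [ha₁3, this]
  have hτ5 : 16 * (γ * τ) ≤ k := by
    have h1 : 16 * (γ * τ) = 16 * (γ * a₁) * k ^ 2 := by rw [hτ]; ring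
    rw [h1]
    have h2 : 16 * (γ * a₁) * k ^ 2 ≤ 1 * k ^ 2 := mul_le_mul_of_nonneg_right ha₁4 hk5.le
    linarith only [hk4, h2]
  have hν1 : ν ≤ a₂ := by rw [hν]; exact mul_le_of_le_one_right ha₂.le hk2
  have hν2 : 8 * ν ≤ τ * lam := by
    rw [hν, hτ]
    have : 8 * a₂ * k ^ 2 ≤ a₁ * lam * k ^ 2 := mul_le_mul_of_nonneg_right (by linarith only [ha₂3]) hk5.le
    linarith only [this]
  have hmiss : (J + 1) * τ + ζ ≤ μ := by
    have h1 : ((J : ℝ) + 1) * τ ≤ (J + 1) * a₁ := mul_le_mul_of_nonneg_left hτ1 (by positivity)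
    linarith only [hζ1, ha₁2, h1]
  obtain ⟨n, hn⟩ : ∃ n : ℝ, n = (X.card : ℝ) := ⟨_, rfl⟩
  have hn0 : 0 ≤ n := by rw [hn]; exact Nat.cast_nonneg _
  have hnr' : 2 * ng / θ₂ + 8 * e / θ₂ + 4 * b / θ + 4 * e / κ + 2 * (N + 2 * mm + 2) / δ ≤ n := by
    have h1 : nr ≤ X.card := by omega
    have h2 : (nr : ℝ) ≤ n := by rw [hn]; exact_mod_cast h1
    exact (by rw [hnr]; exact Nat.le_ceil _ : _ ≤ (nr : ℝ)).trans h2
  have q1 : (0 : ℝ) ≤ 2 * ng / θ₂ := by (clear * - t1; positivity)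
  have q2 : (0 : ℝ) ≤ 8 * e / θ₂ := by (clear * - t1; positivity)
  have q3 : (0 : ℝ) ≤ 4 * b / θ := by positivity
  have q4 : (0 : ℝ) ≤ 4 * e / κ := by (clear * - hκ0; positivity)
  have q5 : (0 : ℝ) ≤ 2 * (N + 2 * mm + 2) / δ := by (clear * - hδ; positivity)
  have r1 : 2 * ng ≤ θ₂ * n := by
    have : 2 * ng / θ₂ ≤ n := by linarith only [hnr', q2, q3, q4, q5]
    rwa [div_le_iff₀' t1] at this
  have r2 : 8 * e ≤ θ₂ * n := by
    have : 8 * e / θ₂ ≤ n := by linarith only [hnr', q1, q3, q4, q5]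
    rwa [div_le_iff₀' t1] at this
  have r3 : 4 * b ≤ θ * n := by
    have : 4 * b / θ ≤ n := by linarith only [hnr', q1, q2, q4, q5]
    rwa [div_le_iff₀' hθ] at this
  have r4 : 4 * e ≤ κ * n := by
    have : 4 * e / κ ≤ n := by linarith only [hnr', q1, q2, q3, q5]
    rwa [div_le_iff₀' hκ0] at this
  have r5 : 2 * (N + 2 * mm + 2) ≤ δ * n := by
    have : 2 * (N + 2 * mm + 2) / δ ≤ n := by linarith only [hnr', q1, q2, q3, q4]
    rwa [div_le_iff₀' hδ] at this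
  -- the hosts
  obtain ⟨Y₀, hY₀⟩ : ∃ Y₀, Y₀ = X \ U := ⟨_, rfl⟩
  have hUX := hTD.subU
  have hY₀c : Y₀.card + U.card = X.card := by rw [hY₀]; exact card_sdiff_add_card_eq_card hUX
  have hY₀X : Y₀ ⊆ X := by rw [hY₀]; exact sdiff_subset
  have hY₀n : (Y₀.card : ℝ) ≤ n := by rw [hn]; exact_mod_cast card_le_card hY₀X
  obtain ⟨x, hxY, hxi, hbx⟩ := hbox hT Y₀ (by omega)
  obtain ⟨I, hI⟩ : ∃ I, I = (range N).image x := ⟨_, rfl⟩
  have hIc : I.card = N := by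
    rw [hI, card_image_of_injOn, card_range]
    intro i hi j hj hij
    exact hxi i (mem_range.1 hi) j (mem_range.1 hj) hij
  have hIY : I ⊆ Y₀ := by
    intro a ha
    rw [hI, mem_image] at ha
    obtain ⟨i, hi, rfl⟩ := ha
    exact hxY i (mem_range.1 hi)
  have hmI : ∀ a ∈ I, ∃ i < N, a = x i := by
    intro a ha
    rw [hI, mem_image] at ha
    obtain ⟨i, hi, rfl⟩ := ha
    exact ⟨i, mem_range.1 hi, rfl⟩
  obtain ⟨Hg, hHg⟩ : ∃ Hg, Hg = I.filter (fun z => mI ≤ (I.filter (fun a => R a z)).card) := ⟨_, rfl⟩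
  have hHgI : Hg ⊆ I := by rw [hHg]; exact filter_subset _ _
  have hHgc : N₁ ≤ Hg.card := by
    have h1 := low_in hT I mI
    have h2 : I ⊆ Hg ∪ I.filter (fun z => (I.filter (fun a => R a z)).card < mI) := by
      intro a ha
      rw [mem_union, hHg, mem_filter, mem_filter]
      rcases Nat.lt_or_ge (I.filter (fun b => R b a)).card mI with h3 | h3
      · exact Or.inr ⟨ha, h3⟩
      · exact Or.inl ⟨ha, h3⟩
    have h3 := (card_le_card h2).trans (card_union_le _ _)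
    omega
  -- the middle vertex
  obtain ⟨Bd, hBd⟩ : ∃ Bd, Bd = Y₀.filter (fun f => (nI R (Y₀.filter (fun g => κ * n ≤ ((nO R Y₀ g).card : ℝ))) f).card <
    mm) := ⟨_, rfl⟩
  have hBdc : (Bd.card : ℝ) ≤ 2 * (κ * n) + 2 * mm + 2 := by
    rw [hBd]
    exact bad_card hT Y₀ (by (clear * - hκ0 hn0; positivity)) mm
  obtain ⟨f, hfX, hfU, hfI, hfb, hfK⟩ := hone hT hTD hJ hτ2 (hτ1.trans ha₁1) hτ3 (by linarith only [ha₂, ha₂1, hν1]) hν2 (by omega)
    (Fb := I ∪ Bd) (Q := Hg) (by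
      have h1 : ((I ∪ Bd).card : ℝ) ≤ I.card + Bd.card := by exact_mod_cast card_union_le _ _
      have h2 : (I.card : ℝ) = N := by exact_mod_cast hIc
      have h3 : κ * n = δ * n / 4 := by rw [hκ]; ring
      rw [← hn]
      linarith only [r5, hBdc, h1, h2, h3]) (by rw [← hY₀]; exact hHgI.trans hIY) hHgc
  have hfY : f ∈ Y₀ := by rw [hY₀]; exact mem_sdiff.2 ⟨hfX, hfU⟩
  rw [mem_union, not_or] at hfI
  obtain ⟨hfI, hfB⟩ := hfI
  have hfG : 4 * q + 4 + N ≤ (nI R (Y₀.filter (fun g => κ * n ≤ ((nO R Y₀ g).card : ℝ))) f).card := by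
    by_contra h
    push Not at h
    exact hfB (by rw [hBd]; exact mem_filter.2 ⟨hfY, by omega⟩)
  -- the in-closure of the branch
  have hFS : F.size + 1 ≤ Y₀.card := by (clear * - hmI' hN he hmm hnr hU hcardN hsize hbs hY₀c hIc; omega)
  have hFt := hF Y₀.card hFS
  obtain ⟨Sf, P, hSfY, hSfI, hfSf, hSfc, hPF, hPl, hPs⟩ := at_f hT hFt.n0 hIc.le hfG
  obtain ⟨E, hE⟩ : ∃ E, E = insert f (I ∪ Sf) := ⟨_, rfl⟩
  have hfE : f ∈ E := by rw [hE]; exact mem_insert_self _ _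
  have hIE : I ⊆ E := by rw [hE]; exact subset_union_left.trans (subset_insert _ _)
  have hSfE : Sf ⊆ E := by rw [hE]; exact subset_union_right.trans (subset_insert _ _)
  have hEY : E ⊆ Y₀ := by
    rw [hE]
    exact insert_subset hfY (union_subset hIY hSfY)
  have hEc : E.card ≤ e := by
    rw [hE]
    have h1 := card_insert_le f (I ∪ Sf)
    have h2 := card_union_le I Sf
    omega
  obtain ⟨Q, hQ, hQc, hQP⟩ := hbx E hEY hEc (fun i hi => hIE (by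
    rw [hI]
    exact mem_image_of_mem x (mem_range.2 hi)))
  have hQY : Q ⊆ Y₀ := hQ.trans sdiff_subset
  have hQn : (Q.card : ℝ) ≤ d * n := hQc.trans (mul_le_mul_of_nonneg_left hY₀n hd0.le)
  have hEe : (E.card : ℝ) ≤ e := by exact_mod_cast hEc
  have hFn : (F.size : ℝ) + 1 ≤ n := by
    refine le_trans ?_ hY₀n
    exact_mod_cast hFS
  have hF0 : (0 : ℝ) ≤ (F.size : ℝ) + 1 := by (clear * -; positivity)
  have ht0 : 0 ≤ ε * ((F.size : ℝ) + 1) := by (clear * - hε0; positivity)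
  have htn : ε * ((F.size : ℝ) + 1) ≤ ε * n := mul_le_mul_of_nonneg_left hFn hε0.le
  have hPl' : (P.length : ℝ) + 4 ≤ ((b * q + 4 : ℕ) : ℝ) := by
    have : P.length + 4 ≤ b * q + 4 := by omega
    exact_mod_cast this
  have hPn : ((P.length : ℝ) + 4) * (ε * ((F.size : ℝ) + 1)) ≤ ((b * q + 4 : ℕ) : ℝ) * ε * n := by
    have h1 : ((P.length : ℝ) + 4) * (ε * ((F.size : ℝ) + 1)) ≤ ((b * q + 4 : ℕ) : ℝ) * (ε * n) :=
      mul_le_mul hPl' htn ht0 hbq0.le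
    linarith only [h1]
  obtain ⟨A₀, hA₀Y, hA₀W, hEA₀, hA₀c⟩ := small_garb hT (b := b) (c := κ * n) (t := ε * ((F.size : ℝ) + 1)) Y₀ P (E ∪ Q)
    hPs ht0 (by
      have h1 : ((E ∪ Q).card : ℝ) ≤ E.card + Q.card := by exact_mod_cast card_union_le _ _
      have h2 : d * n ≤ κ / 4 * n := mul_le_mul_of_nonneg_right hd3 hn0
      have h3 : ((b * q + 4 : ℕ) : ℝ) * ε * n ≤ κ / 4 * n := mul_le_mul_of_nonneg_right hε3 hn0
      have h4 : 0 ≤ κ * n := by (clear * - hκ0 hn0; positivity)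
      linarith only [r4, hQn, hEe, hPn, h1, h2, h3])
  rw [disjoint_union_right] at hA₀W
  obtain ⟨hA₀E, hA₀Q⟩ := hA₀W
  have hA₀n : (A₀.card : ℝ) ≤ ((b * q + 4 : ℕ) : ℝ) * ε * n := by
    refine hA₀c.trans (le_trans ?_ hPn)
    exact mul_le_mul_of_nonneg_right (by linarith only [hω1, ha₂, ha₂1]) ht0
  -- the root
  obtain ⟨y, Z, G, hyY, hyE, hyQ, hyf, hZX, hyZ, hZEQ, hUZ, hP, hG⟩ := hroot hT F s hTD hJ
    hk0 hk1 hν0.le (by linarith only [ha₂1, hν1])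
    (by
      have h1 : (J : ℝ) * ν ≤ (J + 1) * a₂ := mul_le_mul (by linarith only [hω1, ha₂, ha₂1]) hν1 hν0.le (by (clear * -; positivity))
      linarith only [hζ2, ha₂2, h1]) hτ0 (by
      have := mul_le_mul_of_nonneg_left hmiss hγ0.le
      linarith only [hμ1, this]) hτ4 hτ5 hl hD hθF (by (clear * - hmI' hN he hmm hnr hcardN hsize hIc; omega)) hU E (Q ∪ A₀) f (by rw [← hY₀]; exact hEY) hEc
    (by rw [← hY₀]; exact union_subset hQY hA₀Y) (by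
      have h1 : ((Q ∪ A₀).card : ℝ) ≤ Q.card + A₀.card := by exact_mod_cast card_union_le _ _
      have h2 : d * n ≤ δ₀ / 2 * n := mul_le_mul_of_nonneg_right hd1 hn0
      have h3 : ((b * q + 4 : ℕ) : ℝ) * ε * n ≤ δ₀ / 2 * n := mul_le_mul_of_nonneg_right hε1 hn0
      rw [← hn]
      linarith only [hQn, ht0, hPn, hA₀c, h1, h2, h3]) hfK
  rw [mem_union, not_or] at hyQ
  have hZE : Disjoint Z E := disjoint_left.2 fun a ha => (hZEQ a ha).1
  have hZQ : Disjoint Z Q := disjoint_left.2 fun a ha h => (hZEQ a ha).2 (mem_union_left _ h)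
  have hZA : Disjoint Z A₀ := disjoint_left.2 fun a ha h => (hZEQ a ha).2 (mem_union_right _ h)
  -- the top of the branch
  have hfSE : insert f Sf ⊆ E := insert_subset hfE hSfE
  have hHI : Disjoint (Z ∪ insert f Sf) I := by
    rw [disjoint_union_left, disjoint_insert_left]
    exact ⟨disjoint_of_subset_right hIE hZE, hfI, hSfI⟩
  obtain ⟨Z', L, hZ'I, hPall, hLl, hLI, q₀, hq₀, hq₀H, hq₀s⟩ := top_y hT hFt (Hs := I) (Hg := Hg) hP hyf hPF hEA₀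
    (fun h => disjoint_left.1 hZE h hfE) hfSf (disjoint_of_subset_right hSfE hZE)
    (disjoint_union_left.2 ⟨hZA, disjoint_of_subset_left hfSE hA₀E.symm⟩)
    (disjoint_of_subset_left hIE hA₀E.symm) hHI hHgI hfb (fun z hz => by
      rw [hHg, mem_filter] at hz
      rw [← hmI']
      exact hz.2)
  have hbig : θ₂ * n ≤ (q₀.2.size : ℝ) + 1 := by
    have h1 : θ * n ≤ F.size + 1 := by rw [hn]; exact hθF
    have h2 : (b : ℝ) * (b * (q₀.2.size + 1) + 1) = b * b * (q₀.2.size + 1) + b := by ring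
    rw [h2] at hq₀s
    have h3 : θ₂ * n * (b * b) * 2 = θ * n := by rw [← t2]; ring
    have h4 : θ₂ * n * (b * b) ≤ (q₀.2.size + 1) * (b * b) := by linarith only [h1, hq₀s, h3, r3, hb1]
    exact le_of_mul_le_mul_right h4 (by positivity)
  have hLs : θ₂ * n ≤ (isz L : ℝ) := by
    refine hbig.trans ?_
    have h1 : q₀.2.size + 1 ≤ isz L :=
      List.single_le_sum (l := L.map (fun p => p.2.size + 1)) (by simp) _ (List.mem_map.2 ⟨q₀, hq₀, rfl⟩)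
    exact_mod_cast h1
  obtain ⟨hyX, hyU⟩ := mem_sdiff.1 hyY
  have hEU : ∀ a ∈ E, a ∈ X ∧ a ∉ U := fun a ha => mem_sdiff.1 (by rw [← hY₀]; exact hEY ha)
  have hQU : ∀ a ∈ Q, a ∈ X ∧ a ∉ U := fun a ha => mem_sdiff.1 (by rw [← hY₀]; exact hQY ha)
  have hAU : ∀ a ∈ A₀, a ∈ X ∧ a ∉ U := fun a ha => mem_sdiff.1 (by rw [← hY₀]; exact hA₀Y ha)
  refine finishY (P₁ := U ∪ Z) (Y := (X \ (U ∪ Z)).erase y) (S := Z) (Zr := insert f Sf ∪ Z' ∪ A₀) (E := E ∪ A₀)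
    (Q := Q) (L := L) (G := G) (σ := θ₂ / 2 * n) (t := Z.card) (C₁ := Cb) (C₂ := C₃) hyX (union_subset hUX hZX) ?_ rfl
    hZX hyZ ?_ ?_ ?_ ?_ ?_ hPall ?_ ?_ ?_ rfl ?_ ?_
  · rw [mem_union, not_or]
    exact ⟨hyU, hyZ⟩
  · intro a ha
    rw [mem_sdiff, mem_union, not_or] at ha
    exact absurd ha.1 ha.2.2
  · exact union_subset_union (union_subset hfSE (hZ'I.trans hIE)) (Subset.refl _)
  · exact disjoint_union_right.2 ⟨disjoint_of_subset_right (union_subset hfSE (hZ'I.trans hIE)) hZE, hZA⟩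
  · intro a ha
    rw [mem_erase, mem_sdiff, mem_union, not_or]
    rcases mem_union.1 ha with ha | ha
    · exact ⟨fun h => hyE (h ▸ ha), (hEU a ha).1, (hEU a ha).2, disjoint_right.1 hZE ha⟩
    · exact ⟨fun h => hyQ.2 (h ▸ ha), (hAU a ha).1, (hAU a ha).2, disjoint_right.1 hZA ha⟩
  · intro a ha
    rw [mem_sdiff, mem_erase, mem_sdiff, mem_union, not_or, mem_union, not_or]
    exact ⟨⟨fun h => hyQ.1 (h ▸ ha), (hQU a ha).1, (hQU a ha).2, disjoint_right.1 hZQ ha⟩, (mem_sdiff.1 (hQ ha)).2,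
      disjoint_right.1 hA₀Q ha⟩
  · intro P' hPY hPE hQP' hsz
    rw [disjoint_union_right] at hPE
    refine hQP P' ?_ hPE.1 hQP' L (by omega) ?_ ⟨q₀, hq₀, hq₀H, ?_⟩ hsz
    · intro a ha
      have h1 := hPY ha
      rw [mem_erase, mem_sdiff, mem_union, not_or] at h1
      rw [hY₀, mem_sdiff]
      exact ⟨h1.2.1, h1.2.2.1⟩
    · intro r hr
      exact ⟨hmI r.1 (hZ'I (hLI r hr).1), (hLI r hr).2⟩
    · exact (mul_le_mul_of_nonneg_left hY₀n t1.le).trans hbig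
  · intro W hW hsz
    have hWX : W ⊆ X \ U := by
      intro a ha
      have h1 := hW ha
      rw [mem_erase, mem_sdiff, mem_union, not_or] at h1
      rw [mem_sdiff]
      exact ⟨h1.2.1, h1.2.2.1⟩
    have hWn : (W.card : ℝ) ≤ n := by
      rw [hn]
      exact_mod_cast card_le_card (hWX.trans sdiff_subset)
    refine hgarb hT G W (θ₂ / 2 * n) (by linarith only [r1]) (mul_le_mul_of_nonneg_left hWn (by positivity)) hsz ?_
    intro r hr
    obtain ⟨g1, g2, g3, g4⟩ := hG r hr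
    refine ⟨g1, g3, g4, ?_⟩
    have h1 : ((W.filter (fun v => ¬ R r.1 v)).card : ℝ) ≤ ((X \ U).filter (fun v => ¬ R r.1 v)).card := by
      exact_mod_cast card_le_card (filter_subset_filter _ hWX)
    have h2 := hTD.missY hT hτ0.le hJ g2
    rw [← hn] at h2
    have h3 : ((J + 1) * τ + ζ) * n ≤ θ₂ ^ 2 / 16 * n := mul_le_mul_of_nonneg_right (hmiss.trans hμ2) hn0
    have h4 : θ₂ / 2 / 4 * (θ₂ / 2 * n) = θ₂ ^ 2 / 16 * n := by ring
    rw [h4]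
    linarith only [h1, h2, h3]
  · have h1 : ((E ∪ A₀).card : ℝ) ≤ E.card + A₀.card := by exact_mod_cast card_union_le _ _
    have h2 : (Q.card : ℝ) ≤ θ₂ / 8 * n := hQn.trans (mul_le_mul_of_nonneg_right hd2 hn0)
    have h3 : ((b * q + 4 : ℕ) : ℝ) * ε * n ≤ θ₂ / 8 * n := mul_le_mul_of_nonneg_right hε2 hn0
    have h4 : 0 ≤ θ₂ * n := by (clear * - t1 hn0; positivity)
    linarith only [r2, hEe, ht0, hPn, hA₀c, hLs, h1, h2, h3]
  · have h1 : U ∪ Z = Z ∪ (U \ Z) := by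
      ext a
      simp only [mem_union, mem_sdiff]
      tauto
    rw [h1]
    exact (card_union_le _ _).trans (Nat.add_le_add_left hUZ _)
  · have h1 : ((E ∪ A₀) \ (insert f Sf ∪ Z' ∪ A₀)).card ≤ N := by
      rw [← hIc]
      refine card_le_card fun a ha => ?_
      rw [mem_sdiff, mem_union, hE, mem_insert, mem_union, mem_union, mem_union, mem_insert] at ha
      tauto
    (clear * - hmI' hN he hmm hnr hcardN hsize hIc h1; omega)

end AESY
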