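import Pool.Agent.AESF.PackU

/-!
# An exact place for an in-arborescence, and a free middle vertex

`packW`: as `packU`; the middle vertex `v` has `m` in-neighbours which are not used.
-/

set_option autoImplicit false

namespace AESY

open Finset AE15 AED AELT AEB SPD AECut AEG AESF
open scoped Classical

theorem rea_anti {V : Type*} {R : V → V → Prop} {U P P' : Finset V} {k t : ℝ} {w : V} (h : Rea R U P k t w)
    (hP : P' ⊆ P) : Rea R U P' k t w := by
  obtain ⟨W, h1, h2⟩ := h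
  exact ⟨W, h1, le_trans (by exact_mod_cast card_le_card (sdiff_subset_sdiff hP (Subset.refl _))) h2⟩

/-- **The exact place for an in-arborescence** -/
theorem packW (b m : ℕ) (hb : 1 ≤ b) : ∃ (J C₁ : ℕ) (s : ℝ), 0 < s ∧ ∃ n₀ : ℕ, ∀ {V : Type} {R : V → V → Prop},
    AE32.Tour R → ∀ (U : Finset V) (p : ℕ), n₀ ≤ p → p + n₀ ≤ U.card → ∃ (y : V) (P₁ P₂ : Finset V), y ∈ U ∧ P₁ ⊆ U ∧
      P₂ ⊆ U ∧ y ∉ P₁ ∧ y ∉ P₂ ∧ Disjoint P₁ P₂ ∧ p ≤ P₁.card ∧ P₁.card ≤ p + C₁ ∧ U.card ≤ P₁.card + P₂.card + C₁ ∧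
      s * P₂.card ≤ ((nO R P₂ y).card : ℝ) ∧
      ∀ A : Fd, FOK b 0 0 (AEK.mrr A) → A.size + C₁ ≤ p → ∀ Q ⊆ P₂, ∃ S ⊆ U, y ∉ S ∧ Emb R A y S ∧
        (S \ P₁).card ≤ J ∧
        (3 * J < Q.card → ∃ x ∈ Q, x ∉ S ∧ (R y x ∨ ∃ v ∈ P₂, v ∉ S ∧ R y v ∧ R v x ∧
          m ≤ ((U \ insert y S).filter (fun z => R z v)).card)) := by
  obtain ⟨c₀, η, hη, hη8, hpack⟩ := packR b 0 1 1 hb le_rfl le_rfl
  obtain ⟨cc, hcc⟩ : ∃ cc : ℕ, cc = c₀ + m + 2 := ⟨_, rfl⟩
  obtain ⟨κ, ξ, s, τ, m₀, hκ, hξ, hs, hτ, hcut⟩ := cut cc (β := η / 2) (by positivity) (by linarith) one_pos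
  obtain ⟨κc, hκc⟩ : ∃ κc : ℝ, κc = min κ 1 := ⟨_, rfl⟩
  have hκc0 : 0 < κc := by rw [hκc]; exact lt_min hκ one_pos
  have hκc1 : κc ≤ 1 := by rw [hκc]; exact min_le_right _ _
  have hκc2 : κc ≤ κ := by rw [hκc]; exact min_le_left _ _
  obtain ⟨ξ₀, hξ₀⟩ : ∃ ξ₀ : ℝ, ξ₀ = min (ξ / 2) (1 / 2) := ⟨_, rfl⟩
  have hξ00 : 0 < ξ₀ := by rw [hξ₀]; exact lt_min (by positivity) (by norm_num)
  have hξ01 : ξ₀ ≤ 1 / 2 := by rw [hξ₀]; exact min_le_right _ _
  have hξ02 : ξ₀ ≤ ξ / 2 := by rw [hξ₀]; exact min_le_left _ _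
  obtain ⟨δA, hδA, hpack⟩ := hpack κc ξ₀ (s / 2) hκc0 hκc1 hξ00 (by linarith only [hη, hη8, hξ01]) (by positivity)
  obtain ⟨C, J, hpack⟩ := hpack (2 * (2 * c₀ + 1 + (m + 3)))
  obtain ⟨J', hJ'⟩ : ∃ J' : ℕ, J' = J + 2 * (m + J) := ⟨_, rfl⟩
  refine ⟨J', C + 4 * cc + 1 + (m + 3), s, hs, ?_⟩
  obtain ⟨n₁, hn₁⟩ := exists_big [(((m + 3 : ℕ) : ℝ), δA), (((2 * c₀ + 1 + (m + 3) : ℕ) : ℝ), τ), ((J' : ℝ), τ),
    (((m + 3 : ℕ) : ℝ), s / 2)] (by
    intro q hq
    simp only [List.mem_cons, List.not_mem_nil, or_false] at hq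
    rcases hq with rfl | rfl | rfl | rfl
    · exact hδA
    · exact hτ
    · exact hτ
    · exact half_pos hs)
  refine ⟨m₀ + n₁ + 4 * cc + 1 + 2 * (m + 3), ?_⟩
  intro V R hT U p hp hpU
  have key : ∀ {V : Type} {R : V → V → Prop} {A : Fd} {y : V} {S : Finset V}, EmbAllB (rv R) [(y, AEK.mrr A)] S →
      Emb R A y S := by
    intro V R A y S h
    have h1 := AEK.emb_mrr (embAllB_single.1 h)
    rw [AEK.mrr_mrr] at h1
    exact h1
  by_cases h2p : 2 * p + 1 ≤ U.card
  · -- the place is in the first half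
    obtain ⟨y, P₁, P₂, U₁, hyU, hPU₁, hP₂, hU₁, hyU₁, hd, hP1c, hc1, hc2, -, hξU, hS, hSC⟩ :=
      hcut hT U p (by omega) h2p
    have hSC' : SideC (rv R) U₁ P₁ (κc * U₁.card) (η / 2 * p) s τ cc y :=
      hSC.mono (mul_le_mul_of_nonneg_right hκc2 (Nat.cast_nonneg _)) le_rfl le_rfl le_rfl
    have hyP₁ : y ∉ P₁ := hSC.side.notMem
    refine ⟨y, P₁, P₂, hyU, hPU₁.trans hU₁, hP₂, hyP₁, hS.notMem, hd, by omega, by omega, by omega, ?_, ?_⟩
    · refine hS.lin.trans (Nat.cast_le.2 (card_le_card ?_))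
      intro w hw
      rw [mem_filter] at hw
      exact mem_nO.2 ⟨hw.1, hw.2.1⟩
    intro A hA hAp Q hQ
    -- the reserved set
    obtain ⟨A', hyA', hA'c, hA'⟩ : ∃ A' : Finset V, y ∈ A' ∧ A'.card ≤ m + 3 ∧ (3 * J' < Q.card → ∃ x ∈ Q, x ∈ A' ∧
        (R y x ∨ ∃ v ∈ P₂, v ∈ A' ∧ R y v ∧ R v x ∧ ∃ B ⊆ U, y ∉ B ∧ B ⊆ A' ∧ (∀ z ∈ B, R z v) ∧ m ≤ B.card)) := by
      rcases Q.eq_empty_or_nonempty with hQe | ⟨x, hx⟩
      · refine ⟨{y}, mem_singleton_self _, by simp, fun h => ?_⟩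
        rw [hQe, card_empty] at h
        omega
      · by_cases hyx : R y x
        · refine ⟨{y, x}, by simp, ?_, fun _ => ⟨x, hx, by simp, Or.inl hyx⟩⟩
          have := card_le_two (a := y) (b := x)
          omega
        · have hne : x ≠ y := fun e => hS.notMem (e ▸ hQ hx)
          obtain ⟨w, hw⟩ := hS.dom x (hQ hx) ((hT.tot x y hne).resolve_right hyx)
          rw [mem_Dm] at hw
          have h1 : m ≤ ((U.erase y).filter (fun z => R z w)).card := by
            have h2 : U.filter (fun z => R z w ∧ Rea R U P₂ (κ * U.card) (η / 2 * P₂.card) z) ⊆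
                insert y ((U.erase y).filter (fun z => R z w)) := by
              intro z hz
              rw [mem_filter] at hz
              rw [mem_insert, mem_filter, mem_erase]
              by_cases hzy : z = y
              · exact Or.inl hzy
              · exact Or.inr ⟨⟨hzy, hz.1⟩, hz.2.1⟩
            have h3 := (card_le_card h2).trans (card_insert_le _ _)
            have h4 := hw.2.2.2.2
            omega
          obtain ⟨B, hB, hBc⟩ := exists_subset_card_eq h1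
          refine ⟨insert y (insert x (insert w B)), mem_insert_self _ _, ?_, fun _ => ⟨x, hx, by simp, Or.inr
            ⟨w, hw.1, by simp, hw.2.1, hw.2.2.1, B, fun z hz => ?_, fun h => ?_, fun z hz => ?_, fun z hz => ?_,
              hBc.ge⟩⟩⟩
          · have h2 := card_insert_le y (insert x (insert w B))
            have h3 := card_insert_le x (insert w B)
            have h4 := card_insert_le w B
            omega
          · exact (mem_erase.1 (mem_filter.1 (hB hz)).1).2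
          · exact (mem_erase.1 (mem_filter.1 (hB h)).1).1 rfl
          · simp [hz]
          · exact (mem_filter.1 (hB hz)).2
    obtain ⟨P, hP⟩ : ∃ P, P = P₁ \ A' := ⟨_, rfl⟩
    have hPP₁ : P ⊆ P₁ := by rw [hP]; exact sdiff_subset
    have hPc : p ≤ P.card + (m + 3) := by
      have h1 := le_card_sdiff A' P₁
      rw [hP]
      omega
    have hPc' : (p : ℝ) ≤ P.card + (m + 3 : ℕ) := by exact_mod_cast hPc
    have hU₁c : p ≤ U₁.card := hP1c ▸ card_le_card hPU₁
    have hp2 : (2 : ℝ) * ((m + 3 : ℕ) : ℝ) ≤ p := by exact_mod_cast (by omega : 2 * (m + 3) ≤ p)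
    have g1 : ((m + 3 : ℕ) : ℝ) ≤ δA * U₁.card := hn₁ U₁.card (by omega) (_, δA) (by simp)
    have g2 : ((2 * c₀ + 1 + (m + 3) : ℕ) : ℝ) ≤ τ * P₁.card := hn₁ P₁.card (by omega) (_, τ) (by simp)
    have g3 : ((m + 3 : ℕ) : ℝ) ≤ s / 2 * P₁.card := hn₁ P₁.card (by omega) (_, s / 2) (by simp)
    have hPle : (P.card : ℝ) ≤ P₁.card := by exact_mod_cast card_le_card hPP₁
    have hyP : y ∉ P := fun h => hyP₁ (hPP₁ h)
    have hRea : ∀ w, Rea (rv R) U₁ P₁ (κc * U₁.card) (η / 2 * p) w → Rea (rv R) U₁ P (κc * U₁.card) (η / 2 * p) w :=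
      fun w h => rea_anti h hPP₁
    obtain ⟨S, s1, s2, s3, s4⟩ := hpack (rv_tour hT) U₁ P P A' y (AEK.mrr A) [] (η / 2 * p) (Subset.refl _)
      (hPP₁.trans hPU₁) (by simp) hA (fok_true hA) (by simp) hyU₁ hyP hyA' (by simp) (by
        have h1 : ξ₀ * U₁.card ≤ ξ / 2 * U₁.card := mul_le_mul_of_nonneg_right hξ02 (Nat.cast_nonneg _)
        linarith only [hξU, hPc', hp2, h1]) (hRea y hSC'.side.reach) (by
        have h1 := hSC'.side.lin
        have h2 : P₁.filter (fun w => rv R y w ∧ Rea (rv R) U₁ P₁ (κc * U₁.card) (η / 2 * p) w) ⊆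
            P.filter (fun w => rv R y w ∧ Rea (rv R) U₁ P (κc * U₁.card) (η / 2 * p) w) ∪ A' := by
          intro w hw
          rw [mem_filter] at hw
          rw [mem_union, mem_filter, hP, mem_sdiff]
          by_cases hwA : w ∈ A'
          · exact Or.inr hwA
          · exact Or.inl ⟨⟨hw.1, hwA⟩, hw.2.1, by rw [← hP]; exact hRea w hw.2.2⟩
        have h3 : ((P₁.filter (fun w => rv R y w ∧ Rea (rv R) U₁ P₁ (κc * U₁.card) (η / 2 * p) w)).card : ℝ) ≤
            (P.filter (fun w => rv R y w ∧ Rea (rv R) U₁ P (κc * U₁.card) (η / 2 * p) w)).card + (m + 3 : ℕ) := by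
          have h4 := (card_le_card h2).trans (card_union_le _ _)
          exact_mod_cast h4.trans (Nat.add_le_add_left hA'c _)
        have h4 : s / 2 * (P.card : ℝ) ≤ s / 2 * P₁.card := mul_le_mul_of_nonneg_left hPle (by positivity)
        linarith only [g3, h1, h3, h4]) (by
        refine le_trans (card_le_card ?_) (hSC'.cnt (2 * c₀ + 1 + (m + 3)) g2)
        intro u hu
        rw [mem_filter] at hu
        rw [mem_filter]
        refine ⟨hPP₁ hu.1, hu.2.1, ?_⟩
        by_contra hcon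
        push Not at hcon
        obtain ⟨D, hD⟩ : ∃ D, D = Dm (rv R) U₁ P₁ (κc * U₁.card) (η / 2 * p) cc y u := ⟨_, rfl⟩
        rw [← hD] at hcon
        have hDA : 2 * c₀ + 2 ≤ (D \ A').card := by
          have := le_card_sdiff A' D
          omega
        obtain ⟨w, hw, hwc⟩ := exists_indeg (rv_tour hT) (B := D \ A') (by omega)
        refine hu.2.2 ?_
        have hw1 := mem_sdiff.1 hw
        have hw' := hw1.1
        rw [hD, mem_Dm] at hw'
        refine ⟨w, by rw [hP, mem_sdiff]; exact ⟨hw'.1, hw1.2⟩, hw'.2.1, hw'.2.2.1, hRea w hw'.2.2.2.1, ?_⟩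
        have h1 : nI (rv R) (D \ A') w ⊆
            P.filter (fun v => rv R v w ∧ Rea (rv R) U₁ P (κc * U₁.card) (η / 2 * p) v) := by
          intro z hz
          rw [mem_nI, mem_sdiff, hD, mem_Dm] at hz
          exact mem_filter.2 ⟨by rw [hP, mem_sdiff]; exact ⟨hz.1.1.1, hz.1.2⟩, hz.2, hRea z hz.1.1.2.2.2.1⟩
        have h2 := card_le_card h1
        omega) (by simp) (by
        have h1 : η / 2 * p ≤ η * (P.card : ℝ) := by
          have h2 : (p : ℝ) ≤ 2 * P.card := by linarith only [hPc', hp2]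
          have := mul_le_mul_of_nonneg_left h2 hη.le
          linarith only [this]
        exact h1) (by
        have : (A'.card : ℝ) ≤ ((m + 3 : ℕ) : ℝ) := by exact_mod_cast hA'c
        linarith only [g1, this]) (by
        have : totB [(y, AEK.mrr A)] = A.size := by simp [totB, AEK.mrr_size]
        rw [this]
        omega)
    have hout : ∀ x ∈ A', x ∉ S := fun x hx hxS =>
      disjoint_left.1 s3 (mem_sdiff.2 ⟨hxS, fun h => by
        rw [hP, mem_sdiff] at h
        exact h.2 hx⟩) hx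
    refine ⟨S, s2.trans hU₁, hout y hyA', key s1, ?_, ?_⟩
    · have h1 : S \ P₁ ⊆ S \ P := sdiff_subset_sdiff (Subset.refl _) hPP₁
      have := card_le_card h1
      omega
    · intro hQc
      obtain ⟨x, hx, hxA, h1⟩ := hA' hQc
      refine ⟨x, hx, hout x hxA, ?_⟩
      rcases h1 with h1 | ⟨v, h1, h2, h3, h4, B, h5, h6, h7, h8, h9⟩
      · exact Or.inl h1
      · refine Or.inr ⟨v, h1, hout v h2, h3, h4, h9.trans (card_le_card ?_)⟩
        intro z hz
        rw [mem_filter, mem_sdiff, mem_insert, not_or]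
        exact ⟨⟨h5 hz, fun h => h6 (h ▸ hz), hout z (h7 hz)⟩, h8 z hz⟩
  · -- the place is in the second half
    obtain ⟨p', hp'⟩ : ∃ p' : ℕ, p' = U.card - 1 - p - 4 * cc := ⟨_, rfl⟩
    obtain ⟨y, Q₁, Q₂, U₁, hyU, hQU₁, hQ₂, hU₁, hyU₁, hd, hQ1c, hc1, hc2, -, hξU, hS, hSC⟩ :=
      hcut (rv_tour hT) U p' (by omega) (by omega)
    have hS' : Side (rv R) U Q₂ (κc * U.card) (η / 2 * Q₂.card) s cc y :=
      hS.mono (mul_le_mul_of_nonneg_right hκc2 (Nat.cast_nonneg _)) le_rfl le_rfl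
    have hyQ₂ : y ∉ Q₂ := hS.notMem
    have hyQ₁ : y ∉ Q₁ := hSC.side.notMem
    have hQ₁U : Q₁ ⊆ U := hQU₁.trans hU₁
    refine ⟨y, Q₂, Q₁, hyU, hQ₂, hQ₁U, hyQ₂, hyQ₁, hd.symm, by omega, by omega, by omega, ?_, ?_⟩
    · refine hSC.side.lin.trans (Nat.cast_le.2 (card_le_card ?_))
      intro w hw
      rw [mem_filter] at hw
      exact mem_nO.2 ⟨hw.1, hw.2.1⟩
    intro A hA hAp Q hQ
    have g1 : ((m + 3 : ℕ) : ℝ) ≤ δA * U.card := hn₁ U.card (by omega) (_, δA) (by simp)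
    have g2 : (J' : ℝ) ≤ τ * Q₁.card := hn₁ Q₁.card (by omega) ((J' : ℝ), τ) (by simp)
    have hUQ : (U.card : ℝ) ≤ 2 * Q₂.card := by
      have : U.card ≤ 2 * Q₂.card := by omega
      exact_mod_cast this
    have hη0 : η / 2 * (Q₂.card : ℝ) ≤ η * Q₂.card := mul_le_mul_of_nonneg_right (by linarith only [hη]) (Nat.cast_nonneg _)
    obtain ⟨S, s1, s2, s3, s4⟩ := hpack (rv_tour hT) U (U.erase y) Q₂ {y} y (AEK.mrr A) [] (η / 2 * Q₂.card)
      (fun z hz => mem_erase.2 ⟨fun e => hyQ₂ (e ▸ hz), hQ₂ hz⟩) (erase_subset _ _) (by simp)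
      hA (fok_true hA) (by simp) hyU (by simp) (by simp) (by simp) (by
        have h1 : ξ₀ * U.card ≤ 1 / 2 * U.card := mul_le_mul_of_nonneg_right hξ01 (Nat.cast_nonneg _)
        linarith only [hUQ, h1]) hS'.reach (by
        have h1 : s / 2 * (Q₂.card : ℝ) ≤ s * Q₂.card := mul_le_mul_of_nonneg_right (by linarith only [hs]) (Nat.cast_nonneg _)
        exact h1.trans hS'.lin) (by
        rw [card_eq_zero.2]
        · exact Nat.zero_le _
        rw [filter_eq_empty_iff]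
        intro u hu hcon
        obtain ⟨w, hw⟩ := hS'.dom u hu hcon.1
        rw [mem_Dm] at hw
        refine hcon.2 ⟨w, hw.1, hw.2.1, hw.2.2.1, hw.2.2.2.1, ?_⟩
        have h1 : U.filter (fun z => rv R z w ∧ Rea (rv R) U Q₂ (κc * U.card) (η / 2 * Q₂.card) z) ⊆
            insert y ((U.erase y).filter (fun z => rv R z w ∧ Rea (rv R) U Q₂ (κc * U.card) (η / 2 * Q₂.card) z)) := by
          intro z hz
          rw [mem_filter] at hz
          rw [mem_insert, mem_filter, mem_erase]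
          by_cases hzy : z = y
          · exact Or.inl hzy
          · exact Or.inr ⟨⟨hzy, hz.1⟩, hz.2⟩
        have h2 := (card_le_card h1).trans (card_insert_le _ _)
        have h3 := hw.2.2.2.2
        omega) (by simp) hη0 (by
        rw [card_singleton]
        push_cast at g1 ⊢
        have : (0 : ℝ) ≤ m := Nat.cast_nonneg _
        linarith only [hη, hη8, g1]) (by
        have : totB [(y, AEK.mrr A)] = A.size := by simp [totB, AEK.mrr_size]
        rw [this]
        omega)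
    have hyS : y ∉ S := fun h => disjoint_left.1 s3 (mem_sdiff.2 ⟨h, by simp⟩) (mem_singleton_self _)
    refine ⟨S, s2, hyS, key s1, by omega, ?_⟩
    intro hQc
    by_contra hno
    push Not at hno
    obtain ⟨W, hW⟩ : ∃ W, W = Q₁.filter (fun w => (nI R Q₁ w).card < m + J) := ⟨_, rfl⟩
    have hWc : W.card ≤ 2 * (m + J) := by rw [hW]; exact card_lowin hT (m + J) Q₁
    have hSQ : (Q₁ ∩ S).card ≤ J := by
      refine (card_le_card ?_).trans s4
      intro a ha
      rw [mem_inter] at ha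
      exact mem_sdiff.2 ⟨ha.2, disjoint_left.1 hd ha.1⟩
    have h1 : Q ⊆ (S \ Q₂) ∪ Q₁.filter (fun u => rv (rv R) u y ∧
          (Dm (rv (rv R)) U₁ Q₁ (κ * U₁.card) (η / 2 * p') cc y u).card ≤ J') := by
      intro x hx
      have hx1 := hQ hx
      by_cases hxS : x ∈ S
      · exact mem_union_left _ (mem_sdiff.2 ⟨hxS, disjoint_left.1 hd hx1⟩)
      · obtain ⟨h2, h3⟩ := hno x hx hxS
        have hne : x ≠ y := fun e => hyQ₁ (e ▸ hx1)
        refine mem_union_right _ (mem_filter.2 ⟨hx1, (hT.tot x y hne).resolve_right h2, ?_⟩)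
        have h4 : Dm (rv (rv R)) U₁ Q₁ (κ * U₁.card) (η / 2 * p') cc y x ⊆ (Q₁ ∩ S) ∪ W := by
          intro w hw
          rw [mem_Dm] at hw
          by_contra hcw
          rw [mem_union, not_or, mem_inter, not_and, hW, mem_filter, not_and, not_lt] at hcw
          have h5 := hcw.1 hw.1
          have h6 := hcw.2 hw.1
          refine absurd (h3 w hw.1 h5 hw.2.1 hw.2.2.1) (not_lt.2 ?_)
          have h7 : nI R Q₁ w ⊆ ((U \ insert y S).filter (fun z => R z w)) ∪ (Q₁ ∩ S) := by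
            intro z hz
            rw [mem_nI] at hz
            rw [mem_union, mem_filter, mem_sdiff, mem_insert, mem_inter]
            have hzy : z ≠ y := fun e => hyQ₁ (e ▸ hz.1)
            have hzU := hQ₁U hz.1
            tauto
          have h8 := (card_le_card h7).trans (card_union_le _ _)
          omega
        have h5 := (card_le_card h4).trans (card_union_le _ _)
        omega
    have h2 := (card_le_card h1).trans (card_union_le _ _)
    have h3 := hSC.cnt J' g2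
    omega

end AESY
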