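import Pool.Agent.AESY.Defs
import Pool.Agent.AECut.CutL
import Pool.Agent.AEX.Four

/-!
# Free ends without the cleanliness condition: in-closures, small trees, the end of both cases
-/

set_option autoImplicit false

namespace AESY

open Finset AE15 AED AELT AEB AESF
open scoped Classical

variable {V : Type} {R : V → V → Prop}

theorem length_outs (F : Fd) : (outs F).length ≤ F.len := by
  induction F with
  | nil => simp [outs, Fd.len]
  | node d e s _ ih => cases d <;> simp [outs, Fd.len] <;> omega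

theorem mem_pnd {F D : Fd} : D ∈ pnd F ↔ D ∈ outs F ∨ D ∈ pin F := by
  induction F with
  | nil => simp [outs, pnd, pin]
  | node d e s _ ih =>
    cases d
    · simp only [pnd, outs, pin, Bool.false_eq_true, if_false, List.mem_append, ih]
      tauto
    · simp only [pnd, outs, pin, if_true, List.mem_cons, ih]
      tauto

/-- a forest is embedded below a set of in-neighbours -/
theorem emb_before (hT : AE32.Tour R) {b : ℕ} (F : Fd) : ∀ {z : V} {A : Finset V}, F.len ≤ b → F.Deg b →
    (∀ p ∈ F.trees, p.1 = false) → (∀ a ∈ A, R a z) → 4 * F.size ≤ A.card → ∃ S ⊆ A, Emb R F z S := by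
  induction F with
  | nil => intro z A _ _ _ _ _; exact ⟨∅, empty_subset _, rfl⟩
  | node d c s _ ihs =>
    intro z A hl hD hF hA hAc
    have hd : d = false := hF (d, c) (by simp [Fd.trees])
    subst hd
    simp only [Fd.len] at hl
    have hsz : (Fd.node false c s).size = c.size + s.size + 1 := rfl
    obtain ⟨x, hx, B, hB, hxB, -, hE⟩ := AEX.un_four hT b c hD.1 hD.2.1 A (by
      have h1 : 4 * (c.size + 1) ≤ A.card := by omega
      have h2 : (4 : ℝ) * (c.size + 1) ≤ A.card := by exact_mod_cast h1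
      linarith)
    have hBc : B.card = c.size := hE.card
    have hi : (insert x B).card = c.size + 1 := by rw [card_insert_of_notMem hxB, hBc]
    have hiA : insert x B ⊆ A := insert_subset hx hB
    have hc := card_sdiff_add_card_eq_card hiA
    obtain ⟨S, hS, hES⟩ := ihs (z := z) (A := A \ insert x B) (by omega) hD.2.2
      (fun p hp => hF p (by simp [Fd.trees, hp])) (fun a ha => hA a (mem_sdiff.1 ha).1) (by omega)
    have hxS : x ∉ S := fun h => (mem_sdiff.1 (hS h)).2 (mem_insert_self _ _)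
    have hBS : Disjoint B S := by
      rw [disjoint_left]
      intro a ha h
      exact (mem_sdiff.1 (hS h)).2 (mem_insert_of_mem ha)
    refine ⟨insert x (B ∪ S), ?_, x, B, S, ?_, hxB, hxS, hBS, rfl, hE, hES⟩
    · refine insert_subset hx (union_subset hB (hS.trans sdiff_subset))
    · simpa [Adj] using hA x hx

/-- the in-closure is embedded; the pending trees are listed -/
theorem pin_pg {b : ℕ} (F : Fd) : ∀ {z : V} {S : Finset V}, F.Deg b → Emb R (prIn F) z S → ∃ P : List (V × Fd),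
    PGq R F z S ((outs F).map (fun c => (z, true, c)) ++ P.map (fun p => (p.1, true, p.2))) ∧
      (∀ p ∈ P, p.1 ∈ S ∧ p.2 ∈ pin F) ∧ P.length ≤ b * blk F := by
  induction F with
  | nil =>
    intro z S _ h
    rw [show S = ∅ from h]
    exact ⟨[], by simpa [outs] using (PG.nil (R := R) z).q, by simp, by simp⟩
  | node d c s ihc ihs =>
    intro z S hD h
    cases d with
    | true =>
      simp only [prIn, if_true] at h
      obtain ⟨P, h1, h2, h3⟩ := ihs hD.2.2 h
      refine ⟨P, ?_, ?_, ?_⟩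
      · have h4 : PGq R (.node true c s) z S ((z, true, c) :: ((outs s).map (fun c => (z, true, c)) ++
            P.map (fun p => (p.1, true, p.2)))) := h1.pend (p := (true, c)) (List.Perm.refl _)
        simpa [outs] using h4
      · intro p hp
        obtain ⟨h4, h5⟩ := h2 p hp
        exact ⟨h4, by simpa [pin] using h5⟩
      · simpa [blk] using h3
    | false =>
      simp only [prIn, Bool.false_eq_true, if_false] at h
      obtain ⟨x, A, B, h1, h2, h3, h4, rfl, h6, h7⟩ := h
      obtain ⟨P₁, a1, a2, a3⟩ := ihc hD.2.1 h6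
      obtain ⟨P₂, b1, b2, b3⟩ := ihs hD.2.2 h7
      refine ⟨(outs c).map (fun e => (x, e)) ++ P₁ ++ P₂, ?_, ?_, ?_⟩
      · have h8 := PGq.place (d := false) h1 h2 h3 h4 a1 b1
        refine h8.perm ?_
        simp only [outs, Bool.false_eq_true, if_false, List.map_append, List.map_map]
        refine List.perm_iff_count.2 fun a => ?_
        simp only [List.count_append, Function.comp_def]
        omega
      · intro p hp
        rw [List.mem_append, List.mem_append, List.mem_map] at hp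
        simp only [pin, Bool.false_eq_true, if_false, List.mem_append]
        rcases hp with (⟨e, he, rfl⟩ | hp) | hp
        · exact ⟨mem_insert_self _ _, Or.inl (mem_pnd.2 (Or.inl he))⟩
        · obtain ⟨h9, h10⟩ := a2 p hp
          exact ⟨mem_insert_of_mem (mem_union_left _ h9), Or.inl (mem_pnd.2 (Or.inr h10))⟩
        · obtain ⟨h9, h10⟩ := b2 p hp
          exact ⟨mem_insert_of_mem (mem_union_right _ h9), Or.inr h10⟩
      · rw [List.length_append, List.length_append, List.length_map]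
        have h11 := (length_outs c).trans hD.1
        have h12 : blk (.node false c s) = blk c + 1 + blk s ∨ blk (.node false c s) = 1 + blk c + blk s ∨
            blk (.node false c s) = blk c + blk s + 1 := by
          simp only [blk, Bool.false_eq_true, if_false]
          omega
        have h13 : blk (.node false c s) = blk c + blk s + 1 := by omega
        rw [h13, Nat.mul_add, Nat.mul_add, Nat.mul_one]
        omega

/-- the in-closure of `F` is placed in `A`, before `z` -/
theorem incore (hT : AE32.Tour R) {b q : ℕ} {F : Fd} (hl : F.len ≤ b) (hD : F.Deg b) (hq : blk F ≤ q) {z : V}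
    {A : Finset V} (hA : ∀ a ∈ A, R a z) (hAc : 4 * q + 4 ≤ A.card) : ∃ (S : Finset V) (P : List (V × Fd)), S ⊆ A ∧
      S.card ≤ q ∧ PGq R F z S ((outs F).map (fun c => (z, true, c)) ++ P.map (fun p => (p.1, true, p.2))) ∧
      (∀ p ∈ P, p.1 ∈ S ∧ p.2 ∈ pin F) ∧ P.length ≤ b * q := by
  obtain ⟨S, hS, hE⟩ := emb_before hT (b := b) (prIn F) ((prIn_len F).trans hl) (prIn_deg hD) (prIn_in F) hA (by
    rw [blk_prIn]
    omega)
  obtain ⟨P, h1, h2, h3⟩ := pin_pg F hD hE
  refine ⟨S, P, hS, ?_, h1, h2, h3.trans (Nat.mul_le_mul_left _ hq)⟩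
  rw [hE.card, blk_prIn]
  exact hq

/-- most hosts have `m` in-neighbours among the hosts -/
theorem low_in (hT : AE32.Tour R) (I : Finset V) (m : ℕ) :
    (I.filter (fun z => (I.filter (fun a => R a z)).card < m)).card ≤ 2 * m := by
  refine le_trans (card_le_card ?_) (AECut.card_lowin hT m I)
  intro z hz
  rw [mem_filter] at hz ⊢
  refine ⟨hz.1, lt_of_le_of_lt (card_le_card fun a ha => ?_) hz.2⟩
  rw [mem_nI] at ha
  exact mem_filter.2 ha

/-- most vertices have `m` in-neighbours of large out-degree -/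
theorem bad_card (hT : AE32.Tour R) (Y : Finset V) {c : ℝ} (hc : 0 ≤ c) (m : ℕ) :
    ((Y.filter (fun f => (nI R (Y.filter (fun g => c ≤ ((nO R Y g).card : ℝ))) f).card < m)).card : ℝ) ≤
      2 * c + 2 * m + 2 := by
  obtain ⟨Gd, hGd⟩ : ∃ Gd, Gd = Y.filter (fun g => c ≤ ((nO R Y g).card : ℝ)) := ⟨_, rfl⟩
  rw [← hGd]
  obtain ⟨k, hk⟩ : ∃ k : ℕ, k = ⌈c⌉₊ := ⟨_, rfl⟩
  have hk1 : c ≤ k := by rw [hk]; exact Nat.le_ceil _
  have hk2 : (k : ℝ) < c + 1 := by rw [hk]; exact Nat.ceil_lt_add_one hc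
  have h1 := AECut.card_lowin hT m Gd
  have h2 := AECut.card_lowin (AECut.tour_rev hT) k Y
  have h3 : Y.filter (fun f => (nI R Gd f).card < m) ⊆ Gd.filter (fun w => (nI R Gd w).card < m) ∪
      Y.filter (fun w => (nI (fun a b => R b a) Y w).card < k) := by
    intro f hf
    rw [mem_filter] at hf
    rw [mem_union, mem_filter, mem_filter]
    by_cases hfG : f ∈ Gd
    · exact Or.inl ⟨hfG, hf.2⟩
    · refine Or.inr ⟨hf.1, ?_⟩
      have h4 : ¬ c ≤ ((nO R Y f).card : ℝ) := fun h => hfG (by rw [hGd]; exact mem_filter.2 ⟨hf.1, h⟩)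
      push Not at h4
      have h5 : ((nO R Y f).card : ℝ) < k := lt_of_lt_of_le h4 hk1
      exact_mod_cast h5
  have h4 : ((Y.filter (fun f => (nI R Gd f).card < m)).card : ℝ) ≤ 2 * m + 2 * k := by
    exact_mod_cast (card_le_card h3).trans ((card_union_le _ _).trans (Nat.add_le_add h1 h2))
  linarith

/-- small trees at vertices of large out-degree -/
theorem small_garb (hT : AE32.Tour R) {b : ℕ} {c t : ℝ} (Y : Finset V) (P : List (V × Fd)) : ∀ (W : Finset V)
    (_ : ∀ p ∈ P, p.2.len ≤ b ∧ p.2.Deg b ∧ (p.2.size + 1 : ℝ) ≤ t ∧ c ≤ ((nO R Y p.1).card : ℝ)) (_ : 0 ≤ t)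
    (_ : (W.card : ℝ) + (P.length + 4) * t ≤ c),
    ∃ A ⊆ Y, Disjoint A W ∧ EmbI R P A ∧ (A.card : ℝ) ≤ P.length * t := by
  induction P with
  | nil =>
    intro W _ _ _
    exact ⟨∅, empty_subset _, disjoint_empty_left _, rfl, by simp⟩
  | cons p P ih =>
    intro W hP ht hc
    obtain ⟨h1, h2, h3, h4⟩ := hP p List.mem_cons_self
    rw [List.length_cons] at hc
    push_cast at hc
    have hPt : 0 ≤ (P.length : ℝ) * t := by positivity
    have h5 : ((nO R Y p.1).card : ℝ) ≤ ((nO R Y p.1) \ W).card + W.card := by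
      have h6 := le_card_sdiff W (nO R Y p.1)
      have h7 : (nO R Y p.1).card ≤ ((nO R Y p.1) \ W).card + W.card := by omega
      exact_mod_cast h7
    obtain ⟨x, hx, B, hB, hxB, -, hE⟩ := AEX.un_four hT b p.2 h1 h2 ((nO R Y p.1) \ W) (by
      have h6 : 4 * (p.2.size + 1 : ℝ) ≤ 4 * t := by linarith
      linarith)
    have hi : ((insert x B).card : ℝ) ≤ t := by
      rw [card_insert_of_notMem hxB, hE.card]
      push_cast
      exact h3
    obtain ⟨A, hA, hAW, hEA, hAc⟩ := ih (W ∪ insert x B) (fun r hr => hP r (List.mem_cons_of_mem _ hr)) ht (by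
      have h6 : ((W ∪ insert x B).card : ℝ) ≤ W.card + (insert x B).card := by exact_mod_cast card_union_le _ _
      linarith)
    rw [disjoint_union_right] at hAW
    have hiN : insert x B ⊆ (nO R Y p.1) \ W := insert_subset hx hB
    refine ⟨insert x B ∪ A, ?_, ?_, ?_, ?_⟩
    · refine union_subset ?_ hA
      exact hiN.trans (sdiff_subset.trans nO_sub)
    · rw [disjoint_union_left]
      refine ⟨?_, hAW.1⟩
      rw [disjoint_left]
      intro a ha
      exact (mem_sdiff.1 (hiN ha)).2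
    · refine ⟨insert x B, A, hAW.2.symm, rfl, ⟨x, B, ?_, hxB, rfl, hE⟩, hEA⟩
      exact (mem_nO.1 (mem_sdiff.1 hx).1).2
    · have h6 : ((insert x B ∪ A).card : ℝ) ≤ (insert x B).card + A.card := by exact_mod_cast card_union_le _ _
      rw [List.length_cons]
      push_cast
      linarith

/-- the end of both cases; the placed part of `E` is not wasted -/
theorem finishY {c : Fd} {X P₁ Y S Zr E Q : Finset V} {y : V} {L : List (V × Fd)}
    {G : List (V × Bool × Fd)} {σ : ℝ} {t C₁ C₂ : ℕ} (hyX : y ∈ X) (hP₁ : P₁ ⊆ X) (hyP : y ∉ P₁)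
    (hY : Y = (X \ P₁).erase y) (hSX : S ⊆ X) (hyS : y ∉ S) (hSE : S \ P₁ ⊆ E) (hZE : Zr ⊆ E) (hSZ : Disjoint S Zr)
    (hEY : E ⊆ Y) (hQ : Q ⊆ Y \ E) (hPG : PGq R c y (S ∪ Zr) (L.map (fun q => (q.1, true, q.2)) ++ G))
    (hbox : ∀ P ⊆ Y, Disjoint P E → Q ⊆ P → isz L + C₁ ≤ P.card → ∃ A ⊆ P, EmbI R L A)
    (hgarb : ∀ W ⊆ Y, (gsz G : ℝ) + σ ≤ W.card → ∃ A ⊆ W, EmbG R G A)
    (hσ : σ + E.card + Q.card ≤ isz L) (ht : S.card = t) (hPc : P₁.card ≤ t + C₂)
    (hcard : c.size + 1 + (C₁ + C₂ + (E \ Zr).card) ≤ X.card) : In R c (fun _ => True) X := by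
  have hsz := hPG.size
  rw [gsz_append] at hsz
  have hLs : gsz (L.map (fun q => (q.1, true, q.2))) = isz L := by
    clear hPG hbox hσ hsz
    induction L with
    | nil => rfl
    | cons q L ih => rw [List.map_cons, gsz_cons, AEB.isz_cons, ih]
  rw [hLs] at hsz
  have hSZc : (S ∪ Zr).card = S.card + Zr.card := card_union_of_disjoint hSZ
  have hEZ : (E \ Zr).card + Zr.card = E.card := card_sdiff_add_card_eq_card hZE
  have hYc : Y.card + P₁.card + 1 = X.card := by
    have h1 : y ∈ X \ P₁ := mem_sdiff.2 ⟨hyX, hyP⟩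
    have h2 := card_sdiff_add_card_eq_card hP₁
    rw [hY, card_erase_of_mem h1]
    have h3 : 0 < (X \ P₁).card := card_pos.2 ⟨y, h1⟩
    omega
  have hYE : (Y \ E).card + E.card = Y.card := card_sdiff_add_card_eq_card hEY
  obtain ⟨W, hW⟩ : ∃ W, W = (Y \ E) \ Q := ⟨_, rfl⟩
  have hWc : W.card + Q.card = (Y \ E).card := by rw [hW]; exact card_sdiff_add_card_eq_card hQ
  have hWY : W ⊆ Y := by rw [hW]; exact sdiff_subset.trans sdiff_subset
  obtain ⟨AG, hAG, hEG⟩ := hgarb W hWY (by
    have h1 : gsz G + isz L + C₁ + E.card ≤ Y.card := by omega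
    have h2 : (gsz G : ℝ) + isz L + C₁ + E.card ≤ Y.card := by exact_mod_cast h1
    have h3 : (W.card : ℝ) + Q.card + E.card = Y.card := by
      have : W.card + Q.card + E.card = Y.card := by omega
      exact_mod_cast this
    have h4 : (0 : ℝ) ≤ C₁ := Nat.cast_nonneg _
    linarith)
  have hAGc := hEG.card
  obtain ⟨P, hP⟩ : ∃ P, P = (Y \ E) \ AG := ⟨_, rfl⟩
  have hAGY : AG ⊆ Y \ E := hAG.trans (by rw [hW]; exact sdiff_subset)
  have hPc' : P.card + AG.card = (Y \ E).card := by rw [hP]; exact card_sdiff_add_card_eq_card hAGY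
  have hPY : P ⊆ Y := by rw [hP]; exact sdiff_subset.trans sdiff_subset
  obtain ⟨AL, hAL, hEL⟩ := hbox P hPY (by
    rw [hP, disjoint_left]
    intro a ha
    exact (mem_sdiff.1 (mem_sdiff.1 ha).1).2) (by
    intro a ha
    rw [hP, mem_sdiff]
    refine ⟨hQ ha, fun h => ?_⟩
    have h1 := hAG h
    rw [hW, mem_sdiff] at h1
    exact h1.2 ha) (by omega)
  have hdis : Disjoint AL AG := by
    rw [disjoint_left]
    intro a ha
    have h1 := hAL ha
    rw [hP, mem_sdiff] at h1
    exact h1.2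
  have hall : EmbG R (L.map (fun q => (q.1, true, q.2)) ++ G) (AL ∪ AG) := (EmbG.of_embI hEL).append hEG hdis
  have hALY : AL ⊆ Y \ E := hAL.trans (by rw [hP]; exact sdiff_subset)
  have hA : AL ∪ AG ⊆ Y \ E := union_subset hALY hAGY
  have hYX : ∀ a ∈ Y, a ∈ X ∧ a ∉ P₁ ∧ a ≠ y := by
    intro a ha
    rw [hY, mem_erase, mem_sdiff] at ha
    exact ⟨ha.2.1, ha.2.2, ha.1⟩
  have hdis2 : Disjoint (S ∪ Zr) (AL ∪ AG) := by
    rw [disjoint_left]
    intro a ha haA
    obtain ⟨h1, h2⟩ := mem_sdiff.1 (hA haA)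
    rcases mem_union.1 ha with h3 | h3
    · exact h2 (hSE (mem_sdiff.2 ⟨h3, (hYX a h1).2.1⟩))
    · exact h2 (hZE h3)
  refine ⟨y, hyX, (S ∪ Zr) ∪ (AL ∪ AG), ?_, ?_, trivial, hPG.complete hall hdis2⟩
  · refine union_subset (union_subset hSX ?_) ?_
    · exact fun a ha => (hYX a (hEY (hZE ha))).1
    · exact fun a ha => (hYX a (mem_sdiff.1 (hA ha)).1).1
  · simp only [mem_union, not_or]
    have h1 : y ∉ Y := fun h => (hYX y h).2.2 rfl
    refine ⟨⟨hyS, fun h => h1 (hEY (hZE h))⟩, fun h => h1 (mem_sdiff.1 (hALY h)).1, fun h => h1 (mem_sdiff.1 (hAGY h)).1⟩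

end AESY
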