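import Pool.Agent.AESY.T2YDefs
import Pool.Agent.AESY.PlaceA

/-!
# Free ends without the cleanliness condition, case T2: the end of the proof
-/

set_option autoImplicit false

namespace AESY

open Finset AE15 AED AELT AEB AESF
open scoped Classical

theorem t2_fin {V : Type} {R : V → V → Prop} (hT : AE32.Tour R) {b N z₀ m p₀ J C₁ C₂ e ng : ℕ} {t σ θ₃ γ δ μ : ℝ}
    {Ic H : Fd → Prop} {X U P₁ S I Gd Y Y₀ : Finset V} {F s₀ : Fd} {y : V} {x : ℕ → V} {G₀ : List (V × Bool × Fd)}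
    (hX0 : 0 ≤ t) (hθ₃ : 0 < θ₃) (hγ : 0 < γ)
    (hgarb : ∀ (G : List (V × Bool × Fd)) (W : Finset V) (σ : ℝ), (ng : ℝ) ≤ σ → θ₃ / 2 * W.card ≤ σ →
      (gsz G : ℝ) + σ ≤ W.card → (∀ q ∈ G, q.2.1 = true ∧ q.2.2.len ≤ b ∧ q.2.2.Deg b ∧
        ((W.filter (fun v => ¬ R q.1 v)).card : ℝ) ≤ θ₃ / 2 / 4 * σ) → ∃ A ⊆ W, EmbG R G A)
    (hUX : U ⊆ X) (hyU : y ∈ U) (hP₁ : P₁ ⊆ U) (hyP₁ : y ∉ P₁) (hY : Y = (X \ P₁).erase y) (hY₀ : Y₀ = X \ U)
    (hSU : S ⊆ U) (hyS : y ∉ S) (hSJ : (S \ P₁).card ≤ J) (hI : I = (range N).image x) (hIY : I ⊆ Y)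
    (hGd : Gd = Y₀.filter (fun g => δ / 8 * X.card ≤ ((nO R Y₀ g).card : ℝ)))
    (hk : Ky R X U S I Gd F y b z₀ m p₀ t σ Ic H) (hσ : σ = θ₃ * X.card)
    (hG₀ : PGq R s₀ y S G₀) (hG₁ : ∀ q ∈ G₀, q.1 ∈ U ∧ q.2.1 = true ∧ q.2.2.len ≤ b ∧ q.2.2.Deg b)
    (he : N + J + z₀ ≤ e)
    (hbx : ∀ E ⊆ Y, E.card ≤ e → (∀ i < N, x i ∈ E) → ∃ Q ⊆ Y \ E, (Q.card : ℝ) ≤ γ * Y.card ∧ ∀ P ⊆ Y, Disjoint P E →
      Q ⊆ P → ∀ L : List (V × Fd), L.length ≤ m + 1 → (∀ q ∈ L, (∃ i < N, q.1 = x i) ∧ Ic q.2) →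
        (∃ q ∈ L, H q.2 ∧ θ₃ * Y.card ≤ (q.2.size + 1 : ℝ)) → isz L + C₁ ≤ P.card → ∃ A ⊆ P, EmbI R L A)
    (g1 : (p₀ + 4) * t ≤ γ * X.card) (g2 : (e : ℝ) ≤ γ * X.card) (g3 : γ ≤ θ₃ / 8) (g4 : γ ≤ δ / 32)
    (g5 : (ng : ℝ) ≤ θ₃ / 2 * X.card) (g6 : μ = θ₃ ^ 2 / 64)
    (hmiss : ∀ u ∈ U, (((X \ U).filter (fun v => ¬ R u v)).card : ℝ) ≤ μ * X.card)
    (hUP : ((U \ P₁).card : ℝ) ≤ μ * X.card) (hPc : P₁.card ≤ S.card + C₂)
    (hcard : (Fd.node true F s₀).size + 1 + (C₁ + C₂ + e) ≤ X.card) :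
    In R (.node true F s₀) (fun _ => True) X := by
  obtain ⟨w, Z, L, Ps, G₁, hyw, hwZ, hZX, hyZ, hZc, hSZ, hPG, hL, hLm, ⟨qb, hqb, hHb, hqσ⟩, hPs, hPsl, hG₁U⟩ := hk
  have hn0 : (0 : ℝ) ≤ X.card := Nat.cast_nonneg _
  have hyX : y ∈ X := hUX hyU
  have hP₁X : P₁ ⊆ X := hP₁.trans hUX
  have hYX : ∀ a, a ∈ Y ↔ a ∈ X ∧ a ∉ P₁ ∧ a ≠ y := by
    intro a
    rw [hY, mem_erase, mem_sdiff]
    tauto
  have hYn : (Y.card : ℝ) ≤ X.card := by
    exact_mod_cast card_le_card (fun a ha => ((hYX a).1 ha).1)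
  obtain ⟨Zr, hZr⟩ : ∃ Zr, Zr = insert w Z := ⟨_, rfl⟩
  rw [← hZr] at hZX hyZ hZc hSZ
  have hPG' : PGq R (.node true F s₀) y (S ∪ Zr)
      (Ps.map (fun p => (p.1, true, p.2)) ++ (L.map (fun p => (p.1, true, p.2)) ++ (G₁ ++ G₀))) := by
    have hwS : w ∉ S := fun h => disjoint_left.1 hSZ h (by rw [hZr]; exact mem_insert_self _ _)
    have h1 := open_at hG₀ hyw hwS hwZ (disjoint_of_subset_right (by rw [hZr]; exact subset_insert _ _) hSZ) hPG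
    rw [← hZr] at h1
    refine h1.perm ?_
    simp only [List.append_assoc]
    exact List.perm_append_comm_assoc _ _ _
  -- the reserved set
  obtain ⟨E, hE⟩ : ∃ E, E = I ∪ (S \ P₁) ∪ (Zr \ P₁) := ⟨_, rfl⟩
  have hEY : E ⊆ Y := by
    rw [hE]
    refine union_subset (union_subset hIY ?_) ?_
    · intro a ha
      rw [mem_sdiff] at ha
      exact (hYX a).2 ⟨hUX (hSU ha.1), ha.2, fun h => hyS (h ▸ ha.1)⟩
    · intro a ha
      rw [mem_sdiff] at ha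
      exact (hYX a).2 ⟨hZX ha.1, ha.2, fun h => hyZ (h ▸ ha.1)⟩
  have hIc : I.card ≤ N := by
    rw [hI]
    exact card_image_le.trans (by rw [card_range])
  have hEc : E.card ≤ e := by
    have h1 := card_union_le (I ∪ (S \ P₁)) (Zr \ P₁)
    have h2 := card_union_le I (S \ P₁)
    have h3 := card_le_card (sdiff_subset (s := Zr) (t := P₁))
    rw [hE]
    omega
  obtain ⟨Q, hQ, hQc, hQP⟩ := hbx E hEY hEc (fun i hi => by
    rw [hE, hI]
    exact mem_union_left _ (mem_union_left _ (mem_image_of_mem x (mem_range.2 hi))))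
  have hQn : (Q.card : ℝ) ≤ γ * X.card := hQc.trans (mul_le_mul_of_nonneg_left hYn hγ.le)
  have hEn : (E.card : ℝ) ≤ e := by exact_mod_cast hEc
  have hδn : γ * X.card ≤ δ / 32 * X.card := mul_le_mul_of_nonneg_right g4 hn0
  have hθn : γ * X.card ≤ θ₃ / 8 * X.card := mul_le_mul_of_nonneg_right g3 hn0
  have hp₀t : (Ps.length : ℝ) * t ≤ p₀ * t := mul_le_mul_of_nonneg_right (by exact_mod_cast hPsl) hX0
  -- the small trees
  obtain ⟨Sg, hSgY, hSgd, hSge, hSgc⟩ := small_garb (b := b) (c := δ / 8 * X.card) (t := t) hT Y₀ Ps (E ∪ Q) (by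
    intro p hp
    obtain ⟨h1, h2, h3, h4⟩ := hPs p hp
    rw [hGd, mem_filter] at h1
    exact ⟨h2, h3, h4, h1.2⟩) hX0 (by
    have h1 : ((E ∪ Q).card : ℝ) ≤ E.card + Q.card := by exact_mod_cast card_union_le _ _
    have h2 : (Ps.length + 4 : ℝ) * t ≤ (p₀ + 4) * t := by
      have : ((Ps.length + 4 : ℝ)) * t = Ps.length * t + 4 * t := by ring
      have : (p₀ + 4 : ℝ) * t = p₀ * t + 4 * t := by ring
      linarith only [hp₀t]
    have h3 : δ / 8 * X.card = 4 * (δ / 32 * X.card) := by ring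
    have h4 : 0 ≤ γ * X.card := by (clear * - hγ; positivity)
    linarith only [g1, g2, hQn, hEn, hδn, hp₀t, h1])
  rw [disjoint_union_right] at hSgd
  have hSgX : ∀ a ∈ Sg, a ∈ X ∧ a ∉ U := by
    intro a ha
    have := hSgY ha
    rw [hY₀, mem_sdiff] at this
    exact this
  have hSgY' : Sg ⊆ Y := by
    intro a ha
    obtain ⟨h1, h2⟩ := hSgX a ha
    exact (hYX a).2 ⟨h1, fun h => h2 (hP₁ h), fun h => h2 (h ▸ hyU)⟩
  have hSZg : Disjoint (S ∪ Zr) Sg := by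
    rw [disjoint_left]
    intro a ha hag
    rcases mem_union.1 ha with h | h
    · exact (hSgX a hag).2 (hSU h)
    · by_cases h' : a ∈ P₁
      · exact (hSgX a hag).2 (hP₁ h')
      · refine disjoint_left.1 hSgd.1 hag ?_
        rw [hE]
        exact mem_union_right _ (mem_sdiff.2 ⟨h, h'⟩)
  have hfill := hPG'.fill (EmbG.of_embI hSge) hSZg
  obtain ⟨S', hS'⟩ : ∃ S', S' = S ∪ (Zr ∩ P₁) := ⟨_, rfl⟩
  obtain ⟨Z', hZ'⟩ : ∃ Z', Z' = (Zr \ P₁) ∪ Sg := ⟨_, rfl⟩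
  have hun : S ∪ Zr ∪ Sg = S' ∪ Z' := by
    rw [hS', hZ']
    ext a
    simp only [mem_union, mem_inter, mem_sdiff]
    tauto
  rw [hun] at hfill
  obtain ⟨E', hE'⟩ : ∃ E', E' = E ∪ Sg := ⟨_, rfl⟩
  have hSgn : (Sg.card : ℝ) + 4 * t ≤ γ * X.card := by
    have h2 : (p₀ + 4 : ℝ) * t = p₀ * t + 4 * t := by ring
    linarith only [g1, hp₀t, hSgc]
  have hszb : θ₃ * X.card ≤ (isz L : ℝ) := by
    have h1 : qb.2.size + 1 ≤ isz L := by
      have h2 : (qb.2.size + 1) ∈ L.map (fun p => p.2.size + 1) := List.mem_map.2 ⟨qb, hqb, rfl⟩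
      exact List.single_le_sum (by simp) _ h2
    have h2 : (qb.2.size : ℝ) + 1 ≤ isz L := by exact_mod_cast h1
    linarith only [hσ, hqσ, h2]
  refine finishY (S := S') (Zr := Z') (E := E') (Q := Q) (L := L) (G := G₁ ++ G₀) (σ := θ₃ / 2 * X.card) (t := S'.card)
    (C₁ := C₁) (C₂ := C₂) hyX hP₁X hyP₁ hY ?_ ?_ ?_ ?_ ?_ ?_ ?_ hfill ?_ ?_ ?_ rfl ?_ ?_
  · rw [hS']
    exact union_subset (hSU.trans hUX) (inter_subset_right.trans hP₁X)
  · rw [hS', mem_union, mem_inter, not_or]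
    exact ⟨hyS, fun h => hyZ h.1⟩
  · rw [hS', hE', hE]
    intro a ha
    simp only [mem_union, mem_inter, mem_sdiff] at ha ⊢
    tauto
  · rw [hZ', hE', hE]
    intro a ha
    simp only [mem_union, mem_sdiff] at ha ⊢
    tauto
  · rw [hS', hZ', disjoint_left]
    intro a ha ha'
    rcases mem_union.1 ha' with h | h
    · rw [mem_sdiff] at h
      rcases mem_union.1 ha with h1 | h1
      · exact disjoint_left.1 hSZ h1 h.1
      · exact h.2 (mem_inter.1 h1).2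
    · refine disjoint_left.1 hSZg (?_ : a ∈ S ∪ Zr) h
      rcases mem_union.1 ha with h1 | h1
      · exact mem_union_left _ h1
      · exact mem_union_right _ (mem_inter.1 h1).1
  · rw [hE']
    exact union_subset hEY hSgY'
  · intro a ha
    have h1 := hQ ha
    rw [mem_sdiff] at h1 ⊢
    rw [hE', mem_union, not_or]
    exact ⟨h1.1, h1.2, fun h => disjoint_left.1 hSgd.2 h ha⟩
  · intro P hP hPE hQP' hsz
    refine hQP P hP ?_ hQP' L (by omega) ?_ ?_ hsz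
    · exact disjoint_of_subset_right (by rw [hE']; exact subset_union_left) hPE
    · intro r hr
      obtain ⟨h1, h2⟩ := hL r hr
      rw [hI, mem_image] at h1
      obtain ⟨i, hi, h3⟩ := h1
      exact ⟨⟨i, mem_range.1 hi, h3.symm⟩, h2⟩
    · refine ⟨qb, hqb, hHb, ?_⟩
      have h3 : θ₃ * (Y.card : ℝ) ≤ θ₃ * X.card := mul_le_mul_of_nonneg_left hYn hθ₃.le
      linarith only [hσ, hqσ, h3]
  · intro W hW hsz
    have hWn : (W.card : ℝ) ≤ X.card := le_trans (by exact_mod_cast card_le_card hW) hYn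
    refine hgarb (G₁ ++ G₀) W (θ₃ / 2 * X.card) g5 (mul_le_mul_of_nonneg_left hWn (by positivity)) hsz ?_
    intro r hr
    have hrU : r.1 ∈ U ∧ r.2.1 = true ∧ r.2.2.len ≤ b ∧ r.2.2.Deg b := by
      rcases List.mem_append.1 hr with h | h
      · exact hG₁U r h
      · exact hG₁ r h
    obtain ⟨u1, u2, u3, u4⟩ := hrU
    refine ⟨u2, u3, u4, ?_⟩
    have h1 : W.filter (fun v => ¬ R r.1 v) ⊆ (U \ P₁) ∪ (X \ U).filter (fun v => ¬ R r.1 v) := by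
      intro v hv
      rw [mem_filter] at hv
      have h2 := (hYX v).1 (hW hv.1)
      rw [mem_union, mem_sdiff, mem_filter, mem_sdiff]
      by_cases h3 : v ∈ U
      · exact Or.inl ⟨h3, h2.2.1⟩
      · exact Or.inr ⟨⟨h2.1, h3⟩, hv.2⟩
    have h2 : ((W.filter (fun v => ¬ R r.1 v)).card : ℝ) ≤ (U \ P₁).card + ((X \ U).filter (fun v => ¬ R r.1 v)).card := by
      exact_mod_cast (card_le_card h1).trans (card_union_le _ _)
    have h5 := hmiss r.1 u1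
    have h6 : θ₃ / 2 / 4 * (θ₃ / 2 * X.card) = θ₃ ^ 2 / 16 * X.card := by ring
    rw [h6]
    have h7 : 0 ≤ θ₃ ^ 2 * X.card := by (clear * - hθ₃; positivity)
    rw [g6] at h5 hUP
    linarith only [hUP, h2, h5]
  · have h1 : ((E'.card : ℕ) : ℝ) ≤ E.card + Sg.card := by
      rw [hE']
      exact_mod_cast card_union_le _ _
    have h3 : 0 ≤ θ₃ * X.card := by (clear * - hθ₃; positivity)
    linarith only [hX0, g1, g2, hQn, hEn, hθn, hp₀t, hSgc, hszb, h1]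
  · have h1 : S.card ≤ S'.card := card_le_card (by rw [hS']; exact subset_union_left)
    omega
  · have h1 : (E' \ Z').card ≤ e := by
      refine le_trans (card_le_card ?_) hEc
      rw [hE', hZ']
      intro a ha
      simp only [mem_union, mem_sdiff, not_or] at ha
      tauto
    omega

end AESY
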