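import Pool.Agent.AESY.T2YK
import Pool.Agent.AESY.T2YF
import Pool.Agent.AESY.PackW
import Pool.Agent.AESY.RoutesY

/-!
# Free ends without the cleanliness condition: case T2
-/

set_option autoImplicit false

namespace AESY

open Finset AE15 AED AELT AEB AESF
open scoped Classical

/-- the sizes on the heavy chain -/
theorem size_chain {b : ℕ} (hb : 1 ≤ b) {θ θ₃ n : ℝ} (ht : θ₃ * (2 * (b * b * b)) = θ) (hn : 10 ≤ θ₃ * n)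
    {s₀ s₁ s₂ s₃ : ℕ} (h0 : θ * n ≤ s₀ + 1) (e1 : s₀ ≤ b * (s₁ + 1)) (e2 : s₁ ≤ b * (s₂ + 1)) (e3 : s₂ ≤ b * (s₃ + 1)) :
    θ₃ * n ≤ (s₃ : ℝ) := by
  have hb0 : (1 : ℝ) ≤ b := by exact_mod_cast hb
  have hb00 : (0 : ℝ) ≤ b := by linarith only [hb0]
  have f1 : (s₀ : ℝ) ≤ b * (s₁ + 1) := by exact_mod_cast e1
  have f2 : (s₁ : ℝ) ≤ b * (s₂ + 1) := by exact_mod_cast e2
  have f3 : (s₂ : ℝ) ≤ b * (s₃ + 1) := by exact_mod_cast e3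
  by_contra hc
  push Not at hc
  have g3 : (s₃ : ℝ) + 1 ≤ θ₃ * n + 1 := by linarith
  have g2 : (s₂ : ℝ) + 1 ≤ b * (θ₃ * n + 1) + 1 := by nlinarith only [f3, hc]
  have g1 : (s₁ : ℝ) + 1 ≤ b * (b * (θ₃ * n + 1) + 1) + 1 := by nlinarith
  have g0 : (s₀ : ℝ) + 1 ≤ b * (b * (b * (θ₃ * n + 1) + 1) + 1) + 1 := by nlinarith
  have g4 : θ * n = 2 * (b * b * b) * (θ₃ * n) := by rw [← ht]; ring
  obtain ⟨B, hB⟩ : ∃ B : ℝ, B = b * b * b := ⟨_, rfl⟩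
  have g5 : (b : ℝ) * b ≤ B := by
    rw [hB]
    exact le_mul_of_one_le_right (by positivity) hb0
  have g6 : (b : ℝ) ≤ b * b := le_mul_of_one_le_right hb00 hb0
  have g7 : (b : ℝ) * (b * (b * (θ₃ * n + 1) + 1) + 1) + 1 = B * (θ₃ * n) + B + b * b + b + 1 := by rw [hB]; ring
  rw [g7] at g0
  rw [g4, ← hB] at h0
  have g8 : B * 10 ≤ B * (θ₃ * n) := mul_le_mul_of_nonneg_left hn (by linarith only [hb0, g5, g6])
  nlinarith only [hb0, h0, g0, g5, g6, g8]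

/-- **Case T2**: `U` is a set of vertices which see almost everything outside `U`, a little larger than the in-closure of
the root; every vertex of `U` reaches the hosts outside `U` by short routes -/
theorem t2_coreY (b q : ℕ) (hb : 1 ≤ b) {θ : ℝ} (hθ : 0 < θ) : ∃ μ s : ℝ, 0 < μ ∧ 0 < s ∧ ∀ (N₁ : ℕ) (δ : ℝ), 0 < δ →
    ∃ (N e m c₁ m₀ : ℕ) (τ d ε : ℝ), 1 ≤ N ∧ 0 < τ ∧ 0 < d ∧ 0 < ε ∧ ∀ (I₀ : ℕ → Fd → Prop) (H₀ : Fd → Prop) (nb Cb : ℕ),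
    BxL N e m τ d I₀ H₀ nb Cb →
    ∃ C : ℕ, ∀ {V : Type} {R : V → V → Prop}, AE32.Tour R → ∀ (X U : Finset V) (F s₀ : Fd), U ⊆ X →
      (Fd.node true F s₀).len ≤ b → (Fd.node true F s₀).Deg b →
      (∀ n, F.size + 1 ≤ n → Top3Y b q (ε * (F.size + 1)) (I₀ n) H₀ F) → θ * X.card ≤ (F.size + 1 : ℝ) →
      (Fd.node true F s₀).size + 1 + C ≤ X.card → blk s₀ + c₁ + m₀ ≤ U.card →
      (U.card : ℝ) ≤ blk s₀ + c₁ + μ * X.card →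
      (∀ u ∈ U, (((X \ U).filter (fun v => ¬ R u v)).card : ℝ) ≤ μ * X.card) →
      (∀ (y : V) (P Fb Q : Finset V), y ∈ U → P ⊆ U → (Fb.card : ℝ) ≤ δ * X.card → s * P.card ≤ ((nO R P y).card : ℝ) →
        U.card ≤ blk s₀ + c₁ + P.card + c₁ → Q ⊆ X \ U → N₁ ≤ Q.card →
          RtY R X U P Fb Q y b (q + b * (b * (q + 1)) + 1)) →
      In R (.node true F s₀) (fun _ => True) X := by
  obtain ⟨J, C₁, s, hs, np, hpack⟩ := packW b (4 * q + 4) hb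
  have hb0 : (1 : ℝ) ≤ b := by exact_mod_cast hb
  obtain ⟨θ₃, hθ₃⟩ : ∃ θ₃ : ℝ, θ₃ = θ / (2 * (b * b * b)) := ⟨_, rfl⟩
  have t1 : 0 < θ₃ := by rw [hθ₃]; positivity
  have t2 : θ₃ * (2 * (b * b * b)) = θ := by rw [hθ₃]; field_simp
  obtain ⟨ng, hgarb⟩ := garbG b hb (θ := θ₃ / 2) (by positivity)
  refine ⟨θ₃ ^ 2 / 64, s, by positivity, hs, ?_⟩
  intro N₁ δ hδ
  obtain ⟨M', hM⟩ : ∃ M', M' = J + 5 * q + b * (b * (q + 1)) + 6 := ⟨_, rfl⟩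
  obtain ⟨N, hN⟩ : ∃ N, N = C₁ + 3 * J + 1 + N₁ + 2 * M' := ⟨_, rfl⟩
  obtain ⟨m, hm⟩ : ∃ m, m = b * (b * (b + b * q)) + (b + b * q) := ⟨_, rfl⟩
  obtain ⟨z₀, hz₀⟩ : ∃ z₀, z₀ = 2 + 2 * q + b * (1 + q + b * (q + 1)) := ⟨_, rfl⟩
  obtain ⟨p₀, hp₀⟩ : ∃ p₀, p₀ = b * (b * q) + b * q := ⟨_, rfl⟩
  obtain ⟨e, he⟩ : ∃ e, e = N + J + z₀ := ⟨_, rfl⟩
  obtain ⟨M'', hM''⟩ : ∃ M'', M'' = 6 * q + b * q + 6 + N + b := ⟨_, rfl⟩
  obtain ⟨K₀, hK₀⟩ : ∃ K₀, K₀ = 1 + N + J + 2 * (4 * q + 4 + J + N) + 2 * M'' + 2 := ⟨_, rfl⟩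
  obtain ⟨γ, hγ⟩ : ∃ γ : ℝ, γ = min (θ₃ / 8) (δ / 32) := ⟨_, rfl⟩
  have hγ0 : 0 < γ := by rw [hγ]; exact lt_min (by positivity) (by positivity)
  have hγ1 : γ ≤ θ₃ / 8 := by rw [hγ]; exact min_le_left _ _
  have hγ2 : γ ≤ δ / 32 := by rw [hγ]; exact min_le_right _ _
  obtain ⟨ε, hε⟩ : ∃ ε : ℝ, ε = γ / (p₀ + 4) := ⟨_, rfl⟩
  have hε0 : 0 < ε := by rw [hε]; positivity
  have hε1 : (p₀ + 4) * ε = γ := by rw [hε]; field_simp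
  obtain ⟨nr, hnr⟩ : ∃ nr : ℕ, nr = ⌈2 * ng / θ₃ + e / γ + 2 * K₀ / δ + 10 / θ₃⌉₊ := ⟨_, rfl⟩
  refine ⟨N, e, m, 2 * C₁ + np, np, θ₃, γ, ε, by (clear * - hM hN hm hz₀ he hM''; omega), t1, hγ0, hε0, ?_⟩
  intro I₀ H₀ nb Cb hbox
  obtain ⟨C₂, hC₂⟩ : ∃ C₂, C₂ = 2 * C₁ + np + C₁ := ⟨_, rfl⟩
  refine ⟨Cb + C₂ + e + nr + nb + 2 + (2 * C₁ + np), ?_⟩
  intro V R hT X U F s₀ hUX hl hD hF0 hθF hcard hU1 hU2 hmiss hroute
  obtain ⟨y, P₁, P₂, hyU, hP₁, hP₂, hyP₁, hyP₂, hdis, hp1, hp2, hUc, hsP, hA⟩ :=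
    hpack hT U (blk s₀ + (2 * C₁ + np)) (by omega) (by omega)
  have hsize : (Fd.node true F s₀).size = F.size + s₀.size + 1 := rfl
  have hbs : blk s₀ ≤ s₀.size := by
    have := AEJ.dcl_add_blk_le s₀
    omega
  obtain ⟨n, hn⟩ : ∃ n : ℝ, n = (X.card : ℝ) := ⟨_, rfl⟩
  have hnr' : 2 * ng / θ₃ + e / γ + 2 * K₀ / δ + 10 / θ₃ ≤ n := by
    have h1 : nr ≤ X.card := by omega
    have h2 : (nr : ℝ) ≤ n := by rw [hn]; exact_mod_cast h1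
    exact (by rw [hnr]; exact Nat.le_ceil _ : _ ≤ (nr : ℝ)).trans h2
  have q1 : (0 : ℝ) ≤ 2 * ng / θ₃ := by (clear * - t1; positivity)
  have q2 : (0 : ℝ) ≤ e / γ := by (clear * - hγ0; positivity)
  have q3 : (0 : ℝ) ≤ 10 / θ₃ := by positivity
  have q4 : (0 : ℝ) ≤ 2 * K₀ / δ := by (clear * - hδ; positivity)
  have r1 : 2 * ng ≤ θ₃ * n := by
    have : 2 * ng / θ₃ ≤ n := by linarith only [hnr', q2, q3, q4]
    rwa [div_le_iff₀' t1] at this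
  have r2 : e ≤ γ * n := by
    have : e / γ ≤ n := by linarith only [hnr', q1, q3, q4]
    rwa [div_le_iff₀' hγ0] at this
  have r3 : 10 ≤ θ₃ * n := by
    have : 10 / θ₃ ≤ n := by linarith only [hnr', q1, q2, q4]
    rwa [div_le_iff₀' t1] at this
  have r4 : 2 * K₀ ≤ δ * n := by
    have : 2 * K₀ / δ ≤ n := by linarith only [hnr', q1, q2, q3]
    rwa [div_le_iff₀' hδ] at this
  have hn0 : 0 ≤ n := by rw [hn]; exact Nat.cast_nonneg _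
  have hyX : y ∈ X := hUX hyU
  have hP₁X : P₁ ⊆ X := hP₁.trans hUX
  obtain ⟨Y, hY⟩ : ∃ Y, Y = (X \ P₁).erase y := ⟨_, rfl⟩
  have hYc : Y.card + P₁.card + 1 = X.card := by
    have h1 : y ∈ X \ P₁ := mem_sdiff.2 ⟨hyX, hyP₁⟩
    have h2 := card_sdiff_add_card_eq_card hP₁X
    rw [hY, card_erase_of_mem h1]
    have h3 : 0 < (X \ P₁).card := card_pos.2 ⟨y, h1⟩
    omega
  have hYX : ∀ a, a ∈ Y ↔ a ∈ X ∧ a ∉ P₁ ∧ a ≠ y := by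
    intro a
    rw [hY, mem_erase, mem_sdiff]
    tauto
  obtain ⟨x, hxY, hxi, hbx⟩ := hbox hT Y (by (clear * - hM hN hm hz₀ he hM'' hnr hC₂ hcard hp2 hsize hbs hYc; omega))
  obtain ⟨I, hI⟩ : ∃ I, I = (range N).image x := ⟨_, rfl⟩
  have hIc : I.card = N := by
    rw [hI, card_image_of_injOn, card_range]
    intro i hi j hj hij
    exact hxi i (mem_range.1 hi) j (mem_range.1 hj) hij
  have hIY : I ⊆ Y := by
    intro a ha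
    rw [hI, mem_image] at ha
    obtain ⟨i, hi, rfl⟩ := ha
    exact hxY i (mem_range.1 hi)
  obtain ⟨Ig, hIg⟩ : ∃ Ig, Ig = I.filter (fun z => M' ≤ (I.filter (fun a => R a z)).card) := ⟨_, rfl⟩
  have hIgI : Ig ⊆ I := by rw [hIg]; exact filter_subset _ _
  obtain ⟨S, hSU, hyS, hES, hSJ, hx⟩ := hA (prIn s₀) (prIn_fok (by simp only [Fd.len] at hl; omega) hD.2.2)
    (by rw [blk_prIn]; omega) (Ig ∩ P₂) inter_subset_right
  obtain ⟨G₀, hG₀, hG₁, hG₂, -, hG₃⟩ := prIn_pg hES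
  have hSc : S.card = blk s₀ := by rw [hES.card, blk_prIn]
  have hFY : F.size + 1 ≤ Y.card := by (clear * - hM hN hm hz₀ he hM'' hnr hC₂ hcard hp1 hp2 hsize hbs hYc hIc hG₁ hSc; omega)
  have hF := hF0 _ hFY
  obtain ⟨Y₀, hY₀⟩ : ∃ Y₀, Y₀ = X \ U := ⟨_, rfl⟩
  obtain ⟨Gd, hGd⟩ : ∃ Gd, Gd = Y₀.filter (fun g => δ / 8 * X.card ≤ ((nO R Y₀ g).card : ℝ)) := ⟨_, rfl⟩
  obtain ⟨Bad, hBad⟩ : ∃ Bad, Bad = Y₀.filter (fun f => (nI R Gd f).card < M'') := ⟨_, rfl⟩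
  obtain ⟨Wb, hWb⟩ : ∃ Wb, Wb = P₂.filter (fun v => (P₂.filter (fun a => R a v)).card < 4 * q + 4 + J + N) := ⟨_, rfl⟩
  obtain ⟨Fb, hFb⟩ : ∃ Fb, Fb = insert y (I ∪ (S \ P₁)) ∪ Wb ∪ Bad := ⟨_, rfl⟩
  have hBadc : (Bad.card : ℝ) ≤ δ / 4 * n + 2 * M'' + 2 := by
    have h1 := bad_card hT Y₀ (c := δ / 8 * X.card) (by (clear * - hδ; positivity)) M''
    rw [hBad, hGd]
    rw [← hn] at h1 ⊢
    linarith only [h1]
  have hWbc : Wb.card ≤ 2 * (4 * q + 4 + J + N) := by rw [hWb]; exact low_in hT P₂ _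
  have hFbc : (Fb.card : ℝ) ≤ δ * X.card := by
    have h1 : Fb.card ≤ 1 + N + J + 2 * (4 * q + 4 + J + N) + Bad.card := by
      have h5 := card_insert_le y (I ∪ (S \ P₁))
      have h6 := card_union_le I (S \ P₁)
      have h7 := card_union_le (insert y (I ∪ (S \ P₁)) ∪ Wb) Bad
      have h8 := card_union_le (insert y (I ∪ (S \ P₁))) Wb
      rw [hFb]
      omega
    have h2 : (Fb.card : ℝ) ≤ ((1 + N + J + 2 * (4 * q + 4 + J + N) : ℕ) : ℝ) + Bad.card := by exact_mod_cast h1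
    have h3 : (K₀ : ℝ) = ((1 + N + J + 2 * (4 * q + 4 + J + N) : ℕ) : ℝ) + 2 * M'' + 2 := by
      rw [hK₀]
      push_cast
      ring
    rw [← hn]
    have h4 : 0 ≤ δ * n := by positivity
    linarith only [r4, hBadc, h2, h3]
  have hσ : ∀ c₁ c₂ c₃ : Fd, c₁ ∈ outs F → c₂ ∈ outs c₁ → c₃ ∈ outs c₂ → F.size ≤ b * (c₁.size + 1) →
      c₁.size ≤ b * (c₂.size + 1) → c₂.size ≤ b * (c₃.size + 1) → θ₃ * X.card ≤ (c₃.size : ℝ) := by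
    intro c₁ c₂ c₃ _ _ _ e1 e2 e3
    exact size_chain hb t2 (by rw [← hn]; exact r3) hθF e1 e2 e3
  have hk : Ky R X U S I Gd F y b z₀ m p₀ (ε * (F.size + 1)) (θ₃ * X.card) (I₀ Y.card) H₀ := by
    refine t2_key (P₁ := P₁) (P₂ := P₂) (Ig := Ig) (Bad := Bad) (Wb := Wb) (Fb := Fb) (C₁ := C₁) (J := J) (N₁ := N₁)
      (M' := M') (N := N) hT hM hN hm hz₀ hp₀ hUX hyU hP₁ hP₂ hyP₂ hdis hUc hSU hyS hSJ ?_ hIc hIg ?_ ?_ hWb hFb hx ?_ hF hσ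
    · intro a ha
      exact (hYX a).1 (hIY ha)
    · rw [hGd, hY₀]
      exact filter_subset _ _
    · rw [hBad, hY₀, hM'']
    · intro h
      refine hroute y P₂ Fb (Ig \ U) hyU hP₂ hFbc hsP (by omega) ?_ h
      intro a ha
      rw [mem_sdiff] at ha ⊢
      exact ⟨((hYX a).1 (hIY (hIgI ha.1))).1, ha.2⟩
  have hFn : (F.size : ℝ) + 1 ≤ n := by
    have h1 : F.size + 1 ≤ X.card := by omega
    rw [hn]
    exact_mod_cast h1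
  refine t2_fin (N := N) (z₀ := z₀) (m := m) (p₀ := p₀) (J := J) (C₁ := Cb) (C₂ := C₂) (e := e) (ng := ng)
    (t := ε * (F.size + 1)) (σ := θ₃ * X.card) (θ₃ := θ₃) (γ := γ) (δ := δ) (μ := θ₃ ^ 2 / 64) (Ic := I₀ Y.card) (H := H₀)
    (U := U) (P₁ := P₁) (S := S) (I := I) (Gd := Gd) (Y := Y) (Y₀ := Y₀) (y := y) (x := x) (G₀ := G₀) hT (by positivity) t1
    hγ0 (fun G W σ => hgarb hT G W σ) hUX hyU hP₁ hyP₁ hY hY₀ hSU hyS hSJ hI hIY hGd hk rfl hG₀.q ?_ (by omega)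
    (fun E hE hEc hi => hbx E hE hEc hi) ?_ (by rw [← hn]; exact r2) hγ1 hγ2 (by rw [← hn]; linarith only [r1]) rfl hmiss ?_ (by omega)
    (by (clear * - hM hN hm hz₀ he hM'' hnr hC₂ hcard hp1 hp2 hsize hYc hIc hG₁ hSc; omega))
  · intro r hr
    obtain ⟨h1, h2⟩ := hG₂ r hr
    obtain ⟨h3, h4⟩ := hG₃ b (by simp only [Fd.len] at hl; omega) hD.2.2 r hr
    refine ⟨?_, h1, h3, h4⟩
    rcases h2 with h2 | h2
    · rw [h2]
      exact hyU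
    · exact hSU h2
  · rw [← hn, ← mul_assoc, hε1]
    exact mul_le_mul_of_nonneg_left hFn hγ0.le
  · have h3 : ((U \ P₁).card : ℝ) + P₁.card = U.card := by exact_mod_cast card_sdiff_add_card_eq_card hP₁
    have h4 : ((blk s₀ + (2 * C₁ + np) : ℕ) : ℝ) ≤ P₁.card := by exact_mod_cast hp1
    push_cast at h4 hU2
    linarith only [h3, h4, hU2]

/-- **Case T2** -/
theorem t2ySt : T2YSt := by
  intro b q hb θ hθ
  obtain ⟨μ, s, hμ, hs, hcore⟩ := t2_coreY b q hb hθ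
  refine ⟨μ / 4, by positivity, ?_⟩
  intro ω hω hωμ
  refine ⟨μ / 4, by positivity, ?_⟩
  intro ζ _ hζ lam hlam J
  have hJ0 : (0 : ℝ) ≤ J := Nat.cast_nonneg _
  refine ⟨min (1 / 8) (μ / (4 * (J + 1))), by positivity, ?_⟩
  intro a₁ ha₁ ha₁'
  have ha₁1 : a₁ ≤ 1 / 8 := ha₁'.trans (min_le_left _ _)
  have ha₁2 : a₁ * (4 * (J + 1)) ≤ μ := by
    have := ha₁'.trans (min_le_right _ _)
    rwa [le_div_iff₀ (by positivity)] at this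
  refine ⟨min (min (s * ω / 16) (ω / 16)) (a₁ * lam / 8), by positivity, ?_⟩
  intro a₂ ha₂ ha₂' k₀ hk₀
  have ha₂1 : a₂ ≤ s * ω / 16 := ha₂'.trans ((min_le_left _ _).trans (min_le_left _ _))
  have ha₂2 : a₂ ≤ ω / 16 := ha₂'.trans ((min_le_left _ _).trans (min_le_right _ _))
  have ha₂3 : a₂ ≤ a₁ * lam / 8 := ha₂'.trans (min_le_right _ _)
  obtain ⟨N₁, n₁, δ₁, hδ₁, hcut⟩ := route_cutY b (q + b * (b * (q + 1)) + 1) J (s := s) (ω := ω) (τ₀ := a₁ * k₀ ^ 2)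
    (lam := lam) hs hω (by positivity) hlam
  obtain ⟨N₂, n₂, δ₂, hδ₂, hthick⟩ := route_thickY b (q + b * (b * (q + 1)) + 1) J (ω := ω) (τ₀ := a₁ * k₀ ^ 2)
    (lam := lam) hω (by positivity) hlam
  obtain ⟨N, e, m, c₁, m₀, τb, d, ε, hN, hτb, hd, hε, hcore⟩ := hcore (max N₁ N₂) (min δ₁ δ₂) (lt_min hδ₁ hδ₂)
  refine ⟨N, e, m, c₁, m₀, τb, d, ε, hN, hτb, hd, hε, ?_⟩
  intro I₀ H₀ nb Cb hbx
  obtain ⟨C, hcore⟩ := hcore I₀ H₀ nb Cb hbx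
  refine ⟨C + n₁ + n₂ + 8 * c₁ / ω, ?_⟩
  intro V R hT X U 𝓛 k hk0 hk1 hJ F s₀ hl hD hF hθF hcard hCT hU
  have hkpos : 0 < k := lt_of_lt_of_le hk₀ hk0
  have hk2 : k ^ 2 ≤ 1 := by nlinarith only [hk1, ha₁, ha₁1, hk₀, hk0]
  have hk3 : k₀ ^ 2 ≤ k ^ 2 := by nlinarith only [ha₁, ha₁1, hk₀, hk0]
  have hk4 : k ^ 2 ≤ k := by nlinarith only [ha₁, ha₁1, hk₀, hk1, hk0]
  have hk5 : 0 < k ^ 2 := by positivity
  have p1 : (0 : ℝ) ≤ (Fd.node true F s₀).size := Nat.cast_nonneg _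
  have p2 : (0 : ℝ) ≤ C := Nat.cast_nonneg _
  have p3 : (0 : ℝ) ≤ n₁ := Nat.cast_nonneg _
  have p4 : (0 : ℝ) ≤ n₂ := Nat.cast_nonneg _
  have p5 : (0 : ℝ) ≤ 8 * c₁ / ω := by positivity
  have hX0 : (0 : ℝ) ≤ X.card := Nat.cast_nonneg _
  have hcardN : (Fd.node true F s₀).size + 1 + C ≤ X.card := by
    have : (((Fd.node true F s₀).size + 1 + C : ℕ) : ℝ) ≤ X.card := by push_cast; linarith only [hcard, p5]
    exact_mod_cast this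
  have hn₁ : n₁ ≤ X.card := by
    have : (n₁ : ℝ) ≤ X.card := by linarith only [ha₁, ha₁1, hcard, p5]
    exact_mod_cast this
  have hn₂ : n₂ ≤ X.card := by
    have : (n₂ : ℝ) ≤ X.card := by linarith only [ha₁, ha₁1, hcard, p5]
    exact_mod_cast this
  have hn3 : 8 * c₁ ≤ ω * X.card := by
    have : 8 * c₁ / ω ≤ X.card := by linarith only [ha₁, ha₁1, hcard]
    rwa [div_le_iff₀' hω] at this
  have hτ0 : 0 ≤ a₁ * k ^ 2 := by positivity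
  have hτ1 : a₁ * k ^ 2 ≤ a₁ := by nlinarith only [ha₁, hk2]
  have hτ2 : a₁ * k₀ ^ 2 ≤ a₁ * k ^ 2 := mul_le_mul_of_nonneg_left hk3 ha₁.le
  have hν1 : a₂ * k ^ 2 ≤ a₂ := by nlinarith only [ha₁, ha₁1, ha₂, hk2]
  have hν2 : 8 * (a₂ * k ^ 2) ≤ a₁ * k ^ 2 * lam := by nlinarith only [ha₂3]
  have hτ3 : 2 * (a₁ * k ^ 2) ≤ k := by nlinarith only [hk₀, hk0, hk4, ha₁1]
  have hmu : ζ + (J + 1) * (a₁ * k ^ 2) ≤ μ := by
    have h1 : (J + 1 : ℝ) * (a₁ * k ^ 2) ≤ (J + 1) * a₁ := mul_le_mul_of_nonneg_left hτ1 (by positivity)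
    nlinarith only [hωμ, hζ, ha₁2, ha₂, ha₂2, h1]
  have hωn : 2 * ω * (X.card : ℝ) ≤ μ * X.card := mul_le_mul_of_nonneg_right (by linarith only [hωμ, ha₂, ha₂2]) hX0
  have hδX1 : min δ₁ δ₂ * (X.card : ℝ) ≤ δ₁ * X.card := mul_le_mul_of_nonneg_right (min_le_left _ _) hX0
  have hδX2 : min δ₁ δ₂ * (X.card : ℝ) ≤ δ₂ * X.card := mul_le_mul_of_nonneg_right (min_le_right _ _) hX0
  rcases hCT with hC | ⟨K, hK⟩
  · refine hcore hT X U F s₀ hC.subU hl hD hF hθF hcardN hU ?_ ?_ ?_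
    · have := hC.hi
      push_cast at this
      linarith only [hωn, this]
    · intro u hu
      have h1 := card_miss hT (M := ∅) hu hJ hC.subL hτ0 (hC.few u hu) (empty_subset _) (by simp [nI])
        (by rw [union_empty]; exact hC.rest)
      exact h1.trans (mul_le_mul_of_nonneg_right hmu hX0)
    · intro y P Fb Q _ hPU hFb hsP hUP hQ hQN
      have hPc : ω / 8 * X.card ≤ (P.card : ℝ) := by
        have h1 := hC.lo
        have h2 : (U.card : ℝ) ≤ blk s₀ + c₁ + P.card + c₁ := by exact_mod_cast hUP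
        push_cast at h1
        linarith only [hn3, h2, h1]
      rcases hcut hT hC hJ hτ2 (by nlinarith only [ha₂1, hν1]) hν2 hn₁ hPU hPc hsP (hFb.trans hδX1) hQ ((le_max_left _ _).trans hQN) with
        h | ⟨w, hw, hwF, hyw, h⟩
      · exact Or.inl h
      · exact Or.inr ⟨w, hC.subU (hPU hw), Or.inl hw, hwF, hyw, h⟩
  · refine hcore hT X U F s₀ hK.subU hl hD hF hθF hcardN hU ?_ ?_ ?_
    · have := hK.hi
      push_cast at this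
      linarith only [hωn, this]
    · intro u hu
      have h1 := card_miss hT hu hJ hK.subL hτ0 (hK.few u hu) hK.subK (hK.fewK u hu) hK.rest
      exact h1.trans (mul_le_mul_of_nonneg_right hmu hX0)
    · intro y P Fb Q hyU _ hFb _ _ hQ hQN
      obtain ⟨w, hw, hwU, hwF, hyw, h⟩ := hthick hT hK hJ hτ2 (by linarith only [ha₁1, hτ1]) hτ3 (by linarith only [ha₂2, hν1]) hν2 hn₂ hyU
        (hFb.trans hδX2) hQ ((le_max_right _ _).trans hQN)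
      exact Or.inr ⟨w, hK.subK hw, Or.inr hwU, hwF, hyw, h⟩

end AESY
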