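import Pool.Agent.AESF.ThinC
import Pool.Agent.AESF.GraphB

/-!
# Thin branches of oriented trees: the code of a branch which is close to a path
-/

set_option autoImplicit false
set_option linter.unusedSectionVars false

namespace AESY

open Finset Relation AE15 AED AEB AELT AEK AEJ AESF
open scoped Classical

section

variable {τ : Type*} [Fintype τ]

private theorem ball_walk {G : SimpleGraph τ} {b : ℕ} (hb : ∀ v, (G.neighborSet v).ncard ≤ b) :
    ∀ (r : ℕ) (a : τ), (univ.filter (fun w => ∃ W : G.Walk a w, W.length ≤ r)).card ≤ (b + 1) ^ r := by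
  intro r
  induction r with
  | zero =>
    intro a
    rw [pow_zero]
    apply Finset.card_le_one.2
    intro x hx y hy
    obtain ⟨-, W, hW⟩ := mem_filter.1 hx
    obtain ⟨-, W', hW'⟩ := mem_filter.1 hy
    rw [← SimpleGraph.Walk.eq_of_length_eq_zero (p := W) (by omega),
      ← SimpleGraph.Walk.eq_of_length_eq_zero (p := W') (by omega)]
  | succ r ih =>
    intro a
    have h1 : (univ.filter (fun w => ∃ W : G.Walk a w, W.length ≤ r + 1)) ⊆ insert a
        ((univ.filter (fun c => G.Adj a c)).biUnion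
          (fun c => univ.filter (fun w => ∃ W : G.Walk c w, W.length ≤ r))) := by
      intro w hw
      obtain ⟨-, W, hW⟩ := mem_filter.1 hw
      rw [mem_insert, mem_biUnion]
      cases W with
      | nil => exact Or.inl rfl
      | @cons _ c _ hac W =>
        right
        refine ⟨c, mem_filter.2 ⟨mem_univ _, hac⟩, mem_filter.2 ⟨mem_univ _, W, ?_⟩⟩
        rw [SimpleGraph.Walk.length_cons] at hW
        omega
    have h2 : (univ.filter (fun c => G.Adj a c)).card ≤ b := by
      refine le_trans (le_of_eq ?_) (hb a)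
      rw [← Set.ncard_coe_finset]
      congr 1
      ext c
      simp
    have h3 : 1 ≤ (b + 1) ^ r := Nat.one_le_pow _ _ (by omega)
    calc _ ≤ _ := card_le_card h1
      _ ≤ _ := card_insert_le _ _
      _ ≤ (univ.filter (fun c => G.Adj a c)).card * (b + 1) ^ r + 1 := by
          apply Nat.add_le_add_right
          exact card_biUnion_le_card_mul _ _ _ (fun c _ => ih c)
      _ ≤ b * (b + 1) ^ r + (b + 1) ^ r := Nat.add_le_add (Nat.mul_le_mul_right _ h2) h3
      _ = (b + 1) ^ (r + 1) := by ring

/-- balls in graphs of bounded degree -/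
theorem ball_le {G : SimpleGraph τ} (hG : G.Connected) {b : ℕ} (hb : ∀ v, (G.neighborSet v).ncard ≤ b) (r : ℕ) (a : τ) :
    (univ.filter (fun w => G.dist a w ≤ r)).card ≤ (b + 1) ^ r := by
  refine le_trans (card_le_card fun w hw => ?_) (ball_walk hb r a)
  obtain ⟨W, hW⟩ := hG.exists_walk_length_eq_dist a w
  exact mem_filter.2 ⟨mem_univ _, W, by rw [hW]; exact (mem_filter.1 hw).2⟩

/-- a walk which leaves the branch at `w` passes the parent `q` of `w` -/
theorem walk_out {G : SimpleGraph τ} (h5 : G.IsTree) (u : τ) {q w : τ} (hqw : G.Adj q w ∧ G.dist u w = G.dist u q + 1) :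
    ∀ {a x : τ} (W : G.Walk a x), a ∈ AE32.desc (fun a c => G.Adj a c ∧ G.dist u c = G.dist u a + 1) w →
      x ∉ AE32.desc (fun a c => G.Adj a c ∧ G.dist u c = G.dist u a + 1) w → G.dist q x ≤ W.length := by
  intro a x W
  induction W with
  | nil => intro h1 h2; exact absurd h1 h2
  | @cons a c x hac W ih =>
    intro h1 h2
    rw [SimpleGraph.Walk.length_cons]
    by_cases hc : c ∈ AE32.desc (fun a c => G.Adj a c ∧ G.dist u c = G.dist u a + 1) w
    · exact (ih hc h2).trans (Nat.le_succ _)
    · have h3 : G.dist u a = G.dist u c + 1 := by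
        rcases h5.dist_eq_dist_add_one_of_adj u hac with h | h
        · exact h
        · exact absurd (AE32.mem_desc.2 ((AE32.mem_desc.1 h1).tail ⟨hac, h⟩)) hc
      have h4 : a = w := by
        rcases ReflTransGen.cases_tail (AE32.mem_desc.1 h1) with h | ⟨d, hd, hda⟩
        · exact h
        · have := parent_unique' h5 u hda.1 hac.symm hda.2 h3
          exact absurd (this ▸ AE32.mem_desc.2 hd) hc
      subst h4
      obtain rfl : c = q := parent_unique' h5 u hac.symm hqw.1 h3 hqw.2
      exact (SimpleGraph.dist_le W).trans (Nat.le_succ _)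

/-- **the code of a branch which is close to a path** -/
theorem thin_cod {E : τ → τ → Prop} {G : SimpleGraph τ} (hG : G = SimpleGraph.fromRel E) (h4 : ∀ a c, E a c → ¬ E c a)
    (h5 : G.IsTree) {b : ℕ} (h6 : ∀ v, {w | E v w ∨ E w v}.ncard ≤ b) {u : τ} {p : ℕ → τ} {m D : ℕ}
    (hp : ∀ i < m, G.Adj (p i) (p (i + 1)) ∧ G.dist u (p (i + 1)) = G.dist u (p i) + 1)
    (hD : ∀ x ∈ AE32.desc (fun a c => G.Adj a c ∧ G.dist u c = G.dist u a + 1) (p 0), ∃ i ≤ m, G.dist (p i) x ≤ D)
    {F : Fd} (hF : Cod E (fun a c => G.Adj a c ∧ G.dist u c = G.dist u a + 1) (p 0) F) : TH ((b + 1) ^ D) F := by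
  obtain ⟨P, hPdef⟩ : ∃ P : τ → τ → Prop, P = fun a c => G.Adj a c ∧ G.dist u c = G.dist u a + 1 := ⟨_, rfl⟩
  have hout : ∀ {q w : τ}, P q w → ∀ {a x : τ}, a ∈ AE32.desc P w → x ∉ AE32.desc P w → G.dist q x ≤ G.dist a x := by
    intro q w hqw a x ha hx
    obtain ⟨W, hW⟩ := h5.connected.exists_walk_length_eq_dist a x
    rw [← hW]
    rw [hPdef] at hqw ha hx
    exact walk_out h5 u hqw W ha hx
  rw [← hPdef] at hD hF
  have hPi : ∀ a c, P a c ↔ G.Adj a c ∧ G.dist u c = G.dist u a + 1 := fun a c => by rw [hPdef]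
  have hE : ∀ a c, P a c → G.dist u a < G.dist u c := by
    intro a c h
    rw [hPi] at h
    have := h.2
    omega
  have hin : ∀ a b c, P a c → P b c → a = b := by
    intro a b c h1 h2
    rw [hPi] at h1 h2
    exact parent_unique' h5 u h1.1 h2.1 h1.2 h2.2
  have hP : ∀ a c, P a c → E a c ∨ E c a := by
    intro a c h
    rw [hPi] at h
    have h1 := h.1
    rw [hG, SimpleGraph.fromRel_adj] at h1
    exact h1.2
  have h6' : ∀ v, (G.neighborSet v).ncard ≤ b := by
    intro v
    refine le_trans (le_of_eq ?_) (h6 v)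
    congr 1
    ext w
    rw [SimpleGraph.mem_neighborSet, hG, SimpleGraph.fromRel_adj]
    constructor
    · intro h
      exact h.2
    · intro h
      refine ⟨?_, h⟩
      rintro rfl
      rcases h with h | h
      · exact h4 _ _ h h
      · exact h4 _ _ h h
  have hPp : ∀ i < m, P (p i) (p (i + 1)) := fun i hi => (hPi _ _).2 (hp i hi)
  have hpp : ∀ n i, i + n ≤ m → ReflTransGen P (p i) (p (i + n)) := by
    intro n
    induction n with
    | zero => intro i _; exact ReflTransGen.refl
    | succ n ih => intro i hi; exact (ih i (by omega)).tail (hPp (i + n) (by omega))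
  have hdist : ∀ a x, x ∈ AE32.desc P a → G.dist u a + G.dist a x = G.dist u x := by
    intro a x hx
    rw [AE32.mem_desc, hPdef] at hx
    exact dist_of_desc h5 u a hx
  -- the vertices of the branch at `p i` are close to the rest of the path
  have hA : ∀ i ≤ m, ∀ x ∈ AE32.desc P (p i), ∃ j, i ≤ j ∧ j ≤ m ∧ G.dist (p j) x ≤ D := by
    intro i hi x hx
    have h0i := hpp i 0 (by omega)
    rw [Nat.zero_add] at h0i
    obtain ⟨j, hj, hjD⟩ := hD x (AE32.mem_desc.2 (h0i.trans (AE32.mem_desc.1 hx)))
    by_cases hij : i ≤ j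
    · exact ⟨j, hij, hj, hjD⟩
    · push Not at hij
      have hji := hpp (i - j) j (by omega)
      rw [show j + (i - j) = i by omega] at hji
      have g1 := hdist (p i) x hx
      have g2 := hdist (p j) x (AE32.mem_desc.2 (hji.trans (AE32.mem_desc.1 hx)))
      have g3 := hdist (p j) (p i) (AE32.mem_desc.2 hji)
      exact ⟨i, le_rfl, hi, by omega⟩
  have main : ∀ n i, i + n = m → ∀ F : Fd, Cod E P (p i) F → TH ((b + 1) ^ D) F := by
    intro n
    induction n with
    | zero =>
      intro i hi F hF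
      have hvF := vc_of_cod (h := fun v => G.dist u v) hE hin hP h6 hF
      have h1 : AE32.desc P (p i) ⊆ univ.filter (fun w => G.dist (p i) w ≤ D) := by
        intro x hx
        obtain ⟨j, j1, j2, j3⟩ := hA i (by omega) x hx
        obtain rfl : j = i := by omega
        exact mem_filter.2 ⟨mem_univ _, j3⟩
      have h2 := (card_le_card h1).trans (ball_le h5.connected h6' D (p i))
      have h3 := hvF.size
      exact th_small F (by omega)
    | succ n ih =>
      intro i hi F hF
      obtain ⟨c, hc, hcc⟩ := cod_mem hF (hPp i (by omega))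
      have hvF := vc_of_cod (h := fun v => G.dist u v) hE hin hP h6 hF
      have hvc := vc_of_cod (h := fun v => G.dist u v) hE hin hP h6 hcc
      refine TH.step F _ hc ?_ (ih (i + 1) (by omega) c hcc)
      have h1 : AE32.desc P (p i) ⊆ AE32.desc P (p (i + 1)) ∪ univ.filter (fun w => G.dist (p i) w ≤ D) := by
        intro x hx
        by_cases hx1 : x ∈ AE32.desc P (p (i + 1))
        · exact mem_union_left _ hx1
        · refine mem_union_right _ (mem_filter.2 ⟨mem_univ _, ?_⟩)
          obtain ⟨j, j1, j2, j3⟩ := hA i (by omega) x hx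
          rcases Nat.eq_or_lt_of_le j1 with h | h
          · rw [h]
            exact j3
          · have g1 := hpp (j - (i + 1)) (i + 1) (by omega)
            rw [show i + 1 + (j - (i + 1)) = j by omega] at g1
            exact (hout (hPp i (by omega)) (AE32.mem_desc.2 g1) hx1).trans j3
      have h2 := (card_le_card h1).trans (card_union_le _ _)
      have h3 := ball_le h5.connected h6' D (p i)
      have h4 := hvF.size
      have h5 := hvc.size
      simp only
      omega
  exact main m 0 (by omega) F hF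

end

/-- **Every oriented tree with an edge `u v` behind which the branch is close to a path is coded, from `u`, by a forest in
which the branch at `v` is one of the trees; this tree is thin.** -/
theorem graph_thin {k b D : ℕ} {E : Fin (k + 1) → Fin (k + 1) → Prop} (h4 : ∀ a c, E a c → ¬ E c a)
    (h5 : (SimpleGraph.fromRel E).IsTree) (h6 : ∀ v, {w | E v w ∨ E w v}.ncard ≤ b) {u v : Fin (k + 1)}
    (huv : (SimpleGraph.fromRel E).Adj u v) {p : ℕ → Fin (k + 1)} {m : ℕ} (hp0 : p 0 = v)
    (hp : ∀ i < m, (SimpleGraph.fromRel E).Adj (p i) (p (i + 1)) ∧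
      (SimpleGraph.fromRel E).dist u (p (i + 1)) = (SimpleGraph.fromRel E).dist u (p i) + 1)
    (hD : ∀ x, (SimpleGraph.fromRel E).dist v x < (SimpleGraph.fromRel E).dist u x →
      ∃ i ≤ m, (SimpleGraph.fromRel E).dist (p i) x ≤ D) :
    ∃ c F : Fd, c.size = k ∧ c.len ≤ b ∧ c.Deg b ∧ (decide (E u v), F) ∈ c.trees ∧
      F.size + 1 = {x | (SimpleGraph.fromRel E).dist v x < (SimpleGraph.fromRel E).dist u x}.ncard ∧
      TH ((b + 1) ^ D) F ∧
      ∀ {V : Type} {R : V → V → Prop} {N : V → Prop} {X : Finset V}, In R c N X →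
        ∃ f : Fin (k + 1) → V, Function.Injective f ∧ (∀ a, f a ∈ X) ∧ N (f u) ∧ ∀ a c, E a c → R (f a) (f c) := by
  obtain ⟨G, hG⟩ : ∃ G, G = SimpleGraph.fromRel E := ⟨_, rfl⟩
  rw [← hG] at h5 huv hp hD ⊢
  obtain ⟨P, hPdef⟩ : ∃ P : Fin (k + 1) → Fin (k + 1) → Prop, P = fun a c => G.Adj a c ∧ G.dist u c = G.dist u a + 1 :=
    ⟨_, rfl⟩
  have hPi : ∀ a c, P a c ↔ G.Adj a c ∧ G.dist u c = G.dist u a + 1 := fun a c => by rw [hPdef]
  have hE : ∀ a c, P a c → G.dist u a < G.dist u c := by
    intro a c h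
    rw [hPi] at h
    have := h.2
    omega
  have hin : ∀ a b c, P a c → P b c → a = b := by
    intro a b c h1 h2
    rw [hPi] at h1 h2
    exact parent_unique' h5 u h1.1 h2.1 h1.2 h2.2
  have hP : ∀ a c, P a c → E a c ∨ E c a := by
    intro a c h
    rw [hPi] at h
    have h1 := h.1
    rw [hG, SimpleGraph.fromRel_adj] at h1
    exact h1.2
  have hadj : ∀ a c, E a c → G.Adj a c := by
    intro a c hac
    rw [hG, SimpleGraph.fromRel_adj]
    refine ⟨?_, Or.inl hac⟩
    rintro rfl
    exact h4 _ _ hac hac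
  have huv1 : G.dist u v = 1 := SimpleGraph.dist_eq_one_iff_adj.2 huv
  have huvP : P u v := (hPi _ _).2 ⟨huv, by rw [huv1, SimpleGraph.dist_self]⟩
  have hreach : ∀ x, x ∈ AE32.desc P v ↔ G.dist v x < G.dist u x := by
    intro x
    rw [AE32.mem_desc, hPdef]
    have h1 : G.dist u x ≤ G.dist u v + G.dist v x := h5.connected.dist_triangle
    constructor
    · intro h
      have h2 := dist_of_desc h5 u v h
      omega
    · intro h
      exact desc_of_dist h5 u v _ x rfl (by omega)
  obtain ⟨c, hc⟩ := exists_cod (E := E) (h := fun v => G.dist u v) hE _ u rfl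
  obtain ⟨F, hF, hFc⟩ := cod_mem hc huvP
  have hvc := vc_of_cod (h := fun v => G.dist u v) hE hin hP h6 hc
  have hvF := vc_of_cod (h := fun v => G.dist u v) hE hin hP h6 hFc
  have hroot : AE32.desc P u = univ := by
    rw [eq_univ_iff_forall]
    intro x
    rw [AE32.mem_desc, hPdef]
    exact desc_of_dist h5 u u _ x rfl (by rw [SimpleGraph.dist_self, zero_add])
  have hsz := hvc.size
  rw [hroot, card_univ, Fintype.card_fin] at hsz
  refine ⟨c, F, by omega, hvc.len, hvc.deg, hF, ?_, ?_, ?_⟩
  · rw [hvF.size, ← Set.ncard_coe_finset]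
    congr 1
    ext x
    rw [mem_coe]
    exact hreach x
  · refine thin_cod hG h4 h5 h6 hp ?_ (by rw [hp0, ← hPdef]; exact hFc)
    intro x hx
    rw [hp0, ← hPdef] at hx
    exact hD x ((hreach x).1 hx)
  · rintro V R N X ⟨x, hx, A, hA, hxA, hN', hS⟩
    obtain ⟨f, p1, p2, p3, p4⟩ := hvc.emb hxA hS
    rw [hroot] at p2 p3 p4
    refine ⟨f, fun a b hab => p3 a (mem_univ _) b (mem_univ _) hab, fun a => ?_, by rw [p1]; exact hN', fun a c hac => ?_⟩
    · have := p2 a (mem_univ _)
      rw [mem_insert] at this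
      rcases this with h | h
      · rw [h]
        exact hx
      · exact hA h
    · rcases h5.dist_eq_dist_add_one_of_adj u (hadj _ _ hac) with h | h
      · have h1 := p4 c (mem_univ _) a ((hPi _ _).2 ⟨(hadj _ _ hac).symm, h⟩)
        have h2 : ¬ E c a := h4 _ _ hac
        simpa [Adj, h2] using h1
      · have h1 := p4 a (mem_univ _) c ((hPi _ _).2 ⟨hadj _ _ hac, h⟩)
        simpa [Adj, hac] using h1

end AESY
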