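import Pool.Agent.AESY.ThinB
import Pool.Agent.AESY.ThinG
import Pool.Agent.AESY.EndY

/-!
# Bounded-degree oriented trees with a thin branch of linear size behind an edge
-/

set_option autoImplicit false

namespace AESY

open Finset Relation AE15 AED AEB AELT AEK AEJ AESF
open scoped Classical

/-- thin branches behind an arc `u → v` -/
theorem thin_out (h : ThnSt) (Δ D : ℕ) {θ : ℝ} (hθ : 0 < θ) : ∃ C : ℕ, ∀ k n : ℕ, k + C ≤ n →
    ∀ R : Fin n → Fin n → Prop,
    (∀ a, ¬ R a a) → (∀ a b, a ≠ b → R a b ∨ R b a) → (∀ a b, R a b → ¬ R b a) →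
    ∀ E : Fin (k + 1) → Fin (k + 1) → Prop,
      (∀ a b, E a b → ¬ E b a) →
      (SimpleGraph.fromRel E).IsTree →
      (∀ v, ((SimpleGraph.fromRel E).neighborSet v).ncard ≤ Δ) →
      ∀ u v, E u v →
        θ * k ≤ ({x | (SimpleGraph.fromRel E).dist v x < (SimpleGraph.fromRel E).dist u x}.ncard : ℝ) →
        (∃ (p : ℕ → Fin (k + 1)) (m : ℕ), p 0 = v ∧
          (∀ i < m, (SimpleGraph.fromRel E).Adj (p i) (p (i + 1)) ∧
            (SimpleGraph.fromRel E).dist u (p (i + 1)) = (SimpleGraph.fromRel E).dist u (p i) + 1) ∧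
          ∀ x, (SimpleGraph.fromRel E).dist v x < (SimpleGraph.fromRel E).dist u x →
            ∃ i ≤ m, (SimpleGraph.fromRel E).dist (p i) x ≤ D) →
      ∃ f : Fin (k + 1) → Fin n, Function.Injective f ∧ ∀ a b, E a b → R (f a) (f b) := by
  obtain ⟨C, hC⟩ := h (max Δ 1) ((max Δ 1 + 1) ^ D) (le_max_right _ _) (θ / 2) (by positivity)
  refine ⟨C + 1, ?_⟩
  rintro k n hn R h1 h2 h3 E h4 h5 h6 u v hE hθv ⟨p, m, hp0, hp, hD⟩
  have huv : (SimpleGraph.fromRel E).Adj u v := by
    rw [SimpleGraph.fromRel_adj]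
    refine ⟨?_, Or.inl hE⟩
    rintro rfl
    exact h4 _ _ hE hE
  have h6' : ∀ v, {w | E v w ∨ E w v}.ncard ≤ max Δ 1 := by
    intro v
    refine le_trans (le_of_eq ?_) ((h6 v).trans (le_max_left _ _))
    congr 1
    ext w
    rw [SimpleGraph.mem_neighborSet, SimpleGraph.fromRel_adj]
    constructor
    · intro h
      refine ⟨?_, h⟩
      rintro rfl
      rcases h with h | h
      · exact h4 _ _ h h
      · exact h4 _ _ h h
    · intro h
      exact h.2
  obtain ⟨c, F, g1, g2, g3, g4, g5, g6, g8⟩ := graph_thin h4 h5 h6' huv hp0 hp hD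
  have hk : 1 ≤ k := by
    by_contra hk
    obtain rfl : k = 0 := by omega
    have := u.isLt
    have := v.isLt
    exact huv.ne (Fin.ext (by omega))
  have hk1 : (1 : ℝ) ≤ k := by exact_mod_cast hk
  have h7 : In R c (fun _ => True) univ := by
    refine hC ⟨h1, h2, h3⟩ c F g2 g3 (by simpa [hE] using g4) g6 ?_ univ ?_
    · have g5' : (F.size : ℝ) + 1 =
          {x | (SimpleGraph.fromRel E).dist v x < (SimpleGraph.fromRel E).dist u x}.ncard := by exact_mod_cast g5
      rw [g1, g5']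
      refine le_trans ?_ hθv
      nlinarith
    · rw [g1, card_univ, Fintype.card_fin]
      omega
  obtain ⟨f, f1, -, -, f4⟩ := g8 h7
  exact ⟨f, f1, f4⟩

/-- **thin branches, on graphs** -/
theorem thin_end_of (h : ThnSt) : ThinEndSt := by
  intro Δ D θ hθ
  obtain ⟨C, hC⟩ := thin_out h Δ D hθ
  refine ⟨C, ?_⟩
  rintro k n hn R a1 a2 a3 E G b1 rfl b2 b3 ⟨u, v, huv, hk, hv⟩
  have h8 := huv
  rw [SimpleGraph.fromRel_adj] at h8
  rcases h8.2 with hE | hE
  · exact hC k n hn R a1 a2 a3 E b1 b2 b3 u v hE hk hv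
  · have he : SimpleGraph.fromRel (fun a b => E b a) = SimpleGraph.fromRel E := by
      ext a b
      rw [SimpleGraph.fromRel_adj, SimpleGraph.fromRel_adj, or_comm]
    obtain ⟨f, hf1, hf2⟩ := hC k n hn (fun a b => R b a) a1 (fun a b hab => (a2 a b hab).symm) (fun a b => a3 b a)
      (fun a b => E b a) (fun a b => b1 b a) (by rw [he]; exact b2) (by rw [he]; exact b3)
      u v hE (by rw [he]; exact hk) (by rw [he]; exact hv)
    exact ⟨f, hf1, fun a b hab => hf2 b a hab⟩

/-- **thin ends** -/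
theorem thin_end (h : SFXYSt) : ThinEndSt := thin_end_of (thn_of h)

end AESY
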