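import Pool.Agent.AESF.MainP
import Pool.Agent.AESY.EndL
import Pool.Agent.AESY.FEL
import Pool.Agent.AESY.ThinEnd
import Pool.Agent.AESY.MainY
import Pool.Agent.AESY.T1Y
import Pool.Agent.AESY.T2Y

/-!
# Free ends without conditions near the root: the theorems
-/

set_option autoImplicit false

namespace AESY

/-- **lines behind an edge, small branches towards the first three levels, on codes** -/
theorem sfxySt : SFXYSt := sfxy_main AESF.partsSt t1ySt t2ySt

/-- **the final theorem** -/
theorem free_endL : FreeEndLSt := free_endL_of (thin_end sfxySt) (fel_of sfxySt)

end AESY
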