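import Pool.Agent.AESY.PlaceA

/-!
# Free ends without the cleanliness condition: pending trees are opened at hosts
-/

set_option autoImplicit false

namespace AESY

open Finset AE15 AED AELT AEB AESF
open scoped Classical

variable {V : Type} {R : V → V → Prop}

/-- a pending tree is opened at `z`, its in-closure is placed in `A` -/
theorem open_one (hT : AE32.Tour R) {b q : ℕ} {t : ℝ} {I : Fd → Prop} {T c : Fd} {y f z : V} {G : List (V × Bool × Fd)}
    (hc : NY b q t I c) {S A : Finset V} (h : PGq R T y S ((f, true, c) :: G)) (hfz : R f z) (hz : z ∉ S)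
    (hA : ∀ a ∈ A, R a z) (hAS : Disjoint S A) (hAc : 4 * q + 4 ≤ A.card) :
    ∃ (B : Finset V) (P : List (V × Fd)), B ⊆ A ∧ B.card ≤ q ∧ z ∉ B ∧
      PGq R T y (S ∪ insert z B) ((outs c).map (fun e => (z, true, e)) ++ (P.map (fun p => (p.1, true, p.2)) ++ G)) ∧
      (∀ p ∈ P, p.1 ∈ B ∧ p.2 ∈ pin c) ∧ P.length ≤ b * q := by
  obtain ⟨B, P, hB, hBc, hP, hPB, hPl⟩ := incore hT hc.len hc.deg hc.blk hA hAc
  have hzB : z ∉ B := fun h => hT.irr _ (hA z (hB h))
  refine ⟨B, P, hB, hBc, hzB, ?_, hPB, hPl⟩
  have h1 := h.bind (by simpa [Adj] using hfz) hzB hz (disjoint_of_subset_right hB hAS) hP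
  rwa [List.append_assoc] at h1

/-- the trees `cs` pending at `f` are opened at hosts; their in-closures are placed at hosts, too -/
theorem hosts_open (hT : AE32.Tour R) {b q : ℕ} {t : ℝ} {I : Fd → Prop} {T : Fd} {y f : V} {G : List (V × Bool × Fd)}
    (Hs Hg : Finset V) (hg : Hg ⊆ Hs) (cs : List Fd) (hcs : ∀ c ∈ cs, NY b q t I c) {S : Finset V}
    (h : PGq R T y S (cs.map (fun c => (f, true, c)) ++ G)) {u : ℕ} (hu : (S ∩ Hs).card ≤ u)
    (hf : u + cs.length * (q + 1) + 1 ≤ (Hg.filter (fun a => R f a)).card)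
    (hin : ∀ z ∈ Hg, u + cs.length * (q + 1) + 4 * q + 4 ≤ (Hs.filter (fun a => R a z)).card) :
    ∃ (Z : Finset V) (L : List (V × Fd)), Z ⊆ Hs ∧ Disjoint S Z ∧ Z.card ≤ cs.length * (q + 1) ∧
      PGq R T y (S ∪ Z) (L.map (fun p => (p.1, true, p.2)) ++ G) ∧ L.length ≤ cs.length * (b + b * q) ∧
      (∀ p ∈ L, p.1 ∈ Z ∧ I p.2) ∧ ∀ c ∈ cs, ∀ c' ∈ outs c, ∃ p ∈ L, p.2 = c' := by
  induction cs generalizing S G u with
  | nil =>
    refine ⟨∅, [], empty_subset _, disjoint_empty_right _, by simp, ?_, by simp, by simp, by simp⟩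
    rw [union_empty]
    simpa using h
  | cons c cs ih =>
    rw [List.length_cons, Nat.succ_mul] at hf hin
    -- the host of `c`
    obtain ⟨z, hz⟩ : ((Hg.filter (fun a => R f a)) \ (S ∩ Hs)).Nonempty := by
      rw [← card_pos]
      have h1 := le_card_sdiff (S ∩ Hs) (Hg.filter (fun a => R f a))
      omega
    rw [mem_sdiff, mem_filter] at hz
    obtain ⟨⟨hzg, hfz⟩, hzS'⟩ := hz
    have hzS : z ∉ S := fun h => hzS' (mem_inter.2 ⟨h, hg hzg⟩)
    obtain ⟨A, hA⟩ : ∃ A, A = (Hs.filter (fun a => R a z)) \ S := ⟨_, rfl⟩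
    have hAc : 4 * q + 4 ≤ A.card := by
      have h1 := hin z hzg
      have h2 : Hs.filter (fun a => R a z) ⊆ A ∪ (S ∩ Hs) := by
        intro a ha
        rw [hA, mem_union, mem_sdiff, mem_inter]
        have := (mem_filter.1 ha).1
        tauto
      have h3 := (card_le_card h2).trans (card_union_le _ _)
      omega
    have h1 : PGq R T y S ((f, true, c) :: (cs.map (fun c => (f, true, c)) ++ G)) := by simpa using h
    obtain ⟨B, P, hB, hBc, hzB, hP, hPB, hPl⟩ := open_one hT (hcs c List.mem_cons_self) (A := A) h1 hfz hzS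
      (fun a ha => by rw [hA, mem_sdiff, mem_filter] at ha; exact ha.1.2)
      (by rw [hA]; exact disjoint_sdiff) hAc
    have hBH : B ⊆ Hs := fun a ha => by
      have := hB ha
      rw [hA, mem_sdiff, mem_filter] at this
      exact this.1.1
    have hBS : Disjoint S B := disjoint_of_subset_right hB (by rw [hA]; exact disjoint_sdiff)
    have hi : (insert z B).card ≤ q + 1 := (card_insert_le _ _).trans (by omega)
    have hiH : insert z B ⊆ Hs := insert_subset (hg hzg) hBH
    have hiS : Disjoint S (insert z B) := disjoint_insert_right.2 ⟨hzS, hBS⟩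
    -- the rest
    have h2 : PGq R T y (S ∪ insert z B) (cs.map (fun c => (f, true, c)) ++
        ((outs c).map (fun e => (z, true, e)) ++ (P.map (fun p => (p.1, true, p.2)) ++ G))) := by
      refine hP.perm ?_
      refine List.perm_iff_count.2 fun a => ?_
      simp only [List.count_append]
      omega
    obtain ⟨Z, L, z1, z2, z3, z4, z5, z6, z7⟩ := ih (fun e he => hcs e (List.mem_cons_of_mem _ he)) h2
      (u := u + (q + 1)) (by
        have h3 : (S ∪ insert z B) ∩ Hs ⊆ (S ∩ Hs) ∪ insert z B := by
          intro a ha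
          rw [mem_inter, mem_union] at ha
          rw [mem_union, mem_inter]
          tauto
        have h4 := (card_le_card h3).trans (card_union_le _ _)
        omega) (by omega) (fun e he => by
        have := hin e he
        omega)
    rw [disjoint_union_left] at z2
    refine ⟨insert z B ∪ Z, (outs c).map (fun e => (z, e)) ++ P ++ L, union_subset hiH z1,
      disjoint_union_right.2 ⟨hiS, z2.1⟩, ?_, ?_, ?_, ?_, ?_⟩
    · have h3 := card_union_le (insert z B) Z
      rw [List.length_cons, Nat.succ_mul]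
      omega
    · rw [← union_assoc]
      refine z4.perm ?_
      refine List.perm_iff_count.2 fun a => ?_
      simp only [List.map_append, List.map_map, List.count_append, Function.comp_def]
      omega
    · rw [List.length_append, List.length_append, List.length_map, List.length_cons, Nat.succ_mul]
      have h3 := (length_outs c).trans (hcs c List.mem_cons_self).len
      omega
    · intro p hp
      rw [List.mem_append, List.mem_append, List.mem_map] at hp
      rcases hp with (⟨e, he, rfl⟩ | hp) | hp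
      · exact ⟨mem_union_left _ (mem_insert_self _ _), (hcs c List.mem_cons_self).out e he⟩
      · obtain ⟨h3, h4⟩ := hPB p hp
        exact ⟨mem_union_left _ (mem_insert_of_mem h3), ((hcs c List.mem_cons_self).pin _ h4).1⟩
      · obtain ⟨h3, h4⟩ := z6 p hp
        exact ⟨mem_union_right _ h3, h4⟩
    · intro e he e' he'
      rcases List.mem_cons.1 he with rfl | he
      · exact ⟨(z, e'), List.mem_append_left _ (List.mem_append_left _ (List.mem_map.2 ⟨e', he', rfl⟩)), rfl⟩
      · obtain ⟨p, hp, h3⟩ := z7 e he e' he'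
        exact ⟨p, List.mem_append_right _ hp, h3⟩

end AESY
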