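import Pool.Agent.AESY.PlaceB
import Pool.Agent.AESY.Pnd

/-!
# Free ends without the cleanliness condition: pending trees are opened at middle vertices
-/

set_option autoImplicit false

namespace AESY

open Finset AE15 AED AELT AEB AESF
open scoped Classical

variable {V : Type} {R : V → V → Prop}

/-- `mid_open` with two bounds for the used vertices -/
theorem mid_open_aux (hT : AE32.Tour R) {b q : ℕ} {t : ℝ} {I : Fd → Prop} {T : Fd} {y w : V}
    (Gd Hs Hg : Finset V) (hg : Hg ⊆ Hs) (hdis : Disjoint Gd Hs) (cs : List Fd)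
    (hcs : ∀ c ∈ cs, NY b q t I c ∧ ∀ c' ∈ outs c, NY b q t I c') : ∀ {G : List (V × Bool × Fd)} {S : Finset V}
    (_ : PGq R T y S (cs.map (fun c => (w, true, c)) ++ G)) {uG uH : ℕ} (_ : (S ∩ Gd).card ≤ uG)
    (_ : (S ∩ Hs).card ≤ uH) (f : ℕ → V) (_ : ∀ i < cs.length, ∀ j < cs.length, f i = f j → i = j)
    (_ : ∀ j < cs.length, R w (f j) ∧ f j ∉ S ∧ f j ∉ Gd ∧ f j ∉ Hs ∧
      uH + cs.length * (b * (q + 1)) + 1 ≤ (Hg.filter (fun a => R (f j) a)).card ∧
      uG + cs.length * q + 4 * q + 4 ≤ (Gd.filter (fun a => R a (f j))).card)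
    (_ : ∀ z ∈ Hg, uH + cs.length * (b * (q + 1)) + 4 * q + 4 ≤ (Hs.filter (fun a => R a z)).card),
    ∃ (Z : Finset V) (L P : List (V × Fd)), (∀ a ∈ Z, a ∈ Gd ∨ a ∈ Hs ∨ ∃ j < cs.length, a = f j) ∧ Disjoint S Z ∧
      Z.card ≤ cs.length * (1 + q + b * (q + 1)) ∧
      PGq R T y (S ∪ Z) (L.map (fun p => (p.1, true, p.2)) ++ (P.map (fun p => (p.1, true, p.2)) ++ G)) ∧
      L.length ≤ cs.length * (b * (b + b * q)) ∧ P.length ≤ cs.length * (b * q) ∧ (∀ p ∈ L, p.1 ∈ Hs ∧ I p.2) ∧
      (∀ p ∈ P, p.1 ∈ Gd ∧ p.1 ∈ Z ∧ p.2.len ≤ b ∧ p.2.Deg b ∧ (p.2.size + 1 : ℝ) ≤ t) ∧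
      ∀ c ∈ cs, ∀ c' ∈ outs c, ∀ c'' ∈ outs c', ∃ p ∈ L, p.2 = c'' := by
  induction cs with
  | nil =>
    intro G S h uG uH _ _ f _ _ _
    refine ⟨∅, [], [], by simp, disjoint_empty_right _, by simp, ?_, by simp, by simp, by simp, by simp, by simp⟩
    rw [union_empty]
    simpa using h
  | cons c cs ih =>
    intro G S h uG uH huG huH f hfi hf hin
    have hc := hcs c List.mem_cons_self
    have hlen : (outs c).length ≤ b := (length_outs c).trans hc.1.len
    simp only [List.length_cons, Nat.succ_mul] at hfi hf hin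
    obtain ⟨hwf, hfS, hfG, hfH, hfo, hfn⟩ := hf 0 (by omega)
    -- the tree `c` is opened at `f 0`
    obtain ⟨A, hA⟩ : ∃ A, A = (Gd.filter (fun a => R a (f 0))) \ S := ⟨_, rfl⟩
    have hAc : 4 * q + 4 ≤ A.card := by
      have h2 : Gd.filter (fun a => R a (f 0)) ⊆ A ∪ (S ∩ Gd) := by
        intro a ha
        rw [hA, mem_union, mem_sdiff, mem_inter]
        have := (mem_filter.1 ha).1
        tauto
      have h3 := (card_le_card h2).trans (card_union_le _ _)
      omega
    have h1 : PGq R T y S ((w, true, c) :: (cs.map (fun c => (w, true, c)) ++ G)) := by simpa using h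
    obtain ⟨B, P, hB, hBc, hzB, hP, hPB, hPl⟩ := open_one hT hc.1 (A := A) h1 hwf hfS
      (fun a ha => by rw [hA, mem_sdiff, mem_filter] at ha; exact ha.1.2)
      (by rw [hA]; exact disjoint_sdiff) hAc
    have hBG : B ⊆ Gd := fun a ha => by
      have := hB ha
      rw [hA, mem_sdiff, mem_filter] at this
      exact this.1.1
    have hBS : Disjoint S B := disjoint_of_subset_right hB (by rw [hA]; exact disjoint_sdiff)
    have hi : (insert (f 0) B).card ≤ q + 1 := (card_insert_le _ _).trans (by omega)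
    have hiS : Disjoint S (insert (f 0) B) := disjoint_insert_right.2 ⟨hfS, hBS⟩
    -- its out-trees are opened at hosts
    have hbH : (outs c).length * (q + 1) ≤ b * (q + 1) := Nat.mul_le_mul_right _ hlen
    have hSH : (S ∪ insert (f 0) B) ∩ Hs ⊆ S ∩ Hs := by
      intro a ha
      rw [mem_inter, mem_union, mem_insert] at ha
      rw [mem_inter]
      rcases ha with ⟨ha | rfl | ha, haH⟩
      · exact ⟨ha, haH⟩
      · exact absurd haH hfH
      · exact absurd haH (disjoint_left.1 hdis (hBG ha))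
    obtain ⟨Z₁, L₁, z1, z2, z3, z4, z5, z6, z7⟩ := hosts_open hT (f := f 0) Hs Hg hg (outs c) hc.2
      (G := P.map (fun p => (p.1, true, p.2)) ++ (cs.map (fun c => (w, true, c)) ++ G)) hP (u := uH)
      ((card_le_card hSH).trans huH) (by omega) (fun z hz => by
        have := hin z hz
        omega)
    rw [disjoint_union_left] at z2
    -- the rest
    have h2 : PGq R T y (S ∪ insert (f 0) B ∪ Z₁) (cs.map (fun c => (w, true, c)) ++
        (L₁.map (fun p => (p.1, true, p.2)) ++ (P.map (fun p => (p.1, true, p.2)) ++ G))) := by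
      refine z4.perm ?_
      refine List.perm_iff_count.2 fun a => ?_
      simp only [List.count_append]
      omega
    obtain ⟨Z₂, L₂, P₂, y1, y2, y3, y4, y5, y6, y7, y8, y9⟩ := ih (fun e he => hcs e (List.mem_cons_of_mem _ he)) h2
      (uG := uG + q) (uH := uH + b * (q + 1)) (by
        have h3 : (S ∪ insert (f 0) B ∪ Z₁) ∩ Gd ⊆ (S ∩ Gd) ∪ B := by
          intro a ha
          rw [mem_inter, mem_union, mem_union, mem_insert] at ha
          rw [mem_union, mem_inter]
          rcases ha with ⟨(ha | rfl | ha) | ha, haG⟩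
          · exact Or.inl ⟨ha, haG⟩
          · exact absurd haG hfG
          · exact Or.inr ha
          · exact absurd (z1 ha) (disjoint_left.1 hdis haG)
        have h4 := (card_le_card h3).trans (card_union_le _ _)
        omega) (by
        have h3 : (S ∪ insert (f 0) B ∪ Z₁) ∩ Hs ⊆ (S ∩ Hs) ∪ Z₁ := by
          intro a ha
          rw [mem_inter, mem_union] at ha
          rw [mem_union]
          rcases ha with ⟨ha | ha, haH⟩
          · exact Or.inl (hSH (mem_inter.2 ⟨ha, haH⟩))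
          · exact Or.inr ha
        have h4 := (card_le_card h3).trans (card_union_le _ _)
        omega) (fun j => f (j + 1)) (fun i hi j hj hij => by
        have := hfi (i + 1) (by omega) (j + 1) (by omega) hij
        omega) (fun j hj => by
        obtain ⟨a1, a2, a3, a4, a5, a6⟩ := hf (j + 1) (by omega)
        refine ⟨a1, ?_, a3, a4, by omega, by omega⟩
        rw [mem_union, mem_union, mem_insert]
        rintro ((h3 | h3) | h3)
        · exact a2 h3
        · rcases h3 with h3 | h3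
          · have := hfi (j + 1) (by omega) 0 (by omega) h3
            omega
          · exact a3 (hBG h3)
        · exact a4 (z1 h3)) (fun z hz => by
        have := hin z hz
        omega)
    rw [disjoint_union_left, disjoint_union_left] at y2
    refine ⟨insert (f 0) B ∪ Z₁ ∪ Z₂, L₁ ++ L₂, P ++ P₂, ?_, ?_, ?_, ?_, ?_, ?_, ?_, ?_, ?_⟩
    · intro a ha
      rw [mem_union, mem_union, mem_insert] at ha
      rcases ha with ((rfl | ha) | ha) | ha
      · exact Or.inr (Or.inr ⟨0, by simp, rfl⟩)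
      · exact Or.inl (hBG ha)
      · exact Or.inr (Or.inl (z1 ha))
      · rcases y1 a ha with h3 | h3 | ⟨j, hj, h3⟩
        · exact Or.inl h3
        · exact Or.inr (Or.inl h3)
        · exact Or.inr (Or.inr ⟨j + 1, by rw [List.length_cons]; omega, h3⟩)
    · exact disjoint_union_right.2 ⟨disjoint_union_right.2 ⟨hiS, z2.1⟩, y2.1.1⟩
    · have h3 := card_union_le (insert (f 0) B ∪ Z₁) Z₂
      have h4 := card_union_le (insert (f 0) B) Z₁
      rw [List.length_cons, Nat.succ_mul]
      omega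
    · have h3 : S ∪ (insert (f 0) B ∪ Z₁ ∪ Z₂) = S ∪ insert (f 0) B ∪ Z₁ ∪ Z₂ := by
        rw [union_assoc, union_assoc, union_assoc]
      rw [h3]
      refine y4.perm ?_
      refine List.perm_iff_count.2 fun a => ?_
      simp only [List.map_append, List.count_append]
      omega
    · rw [List.length_append, List.length_cons, Nat.succ_mul]
      have h3 : (outs c).length * (b + b * q) ≤ b * (b + b * q) := Nat.mul_le_mul_right _ hlen
      omega
    · rw [List.length_append, List.length_cons, Nat.succ_mul]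
      omega
    · intro p hp
      rcases List.mem_append.1 hp with hp | hp
      · exact ⟨z1 (z6 p hp).1, (z6 p hp).2⟩
      · exact y7 p hp
    · intro p hp
      rcases List.mem_append.1 hp with hp | hp
      · obtain ⟨h3, h4⟩ := hPB p hp
        obtain ⟨h5, h6⟩ := pin_deg hc.1.deg _ h4
        exact ⟨hBG h3, mem_union_left _ (mem_union_left _ (mem_insert_of_mem h3)), h5, h6, (hc.1.pin _ h4).2⟩
      · obtain ⟨h3, h4, h5⟩ := y8 p hp
        exact ⟨h3, mem_union_right _ h4, h5⟩
    · intro e he e' he' e'' he''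
      rcases List.mem_cons.1 he with rfl | he
      · obtain ⟨p, hp, h3⟩ := z7 e' he' e'' he''
        exact ⟨p, List.mem_append_left _ hp, h3⟩
      · obtain ⟨p, hp, h3⟩ := y9 e he e' he' e'' he''
        exact ⟨p, List.mem_append_right _ hp, h3⟩

/-- the trees `cs` pending at `w` are opened at the middle vertices `f j`; their in-closures are placed in `Gd`, their
out-branches are opened at hosts -/
theorem mid_open (hT : AE32.Tour R) {b q : ℕ} {t : ℝ} {I : Fd → Prop} {T : Fd} {y w : V} {G : List (V × Bool × Fd)}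
    (Gd Hs Hg : Finset V) (hg : Hg ⊆ Hs) (hdis : Disjoint Gd Hs) (cs : List Fd)
    (hcs : ∀ c ∈ cs, NY b q t I c ∧ ∀ c' ∈ outs c, NY b q t I c') {S : Finset V}
    (h : PGq R T y S (cs.map (fun c => (w, true, c)) ++ G)) {u : ℕ} (hu : (S ∩ (Gd ∪ Hs)).card ≤ u) (f : ℕ → V)
    (hfi : ∀ i < cs.length, ∀ j < cs.length, f i = f j → i = j)
    (hf : ∀ j < cs.length, R w (f j) ∧ f j ∉ S ∧ f j ∉ Gd ∧ f j ∉ Hs ∧
      u + cs.length * (b * (q + 1)) + 1 ≤ (Hg.filter (fun a => R (f j) a)).card ∧
      u + cs.length * q + 4 * q + 4 ≤ (Gd.filter (fun a => R a (f j))).card)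
    (hin : ∀ z ∈ Hg, u + cs.length * (b * (q + 1)) + 4 * q + 4 ≤ (Hs.filter (fun a => R a z)).card) :
    ∃ (Z : Finset V) (L P : List (V × Fd)), (∀ a ∈ Z, a ∈ Gd ∨ a ∈ Hs ∨ ∃ j < cs.length, a = f j) ∧ Disjoint S Z ∧
      Z.card ≤ cs.length * (1 + q + b * (q + 1)) ∧
      PGq R T y (S ∪ Z) (L.map (fun p => (p.1, true, p.2)) ++ (P.map (fun p => (p.1, true, p.2)) ++ G)) ∧
      L.length ≤ cs.length * (b * (b + b * q)) ∧ P.length ≤ cs.length * (b * q) ∧ (∀ p ∈ L, p.1 ∈ Hs ∧ I p.2) ∧
      (∀ p ∈ P, p.1 ∈ Gd ∧ p.1 ∈ Z ∧ p.2.len ≤ b ∧ p.2.Deg b ∧ (p.2.size + 1 : ℝ) ≤ t) ∧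
      ∀ c ∈ cs, ∀ c' ∈ outs c, ∀ c'' ∈ outs c', ∃ p ∈ L, p.2 = c'' :=
  mid_open_aux hT Gd Hs Hg hg hdis cs hcs h
    ((card_le_card (inter_subset_inter_left subset_union_left)).trans hu)
    ((card_le_card (inter_subset_inter_left subset_union_right)).trans hu) f hfi hf hin

end AESY
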