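import Pool.Agent.AESY.Defs
import Pool.Agent.AESF.ThinC
import Pool.Agent.AESF.MainP

/-!
# Thin branches behind a vertex, on codes
-/

set_option autoImplicit false

namespace AESY

open Finset AE15 AED AELT AEK AEJ AEW AEY AEN AET AESF
open scoped Classical

variable {b D l K M A' κ₀ : ℕ} {θ ε μ θ₁ : ℝ}

/-- the length of the first run is large if the rest is small -/
theorem thn_rn {d : Bool} {F : Fd} (h : Thn D F) : F.size ≤ (rst d F).size + rn d F * (D + 1) := by
  induction F with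
  | nil => simp [Fd.size]
  | node e c s ihc _ =>
    have h1 := h.1
    have h2 := ihc h.2
    simp only [rst, rn]
    split_ifs
    · simp only [Fd.size]
      rw [add_mul, one_mul]
      omega
    · simp only [Fd.size]
      omega

/-- a line which starts against the arc to its parent, with a small rest behind the first run, is rigid -/
theorem rg_thin (hl : D ≤ l) (hκ : K * (D + 1) + 4 * D + 1 ≤ κ₀) (hθ : 0 < θ) (hθθ : 2 * θ ≤ θ₁) (hθA : 8 * (A' + 1) * θ₁ ≤ 1)
    (hM : 3 * κ₀ + 1 ≤ M) (hM2 : (4 * (A' + 1) * (κ₀ + 1) + 16 * (D + 1) : ℝ) ≤ θ * (θ * M)) {G : Fd} (d : Bool)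
    (hG : TC b D G) (hr0 : rn d G = 0) (hbig : 4 * (A' + 1) * (κ₀ + 1) ≤ G.size + 1)
    (hG2 : ((rst (!d) G).size : ℝ) + 1 < θ₁ * (G.size + 1)) {n : ℕ} (hn : G.size ≤ n) :
    ∃ s : ℕ, G.size ≤ s + D ∧ Rgn b l K A' θ ε μ M (n + 1) (d, G) s := by
  have hθ₁ : 0 < θ₁ := by linarith
  have hθ8 : θ₁ ≤ 1 / 8 := by
    have hA0 : (0 : ℝ) ≤ A' := Nat.cast_nonneg _
    have : 8 * (0 + 1) * θ₁ ≤ 8 * (A' + 1) * θ₁ := by
      refine mul_le_mul_of_nonneg_right ?_ hθ₁.le
      linarith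
    linarith
  cases d with
  | false =>
    simp only [Bool.not_false] at hG2
    have e1 := hG.1.blk_small hr0
    refine ⟨G.size - AEB.blk G, by omega, Or.inl ⟨rfl, ?_, hG.tame hl, ?_⟩⟩
    · refine hG.fx hl (by omega) hθA hbig hG2 ?_
      intro c hc h1 h2 h3 h4 h5
      have h1' : c.size < G.size := h1
      obtain ⟨g1, g2⟩ := hc.exit (by omega) hM hθ hθθ hθ8 h4 (by rw [h2]) h3
      exact ⟨g1, bl_thin hl hκ hθ hθθ hθA hM hM2 c.size c rfl hc n (by omega) (g2.imp_right fun g2 => ⟨true, h3, g2⟩)⟩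
    · have := blk_le_size G
      simp only
      omega
  | true =>
    simp only [Bool.not_true] at hG2
    have e1 := hG.1.dcl_small hr0
    have hsz : (mrr G).size = G.size := mrr_size G
    have hG2' : ((rst true (mrr G)).size : ℝ) + 1 < θ₁ * ((mrr G).size + 1) := by
      rw [rst_mrr, mrr_size, mrr_size]
      exact hG2
    refine ⟨G.size - dcl G, by omega, Or.inr ⟨rfl, ?_, hG.mrr.tame hl, ?_⟩⟩
    · have h0 := hG.mrr.fx (K := K) (κ₀ := κ₀) (W := fun c => Wc θ ε μ M (Rgn b l K A' θ ε μ M n) (mrr c)) hl (by omega) hθA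
        (by rw [hsz]; exact hbig) hG2' ?_
      · rw [hsz] at h0
        exact h0
      · intro c hc h1 h2 h3 h4 h5
        have h1' : c.size < G.size := by
          rw [← hsz]
          exact h1
        obtain ⟨g1, g2⟩ := hc.exit (by omega) hM hθ hθθ hθ8 h4 (by rw [h2]) h3
        refine ⟨?_, bl_thin hl hκ hθ hθθ hθA hM hM2 c.size (mrr c) (mrr_size c) hc.mrr n (by rw [mrr_size]; omega) ?_⟩
        · rw [mrr_size, AEJ.dcl_mrr, AEJ.blk_mrr]
          refine g1.imp_right fun g1 => ?_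
          linarith
        · rw [mrr_size]
          refine g2.imp_right fun g2 => ⟨false, ?_, ?_⟩
          · rw [rn_mrr]
            exact h3
          · rw [rst_mrr, mrr_size]
            exact g2
    · have := dcl_le_size G
      simp only
      omega

/-! ### the first levels -/

theorem outs_size {F c : Fd} (h : c ∈ outs F) : c.size < F.size := AEB.size_lt_of_mem (mem_outs.1 h)

theorem pnd_size {F : Fd} : ∀ {c : Fd}, c ∈ pnd F → c.size < F.size := by
  induction F with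
  | nil => intro c h; simp [pnd] at h
  | node d e s ihe ihs =>
    intro c h
    simp only [pnd] at h
    simp only [Fd.size]
    cases d with
    | true =>
      simp only [if_true, List.mem_cons] at h
      rcases h with rfl | h
      · omega
      · have := ihs h
        omega
    | false =>
      simp only [Bool.false_eq_true, if_false, List.mem_append] at h
      rcases h with h | h
      · have := ihe h
        omega
      · have := ihs h
        omega

theorem pin_size {F : Fd} : ∀ {c : Fd}, c ∈ pin F → c.size < F.size := by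
  induction F with
  | nil => intro c h; simp [pin] at h
  | node d e s _ ihs =>
    intro c h
    simp only [pin] at h
    simp only [Fd.size]
    cases d with
    | true =>
      simp only [if_true] at h
      have := ihs h
      omega
    | false =>
      simp only [Bool.false_eq_true, if_false, List.mem_append] at h
      rcases h with h | h
      · have := pnd_size h
        omega
      · have := ihs h
        omega

/-- a vertex of the first run, or a vertex of a pendant -/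
def NB (D : ℕ) (F : Fd) : Prop := F.size ≤ D ∨ ∃ c s : Fd, F = .node true c s ∧ s.size ≤ D

theorem NB.blk {F : Fd} (h : NB D F) : AEB.blk F ≤ D := by
  rcases h with h | ⟨c, s, rfl, h⟩
  · exact (blk_le_size F).trans h
  · have := blk_le_size s
    simp only [AEB.blk, if_true]
    omega

theorem NB.inn {F : Fd} (h : NB D F) {W : Fd} (hW : (false, W) ∈ F.trees) : W.size + 1 ≤ D := by
  rcases h with h | ⟨c, s, rfl, h⟩
  · have h1 : W.size < F.size := AEB.size_lt_of_mem hW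
    omega
  · simp only [Fd.trees, List.mem_cons, Prod.mk.injEq, Bool.false_eq_true, false_and, false_or] at hW
    have h1 : W.size < s.size := AEB.size_lt_of_mem hW
    omega

theorem NB.pin {F : Fd} (h : NB D F) {W : Fd} (hW : W ∈ pin F) : AEB.blk W ≤ D := by
  rcases h with h | ⟨c, s, rfl, h⟩
  · have h1 := pin_size hW
    have h2 := blk_le_size W
    omega
  · simp only [AESY.pin, if_true] at hW
    have h1 := pin_size hW
    have h2 := blk_le_size W
    omega

theorem NB.out {F : Fd} (h : NB D F) {W : Fd} (hW : W ∈ outs F) : W.size ≤ D ∨ ∃ s, F = .node true W s ∧ s.size ≤ D := by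
  rcases h with h | ⟨c, s, rfl, h⟩
  · have h1 := outs_size hW
    left
    omega
  · simp only [outs, if_true, List.mem_cons] at hW
    rcases hW with rfl | hW
    · exact Or.inr ⟨s, rfl, h⟩
    · have h1 := outs_size hW
      left
      omega

/-- the first vertices of a long run -/
theorem clnY_thin {t : ℝ} {F : Fd} (hF : TC b D F) (hr : 4 ≤ rn true F) (ht : (D : ℝ) ≤ t) (hK : K * (D + 1) ≤ F.size + 1) :
    ClnY D K t F := by
  have key : ∀ j : ℕ, ∀ c : Fd, TC b D c → j + 1 ≤ rn true c → ∃ c' s : Fd, c = .node true c' s ∧ s.size ≤ D ∧ TC b D c' ∧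
      j ≤ rn true c' := by
    intro j c hc hj
    cases c with
    | nil => simp [rn] at hj
    | node e c' s =>
      have he : e = true := by
        by_contra he
        have : e = false := by simpa using he
        subst this
        simp [rn] at hj
      subst he
      refine ⟨c', s, rfl, hc.1.1, hc.child, ?_⟩
      simp only [rn, if_true] at hj
      omega
  obtain ⟨c₁, s₀, h0, g0, t1, r1⟩ := key 3 F hF hr
  obtain ⟨c₂, s₁, h1, g1, t2, r2⟩ := key 2 c₁ t1 r1
  obtain ⟨c₃, s₂, h2, g2, t3, r3⟩ := key 1 c₂ t2 r2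
  obtain ⟨c₄, s₃, h3, g3, t4, r4⟩ := key 0 c₃ t3 r3
  have n0 : NB D F := Or.inr ⟨c₁, s₀, h0, g0⟩
  have n1 : ∀ c ∈ outs F, NB D c ∧ (c = c₁ ∨ c.size ≤ D) := by
    intro c hc
    rcases n0.out hc with h | ⟨s, h, -⟩
    · exact ⟨Or.inl h, Or.inr h⟩
    · rw [h0] at h
      simp only [Fd.node.injEq, true_and] at h
      rw [← h.1]
      exact ⟨Or.inr ⟨c₂, s₁, h1, g1⟩, Or.inl rfl⟩
  have n2 : ∀ c ∈ outs F, ∀ c' ∈ outs c, NB D c' ∧ (c' = c₂ ∨ c'.size ≤ D) := by
    intro c hc c' hc'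
    obtain ⟨h4, h5⟩ := n1 c hc
    rcases h5 with rfl | h5
    · rcases h4.out hc' with h | ⟨s, h, -⟩
      · exact ⟨Or.inl h, Or.inr h⟩
      · rw [h1] at h
        simp only [Fd.node.injEq, true_and] at h
        rw [← h.1]
        exact ⟨Or.inr ⟨c₃, s₂, h2, g2⟩, Or.inl rfl⟩
    · have h6 := outs_size hc'
      exact ⟨Or.inl (by omega), Or.inr (by omega)⟩
  have hs : ∀ W : Fd, W.size + 1 ≤ D → (W.size + 1 : ℝ) ≤ t := by
    intro W hW
    have : ((W.size + 1 : ℕ) : ℝ) ≤ D := by exact_mod_cast hW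
    push_cast at this
    linarith
  have hb : ∀ W : Fd, AEB.blk W ≤ D → K * (AEB.blk W + 1) ≤ F.size + 1 := fun W hW =>
    (Nat.mul_le_mul_left _ (by omega)).trans hK
  refine ⟨⟨fun W hW => hs W (n0.inn hW), fun c hc W hW => hs W ((n1 c hc).1.inn hW),
    fun c hc c' hc' W hW => hs W ((n2 c hc c' hc').1.inn hW)⟩, n0.blk, fun c hc => (n1 c hc).1.blk,
    fun c hc c' hc' => (n2 c hc c' hc').1.blk, fun W hW => hb W (n0.pin hW), fun c hc W hW => hb W ((n1 c hc).1.pin hW), ?_⟩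
  intro c hc c' hc' W hW
  refine hb W ?_
  rcases (n2 c hc c' hc').2 with rfl | h
  · rw [h2] at hW
    simp only [pnd, if_true, List.mem_cons] at hW
    rcases hW with rfl | hW
    · exact NB.blk (Or.inr ⟨c₄, s₃, h3, g3⟩)
    · have h4 := pnd_size hW
      have h5 := blk_le_size W
      omega
  · have h4 := pnd_size hW
    have h5 := blk_le_size W
    omega

/-! ### the composition on codes -/

/-- the statement for coded trees: a thin branch at the root, which hangs by an arc away from the root -/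
def ThnSt : Prop := ∀ b D : ℕ, 1 ≤ b → ∀ θ : ℝ, 0 < θ → ∃ C : ℕ, ∀ {V : Type} {R : V → V → Prop}, AE32.Tour R →
  ∀ c F : Fd, c.len ≤ b → c.Deg b → (true, F) ∈ c.trees → TH D F → θ * (c.size + 1) ≤ (F.size + 1 : ℝ) →
    ∀ X : Finset V, c.size + 1 + C ≤ X.card → In R c (fun _ => True) X

theorem exists_bigM {θ B : ℝ} (hθ : 0 < θ) (m : ℕ) : ∃ M : ℕ, m ≤ M ∧ B ≤ θ * (θ * M) := by
  obtain ⟨M, h1, h2⟩ := exists_big (θ := θ * θ) (B := B) (by positivity) m
  exact ⟨M, h1, by rw [← mul_assoc]; exact h2⟩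

/-- **thin branches, on codes** -/
theorem thn_of (h : SFXYSt) : ThnSt := by
  intro b D hb θ hθ
  obtain ⟨A₀, hA⟩ := h b D hb
  obtain ⟨A₁, hM⟩ := AEN.mainSt b D hb
  obtain ⟨A2, hA2⟩ : ∃ A2 : ℕ, A2 = (2 * b) ^ (2 * D + 9) := ⟨_, rfl⟩
  have hA0' : (0 : ℝ) ≤ A₀ := Nat.cast_nonneg _
  have hA1' : (0 : ℝ) ≤ A₁ := Nat.cast_nonneg _
  have hA2' : (0 : ℝ) ≤ A2 := Nat.cast_nonneg _
  have hD0 : (0 : ℝ) ≤ D := Nat.cast_nonneg _
  -- the windows
  obtain ⟨t, ht⟩ : ∃ t : ℝ, t = 1 / (8 * (A₀ + A₁ + A2 + 1)) := ⟨_, rfl⟩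
  have ht0 : 0 < t := by rw [ht]; positivity
  have hte : 8 * ((A₀ : ℝ) + A₁ + A2 + 1) * t = 1 := by
    rw [ht]
    field_simp
  obtain ⟨θ₁, hθ₁⟩ : ∃ s : ℝ, s = min θ t := ⟨_, rfl⟩
  have h10 : 0 < θ₁ := by rw [hθ₁]; exact lt_min hθ ht0
  have h1a : θ₁ ≤ θ := by rw [hθ₁]; exact min_le_left _ _
  have h1t : θ₁ ≤ t := by rw [hθ₁]; exact min_le_right _ _
  have hall : ∀ A : ℝ, 0 ≤ A → A ≤ A₀ + A₁ + A2 → 8 * (A + 1) * θ₁ ≤ 1 := by
    intro A hA hA3
    rw [← hte]
    exact mul_le_mul (by linarith) h1t h10.le (by positivity)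
  have h1A0 := hall A₀ hA0' (by linarith)
  have h1A1 := hall A₁ hA1' (by linarith)
  have h1A2 := hall A2 hA2' (by linarith)
  have h18 : θ₁ ≤ 1 / 8 := by
    have := hall 0 le_rfl (by positivity)
    linarith
  obtain ⟨θw, hθw⟩ : ∃ s : ℝ, s = θ₁ / 2 := ⟨_, rfl⟩
  have hw0 : 0 < θw := by rw [hθw]; positivity
  have hw2 : 2 * θw ≤ θ₁ := by rw [hθw]; linarith
  have hw1 : θw ≤ 1 / 2 := by linarith
  obtain ⟨ε₀, μ₀, ε, K₀, -, -, hε, hA⟩ := hA A₀ le_rfl θw hw0 hw1 D θ hθ
  have hA := hA ε₀ μ₀ le_rfl le_rfl K₀ le_rfl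
  obtain ⟨ε₂, μ₂, K₂, -, -, hM⟩ := hM θw hw0 hw1
  -- the constants
  obtain ⟨κ₀, hκ₀⟩ : ∃ κ₀ : ℕ, κ₀ = (K₀ + K₂) * (D + 1) + 4 * D + 1 := ⟨_, rfl⟩
  have hκa : K₀ * (D + 1) + 4 * D + 1 ≤ κ₀ := by rw [hκ₀, add_mul]; omega
  have hκb : K₂ * (D + 1) + 4 * D + 1 ≤ κ₀ := by rw [hκ₀, add_mul]; omega
  obtain ⟨M, hM1, hM2⟩ := exists_bigM (θ := θw) (B := 4 * (A₀ + A₁ + A2 + 1) * (κ₀ + 1) + 16 * (D + 1) + D / ε) hw0 (3 * κ₀ + 1)
  have hκ0 : (0 : ℝ) ≤ κ₀ := Nat.cast_nonneg _
  have hDε : 0 ≤ (D : ℝ) / ε := by positivity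
  have hM2g : ∀ A : ℝ, 0 ≤ A → A ≤ A₀ + A₁ + A2 → 4 * (A + 1) * (κ₀ + 1) + 16 * (D + 1) ≤ θw * (θw * M) := by
    intro A hA hA3
    refine le_trans ?_ hM2
    have : 4 * (A + 1) * (κ₀ + 1) ≤ 4 * (A₀ + A₁ + A2 + 1) * (κ₀ + 1) := by
      refine mul_le_mul_of_nonneg_right ?_ (by positivity)
      linarith
    linarith
  have hM2a := hM2g A₀ hA0' (by linarith)
  have hM2b := hM2g A₁ hA1' (by linarith)
  obtain ⟨C₁, hA⟩ := hA M
  obtain ⟨C₂, hM⟩ := hM M
  refine ⟨C₁ + C₂, ?_⟩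
  intro V R hT c F hl hdeg hF hTH hθF X hX
  -- the sorted branch
  have hFs : (srt F).size = F.size := (srt_eqt F).size
  obtain ⟨s, hs⟩ := AER.eqt_first hF
  have he : Eqt c (.node true (srt F) s) := hs.trans ((srt_eqt F).node true s)
  have hsz := he.size
  have hlen' : (Fd.node true (srt F) s).len ≤ b := by rw [he.len]; exact hl
  have hdeg' : (Fd.node true (srt F) s).Deg b := he.deg b hdeg
  have hTC : TC b D (srt F) := ⟨hTH.srt.thn (srt_sd F), srt_sd F, hdeg'.1, hdeg'.2.1⟩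
  suffices h : In R (.node true (srt F) s) (fun _ => True) X by
    obtain ⟨x, hx, A, hA, hxA, hN, hE⟩ := h
    exact ⟨x, hx, A, hA, hxA, trivial, he.emb hE⟩
  obtain ⟨G, hG⟩ : ∃ G, G = srt F := ⟨_, rfl⟩
  rw [← hG] at hFs hsz hlen' hdeg' hTC ⊢
  have hmem : (true, G) ∈ (Fd.node true G s).trees := by simp [Fd.trees]
  rw [← hsz] at hX hθF
  rw [← hFs] at hθF
  have hθw' : θw * ((Fd.node true G s).size + 1) ≤ (G.size : ℝ) + 1 :=
    le_trans (mul_le_mul_of_nonneg_right (by linarith) (by positivity)) hθF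
  have done : BlN θw ε₂ μ₂ M (Rgn b D K₂ A₁ θw ε₂ μ₂ M (G.size + 1)) (EndP θw ε₂ M) (.node true G s) →
      In R (.node true G s) (fun _ => True) X := fun h =>
    (hM hT le_rfl le_rfl (G.size + 1)).1 _ hlen' hdeg' h X (by omega)
  by_cases hcM : (Fd.node true G s).size + 1 ≤ M
  · exact done (BlN.small _ hcM)
  have hcM' : (M : ℝ) ≤ (Fd.node true G s).size + 1 := by
    have : M ≤ (Fd.node true G s).size + 1 := by omega
    exact_mod_cast this
  have hGM : θw * M ≤ (G.size : ℝ) + 1 := (mul_le_mul_of_nonneg_left hcM' hw0.le).trans hθw'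
  have hGθ : θw * (θw * M) ≤ θw * (G.size + 1) := mul_le_mul_of_nonneg_left hGM hw0.le
  have hθG : θw * (G.size + 1) ≤ 1 / 16 * (G.size + 1) := mul_le_mul_of_nonneg_right (by linarith) (by positivity)
  have hbigg : ∀ A : ℕ, 4 * ((A : ℝ) + 1) * (κ₀ + 1) + 16 * (D + 1) ≤ θw * (θw * M) → 4 * (A + 1) * (κ₀ + 1) ≤ G.size + 1 := by
    intro A hA
    have h0 : (0 : ℝ) ≤ (G.size : ℝ) + 1 := by positivity
    have : (4 * (A + 1) * (κ₀ + 1) : ℝ) ≤ G.size + 1 := by linarith
    exact_mod_cast this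
  have hne : G ≠ .nil := by
    rintro rfl
    have := hbigg A₀ hM2a
    simp only [Fd.size] at this
    have h1 : 4 * 1 * 1 ≤ 4 * (A₀ + 1) * (κ₀ + 1) := Nat.mul_le_mul (Nat.mul_le_mul le_rfl (by omega)) (by omega)
    omega
  obtain ⟨d, hd⟩ := rn_pos hne
  have hlt : G.size < (Fd.node true G s).size := AEB.size_lt_of_mem hmem
  by_cases hr : θ₁ * (G.size + 1) ≤ (rst d G).size + 1
  · -- a large rest
    refine done (BlN.step _ true (true, G) _ (AESK.PtT.step (true, Fd.node true G s) (true, G) 0 AESK.PtT.refl hmem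
      (Nat.zero_le _)) hlt hθw' ?_ ?_)
    · simp only
      have e0 : 2 * θw * (G.size + 1) ≤ θ₁ * (G.size + 1) := mul_le_mul_of_nonneg_right hw2 (by positivity)
      have e1 : (dcl G : ℝ) + AEB.blk G + (rst d G).size ≤ G.size + 2 * D := by
        cases d with
        | true =>
          have e1 := hTC.1.blk_small (rn_zero hd)
          have e2 := hTC.1.dcl_rst
          have e3 : dcl G + AEB.blk G + (rst true G).size ≤ G.size + 2 * D := by omega
          exact_mod_cast e3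
        | false =>
          have e1 := hTC.1.dcl_small (rn_zero hd)
          have e2 := hTC.1.blk_rst
          have e3 : dcl G + AEB.blk G + (rst false G).size ≤ G.size + 2 * D := by omega
          exact_mod_cast e3
      have e4 : 0 ≤ (4 * ((A₀ : ℝ) + 1) * (κ₀ + 1) : ℝ) := by positivity
      linarith
    · exact bl_thin le_rfl hκb hw0 hw2 h1A1 hM1 hM2b G.size G rfl hTC _ (by omega) (Or.inr ⟨d, hd, hr⟩)
  push Not at hr
  cases d with
  | false =>
    -- the first run leads towards the root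
    obtain ⟨x, hx, hRg⟩ := rg_thin (ε := ε₂) (μ := μ₂) le_rfl hκb hw0 hw2 h1A1 hM1 hM2b true hTC (rn_zero hd) (hbigg A₁ hM2b) hr
      (le_refl G.size)
    refine done (BlN.rig _ (true, G) x hmem hRg ?_)
    have e1 : (G.size : ℝ) ≤ x + D := by exact_mod_cast hx
    have e2 : θw * ((Fd.node true G s).size + 1) ≤ 1 / 2 * (G.size + 1) := by
      have : 2 * θw * ((Fd.node true G s).size + 1) ≤ θ * ((Fd.node true G s).size + 1) :=
        mul_le_mul_of_nonneg_right (by linarith) (by positivity)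
      linarith
    have e4 : 0 ≤ (4 * ((A₀ : ℝ) + 1) * (κ₀ + 1) : ℝ) := by positivity
    have e5 : (0 : ℝ) ≤ (G.size : ℝ) + 1 := by positivity
    linarith
  | true =>
    -- the first run leads away from the root
    have hKb : K₀ * (D + 1) ≤ G.size + 1 := by
      have := hbigg A₀ hM2a
      have h1 : κ₀ + 1 ≤ 4 * (A₀ + 1) * (κ₀ + 1) := Nat.le_mul_of_pos_left _ (by omega)
      omega
    have hDε' : (D : ℝ) ≤ ε * (G.size + 1) := by
      have e4 : 0 ≤ (4 * ((A₀ : ℝ) + A₁ + A2 + 1) * (κ₀ + 1) : ℝ) := by positivity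
      have e5 : (0 : ℝ) ≤ (G.size : ℝ) + 1 := by positivity
      have e6 : (D : ℝ) / ε ≤ G.size + 1 := by linarith
      rw [div_le_iff₀ hε] at e6
      linarith
    have hr4 : 4 ≤ rn true G := by
      by_contra h4
      have e1 := thn_rn (d := true) hTC.1
      have e2 : rn true G * (D + 1) ≤ 3 * (D + 1) := Nat.mul_le_mul_right _ (by omega)
      have e3 : G.size ≤ (rst true G).size + 3 * (D + 1) := by omega
      have e4 : (G.size : ℝ) ≤ (rst true G).size + 3 * (D + 1) := by exact_mod_cast e3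
      have e5 : θ₁ * (G.size + 1) ≤ 1 / 8 * (G.size + 1) := mul_le_mul_of_nonneg_right h18 (by positivity)
      have e6 : 0 ≤ (4 * ((A₀ : ℝ) + 1) * (κ₀ + 1) : ℝ) := by positivity
      linarith
    refine hA hT _ G hlen' hdeg' hmem hθF (clnY_thin hTC hr4 hDε' hKb) ?_ X (by omega)
    have hM2c : 4 * ((A2 : ℝ) + 1) * (κ₀ + 1) + 16 * (D + 1) ≤ θw * (θw * M) := hM2g A2 hA2' (by linarith)
    rw [← hA2]
    refine hTC.fx le_rfl (by omega) h1A2 (hbigg A2 hM2c) hr ?_
    intro e g1 g2 g3 g4 g5 g6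
    obtain ⟨w1, w2⟩ := g1.exit (by omega) hM1 hw0 hw2 h18 g5 (by rw [g3]) g4
    exact ⟨ε₀, μ₀, G.size, le_rfl, le_rfl, Or.inl ⟨w1, bl_thin le_rfl hκa hw0 hw2 h1A0 hM1 hM2a e.size e rfl g1 G.size (by omega)
      (w2.imp_right fun w2 => ⟨true, g4, w2⟩)⟩⟩

end AESY
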