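import Pool.Agent.AESY.SpnB
import Pool.Agent.AESY.Pnd
import Pool.Agent.AESY.ThinB

/-!
# Branches with a spine, on codes
-/

set_option autoImplicit false

namespace AESY

open Finset AE15 AED AELT AEK AEJ AEW AEY AEN AET AESF
open scoped Classical

variable {b l K M A' κ₀ : ℕ} {θ ε μ θ₁ : ℝ}

/-! ### sorting -/

theorem inR_iff {j : ℕ} (F : Fd) : AEB.InR l j F ↔ ∀ q ∈ F.trees, (q.1 = true → AEB.InR l 0 q.2) ∧
    (q.1 = false → j + 1 ≤ l ∧ AEB.InR l (j + 1) q.2) := by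
  induction F with
  | nil => simp [AEB.InR, Fd.trees]
  | node d c s _ ihs =>
    simp only [AEB.InR, Fd.trees, List.mem_cons, forall_eq_or_imp, ihs]
    cases d <;> simp

theorem srt_mrr_inR (n : ℕ) : ∀ F : Fd, F.size = n → ∀ j, AEB.InR l j (mrr F) → AEB.InR l j (mrr (srt F)) := by
  induction n using Nat.strong_induction_on with
  | _ n ih =>
    intro F hF j h
    rw [inR_iff] at h ⊢
    intro q hq
    rw [mrr_trees, List.mem_map] at hq
    obtain ⟨q', hq', rfl⟩ := hq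
    rw [(srt_perm F).mem_iff, List.mem_map] at hq'
    obtain ⟨p, hp, rfl⟩ := hq'
    have h1 : p.2.size < F.size := AEB.size_lt_of_mem hp
    have h2 := h (!p.1, mrr p.2) (by rw [mrr_trees]; exact List.mem_map.2 ⟨p, hp, rfl⟩)
    exact ⟨fun e => ih p.2.size (by omega) p.2 rfl 0 (h2.1 e), fun e => ⟨(h2.2 e).1, ih p.2.size (by omega) p.2 rfl _ (h2.2 e).2⟩⟩

theorem RBq.srt {q : Bool × Fd} (h : RBq l q) : RBq l (q.1, srt q.2) := by
  have h1 : AESF.srt (.node q.1 q.2 .nil) = .node q.1 (AESF.srt q.2) .nil := rfl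
  refine ⟨?_, ?_⟩
  · have := srt_inR _ h.1
    rwa [h1] at this
  · have := srt_mrr_inR _ _ rfl 0 h.2
    rwa [h1] at this

theorem SP.srt {F : Fd} (h : SP l F) : SP l (srt F) := by
  induction h with
  | rb F h =>
    refine SP.rb _ fun q hq => ?_
    rw [(srt_perm F).mem_iff, List.mem_map] at hq
    obtain ⟨p, hp, rfl⟩ := hq
    exact (h p hp).srt
  | step F p L h1 h2 _ ih =>
    refine SP.step _ (p.1, AESF.srt p.2) (L.map (fun p => (p.1, AESF.srt p.2))) ?_ ?_ ih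
    · refine (srt_perm F).trans ?_
      exact h1.map _
    · intro q hq
      obtain ⟨p', hp', rfl⟩ := List.mem_map.1 hq
      exact (h2 p' hp').srt

/-! ### the first levels -/

theorem bp_of_rb {G : Fd} (hb : 1 ≤ b) (hG : OKc b G) (hG0 : 1 ≤ G.size) (hE : ∀ q ∈ G.trees, RBq l q) : BP b l G := by
  by_contra hBP
  have h4 : ∀ q ∈ G.trees, 4 * b * (q.2.size + 1) ≤ G.size := by
    intro q hq
    by_contra h
    exact hBP ⟨q, hq, hE q hq, by omega⟩
  have h5 : ∀ L : List (Bool × Fd), (∀ q ∈ L, 4 * b * (q.2.size + 1) ≤ G.size) →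
      4 * b * (L.map (fun q => q.2.size + 1)).sum ≤ L.length * G.size := by
    intro L
    induction L with
    | nil => simp
    | cons q L ih =>
      intro h
      simp only [List.map_cons, List.sum_cons, List.length_cons, add_mul, one_mul, mul_add]
      have h8 := ih fun q hq => h q (List.mem_cons_of_mem _ hq)
      have h9 := h q List.mem_cons_self
      simp only [mul_add] at h8 h9
      omega
  have h6 := h5 _ h4
  rw [← Fd.size_eq, ← Fd.len_eq] at h6
  have h7 : G.len * G.size ≤ b * G.size := Nat.mul_le_mul_right _ hG.2.1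
  have h9 : b * (4 * G.size) ≤ b * G.size := by
    refine le_trans (le_of_eq ?_) (h6.trans h7)
    ring
  have h10 := Nat.le_of_mul_le_mul_left h9 (by omega)
  omega

theorem pnd_inR (F : Fd) : ∀ {j : ℕ}, AEB.InR l j F → ∀ D ∈ pnd F, AEB.InR l 0 D := by
  induction F with
  | nil => intro j _ D hD; simp [pnd] at hD
  | node d c s ihc ihs =>
    intro j h D hD
    have h1 := h.1
    cases d with
    | true =>
      simp only [pnd, if_true, List.mem_cons] at hD h1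
      rcases hD with rfl | hD
      · exact h1
      · exact ihs h.2 D hD
    | false =>
      simp only [pnd, Bool.false_eq_true, if_false, List.mem_append] at hD h1
      rcases hD with hD | hD
      · exact ihc h1.2 D hD
      · exact ihs h.2 D hD

theorem pin_inR (F : Fd) : ∀ {j : ℕ}, AEB.InR l j F → ∀ D ∈ pin F, AEB.InR l 0 D := by
  induction F with
  | nil => intro j _ D hD; simp [pin] at hD
  | node d c s _ ihs =>
    intro j h D hD
    have h1 := h.1
    cases d with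
    | true =>
      simp only [pin, if_true] at hD
      exact ihs h.2 D hD
    | false =>
      simp only [pin, Bool.false_eq_true, if_false, List.mem_append] at hD h1
      rcases hD with hD | hD
      · exact pnd_inR c h1.2 D hD
      · exact ihs h.2 D hD

/-- small trees with bounded runs towards the root -/
def RS (b l : ℕ) (t : ℝ) (x : Fd) : Prop := AEB.InR l 0 x ∧ x.len ≤ b ∧ x.Deg b ∧ (x.size + 1 : ℝ) ≤ t

theorem inR_blk {x : Fd} (hb : 1 ≤ b) (h : AEB.InR l 0 x) (h1 : x.len ≤ b) (h2 : x.Deg b) : AEB.blk x ≤ Db b l := by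
  have h3 : AEB.FOK b l 0 x := ⟨h1, h2, h⟩
  have h4 := h3.blk_le (Nat.zero_le _)
  have h5 : AEB.ab b l ≤ Db b l := Nat.le_mul_of_pos_left _ (by omega)
  unfold AEB.ab at h5
  simp only [Nat.sub_zero] at h4
  omega

theorem RS.child {t : ℝ} {x : Fd} (h : RS b l t x) {q : Bool × Fd} (hq : q ∈ x.trees) : RS b l t q.2 := by
  have h1 := (Fd.deg_iff b x).1 h.2.2.1 q hq
  have h2 : q.2.size < x.size := AEB.size_lt_of_mem hq
  have h3 : ((q.2.size : ℝ) + 1) ≤ x.size + 1 := by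
    have : q.2.size + 1 ≤ x.size + 1 := by omega
    exact_mod_cast this
  exact ⟨inR_in (inR_tree h.1 hq), h1.1, h1.2, h3.trans h.2.2.2⟩

/-- a vertex of the first run, or a vertex of a small pendant -/
def NS (b l : ℕ) (t : ℝ) (F : Fd) : Prop := RS b l t F ∨ ∃ c s : Fd, F = .node true c s ∧ (∀ q ∈ s.trees, RS b l t q.2) ∧
  AEB.InR l 0 s ∧ s.len ≤ b ∧ s.Deg b

theorem NS.blk {t : ℝ} {F : Fd} (hb : 1 ≤ b) (h : NS b l t F) : AEB.blk F ≤ Db b l := by
  rcases h with h | ⟨c, s, rfl, -, h1, h2, h3⟩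
  · exact inR_blk hb h.1 h.2.1 h.2.2.1
  · have := inR_blk hb h1 h2 h3
    simpa [AEB.blk] using this

theorem NS.inn {t : ℝ} {F : Fd} (h : NS b l t F) {W : Fd} (hW : (false, W) ∈ F.trees) : (W.size + 1 : ℝ) ≤ t := by
  rcases h with h | ⟨c, s, rfl, h, -⟩
  · exact (h.child hW).2.2.2
  · simp only [Fd.trees, List.mem_cons, Prod.mk.injEq, Bool.false_eq_true, false_and, false_or] at hW
    exact (h _ hW).2.2.2

theorem NS.pin {t : ℝ} {F : Fd} (hb : 1 ≤ b) (h : NS b l t F) {W : Fd} (hW : W ∈ pin F) : AEB.blk W ≤ Db b l := by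
  rcases h with h | ⟨c, s, rfl, -, h1, h2, h3⟩
  · have h4 := pin_deg h.2.2.1 W hW
    exact inR_blk hb (pin_inR F h.1 W hW) h4.1 h4.2
  · simp only [AESY.pin, if_true] at hW
    have h4 := pin_deg h3 W hW
    exact inR_blk hb (pin_inR s h1 W hW) h4.1 h4.2

theorem RS.pnd {t : ℝ} {F : Fd} (hb : 1 ≤ b) (h : RS b l t F) {W : Fd} (hW : W ∈ pnd F) : AEB.blk W ≤ Db b l := by
  have h4 := pnd_deg h.2.2.1 W hW
  exact inR_blk hb (pnd_inR F h.1 W hW) h4.1 h4.2

theorem NS.out {t : ℝ} {F : Fd} (h : NS b l t F) {W : Fd} (hW : W ∈ outs F) : RS b l t W ∨ ∃ s, F = .node true W s := by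
  rcases h with h | ⟨c, s, rfl, h, -⟩
  · exact Or.inl (h.child (mem_outs.1 hW))
  · simp only [outs, if_true, List.mem_cons] at hW
    rcases hW with rfl | hW
    · exact Or.inr ⟨s, rfl⟩
    · exact Or.inl (h _ (mem_outs.1 hW))

/-- the first vertices of a long run with small pendants -/
theorem clnY_sp {t : ℝ} {c₁ c₂ c₃ s₀ s₁ s₂ : Fd} (hb : 1 ≤ b) (n0 : NS b l t (.node true c₁ s₀)) (h1 : c₁ = .node true c₂ s₁)
    (n1 : NS b l t c₁) (h2 : c₂ = .node true c₃ s₂) (n2 : NS b l t c₂) (h3 : AEB.blk c₃ ≤ Db b l)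
    (h2s : AEB.InR l 0 s₂ ∧ s₂.Deg b)
    (hK : K * (Db b l + 1) ≤ (Fd.node true c₁ s₀).size + 1) : ClnY (Db b l) K t (.node true c₁ s₀) := by
  have m1 : ∀ c ∈ outs (.node true c₁ s₀), NS b l t c ∧ (c = c₁ ∨ RS b l t c) := by
    intro c hc
    rcases n0.out hc with h | ⟨s, h⟩
    · exact ⟨Or.inl h, Or.inr h⟩
    · simp only [Fd.node.injEq, true_and] at h
      rw [← h.1]
      exact ⟨n1, Or.inl rfl⟩
  have m2 : ∀ c ∈ outs (.node true c₁ s₀), ∀ c' ∈ outs c, NS b l t c' ∧ (c' = c₂ ∨ RS b l t c') := by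
    intro c hc c' hc'
    obtain ⟨h4, h5⟩ := m1 c hc
    rcases h5 with rfl | h5
    · rcases h4.out hc' with h | ⟨s, h⟩
      · exact ⟨Or.inl h, Or.inr h⟩
      · rw [h1] at h
        simp only [Fd.node.injEq, true_and] at h
        rw [← h.1]
        exact ⟨n2, Or.inl rfl⟩
    · have h6 := h5.child (mem_outs.1 hc')
      exact ⟨Or.inl h6, Or.inr h6⟩
  have hB : ∀ W : Fd, AEB.blk W ≤ Db b l → K * (AEB.blk W + 1) ≤ (Fd.node true c₁ s₀).size + 1 := fun W hW =>
    (Nat.mul_le_mul_left _ (by omega)).trans hK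
  refine ⟨⟨fun W hW => n0.inn hW, fun c hc W hW => (m1 c hc).1.inn hW,
    fun c hc c' hc' W hW => (m2 c hc c' hc').1.inn hW⟩, n0.blk hb, fun c hc => (m1 c hc).1.blk hb,
    fun c hc c' hc' => (m2 c hc c' hc').1.blk hb, fun W hW => hB W (n0.pin hb hW), fun c hc W hW => hB W ((m1 c hc).1.pin hb hW), ?_⟩
  intro c hc c' hc' W hW
  refine hB W ?_
  rcases (m2 c hc c' hc').2 with rfl | h
  · rw [h2] at hW
    simp only [pnd, if_true, List.mem_cons] at hW
    rcases hW with rfl | hW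
    · exact h3
    · have h4 := pnd_deg h2s.2 W hW
      exact inR_blk hb (pnd_inR s₂ h2s.1 W hW) h4.1 h4.2
  · exact h.pnd hb hW

/-- one step along the first run -/
theorem lev {F G' : Fd} {r : ℕ} (hb : 1 ≤ b) (hF : OKc b F) (hR : Rn l true r F G') (hlt : G'.size < F.size)
    (hnb : ¬ BP b l F) : ∃ (c s : Fd) (r' : ℕ), F = .node true c s ∧ (∀ q ∈ s.trees, RBq l q) ∧ Rn l true r' c G' ∧
      OKc b c ∧ 3 * F.size ≤ 4 * c.size + 5 ∧ Rn l true 1 F c := by
  cases hR with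
  | zero => omega
  | step _ c _ L r' g1 g2 g3 =>
    have h1 := nbp_size hF g1 g2 hnb
    obtain ⟨s, rfl, hs⟩ := nbp_first hb hF g1 g2 hnb
    exact ⟨c, s, r', rfl, fun q hq => g2 q (hs.mem_iff.1 hq), g3, hF.mem (g1.mem_iff.2 List.mem_cons_self), h1,
      Rn.step _ c c L 0 g1 g2 (Rn.zero c)⟩

theorem ns_of {t : ℝ} {F c s : Fd} (hF : OKc b F) (he : F = .node true c s) (h : ∀ q ∈ s.trees, RBq l q)
    (ht : ∀ q ∈ s.trees, (q.2.size + 1 : ℝ) ≤ t) : NS b l t F := by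
  subst he
  have h1 : ∀ q ∈ s.trees, OKc b q.2 := fun q hq => hF.mem (by simp only [Fd.trees, List.mem_cons]; exact Or.inr hq)
  refine Or.inr ⟨c, s, rfl, fun q hq => ⟨(h q hq).inn, (h1 q hq).2.1, (h1 q hq).2.2, ht q hq⟩, inR_of_rb h, ?_, hF.2.2.2.2⟩
  have := hF.2.1
  simp only [Fd.len] at this
  omega

/-- **the first run leads away from the root**: the first levels, or a branch with bounded runs of linear size -/
theorem first_levels {G G' : Fd} {r A : ℕ} {t t' : ℝ} (hb : 1 ≤ b) (hG : OKc b G) (hR : Rn l true (r + 1) G G')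
    (hρ : 8 * (G'.size + 1) ≤ G.size + 1) (hG15 : 15 ≤ G.size) (hA : 512 ≤ A)
    (hnb : ∀ c r₁, Rn l true r₁ G c → BP b l c → (A + 2) * (c.size + 1) < G.size + 1) (ht : t' ≤ t)
    (hK : K * (Db b l + 1) ≤ G.size + 1) : ClnY (Db b l) K t G ∨
      ∃ (F q : Fd) (e : Bool), OKc b F ∧ (e, q) ∈ F.trees ∧ RBq l (e, q) ∧ (F = G ∨ ∃ m, AESK.PtT 0 (true, G) (true, F) m) ∧
        F.size ≤ G.size ∧ t' < (q.size + 1 : ℝ) := by
  have hAx : ∀ x : ℕ, 514 * x ≤ (A + 2) * x := fun x => Nat.mul_le_mul_right _ (by omega)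
  have hG0 : ¬ BP b l G := fun h => by
    have h1 := hnb G 0 (Rn.zero G) h
    have := hAx (G.size + 1)
    omega
  obtain ⟨c₁, s₀, r₁, e₀, b₀, R₁, o₁, z₁, q₁⟩ := lev hb hG hR (by omega) hG0
  have h1 : ¬ BP b l c₁ := fun h => by
    have h1 := hnb c₁ 1 q₁ h
    have := hAx (c₁.size + 1)
    omega
  obtain ⟨c₂, s₁, r₂, e₁, b₁, R₂, o₂, z₂, q₂⟩ := lev hb o₁ R₁ (by omega) h1
  have q₂' : Rn l true 2 G c₂ := q₁.trans q₂
  have h2 : ¬ BP b l c₂ := fun h => by
    have h1 := hnb c₂ 2 q₂' h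
    have := hAx (c₂.size + 1)
    omega
  obtain ⟨c₃, s₂, r₃, e₂, b₂, R₃, o₃, z₃, q₃⟩ := lev hb o₂ R₂ (by omega) h2
  have h3 : AEB.blk c₃ ≤ Db b l := by
    have h4 : 1 ≤ r₃ := by
      rcases Nat.eq_zero_or_pos r₃ with h | h
      · subst h
        cases R₃ with
        | zero => omega
      · exact h
    have := R₃.opp h4 hb o₃
    simpa [clo] using this
  have m0 : ∀ {c s : Fd}, ∀ q ∈ s.trees, q ∈ (Fd.node true c s).trees := fun q hq => by
    simp only [Fd.trees, List.mem_cons]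
    exact Or.inr hq
  by_cases t0 : ∀ q ∈ s₀.trees, (q.2.size + 1 : ℝ) ≤ t'
  · by_cases t1 : ∀ q ∈ s₁.trees, (q.2.size + 1 : ℝ) ≤ t'
    · by_cases t2 : ∀ q ∈ s₂.trees, (q.2.size + 1 : ℝ) ≤ t'
      · left
        have n0 := ns_of (t := t) hG e₀ b₀ fun q hq => (t0 q hq).trans ht
        have n1 := ns_of (t := t) o₁ e₁ b₁ fun q hq => (t1 q hq).trans ht
        have n2 := ns_of (t := t) o₂ e₂ b₂ fun q hq => (t2 q hq).trans ht
        have d2 : s₂.Deg b := by
          have := o₂.2.2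
          rw [e₂] at this
          exact this.2.2
        rw [e₀] at n0 hK ⊢
        exact clnY_sp hb n0 e₁ n1 e₂ n2 h3 ⟨inR_of_rb b₂, d2⟩ hK
      · right
        push Not at t2
        obtain ⟨⟨e, q⟩, hq, h5⟩ := t2
        have h6 := q₂'.ptT (by omega) true
        have h7 := q₂'.size
        exact ⟨c₂, q, e, o₂, by rw [e₂]; exact m0 _ hq, b₂ _ hq, Or.inr h6, by omega, h5⟩
    · right
      push Not at t1
      obtain ⟨⟨e, q⟩, hq, h5⟩ := t1
      have h6 := q₁.ptT (by omega) true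
      have h7 := q₁.size
      exact ⟨c₁, q, e, o₁, by rw [e₁]; exact m0 _ hq, b₁ _ hq, Or.inr h6, by omega, h5⟩
  · right
    push Not at t0
    obtain ⟨⟨e, q⟩, hq, h5⟩ := t0
    exact ⟨G, q, e, hG, by rw [e₀]; exact m0 _ hq, b₀ _ hq, Or.inl rfl, le_rfl, h5⟩

/-! ### the composition on codes -/

/-- the statement for coded trees: a branch with a spine at the root, which hangs by an arc away from the root -/
def SpnSt : Prop := ∀ b l : ℕ, 1 ≤ b → ∀ θ : ℝ, 0 < θ → ∃ C : ℕ, ∀ {V : Type} {R : V → V → Prop}, AE32.Tour R →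
  ∀ c F : Fd, c.len ≤ b → c.Deg b → (true, F) ∈ c.trees → SP l F → θ * (c.size + 1) ≤ (F.size + 1 : ℝ) →
    ∀ X : Finset V, c.size + 1 + C ≤ X.card → In R c (fun _ => True) X

/-- a branch with bounded runs of linear size at one of the first vertices of the spine -/
theorem rig_small {G F q : Fd} {e : Bool} {s : Fd} {t : ℝ} (hb : 1 ≤ b) (hF : OKc b F) (hq : (e, q) ∈ F.trees) (hrb : RBq l (e, q))
    (hFG : F = G ∨ ∃ m, AESK.PtT 0 (true, G) (true, F) m) (hFs : F.size ≤ G.size) (hθ : 0 < θ)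
    (ht : t < (q.size + 1 : ℝ)) (ht1 : 2 * θ * (G.size + 1) + AEB.ab b l ≤ t) (ht2 : θ * ((Fd.node true G s).size + 1) ≤ t)
    {n : ℕ} : BlN θ ε μ M (Rgn b l K A' θ ε μ M (n + 1)) (EndP θ ε M) (.node true G s) := by
  have hqF : q.size < F.size := AEB.size_lt_of_mem hq
  have h3 := clo_two (List.perm_cons_erase hq)
  have h4 := rb_clq hrb hb (hF.mem hq).2.1 (hF.mem hq).2.2 e
  have h5 : clq e (e, q) = clo e q + 1 := by simp [clq]
  have h0 := clo_le e q
  have e1 : (q.size : ℝ) + 1 ≤ F.size + 1 := by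
    have : q.size + 1 ≤ F.size + 1 := by omega
    exact_mod_cast this
  have e2 : (F.size : ℝ) + 1 ≤ G.size + 1 := by
    have : F.size + 1 ≤ G.size + 1 := by omega
    exact_mod_cast this
  have e3 : θ * (F.size + 1) ≤ θ * (G.size + 1) := mul_le_mul_of_nonneg_left e2 hθ.le
  have e4 : 0 ≤ θ * ((G.size : ℝ) + 1) := by positivity
  have hP : ∃ m, AESK.PtT 0 (true, Fd.node true G s) (true, F) m := by
    have h1 : AESK.PtT 0 (true, Fd.node true G s) (true, G) _ := AESK.PtT.step (true, Fd.node true G s) (true, G) 0 AESK.PtT.refl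
      (by simp [Fd.trees]) (Nat.zero_le _)
    rcases hFG with rfl | ⟨m, hm⟩
    · exact ⟨_, h1⟩
    · exact ⟨_, h1.trans hm⟩
  obtain ⟨m, hm⟩ := hP
  have hGs : G.size < (Fd.node true G s).size := AEB.size_lt_of_mem (p := (true, G)) (by simp [Fd.trees])
  refine BlN.step _ true (true, F) m hm (by simp only; omega) (by simp only; linarith only [ht, ht2, e1]) ?_ ?_
  · simp only
    have e5 : (dcl F : ℝ) + AEB.blk F + (q.size + 1) ≤ F.size + AEB.ab b l := by
      have : dcl F + AEB.blk F + (q.size + 1) ≤ F.size + AEB.ab b l := by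
        simp only at h3
        omega
      exact_mod_cast this
    linarith only [ht, ht1, e3, e4, e5]
  · refine BlN.rig F (e, q) _ hq (rb_rg hrb (hF.mem hq) n) ?_
    simp only
    have e7 : ((q.size - clo e q : ℕ) : ℝ) = q.size - clo e q := by rw [Nat.cast_sub h0]
    have e8 : (clo e q : ℝ) + 1 ≤ AEB.ab b l := by
      have : clo e q + 1 ≤ AEB.ab b l := by omega
      exact_mod_cast this
    rw [e7]
    linarith only [ht, ht1, e3, e4, e8]

/-- **branches with a spine, on codes** -/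
theorem spn_of (h : SFXYSt) : SpnSt := by
  intro b l hb θ hθ
  obtain ⟨A₀, hA⟩ := h b l hb
  obtain ⟨A₁, hM⟩ := AEN.mainSt b l hb
  obtain ⟨A2, hA2⟩ : ∃ A2 : ℕ, A2 = (2 * b) ^ (2 * l + 9) := ⟨_, rfl⟩
  obtain ⟨As, hAs⟩ : ∃ As : ℕ, As = A₀ + A₁ + A2 := ⟨_, rfl⟩
  have hb' : (1 : ℝ) ≤ b := by exact_mod_cast hb
  have hAs0 : (0 : ℝ) ≤ As := Nat.cast_nonneg _
  have hD0 : (0 : ℝ) ≤ Db b l := Nat.cast_nonneg _
  have hab0 : (0 : ℝ) ≤ AEB.ab b l := Nat.cast_nonneg _
  -- the windows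
  obtain ⟨t, ht⟩ : ∃ t : ℝ, t = 1 / (8 * (As + 1)) := ⟨_, rfl⟩
  have ht0 : 0 < t := by rw [ht]; positivity
  have hte : 8 * ((As : ℝ) + 1) * t = 1 := by
    rw [ht]
    field_simp
  obtain ⟨θ₁, hθ₁⟩ : ∃ s : ℝ, s = min θ t := ⟨_, rfl⟩
  have h10 : 0 < θ₁ := by rw [hθ₁]; exact lt_min hθ ht0
  have h1a : θ₁ ≤ θ := by rw [hθ₁]; exact min_le_left _ _
  have h1t : θ₁ ≤ t := by rw [hθ₁]; exact min_le_right _ _
  have hall : ∀ A : ℝ, 0 ≤ A → A ≤ As → 8 * (A + 1) * θ₁ ≤ 1 := by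
    intro A hA hA3
    rw [← hte]
    exact mul_le_mul (by linarith only [hte, hA3]) h1t h10.le (by positivity)
  have hA0s : (A₀ : ℝ) ≤ As := by
    have : A₀ ≤ As := by omega
    exact_mod_cast this
  have hA1s : (A₁ : ℝ) ≤ As := by
    have : A₁ ≤ As := by omega
    exact_mod_cast this
  have hA2s : (A2 : ℝ) ≤ As := by
    have : A2 ≤ As := by omega
    exact_mod_cast this
  have h1A0 := hall A₀ (Nat.cast_nonneg _) hA0s
  have h1A1 := hall A₁ (Nat.cast_nonneg _) hA1s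
  have h1A2 := hall A2 (Nat.cast_nonneg _) hA2s
  have h18 : θ₁ ≤ 1 / 8 := by
    have := hall 0 le_rfl hAs0
    linarith only [this]
  obtain ⟨θw, hθw⟩ : ∃ s : ℝ, s = θ₁ / (8 * b * (As + 2)) := ⟨_, rfl⟩
  have hw0 : 0 < θw := by rw [hθw]; positivity
  have hwe : 8 * b * ((As : ℝ) + 2) * θw = θ₁ := by
    rw [hθw]
    field_simp
  have hwAs : ((As : ℝ) + 2) * θw ≤ θ₁ := by
    rw [← hwe]
    have : 1 * (((As : ℝ) + 2) * θw) ≤ (8 * b) * ((As + 2) * θw) := mul_le_mul_of_nonneg_right (by linarith only [hb', h10, h18]) (by positivity)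
    linarith
  have hwA : ∀ A : ℝ, A ≤ As → (A + 2) * θw ≤ θ₁ := by
    intro A hA
    exact (mul_le_mul_of_nonneg_right (by linarith) hw0.le).trans hwAs
  have hwb : 8 * b * θw ≤ 1 := by
    have : 8 * b * θw * 1 ≤ 8 * b * θw * (As + 2) := mul_le_mul_of_nonneg_left (by linarith) (by positivity)
    linarith only [h10, h18, hwe, this]
  have h2w : 2 * θw ≤ θ₁ := by
    have := mul_nonneg hAs0 hw0.le
    linarith
  have hw1 : θw ≤ 1 / 2 := by linarith
  obtain ⟨ε₀, μ₀, ε, K₀, -, -, hε, hA⟩ := hA A₀ le_rfl θw hw0 hw1 (Db b l) θ hθ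
  have hA := hA ε₀ μ₀ le_rfl le_rfl K₀ le_rfl
  obtain ⟨ε₂, μ₂, K₂, -, -, hM2⟩ := hM θw hw0 hw1
  -- the small window
  obtain ⟨ε', hε'⟩ : ∃ s : ℝ, s = min ε 1 := ⟨_, rfl⟩
  have he0 : 0 < ε' := by rw [hε']; exact lt_min hε one_pos
  have he1 : ε' ≤ ε := by rw [hε']; exact min_le_left _ _
  have he2 : ε' ≤ 1 := by rw [hε']; exact min_le_right _ _
  obtain ⟨θv, hθv⟩ : ∃ s : ℝ, s = ε' * θ₁ / 4 := ⟨_, rfl⟩
  have hv0 : 0 < θv := by rw [hθv]; positivity
  have hv1 : 4 * θv ≤ ε' := by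
    rw [hθv]
    have : ε' * θ₁ ≤ ε' * 1 := mul_le_mul_of_nonneg_left (by linarith only [h18, hw0, h2w]) he0.le
    linarith only [this]
  have hv2 : θv ≤ ε' * θ := by
    rw [hθv]
    have : ε' * θ₁ ≤ ε' * θ := mul_le_mul_of_nonneg_left h1a he0.le
    have : 0 ≤ ε' * θ₁ := by positivity
    linarith
  have hv3 : θv ≤ 1 / 2 := by linarith only [h18, hw0, h2w, he2, hv1]
  obtain ⟨ε₃, μ₃, K₃, -, -, hM3⟩ := hM θv hv0 hv3
  obtain ⟨C₃, hM3⟩ := hM3 0
  -- the constants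
  obtain ⟨κ₀, hκ₀⟩ : ∃ κ₀ : ℕ, κ₀ = (K₀ + K₂) * (Db b l + 1) + 8 * Db b l + 8 := ⟨_, rfl⟩
  have hκa : K₀ * (Db b l + 1) + 8 * Db b l + 8 ≤ κ₀ := by rw [hκ₀, add_mul]; omega
  have hκb : K₂ * (Db b l + 1) + 8 * Db b l + 8 ≤ κ₀ := by rw [hκ₀, add_mul]; omega
  obtain ⟨M, hMa, hMb⟩ := exists_bigM (θ := θw)
    (B := 4 * (As + 1) * (κ₀ + 1) + 16 * b * (AEB.ab b l + 1) + 2 * AEB.ab b l / ε') hw0 (3 * κ₀ + 1 + 8 * b * AEB.ab b l)
  have hκ0 : (0 : ℝ) ≤ κ₀ := Nat.cast_nonneg _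
  have hDε : 0 ≤ 2 * (AEB.ab b l : ℝ) / ε' := by (clear * - he0; positivity)
  have hba : 0 ≤ 16 * b * ((AEB.ab b l : ℝ) + 1) := by positivity
  have hM2g : ∀ A : ℝ, A ≤ As → 4 * (A + 1) * (κ₀ + 1) + 16 * b * (AEB.ab b l + 1) ≤ θw * (θw * M) := by
    intro A hA3
    refine le_trans ?_ hMb
    have : 4 * (A + 1) * (κ₀ + 1) ≤ 4 * (As + 1) * (κ₀ + 1) := by
      refine mul_le_mul_of_nonneg_right ?_ (by positivity)
      linarith only [hA3]
    linarith only [hDε, this]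
  have hM2a := hM2g A₀ hA0s
  have hM2b := hM2g A₁ hA1s
  have hM2c := hM2g A2 hA2s
  obtain ⟨C₁, hA⟩ := hA M
  obtain ⟨C₂, hM2⟩ := hM2 M
  refine ⟨C₁ + C₂ + C₃, ?_⟩
  intro V R hT c F hl hdeg hF hSP hθF X hX
  -- the sorted branch
  have hFs : (srt F).size = F.size := (srt_eqt F).size
  obtain ⟨s, hs⟩ := AER.eqt_first hF
  have he : Eqt c (.node true (srt F) s) := hs.trans ((srt_eqt F).node true s)
  have hsz := he.size
  have hlen' : (Fd.node true (srt F) s).len ≤ b := by rw [he.len]; exact hl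
  have hdeg' : (Fd.node true (srt F) s).Deg b := he.deg b hdeg
  have hSP' : SP l (srt F) := hSP.srt
  have hOK : OKc b (srt F) := ⟨srt_sd F, hdeg'.1, hdeg'.2.1⟩
  suffices h : In R (.node true (srt F) s) (fun _ => True) X by
    obtain ⟨x, hx, A, hA, hxA, hN, hE⟩ := h
    exact ⟨x, hx, A, hA, hxA, trivial, he.emb hE⟩
  obtain ⟨G, hG⟩ : ∃ G, G = srt F := ⟨_, rfl⟩
  rw [← hG] at hFs hsz hlen' hdeg' hSP' hOK ⊢
  have hmem : (true, G) ∈ (Fd.node true G s).trees := by simp [Fd.trees]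
  rw [← hsz] at hX hθF
  rw [← hFs] at hθF
  have hθ1' : θ₁ * ((Fd.node true G s).size + 1) ≤ (G.size : ℝ) + 1 :=
    le_trans (mul_le_mul_of_nonneg_right h1a (by positivity)) hθF
  have hθw' : θw * ((Fd.node true G s).size + 1) ≤ (G.size : ℝ) + 1 :=
    le_trans (mul_le_mul_of_nonneg_right (by linarith only [hw0, h2w]) (by positivity)) hθ1'
  have done : BlN θw ε₂ μ₂ M (Rgn b l K₂ A₁ θw ε₂ μ₂ M (G.size + 1)) (EndP θw ε₂ M) (.node true G s) →
      In R (.node true G s) (fun _ => True) X := fun h =>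
    (hM2 hT le_rfl le_rfl (G.size + 1)).1 _ hlen' hdeg' h X (by omega)
  have done3 : BlN θv ε₃ μ₃ 0 (Rgn b l K₃ A₁ θv ε₃ μ₃ 0 (0 + 1)) (EndP θv ε₃ 0) (.node true G s) →
      In R (.node true G s) (fun _ => True) X := fun h =>
    (hM3 hT le_rfl le_rfl (0 + 1)).1 _ hlen' hdeg' h X (by omega)
  by_cases hcM : (Fd.node true G s).size + 1 ≤ M
  · exact done (BlN.small _ hcM)
  have hcM' : (M : ℝ) ≤ (Fd.node true G s).size + 1 := by
    have : M ≤ (Fd.node true G s).size + 1 := by omega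
    exact_mod_cast this
  have hGM : θw * M ≤ (G.size : ℝ) + 1 := (mul_le_mul_of_nonneg_left hcM' hw0.le).trans hθw'
  have hGθ : θw * (θw * M) ≤ θw * (G.size + 1) := mul_le_mul_of_nonneg_left hGM hw0.le
  have hθG : θw * (G.size + 1) ≤ 1 / 16 * (G.size + 1) := mul_le_mul_of_nonneg_right (by linarith only [h18, h2w]) (by positivity)
  have hG1 : (0 : ℝ) ≤ (G.size : ℝ) + 1 := by positivity
  have hbigg : ∀ A : ℕ, 4 * ((A : ℝ) + 1) * (κ₀ + 1) + 16 * b * (AEB.ab b l + 1) ≤ θw * (θw * M) →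
      4 * (A + 1) * (κ₀ + 1) ≤ G.size + 1 := by
    intro A hA
    have : (4 * (A + 1) * (κ₀ + 1) : ℝ) ≤ G.size + 1 := by linarith only [h18, hw0, h2w, hba, hGθ, hθG, hA]
    exact_mod_cast this
  have hG16 : (16 : ℝ) * b * (AEB.ab b l + 1) ≤ G.size + 1 := by
    have : 0 ≤ 4 * ((A₀ : ℝ) + 1) * (κ₀ + 1) := by (clear * -; positivity)
    linarith only [h18, hw0, h2w, hM2a, hGθ, hθG, this]
  have hG8 : (8 : ℝ) * b * AEB.ab b l ≤ G.size + 1 := by
    have : (8 : ℝ) * b * AEB.ab b l ≤ 16 * b * (AEB.ab b l + 1) := by nlinarith only [hb', h18, hw0, h2w, hba]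
    linarith only [hb', h18, hw0, h2w, hG16]
  have hGε : 2 * (AEB.ab b l : ℝ) ≤ ε' * (G.size + 1) := by
    have e5 : 0 ≤ 4 * ((As : ℝ) + 1) * (κ₀ + 1) := by (clear * -; positivity)
    have e6 : 2 * (AEB.ab b l : ℝ) / ε' ≤ G.size + 1 := by linarith only [h18, hw0, h2w, hMb, hba, hGθ, hθG, e5]
    rw [div_le_iff₀ he0] at e6
    linarith only [e6]
  have hGD : (16 : ℝ) * Db b l + 16 ≤ G.size + 1 := by
    have : (Db b l : ℝ) = b * AEB.ab b l := by simp [Db]
    rw [this]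
    nlinarith only [hb', hG16]
  have h1As : As + 1 ≤ G.size + 1 := by
    have h1 : (As + 1) * 1 ≤ 4 * (As + 1) * (κ₀ + 1) := Nat.mul_le_mul (by omega) (by omega)
    have h2 : (4 * (As + 1) * (κ₀ + 1) : ℝ) ≤ G.size + 1 := by linarith only [h18, hw0, h2w, hMb, hDε, hba, hGθ, hθG, hGD]
    have h3 : 4 * (As + 1) * (κ₀ + 1) ≤ G.size + 1 := by exact_mod_cast h2
    omega
  have hGbig0 := hbigg A₀ hM2a
  have hGbig1 := hbigg A₁ hM2b
  have hGbig2 := hbigg A2 hM2c
  have hlt : G.size < (Fd.node true G s).size := AEB.size_lt_of_mem hmem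
  have hGp : 1 ≤ G.size := by
    have : (16 : ℝ) ≤ G.size + 1 := by linarith only [hGD]
    have : 16 ≤ G.size + 1 := by exact_mod_cast this
    omega
  have hP1 : AESK.PtT 0 (true, Fd.node true G s) (true, G) _ := AESK.PtT.step (true, Fd.node true G s) (true, G) 0
    AESK.PtT.refl hmem (Nat.zero_le _)
  -- a vertex of the spine with a large branch with bounded runs
  have step_bp : ∀ c : Fd, OKc b c → BP b l c → c.size ≤ G.size → θw * ((Fd.node true G s).size + 1) ≤ (c.size : ℝ) + 1 →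
      8 * b * AEB.ab b l ≤ c.size + 1 →
      (∃ d' m', AESK.PtT 0 (true, Fd.node true G s) (d', c) m') → In R (.node true G s) (fun _ => True) X := by
    rintro c hc h1 h2 h3 h4 ⟨d', m', hP⟩
    exact done (BlN.step _ true (d', c) m' hP (by simp only; omega) h3 (h1.win hb hwb hc h4) (h1.bl hb hwb (by omega) hc (by omega)))
  rcases hSP' with ⟨_, hrb⟩ | ⟨_, ⟨d, c⟩, L, g1, g2, g3⟩
  · exact step_bp G hOK (bp_of_rb hb hOK hGp hrb) le_rfl hθw' (by exact_mod_cast hG8) ⟨_, _, hP1⟩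
  obtain ⟨r, G', k1, hE⟩ := g3.run d
  simp only at k1
  have hR : Rn l d (r + 1) G G' := Rn.step G c G' L r g1 g2 k1
  by_cases hbad : ∃ c r₁, Rn l d r₁ G c ∧ BP b l c ∧ G.size + 1 ≤ (As + 2) * (c.size + 1)
  · obtain ⟨c, r₁, j1, j2, j3⟩ := hbad
    have hcs := j1.size
    have e0 : ((G.size : ℝ) + 1) ≤ (As + 2) * (c.size + 1) := by exact_mod_cast j3
    have e1 : ((As : ℝ) + 2) * (θw * ((Fd.node true G s).size + 1)) ≤ (As + 2) * (c.size + 1) := by
      have : ((As : ℝ) + 2) * θw * ((Fd.node true G s).size + 1) ≤ θ₁ * ((Fd.node true G s).size + 1) :=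
        mul_le_mul_of_nonneg_right hwAs (by (clear * -; positivity))
      linarith only [hθ1', e0, this]
    have e2 : θw * ((Fd.node true G s).size + 1) ≤ (c.size : ℝ) + 1 := le_of_mul_le_mul_left e1 (by positivity)
    refine step_bp c (j1.ok hOK) j2 (by omega) e2 ?_ ?_
    · have e3 : θw * M ≤ θw * ((Fd.node true G s).size + 1) := mul_le_mul_of_nonneg_left hcM' hw0.le
      have e4 : θw * (θw * M) ≤ 1 * (θw * M) := mul_le_mul_of_nonneg_right (by linarith only [h18, hw0, h2w]) (by (clear * - hw0; positivity))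
      have e5 : (8 : ℝ) * b * AEB.ab b l ≤ 16 * b * (AEB.ab b l + 1) := by nlinarith only [hb', h18, hw0, h2w, hba]
      have e6 : 0 ≤ 4 * ((A₀ : ℝ) + 1) * (κ₀ + 1) := by (clear * -; positivity)
      have e7 : (8 : ℝ) * b * AEB.ab b l ≤ c.size + 1 := by linarith only [hb', h18, hw0, h2w, hM2a, e2, e3, e4, e6]
      exact_mod_cast e7
    · rcases Nat.eq_zero_or_pos r₁ with h0 | h0
      · subst h0
        cases j1 with
        | zero => exact ⟨_, _, hP1⟩
      · obtain ⟨m', hm'⟩ := j1.ptT h0 true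
        exact ⟨_, _, hP1.trans hm'⟩
  push Not at hbad
  have hnb : ∀ A : ℕ, A ≤ As → ∀ c r₁, Rn l d r₁ G c → BP b l c → (A + 2) * (c.size + 1) < G.size + 1 := fun A hA c r₁ j1 j2 =>
    lt_of_le_of_lt (Nat.mul_le_mul_right _ (by omega)) (hbad c r₁ j1 j2)
  by_cases hr : θ₁ * (G.size + 1) ≤ (G'.size : ℝ) + 1
  · -- a large rest
    refine done (BlN.step _ true (true, G) _ hP1 hlt hθw' ?_ ?_)
    · simp only
      have e1 := hR.both (by omega) hE hb hOK
      have e2 : (dcl G : ℝ) + AEB.blk G + G'.size ≤ G.size + 2 * Db b l := by exact_mod_cast e1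
      have e3 : 2 * θw * (G.size + 1) ≤ θ₁ * (G.size + 1) := mul_le_mul_of_nonneg_right h2w (by positivity)
      have e4 : 4 * ((A₀ : ℝ) + 1) * (κ₀ + 1) + 16 * b * (AEB.ab b l + 1) ≤ θw * (G.size + 1) := hM2a.trans hGθ
      have e5 : 0 ≤ 4 * ((A₀ : ℝ) + 1) * (κ₀ + 1) := by (clear * -; positivity)
      have e6 : (16 : ℝ) * Db b l + 16 ≤ 16 * b * (AEB.ab b l + 1) := by
        have : (Db b l : ℝ) = b * AEB.ab b l := by simp [Db]
        rw [this]
        nlinarith only [hb']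
      linarith only [h18, hw0, h2w, hM2a, hGθ, hr, e2, e3, e5, e6]
    · exact bl_sp hb hκb hw0 (hwA A₁ hA1s) h1A1 hwb (by omega) (by omega) hM2b G.size G rfl hOK _ (by omega) (by omega)
        (Or.inr (Or.inr ⟨d, r, G', hR, hE, hr⟩))
  push Not at hr
  cases d with
  | false =>
    -- the first run leads towards the root
    have hrig : Rgn b l K₂ A₁ θw ε₂ μ₂ M (G.size + 1) (true, G) (G.size - clo true G) := by
      refine rig_sp (r := r) (G' := G') hb hκb h2w h1A1 hwb (by omega) (by omega) true hOK hR hE hGbig1 hr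
        (fun c r₁ j1 j2 => hnb A₁ (by omega) c r₁ j1 j2) ?_
      intro e j1 j2 j3
      exact bl_sp hb hκb hw0 (hwA A₁ hA1s) h1A1 hwb (by omega) (by omega) hM2b e.size e rfl j2 _ (by omega) hGp j3
    refine done (BlN.rig _ (true, G) _ hmem hrig ?_)
    have h1 := clo_le true G
    have h2 := hR.opp (by omega) hb hOK
    rw [Bool.not_false] at h2
    have e1 : ((G.size - clo true G : ℕ) : ℝ) = G.size - clo true G := by rw [Nat.cast_sub h1]
    have e2 : (clo true G : ℝ) ≤ Db b l := by exact_mod_cast h2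
    have e3 : 2 * θw * ((Fd.node true G s).size + 1) ≤ θ₁ * ((Fd.node true G s).size + 1) :=
      mul_le_mul_of_nonneg_right h2w (by (clear * -; positivity))
    rw [e1]
    linarith only [h18, hw0, h2w, hθ1', hGD, e2, e3]
  | true =>
    -- the first run leads away from the root
    have hA2' : 512 ≤ A2 := by
      rw [hA2]
      calc 512 = 2 ^ 9 := by norm_num
        _ ≤ (2 * b) ^ 9 := Nat.pow_le_pow_left (by omega) 9
        _ ≤ (2 * b) ^ (2 * l + 9) := Nat.pow_le_pow_right (by omega) (by omega)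
    have hρ8 : 8 * (G'.size + 1) ≤ G.size + 1 := by
      have e1 : θ₁ * (G.size + 1) ≤ 1 / 8 * (G.size + 1) := mul_le_mul_of_nonneg_right h18 hG1
      have e2 : (8 : ℝ) * (G'.size + 1) ≤ G.size + 1 := by linarith only [hr, e1]
      exact_mod_cast e2
    have hG15 : 15 ≤ G.size := by
      have : (16 : ℝ) ≤ G.size + 1 := by linarith only [hGD]
      have : 16 ≤ G.size + 1 := by exact_mod_cast this
      omega
    have hKb : K₀ * (Db b l + 1) ≤ G.size + 1 := by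
      have h1 : κ₀ + 1 ≤ 4 * (A₀ + 1) * (κ₀ + 1) := Nat.le_mul_of_pos_left _ (by omega)
      omega
    rcases first_levels (K := K₀) (t := ε * (G.size + 1)) (t' := ε' * (G.size + 1)) hb hOK hR hρ8 hG15 hA2'
      (fun c r₁ j1 j2 => hnb A2 (by omega) c r₁ j1 j2) (mul_le_mul_of_nonneg_right he1 hG1) hKb with hcln | ⟨F', q, e, o1, o2, o3, o4, o5, o6⟩
    · refine hA hT _ G hlen' hdeg' hmem hθF hcln ?_ X (by omega)
      rw [← hA2]
      refine fx_sp hb (by omega) h1A2 hOK hR hGbig2 hr (fun c r₁ j1 j2 => hnb A2 (by omega) c r₁ j1 j2) ?_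
      intro e j1 j2 j3
      obtain ⟨w1, w2⟩ := exit_sp (κ₀ := κ₀) (M := M) hb (by omega) (by omega) (by omega) h2w h18 hwb j2
        (j3.imp_right fun ⟨r₂, k1, k2, _⟩ => ⟨true, r₂, G', k1, hE, k2⟩)
      exact ⟨ε₀, μ₀, G.size, le_rfl, le_rfl, Or.inl ⟨w1, bl_sp hb hκa hw0 (hwA A₀ hA0s) h1A0 hwb (by omega) (by omega) hM2a e.size e
        rfl j2 _ (by omega) hGp w2⟩⟩
    · refine done3 (rig_small hb o1 o2 o3 o4 o5 hv0 o6 ?_ ?_)
      · have e1 : 2 * θv * ((G.size : ℝ) + 1) ≤ ε' / 2 * (G.size + 1) := mul_le_mul_of_nonneg_right (by linarith only [hv1]) hG1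
        linarith only [hGε, e1]
      · have e1 : θv * ((Fd.node true G s).size + 1) ≤ ε' * θ * ((Fd.node true G s).size + 1) :=
          mul_le_mul_of_nonneg_right hv2 (by (clear * -; positivity))
        have e2 : ε' * (θ * ((Fd.node true G s).size + 1)) ≤ ε' * (G.size + 1) := mul_le_mul_of_nonneg_left hθF he0.le
        linarith only [e1, e2]

end AESY
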