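import Pool.Agent.AESY.SpnC

/-!
# Chains of branches for branches with a spine
-/

set_option autoImplicit false

namespace AESY

open Finset AE15 AED AELT AEK AEJ AEW AEY AEN AET AESF
open scoped Classical

variable {b l K M A' κ₀ : ℕ} {θ ε μ θ₁ : ℝ}

/-! ### branches with bounded runs are rigid -/

theorem rb_fol {q : Bool × Fd} (h : RBq l q) (hq : OKc b q.2) : FOL b l K 0 q.2 :=
  fol_of_fok ⟨hq.2.1, hq.2.2, h.inn⟩ hq.1

theorem tame_inR {F : Fd} (hF : OKc b F) (h : AEB.InR l 0 F) : TameR b l K F := by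
  intro c c' h1 _ t ht
  right
  have h3 : (true, c) ∈ F.trees := AEB.hv_mem h1
  have h4 := hF.mem h3
  have h5 := h4.mem ht
  have h6 := inR_in (q := (true, c)) (inR_tree h h3)
  exact fol_of_fok ⟨h5.2.1, h5.2.2, inR_in (q := (true, t)) (inR_tree h6 ht)⟩ h5.1

theorem clo_le (d : Bool) (F : Fd) : clo d F ≤ F.size := by
  have := AEJ.dcl_add_blk_le F
  cases d <;> simp only [clo, Bool.false_eq_true, if_false, if_true] <;> omega

theorem rb_rg {q : Bool × Fd} (h : RBq l q) (hq : OKc b q.2) (n : ℕ) :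
    Rgn b l K A' θ ε μ M (n + 1) q (q.2.size - clo q.1 q.2) := by
  obtain ⟨d, c⟩ := q
  have h0 := clo_le d c
  cases d with
  | false =>
    refine Or.inl ⟨rfl, FX.of_fol (rb_fol h hq), tame_inR hq h.inn, ?_⟩
    simp only [clo, Bool.false_eq_true, if_false] at h0 ⊢
    omega
  | true =>
    refine Or.inr ⟨rfl, FX.of_fol (rb_fol h.mrr hq.mrr), tame_inR hq.mrr h.out, ?_⟩
    simp only [clo, if_true] at h0 ⊢
    omega

/-- a large branch with bounded runs: the estimates -/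
theorem BP.data (hb : 1 ≤ b) {F : Fd} (hF : OKc b F) (h : BP b l F) : ∃ q ∈ F.trees, RBq l q ∧
    F.size + 1 ≤ 4 * b * (q.2.size + 1) ∧ dcl F + AEB.blk F + (q.2.size + 1) ≤ F.size + AEB.ab b l ∧
      clo q.1 q.2 + 1 ≤ AEB.ab b l := by
  obtain ⟨q, hq, h1, h2⟩ := h
  have h3 := clo_two (List.perm_cons_erase hq)
  have h4 := rb_clq h1 hb (hF.mem hq).2.1 (hF.mem hq).2.2 q.1
  have h5 : clq q.1 q = clo q.1 q.2 + 1 := by simp [clq]
  exact ⟨q, hq, h1, h2, by omega, by omega⟩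

theorem BP.win (hb : 1 ≤ b) (hθb : 8 * b * θ ≤ 1) {F : Fd} (hF : OKc b F) (h : BP b l F)
    (hM : 8 * b * AEB.ab b l ≤ F.size + 1) : θ * (F.size + 1) + dcl F + AEB.blk F ≤ F.size + 1 := by
  obtain ⟨q, -, -, h2, h3, -⟩ := h.data hb hF
  have hb' : (1 : ℝ) ≤ b := by exact_mod_cast hb
  have e1 : ((F.size : ℝ) + 1) ≤ 4 * b * (q.2.size + 1) := by exact_mod_cast h2
  have e2 : (dcl F : ℝ) + AEB.blk F + (q.2.size + 1) ≤ F.size + AEB.ab b l := by exact_mod_cast h3
  have e3 : (8 * b * AEB.ab b l : ℝ) ≤ F.size + 1 := by exact_mod_cast hM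
  have e4 : 8 * b * θ * (F.size + 1) ≤ 1 * (F.size + 1) := mul_le_mul_of_nonneg_right hθb (by positivity)
  have e5 : 8 * b * (θ * (F.size + 1) + AEB.ab b l) ≤ 8 * b * (q.2.size + 1 : ℝ) := by
    calc 8 * b * (θ * (F.size + 1) + AEB.ab b l) = 8 * b * θ * (F.size + 1) + 8 * b * AEB.ab b l := by ring
      _ ≤ 1 * (F.size + 1) + (F.size + 1) := add_le_add e4 e3
      _ = 2 * (F.size + 1) := by ring
      _ ≤ 2 * (4 * b * (q.2.size + 1)) := by linarith only [e1]
      _ = _ := by ring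
  have e6 : θ * (F.size + 1) + AEB.ab b l ≤ (q.2.size + 1 : ℝ) := le_of_mul_le_mul_left e5 (by positivity)
  linarith only [e2, e6]

theorem BP.bl (hb : 1 ≤ b) (hθb : 8 * b * θ ≤ 1) (hM : 8 * b * AEB.ab b l ≤ M) {F : Fd} (hF : OKc b F) (h : BP b l F) {n : ℕ}
    (hn : 1 ≤ n) : BlN θ ε μ M (Rgn b l K A' θ ε μ M n) (EndP θ ε M) F := by
  by_cases hs : F.size + 1 ≤ M
  · exact BlN.small F hs
  obtain ⟨n, rfl⟩ : ∃ n', n = n' + 1 := ⟨n - 1, by omega⟩
  obtain ⟨q, hq, h1, h2, -, h4⟩ := h.data hb hF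
  refine BlN.rig F q _ hq (rb_rg h1 (hF.mem hq) n) ?_
  have h0 := clo_le q.1 q.2
  have hb' : (1 : ℝ) ≤ b := by exact_mod_cast hb
  have e1 : ((F.size : ℝ) + 1) ≤ 4 * b * (q.2.size + 1) := by exact_mod_cast h2
  have e3 : (8 * b * AEB.ab b l : ℝ) ≤ F.size + 1 := by exact_mod_cast (by omega : 8 * b * AEB.ab b l ≤ F.size + 1)
  have e4 : 8 * b * θ * (F.size + 1) ≤ 1 * (F.size + 1) := mul_le_mul_of_nonneg_right hθb (by positivity)
  have e5 : 8 * b * (θ * (F.size + 1) + AEB.ab b l) ≤ 8 * b * (q.2.size + 1 : ℝ) := by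
    calc 8 * b * (θ * (F.size + 1) + AEB.ab b l) = 8 * b * θ * (F.size + 1) + 8 * b * AEB.ab b l := by ring
      _ ≤ 1 * (F.size + 1) + (F.size + 1) := add_le_add e4 e3
      _ = 2 * (F.size + 1) := by ring
      _ ≤ 2 * (4 * b * (q.2.size + 1)) := by linarith only [e1]
      _ = _ := by ring
  have e6 : θ * (F.size + 1) + AEB.ab b l ≤ (q.2.size + 1 : ℝ) := le_of_mul_le_mul_left e5 (by positivity)
  have e7 : ((q.2.size - clo q.1 q.2 : ℕ) : ℝ) = q.2.size - clo q.1 q.2 := by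
    rw [Nat.cast_sub h0]
  have e8 : (clo q.1 q.2 : ℝ) + 1 ≤ AEB.ab b l := by exact_mod_cast h4
  rw [e7]
  linarith only [e6, e8]

/-! ### lines -/

/-- **an exit inside of the first run of the spine** -/
theorem inX_sp {S : ℕ} {Q : Fd → Prop} (hb : 1 ≤ b) (hK : K * (Db b l + 1) ≤ S + 2) {G' : Fd}
    (hS : 2 * G'.size + 3 ≤ S) (r : ℕ) : ∀ F : Fd, Rn l true r F G' → OKc b F → S < F.size → ¬ BP b l F →
      (∀ c r₁ r₂, Rn l true (r₁ + 1) F c → Rn l true (r₂ + 1) c G' →
        (BP b l c ∨ (c.size ≤ S ∧ 3 * S ≤ 4 * c.size + 5)) → Q c) → InX l K Q (F.size + 1) 0 F := by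
  induction r with
  | zero =>
    intro F h _ h2
    cases h with
    | zero => omega
  | succ r ih =>
    intro F h hF h2 h3 hQ
    cases h with
    | step _ c _ L _ g1 g2 g3 =>
      have h4 := nbp_size hF g1 g2 h3
      have hFc := hF.mem (g1.mem_iff.2 List.mem_cons_self : (true, c) ∈ F.trees)
      have hFL : ∀ q ∈ L, OKc b q.2 := fun q hq => hF.mem (g1.mem_iff.2 (List.mem_cons_of_mem _ hq))
      obtain ⟨s, rfl, hs⟩ := nbp_first hb hF g1 g2 h3
      cases r with
      | zero =>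
        cases g3 with
        | zero => omega
      | succ r =>
        have h5 : AEB.blk c ≤ Db b l := by
          have := g3.opp (by omega) hb hFc
          simpa [clo] using this
        have h6 : Rn l true (0 + 1) (.node true c s) c := Rn.step _ c c L 0 g1 g2 (Rn.zero c)
        refine ⟨?_, inL_of_inR s (inR_of_rb fun q hq => g2 q (hs.mem_iff.1 hq)) hF.1.2.1, hF.1.2.2 rfl⟩
        simp only [if_true]
        by_cases hc : BP b l c ∨ c.size ≤ S
        · left
          refine ⟨hQ c 0 r h6 g3 ?_, ?_⟩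
          · rcases hc with hc | hc
            · exact Or.inl hc
            · exact Or.inr ⟨hc, by omega⟩
          · calc K * (AEB.blk c + 1) ≤ K * (Db b l + 1) := Nat.mul_le_mul_left _ (by omega)
              _ ≤ _ := by omega
        · right
          push Not at hc
          refine ih c g3 hFc hc.2 hc.1 ?_
          intro e r₁ r₂ k1 k2 k3
          refine hQ e (r₁ + 1) r₂ ?_ k2 k3
          have := h6.trans k1
          rwa [show 0 + 1 + (r₁ + 1) = r₁ + 1 + 1 by omega] at this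

/-- **a line along the first run of the spine, with a small rest** -/
theorem fx_sp {W : Fd → Prop} {G G' : Fd} {r : ℕ} (hb : 1 ≤ b) (hκ : K * (Db b l + 1) + 3 ≤ κ₀)
    (hθA : 8 * (A' + 1) * θ₁ ≤ 1) (hG : OKc b G) (hR : Rn l true r G G')
    (hbig : 4 * (A' + 1) * (κ₀ + 1) ≤ G.size + 1) (hρ : (G'.size : ℝ) + 1 < θ₁ * (G.size + 1))
    (hnb : ∀ c r₁, Rn l true r₁ G c → BP b l c → (A' + 2) * (c.size + 1) < G.size + 1)
    (hW : ∀ c, c.size < G.size → OKc b c → (BP b l c ∨ ∃ r₂, Rn l true (r₂ + 1) c G' ∧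
      c.size ≤ 2 * G'.size + κ₀ ∧ 3 * (2 * G'.size + κ₀) ≤ 4 * c.size + 5) → W c) :
    FX b l K (fun c => W c ∧ A' * (c.size + 1) < G.size + 1) 0 G := by
  obtain ⟨ρ, hρd⟩ : ∃ ρ, ρ = G'.size := ⟨_, rfl⟩
  rw [← hρd] at hρ hW
  have h5 : (0 : ℝ) ≤ (G.size : ℝ) + 1 := by positivity
  have h6 : 8 * ((A' : ℝ) + 1) * (ρ + 1) ≤ G.size + 1 := by
    have e1 : ((A' : ℝ) + 1) * (ρ + 1) ≤ (A' + 1) * (θ₁ * (G.size + 1)) := mul_le_mul_of_nonneg_left hρ.le (by positivity)
    have e2 : 8 * ((A' : ℝ) + 1) * θ₁ * (G.size + 1) ≤ 1 * (G.size + 1) := mul_le_mul_of_nonneg_right hθA h5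
    linarith only [e1, e2]
  have h6' : 8 * ((A' + 1) * (ρ + 1)) ≤ G.size + 1 := by
    have : (8 * ((A' + 1) * (ρ + 1)) : ℝ) ≤ G.size + 1 := by linarith only [h6]
    exact_mod_cast this
  have h7 : 4 * ((A' + 1) * (κ₀ + 1)) ≤ G.size + 1 := by
    rw [← mul_assoc]
    exact hbig
  have h8 : ρ + 1 ≤ (A' + 1) * (ρ + 1) := Nat.le_mul_of_pos_left _ (by omega)
  have h9 : κ₀ + 1 ≤ (A' + 1) * (κ₀ + 1) := Nat.le_mul_of_pos_left _ (by omega)
  have hA2 : ∀ x : ℕ, x + A' * x ≤ (A' + 2) * x := fun x => by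
    have : (A' + 2) * x = A' * x + 2 * x := by ring
    omega
  refine ⟨hG.2.1, hG.2.2, ?_⟩
  refine inX_sp (S := 2 * ρ + κ₀) hb (by omega) (G' := G') (by omega) r G hR hG (by omega) ?_ ?_
  · intro h
    have h10 := hnb G 0 (Rn.zero G) h
    have h11 := hA2 (G.size + 1)
    omega
  · intro c r₁ r₂ k1 k2 k3
    have hc1 := k1.size
    refine ⟨hW c (by omega) (k1.ok hG) ?_, ?_⟩
    · exact k3.imp_right fun k3 => ⟨r₂, k2, k3⟩
    · rcases k3 with k3 | k3
      · have h10 := hnb c _ k1 k3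
        have h11 := hA2 (c.size + 1)
        omega
      · have e1 : A' * (c.size + 1) ≤ (A' + 1) * (2 * ρ + κ₀ + 1) := Nat.mul_le_mul (by omega) (by omega)
        have e2 : (A' + 1) * (2 * ρ + κ₀ + 1) + (A' + 1) = 2 * ((A' + 1) * (ρ + 1)) + (A' + 1) * κ₀ := by ring
        have e3 : (A' + 1) * (κ₀ + 1) = (A' + 1) * κ₀ + (A' + 1) := by ring
        omega

theorem tame_sp {G G' : Fd} {r : ℕ} (hb : 1 ≤ b) (hG : OKc b G) (hR : Rn l true (r + 1) G G') (hE : En l true G')
    (h0 : ¬ BP b l G) (h1 : ∀ c, Rn l true 1 G c → ¬ BP b l c) : TameR b l K G := by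
  intro c c' k1 k2 D hD
  cases hR with
  | step _ c₁ _ L _ g1 g2 g3 =>
    have hGc := hG.mem (g1.mem_iff.2 List.mem_cons_self : (true, c₁) ∈ G.trees)
    have hBP := h1 c₁ (Rn.step _ c₁ c₁ L 0 g1 g2 (Rn.zero c₁))
    obtain ⟨s, rfl, hs⟩ := nbp_first hb hG g1 g2 h0
    rw [hv_first (hG.1.2.2 rfl)] at k1
    simp only [Option.some.injEq, Prod.mk.injEq, true_and] at k1
    subst k1
    have hrb : RBq l (true, D) → D = c' ∨ FOL b l K 0 D := fun h => Or.inr (rb_fol h (hGc.mem hD))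
    cases g3 with
    | zero =>
      rcases hE with hE | ⟨x, L', e1, e2, -⟩
      · exact hrb (hE _ hD)
      · have := e1.mem_iff.1 hD
        simp only [List.mem_cons, Bool.not_true, Prod.mk.injEq, Bool.true_eq_false, false_and, false_or] at this
        exact hrb (e2 _ this)
    | step _ c₂ _ L₂ _ e1 e2 e3 =>
      have h3 := e1.mem_iff.1 hD
      simp only [List.mem_cons, Prod.mk.injEq, true_and] at h3
      rcases h3 with h3 | h3
      · left
        obtain ⟨s₂, rfl, -⟩ := nbp_first hb hGc e1 e2 hBP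
        rw [hv_first (hGc.1.2.2 rfl)] at k2
        simp only [Option.some.injEq, Prod.mk.injEq, true_and] at k2
        rw [h3, k2]
      · exact hrb (e2 _ h3)

/-! ### chains of branches -/

/-- a run of the spine with a large rest -/
def HA (l : ℕ) (θ₁ : ℝ) (M : ℕ) (F : Fd) : Prop := F.size + 1 ≤ M ∨ ∃ d r G, Rn l d (r + 1) F G ∧ En l d G ∧
  θ₁ * (F.size + 1) ≤ (G.size : ℝ) + 1

theorem HA.mrr {F : Fd} (h : HA l θ₁ M F) : HA l θ₁ M (mrr F) := by
  rcases h with h | ⟨d, r, G, h1, h2, h3⟩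
  · exact Or.inl (by rw [mrr_size]; exact h)
  · exact Or.inr ⟨!d, r, AEK.mrr G, h1.mrr, h2.mrr, by rw [mrr_size, mrr_size]; exact h3⟩

/-- the exits are balanced -/
theorem exit_sp {c : Fd} (hb : 1 ≤ b) (hκ : 8 * Db b l + 8 ≤ κ₀) (hM : 3 * κ₀ + 1 ≤ M)
    (h8 : 8 * b * AEB.ab b l ≤ M) (hθθ : 2 * θ ≤ θ₁) (hθ₁ : θ₁ ≤ 1 / 8) (hθb : 8 * b * θ ≤ 1) (hc : OKc b c)
    (h : BP b l c ∨ ∃ d r G', Rn l d (r + 1) c G' ∧ En l d G' ∧ c.size ≤ 2 * G'.size + κ₀) :
    (c.size + 1 ≤ M ∨ θ * (c.size + 1) + dcl c + AEB.blk c ≤ c.size + 1) ∧ (BP b l c ∨ HA l θ₁ M c) := by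
  by_cases hs : c.size + 1 ≤ M
  · exact ⟨Or.inl hs, Or.inr (Or.inl hs)⟩
  rcases h with h | ⟨d, r, G', h1, h2, h3⟩
  · exact ⟨Or.inr (h.win hb hθb hc (by omega)), Or.inl h⟩
  · have h4 := h1.both (by omega) h2 hb hc
    have h5 : κ₀ ≤ G'.size := by omega
    have e1 : (c.size : ℝ) ≤ 2 * G'.size + κ₀ := by exact_mod_cast h3
    have e2 : (κ₀ : ℝ) ≤ G'.size := by exact_mod_cast h5
    have e3 : (8 * Db b l + 8 : ℝ) ≤ κ₀ := by exact_mod_cast hκ
    have e4 : (0 : ℝ) ≤ (c.size : ℝ) := Nat.cast_nonneg _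
    have e5 : θ₁ * (c.size + 1) ≤ 1 / 8 * (c.size + 1) := mul_le_mul_of_nonneg_right hθ₁ (by positivity)
    have e6 : 2 * θ * (c.size + 1) ≤ θ₁ * (c.size + 1) := mul_le_mul_of_nonneg_right hθθ (by positivity)
    have e7 : (dcl c : ℝ) + AEB.blk c + G'.size ≤ c.size + 2 * Db b l := by exact_mod_cast h4
    have e8 : (0 : ℝ) ≤ (Db b l : ℝ) := Nat.cast_nonneg _
    refine ⟨Or.inr (by linarith only [e1, e2, e3, e5, e6, e7]), Or.inr (Or.inr ⟨d, r, G', h1, h2, by linarith only [e1, e2, e3, e5]⟩)⟩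

/-- **the part of the spine behind a turn, with a small rest behind its first run, is rigid** -/
theorem rig_sp (hb : 1 ≤ b) (hκ : K * (Db b l + 1) + 8 * Db b l + 8 ≤ κ₀) (hθθ : 2 * θ ≤ θ₁)
    (hθA : 8 * (A' + 1) * θ₁ ≤ 1) (hθb : 8 * b * θ ≤ 1) (hM : 3 * κ₀ + 1 ≤ M) (h8 : 8 * b * AEB.ab b l ≤ M)
    (d : Bool) {G G' : Fd} {r n : ℕ} (hG : OKc b G) (hR : Rn l (!d) (r + 1) G G') (hE : En l (!d) G')
    (hbig : 4 * (A' + 1) * (κ₀ + 1) ≤ G.size + 1) (hρ : (G'.size : ℝ) + 1 < θ₁ * (G.size + 1))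
    (hnb : ∀ c r₁, Rn l (!d) r₁ G c → BP b l c → (A' + 2) * (c.size + 1) < G.size + 1)
    (hB : ∀ c, c.size < G.size → OKc b c → (BP b l c ∨ HA l θ₁ M c) →
      BlN θ ε μ M (Rgn b l K A' θ ε μ M n) (EndP θ ε M) c) :
    Rgn b l K A' θ ε μ M (n + 1) (d, G) (G.size - clo d G) := by
  have hA0 : (0 : ℝ) ≤ A' := Nat.cast_nonneg _
  have hθ8 : θ₁ ≤ 1 / 8 := by
    have h0 : 0 < θ₁ := by
      have : (0 : ℝ) ≤ (G'.size : ℝ) := Nat.cast_nonneg _
      have h1 : (0 : ℝ) < θ₁ * (G.size + 1) := by linarith only [hρ]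
      exact pos_of_mul_pos_left h1 (by positivity)
    have : 8 * (0 + 1) * θ₁ ≤ 8 * (A' + 1) * θ₁ := by
      refine mul_le_mul_of_nonneg_right ?_ h0.le
      linarith only []
    linarith only [hθA, this]
  have h9 : κ₀ + 1 ≤ (A' + 1) * (κ₀ + 1) := Nat.le_mul_of_pos_left _ (by omega)
  have h7 : 4 * ((A' + 1) * (κ₀ + 1)) ≤ G.size + 1 := by
    rw [← mul_assoc]
    exact hbig
  have hA2 : ∀ x : ℕ, 2 * x ≤ (A' + 2) * x := fun x => Nat.mul_le_mul_right _ (by omega)
  -- for the direction of the run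
  have key : ∀ H H' : Fd, OKc b H → Rn l true (r + 1) H H' → En l true H' → H.size = G.size →
      (∀ c r₁, Rn l true r₁ H c → BP b l c → (A' + 2) * (c.size + 1) < H.size + 1) → TameR b l K H := by
    intro H H' k1 k2 k3 k4 k5
    refine tame_sp hb k1 k2 k3 (fun h => ?_) (fun c hc h => ?_)
    · have := k5 H 0 (Rn.zero H) h
      have := hA2 (H.size + 1)
      omega
    · have h10 := k5 c 1 hc h
      have h11 := hA2 (c.size + 1)
      have h12 : ¬ BP b l H := fun h => by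
        have := k5 H 0 (Rn.zero H) h
        have := hA2 (H.size + 1)
        omega
      cases hc with
      | step _ c' _ L _ g1 g2 g3 =>
        cases g3 with
        | zero =>
          have h13 := nbp_size k1 g1 g2 h12
          omega
  have h0 := clo_le d G
  cases d with
  | false =>
    simp only [Bool.not_false] at hR hE hnb
    refine Or.inl ⟨rfl, ?_, key G G' hG hR hE rfl hnb, ?_⟩
    · refine fx_sp hb (by omega) hθA hG hR hbig hρ hnb ?_
      intro c h1 h2 h3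
      obtain ⟨g1, g2⟩ := exit_sp hb (by omega) hM h8 hθθ hθ8 hθb h2 (h3.imp_right fun ⟨r₂, k1, k2, _⟩ => ⟨true, r₂, G', k1, hE, k2⟩)
      exact ⟨g1, hB c h1 h2 g2⟩
    · simp only [clo, Bool.false_eq_true, if_false] at h0 ⊢
      omega
  | true =>
    simp only [Bool.not_true] at hR hE hnb
    have hR' : Rn l true (r + 1) (mrr G) (mrr G') := hR.mrr
    have hE' : En l true (mrr G') := hE.mrr
    have hG' := hG.mrr
    have hnb' : ∀ c r₁, Rn l true r₁ (mrr G) c → BP b l c → (A' + 2) * (c.size + 1) < (mrr G).size + 1 := by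
      intro c r₁ k1 k2
      have k3 := k1.mrr
      rw [mrr_mrr] at k3
      have := hnb (mrr c) r₁ k3 k2.mrr
      rwa [mrr_size] at this ⊢
    refine Or.inr ⟨rfl, ?_, key _ _ hG' hR' hE' (mrr_size G) hnb', ?_⟩
    · have h10 := fx_sp (K := K) (κ₀ := κ₀) (W := fun c => Wc θ ε μ M (Rgn b l K A' θ ε μ M n) (mrr c)) hb (by omega) hθA hG' hR'
        (by rw [mrr_size]; exact hbig) (by rw [mrr_size, mrr_size]; exact hρ) hnb' ?_
      · rw [mrr_size] at h10
        exact h10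
      · intro c h1 h2 h3
        rw [mrr_size] at h1
        obtain ⟨g1, g2⟩ := exit_sp hb (by omega) hM h8 hθθ hθ8 hθb h2
          (h3.imp_right fun ⟨r₂, k1, k2, _⟩ => ⟨true, r₂, mrr G', k1, hE', k2⟩)
        refine ⟨?_, hB (mrr c) (by rw [mrr_size]; exact h1) h2.mrr (g2.imp (fun g => g.mrr) fun g => g.mrr)⟩
        rw [mrr_size, AEJ.dcl_mrr, AEJ.blk_mrr]
        refine g1.imp_right fun g1 => ?_
        linarith only [g1]
    · simp only [clo, if_true] at h0 ⊢
      omega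

/-- **branches with a spine: chains of branches** -/
theorem bl_sp (hb : 1 ≤ b) (hκ : K * (Db b l + 1) + 8 * Db b l + 8 ≤ κ₀) (hθ : 0 < θ) (hθθ : (A' + 2) * θ ≤ θ₁)
    (hθA : 8 * (A' + 1) * θ₁ ≤ 1) (hθb : 8 * b * θ ≤ 1) (hM : 3 * κ₀ + 1 ≤ M) (h8 : 8 * b * AEB.ab b l ≤ M)
    (hM2 : (4 * (A' + 1) * (κ₀ + 1) + 16 * b * (AEB.ab b l + 1) : ℝ) ≤ θ * (θ * M)) (m : ℕ) :
    ∀ F : Fd, F.size = m → OKc b F → ∀ n, F.size ≤ n → 1 ≤ n → (BP b l F ∨ HA l θ₁ M F) →
      BlN θ ε μ M (Rgn b l K A' θ ε μ M n) (EndP θ ε M) F := by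
  have hA0 : (0 : ℝ) ≤ A' := Nat.cast_nonneg _
  have hD0 : (0 : ℝ) ≤ Db b l := Nat.cast_nonneg _
  have hκ0 : (0 : ℝ) ≤ κ₀ := Nat.cast_nonneg _
  have hab0 : (0 : ℝ) ≤ AEB.ab b l := Nat.cast_nonneg _
  have hb' : (1 : ℝ) ≤ b := by exact_mod_cast hb
  have hAθ : 0 ≤ (A' : ℝ) * θ := by positivity
  have hθ₁ : 0 < θ₁ := by nlinarith only [hθ, hθθ, hAθ]
  have h2θ : 2 * θ ≤ θ₁ := by nlinarith only [hθθ, hAθ]
  have hθ8 : θ₁ ≤ 1 / 8 := by
    have : 8 * (0 + 1) * θ₁ ≤ 8 * (A' + 1) * θ₁ := by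
      refine mul_le_mul_of_nonneg_right ?_ hθ₁.le
      linarith
    linarith
  induction m using Nat.strong_induction_on with
  | _ m ih =>
    intro F hm hF n hn hn1 hw
    by_cases hs : F.size + 1 ≤ M
    · exact BlN.small F hs
    rcases hw with hw | hw
    · exact hw.bl hb hθb h8 hF hn1
    obtain ⟨d, r, G, hR, hE, hG1⟩ := hw.resolve_left hs
    have hG := hR.ok hF
    have hGs := hR.size
    have hFM : (M : ℝ) ≤ F.size + 1 := by
      have : M ≤ F.size + 1 := by omega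
      exact_mod_cast this
    have hGF : θ * M ≤ (G.size : ℝ) + 1 := by
      have e1 : θ * M ≤ θ * (F.size + 1) := mul_le_mul_of_nonneg_left hFM hθ.le
      have e2 : θ * (F.size + 1) ≤ θ₁ * (F.size + 1) := mul_le_mul_of_nonneg_right (by linarith only [hθ, hθθ, hAθ]) (by positivity)
      linarith only [hG1, e1, e2]
    have hGθ : (4 * (A' + 1) * (κ₀ + 1) + 16 * b * (AEB.ab b l + 1) : ℝ) ≤ θ * (G.size + 1) :=
      hM2.trans (mul_le_mul_of_nonneg_left hGF hθ.le)
    have hθ1G : θ * (G.size + 1) ≤ 1 / 16 * (G.size + 1) := mul_le_mul_of_nonneg_right (by linarith only [hθθ, hAθ, hθ8]) (by positivity)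
    have hAκ : (0 : ℝ) ≤ 4 * (A' + 1) * (κ₀ + 1) := by positivity
    have hbab : (16 * (Db b l) + 16 : ℝ) ≤ 16 * b * (AEB.ab b l + 1) := by
      have : (Db b l : ℝ) = b * AEB.ab b l := by simp [Db]
      rw [this]
      nlinarith only [hb']
    have hGbig' : 4 * (A' + 1) * (κ₀ + 1) ≤ G.size + 1 := by
      have : (4 * (A' + 1) * (κ₀ + 1) : ℝ) ≤ G.size + 1 := by linarith only [hθ, hθθ, hAθ, hθ8, hGθ, hθ1G, hAκ, hbab]
      exact_mod_cast this
    obtain ⟨mm, hPt⟩ := hR.ptT (by omega) true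
    -- a vertex of the spine with a large branch with bounded runs
    have step_bp : ∀ c : Fd, OKc b c → BP b l c → c.size < F.size → θ * (F.size + 1) ≤ (c.size : ℝ) + 1 →
        (∃ d' m', AESK.PtT 0 (true, F) (d', c) m') → BlN θ ε μ M (Rgn b l K A' θ ε μ M n) (EndP θ ε M) F := by
      rintro c hc h1 h2 h3 ⟨d', m', hP⟩
      refine BlN.step F true (d', c) m' hP h2 h3 ?_ (h1.bl hb hθb h8 hc hn1)
      refine h1.win hb hθb hc ?_
      have e1 : θ * M ≤ θ * (F.size + 1) := mul_le_mul_of_nonneg_left hFM hθ.le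
      have e2 : θ * (θ * M) ≤ 1 * (θ * M) := mul_le_mul_of_nonneg_right (by linarith only [hθ, hθθ, hAθ, hθ8]) (by positivity)
      have e3 : (8 * b * AEB.ab b l : ℝ) ≤ c.size + 1 := by
        have : (8 * b * AEB.ab b l : ℝ) ≤ 16 * b * (AEB.ab b l + 1) := by nlinarith only [hθ, hθθ, hb', hAθ, hθ8, hbab]
        linarith only [hθ, hθθ, hM2, hb', hAθ, hθ8, hAκ, h3, e1, e2]
      exact_mod_cast e3
    have hθF : θ * (F.size + 1) ≤ (G.size : ℝ) + 1 := by
      have e2 : θ * (F.size + 1) ≤ θ₁ * (F.size + 1) := mul_le_mul_of_nonneg_right (by linarith only [hθ, hθθ, hAθ]) (by positivity)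
      linarith only [hG1, e2]
    rcases id hE with hE' | ⟨c', L', g1, g2, g3⟩
    · -- the spine ends
      refine step_bp G hG ?_ (by omega) hθF ⟨d, mm, hPt⟩
      have hG0 : 1 ≤ G.size := by
        have : (16 : ℝ) ≤ G.size + 1 := by nlinarith only [hθ, hθθ, hAθ, hθ8, hGθ, hθ1G, hAκ, hbab]
        have : 16 ≤ G.size + 1 := by exact_mod_cast this
        omega
      by_contra hBP
      have h4 : ∀ q ∈ G.trees, 4 * b * (q.2.size + 1) ≤ G.size := by
        intro q hq
        by_contra h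
        exact hBP ⟨q, hq, hE' q hq, by omega⟩
      have h5 : ∀ L : List (Bool × Fd), (∀ q ∈ L, 4 * b * (q.2.size + 1) ≤ G.size) →
          4 * b * (L.map (fun q => q.2.size + 1)).sum ≤ L.length * G.size := by
        intro L
        induction L with
        | nil => simp
        | cons q L ih =>
          intro h
          simp only [List.map_cons, List.sum_cons, List.length_cons, add_mul, one_mul, mul_add]
          have h8 := ih fun q hq => h q (List.mem_cons_of_mem _ hq)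
          have h9 := h q List.mem_cons_self
          simp only [mul_add] at h8 h9
          omega
      have h6 := h5 _ h4
      rw [← Fd.size_eq, ← Fd.len_eq] at h6
      have h7 : G.len * G.size ≤ b * G.size := Nat.mul_le_mul_right _ hG.2.1
      have h9 : b * (4 * G.size) ≤ b * G.size := by
        refine le_trans (le_of_eq ?_) (h6.trans h7)
        ring
      have h10 := Nat.le_of_mul_le_mul_left h9 (by omega)
      omega
    · -- the spine turns
      obtain ⟨r', G', k1, k2⟩ := g3.run (!d)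
      have hR' : Rn l (!d) (r' + 1) G G' := Rn.step G c' G' L' r' g1 g2 k1
      by_cases hG2 : θ₁ * (G.size + 1) ≤ (G'.size : ℝ) + 1
      · -- a large rest behind the run after the turn
        refine BlN.step F true (d, G) mm hPt (by simp only; omega) hθF ?_ (ih G.size (by omega) G rfl hG n (by omega) hn1
          (Or.inr (Or.inr ⟨!d, r', G', hR', k2, hG2⟩)))
        simp only
        have e1 := hR'.both (by omega) k2 hb hG
        have e2 : (dcl G : ℝ) + AEB.blk G + G'.size ≤ G.size + 2 * Db b l := by exact_mod_cast e1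
        have e3 : 2 * θ * (G.size + 1) ≤ θ₁ * (G.size + 1) := mul_le_mul_of_nonneg_right h2θ (by positivity)
        linarith only [hθ, hθθ, hAθ, hθ8, hGθ, hAκ, hbab, hG2, e2, e3]
      push Not at hG2
      by_cases hbad : ∃ c r₁, Rn l (!d) r₁ G c ∧ BP b l c ∧ G.size + 1 ≤ (A' + 2) * (c.size + 1)
      · obtain ⟨c, r₁, j1, j2, j3⟩ := hbad
        have hcs := j1.size
        refine step_bp c (j1.ok hG) j2 (by omega) ?_ ?_
        · have e1 : ((G.size : ℝ) + 1) ≤ (A' + 2) * (c.size + 1) := by exact_mod_cast j3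
          have e2 : (A' + 2) * θ * (F.size + 1) ≤ θ₁ * (F.size + 1) := mul_le_mul_of_nonneg_right hθθ (by positivity)
          have e3 : (A' + 2) * (θ * (F.size + 1)) ≤ ((A' : ℝ) + 2) * (c.size + 1) := by linarith only [hG1, e1, e2]
          exact le_of_mul_le_mul_left e3 (by positivity)
        · rcases Nat.eq_zero_or_pos r₁ with h0 | h0
          · subst h0
            cases j1 with
            | zero => exact ⟨d, mm, hPt⟩
          · obtain ⟨m', hm'⟩ := j1.ptT h0 d
            exact ⟨_, _, hPt.trans hm'⟩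
      · push Not at hbad
        obtain ⟨n', rfl⟩ : ∃ n', n = n' + 1 := ⟨n - 1, by omega⟩
        have hrig : Rgn b l K A' θ ε μ M (n' + 1) (d, G) (G.size - AESY.clo d G) := by
          refine rig_sp hb hκ h2θ hθA hθb hM h8 d hG hR' k2 hGbig' hG2 (fun c r₁ j1 j2 => hbad c r₁ j1 j2) ?_
          intro c j1 j2 j3
          rcases Nat.eq_zero_or_pos n' with h0 | h0
          · omega
          · exact ih c.size (by omega) c rfl j2 n' (by omega) h0 j3
        obtain ⟨H, L, j1, j2, j3⟩ := hR.last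
        have hH := j1.ok hF
        have hmem : (d, G) ∈ H.trees := j2.mem_iff.2 List.mem_cons_self
        have hcG := hE.clo hb hG
        have hGH : G.size < H.size := AEB.size_lt_of_mem hmem
        have hHF := j1.size
        have hclo := clo_le d G
        have e5 : ((G.size - AESY.clo d G : ℕ) : ℝ) = G.size - AESY.clo d G := by rw [Nat.cast_sub hclo]
        have e6 : (AESY.clo d G : ℝ) ≤ Db b l := by exact_mod_cast hcG
        have hHr : BlN θ ε μ M (Rgn b l K A' θ ε μ M (n' + 1)) (EndP θ ε M) H := by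
          refine BlN.rig H (d, G) _ hmem hrig ?_
          rw [e5]
          have e7 : ((H.size : ℝ) + 1) ≤ F.size + 1 := by
            have : H.size + 1 ≤ F.size + 1 := by omega
            exact_mod_cast this
          have e8 : 2 * θ * (H.size + 1) ≤ 2 * θ * (F.size + 1) := mul_le_mul_of_nonneg_left e7 (by positivity)
          have e9 : 2 * θ * (F.size + 1) ≤ θ₁ * (F.size + 1) := mul_le_mul_of_nonneg_right h2θ (by positivity)
          linarith only [hθ, hθθ, hAθ, hθ8, hG1, hGθ, hθ1G, hAκ, hbab, e6, e8, e9]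
        rcases Nat.eq_zero_or_pos r with h0 | h0
        · subst h0
          cases j1 with
          | zero => exact hHr
        · obtain ⟨m', hm'⟩ := j1.ptT h0 true
          refine BlN.step F true (d, H) m' hm' (by simp only; omega) ?_ ?_ hHr
          · simp only
            have : ((G.size : ℝ) + 1) ≤ H.size + 1 := by
              have : G.size + 1 ≤ H.size + 1 := by omega
              exact_mod_cast this
            linarith only [hθF, this]
          · simp only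
            have e1 := clo_two j2
            have e2 : clq d (d, G) = AESY.clo d G + 1 := by simp [clq]
            simp only at e1
            have e3 : dcl H + AEB.blk H + G.size ≤ H.size + Db b l := by omega
            have e4 : (dcl H : ℝ) + AEB.blk H + G.size ≤ H.size + Db b l := by exact_mod_cast e3
            have e7 : ((H.size : ℝ) + 1) ≤ F.size + 1 := by
              have : H.size + 1 ≤ F.size + 1 := by omega
              exact_mod_cast this
            have e8 : 2 * θ * (H.size + 1) ≤ 2 * θ * (F.size + 1) := mul_le_mul_of_nonneg_left e7 (by positivity)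
            have e9 : 2 * θ * (F.size + 1) ≤ θ₁ * (F.size + 1) := mul_le_mul_of_nonneg_right h2θ (by positivity)
            linarith only [hθ, hθθ, hAθ, hθ8, hG1, hGθ, hθ1G, hAκ, hbab, e4, e8, e9]

end AESY
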