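import Pool.Agent.AESF.ThinC
import Pool.Agent.AESY.Defs

/-!
# Codes of branches in which all long runs are on one path (the spine)
-/

set_option autoImplicit false

namespace AESY

open Finset AE15 AED AELT AEK AEJ AEW AEY AEN AET AESF
open scoped Classical

variable {b l K M A' κ₀ : ℕ} {θ ε μ θ₁ : ℝ}

/-- all runs of the branch `q` have at most `l` arcs, in both directions -/
def RBq (l : ℕ) (q : Bool × Fd) : Prop :=
  AEB.InR l 0 (.node q.1 q.2 .nil) ∧ AEB.InR l 0 (mrr (.node q.1 q.2 .nil))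

/-- the spine: a path which starts at the root, all the other branches at its vertices have bounded runs -/
inductive SP (l : ℕ) : Fd → Prop
  | rb (F : Fd) : (∀ q ∈ F.trees, RBq l q) → SP l F
  | step (F : Fd) (p : Bool × Fd) (L : List (Bool × Fd)) : F.trees.Perm (p :: L) → (∀ q ∈ L, RBq l q) → SP l p.2 → SP l F

/-- `Rn l d n F G`: the spine of `F` starts with `n` arcs of the direction `d`, which lead to the vertex with the children
forest `G` -/
inductive Rn (l : ℕ) (d : Bool) : ℕ → Fd → Fd → Prop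
  | zero (F : Fd) : Rn l d 0 F F
  | step (F c G : Fd) (L : List (Bool × Fd)) (n : ℕ) : F.trees.Perm ((d, c) :: L) → (∀ q ∈ L, RBq l q) → Rn l d n c G →
      Rn l d (n + 1) F G

/-- the run of the direction `d` ends: the spine turns, or ends -/
def En (l : ℕ) (d : Bool) (G : Fd) : Prop := (∀ q ∈ G.trees, RBq l q) ∨
  ∃ (c : Fd) (L : List (Bool × Fd)), G.trees.Perm ((!d, c) :: L) ∧ (∀ q ∈ L, RBq l q) ∧ SP l c

/-- the closure of the root in the direction `d` -/
def clo (d : Bool) (F : Fd) : ℕ := if d then dcl F else AEB.blk F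

/-- the closure in the direction `d` through the branch `q` -/
def clq (d : Bool) (q : Bool × Fd) : ℕ := if q.1 = d then clo d q.2 + 1 else 0

/-- a large branch with bounded runs at the root -/
def BP (b l : ℕ) (F : Fd) : Prop := ∃ q ∈ F.trees, RBq l q ∧ F.size + 1 ≤ 4 * b * (q.2.size + 1)

/-- the heavy child first, bounded degrees -/
def OKc (b : ℕ) (F : Fd) : Prop := Sd true F ∧ F.len ≤ b ∧ F.Deg b

/-! ### runs -/

theorem inR_mono (F : Fd) : ∀ {j j' : ℕ}, j' ≤ j → AEB.InR l j F → AEB.InR l j' F := by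
  induction F with
  | nil => intro j j' _ _; trivial
  | node d c s ihc ihs =>
    intro j j' hj h
    refine ⟨?_, ihs hj h.2⟩
    have h1 := h.1
    cases d with
    | true =>
      simp only [if_true] at h1 ⊢
      exact h1
    | false =>
      simp only [Bool.false_eq_true, if_false] at h1 ⊢
      exact ⟨by omega, ihc (by omega) h1.2⟩

theorem inR_tree {j : ℕ} {F : Fd} (h : AEB.InR l j F) {q : Bool × Fd} (hq : q ∈ F.trees) :
    AEB.InR l 0 (.node q.1 q.2 .nil) := by
  have h1 := h.child hq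
  refine ⟨?_, trivial⟩
  cases h2 : q.1 with
  | true =>
    rw [h2] at h1
    simp only [if_true] at h1 ⊢
    exact h1.1
  | false =>
    rw [h2] at h1
    simp only [Bool.false_eq_true, if_false] at h1 ⊢
    exact ⟨by have := h1.2 trivial; omega, inR_mono _ (by omega) h1.1⟩

theorem inR_in {q : Bool × Fd} (h : AEB.InR l 0 (.node q.1 q.2 .nil)) : AEB.InR l 0 q.2 := by
  have h1 := h.1
  cases h2 : q.1 with
  | true =>
    rw [h2] at h1
    simp only [if_true] at h1
    exact h1
  | false =>
    rw [h2] at h1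
    simp only [Bool.false_eq_true, if_false] at h1
    exact inR_mono _ (by omega) h1.2

theorem RBq.inn {q : Bool × Fd} (h : RBq l q) : AEB.InR l 0 q.2 := inR_in h.1

theorem RBq.out {q : Bool × Fd} (h : RBq l q) : AEB.InR l 0 (mrr q.2) := by
  have h1 := h.2
  simp only [AEK.mrr] at h1
  exact inR_in (q := (!q.1, mrr q.2)) h1

theorem RBq.mrr {q : Bool × Fd} (h : RBq l q) : RBq l (!q.1, mrr q.2) := by
  refine ⟨?_, ?_⟩
  · have h1 := h.2
    simp only [AEK.mrr] at h1
    exact h1
  · have h1 := h.1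
    simp only [AEK.mrr, Bool.not_not, mrr_mrr]
    exact h1

theorem mrr_trees (F : Fd) : (mrr F).trees = F.trees.map (fun q => (!q.1, mrr q.2)) := by
  induction F with
  | nil => rfl
  | node d c s _ ihs => simp only [AEK.mrr, Fd.trees, List.map_cons, ihs]

theorem RBq.child {q q' : Bool × Fd} (h : RBq l q) (hq : q' ∈ q.2.trees) : RBq l q' := by
  refine ⟨inR_tree h.inn hq, ?_⟩
  have h1 : (!q'.1, AEK.mrr q'.2) ∈ (AEK.mrr q.2).trees := by
    rw [mrr_trees]
    exact List.mem_map.2 ⟨q', hq, rfl⟩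
  have h2 := inR_tree h.out h1
  simp only [AEK.mrr] at h2 ⊢
  exact h2

/-- forests of branches with bounded runs -/
theorem inR_of_rb {F : Fd} (h : ∀ q ∈ F.trees, RBq l q) : AEB.InR l 0 F := by
  induction F with
  | nil => trivial
  | node d c s _ ihs =>
    have h1 := (h (d, c) (by simp [Fd.trees])).1
    exact ⟨h1.1, ihs fun q hq => h q (by simp only [Fd.trees, List.mem_cons]; exact Or.inr hq)⟩

theorem rb_mrr {F : Fd} (h : ∀ q ∈ F.trees, RBq l q) : ∀ q ∈ (mrr F).trees, RBq l q := by
  intro q hq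
  rw [mrr_trees] at hq
  obtain ⟨q', hq', rfl⟩ := List.mem_map.1 hq
  exact (h q' hq').mrr

theorem SP.run {F : Fd} (h : SP l F) (d : Bool) : ∃ n G, Rn l d n F G ∧ En l d G := by
  induction h with
  | rb F h => exact ⟨0, F, Rn.zero F, Or.inl h⟩
  | step F p L h1 h2 h3 ih =>
    by_cases hd : p.1 = d
    · obtain ⟨n, G, g1, g2⟩ := ih
      obtain ⟨p1, p2⟩ := p
      subst hd
      exact ⟨n + 1, G, Rn.step F p2 G L n h1 h2 g1, g2⟩
    · obtain ⟨p1, p2⟩ := p
      have : p1 = !d := by cases p1 <;> cases d <;> simp_all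
      subst this
      exact ⟨0, F, Rn.zero F, Or.inr ⟨p2, L, h1, h2, h3⟩⟩

theorem En.sp {d : Bool} {G : Fd} (h : En l d G) : SP l G := by
  rcases h with h | ⟨c, L, h1, h2, h3⟩
  · exact SP.rb G h
  · exact SP.step G (!d, c) L h1 h2 h3

theorem Rn.sp {d : Bool} {n : ℕ} {F G : Fd} (h : Rn l d n F G) (hG : SP l G) : SP l F := by
  induction h with
  | zero F => exact hG
  | step F c G L n h1 h2 _ ih => exact SP.step F (d, c) L h1 h2 (ih hG)

theorem Rn.trans {d : Bool} {n n' : ℕ} {F G H : Fd} (h : Rn l d n F G) (h' : Rn l d n' G H) : Rn l d (n + n') F H := by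
  induction h with
  | zero F => simpa using h'
  | step F c G L n h1 h2 _ ih =>
    have := Rn.step F c H L (n + n') h1 h2 (ih h')
    rwa [show n + n' + 1 = n + 1 + n' by omega] at this

/-- the last arc of a run -/
theorem Rn.last {d : Bool} {n : ℕ} {F G : Fd} (h : Rn l d (n + 1) F G) : ∃ (H : Fd) (L : List (Bool × Fd)),
    Rn l d n F H ∧ H.trees.Perm ((d, G) :: L) ∧ ∀ q ∈ L, RBq l q := by
  induction n generalizing F with
  | zero =>
    cases h with
    | step _ c _ L _ h1 h2 h3 =>
      cases h3 with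
      | zero => exact ⟨F, L, Rn.zero F, h1, h2⟩
  | succ n ih =>
    cases h with
    | step _ c _ L _ h1 h2 h3 =>
      obtain ⟨H, L', g1, g2, g3⟩ := ih h3
      exact ⟨H, L', Rn.step F c H L n h1 h2 g1, g2, g3⟩

theorem Rn.mrr {d : Bool} {n : ℕ} {F G : Fd} (h : Rn l d n F G) : Rn l (!d) n (mrr F) (mrr G) := by
  induction h with
  | zero F => exact Rn.zero _
  | step F c G L n h1 h2 _ ih =>
    refine Rn.step _ (AEK.mrr c) _ (L.map (fun q => (!q.1, AEK.mrr q.2))) n ?_ ?_ ih
    · rw [mrr_trees]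
      exact h1.map _
    · intro q hq
      obtain ⟨q', hq', rfl⟩ := List.mem_map.1 hq
      exact (h2 q' hq').mrr

theorem SP.mrr {F : Fd} (h : SP l F) : SP l (mrr F) := by
  induction h with
  | rb F h => exact SP.rb _ (rb_mrr h)
  | step F p L h1 h2 _ ih =>
    refine SP.step _ (!p.1, AEK.mrr p.2) (L.map (fun q => (!q.1, AEK.mrr q.2))) ?_ ?_ ih
    · rw [mrr_trees]
      exact h1.map _
    · intro q hq
      obtain ⟨q', hq', rfl⟩ := List.mem_map.1 hq
      exact (h2 q' hq').mrr

theorem En.mrr {d : Bool} {G : Fd} (h : En l d G) : En l (!d) (mrr G) := by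
  rcases h with h | ⟨c, L, h1, h2, h3⟩
  · exact Or.inl (rb_mrr h)
  · refine Or.inr ⟨AEK.mrr c, L.map (fun q => (!q.1, AEK.mrr q.2)), ?_, ?_, h3.mrr⟩
    · rw [mrr_trees]
      exact h1.map _
    · intro q hq
      obtain ⟨q', hq', rfl⟩ := List.mem_map.1 hq
      exact (h2 q' hq').mrr

theorem BP.mrr {F : Fd} (h : BP b l F) : BP b l (mrr F) := by
  obtain ⟨q, hq, h1, h2⟩ := h
  refine ⟨(!q.1, AEK.mrr q.2), ?_, h1.mrr, ?_⟩
  · rw [mrr_trees]
    exact List.mem_map.2 ⟨q, hq, rfl⟩
  · simp only [mrr_size]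
    exact h2

theorem OKc.mrr {F : Fd} (h : OKc b F) : OKc b (mrr F) := ⟨AESF.Sd.mrr h.1, by rw [mrr_len]; exact h.2.1, mrr_deg h.2.2⟩

theorem clo_mrr (d : Bool) (F : Fd) : clo d (mrr F) = clo (!d) F := by
  cases d
  · simp only [clo, Bool.false_eq_true, if_false, Bool.not_false, if_true, AEJ.blk_mrr]
  · simp only [clo, if_true, Bool.not_true, Bool.false_eq_true, if_false, AEJ.dcl_mrr]

theorem OKc.mem {F : Fd} (h : OKc b F) {q : Bool × Fd} (hq : q ∈ F.trees) : OKc b q.2 :=
  ⟨h.1.mem hq, (Fd.deg_iff b F).1 h.2.2 q hq⟩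

theorem Rn.ok {d : Bool} {n : ℕ} {F G : Fd} (h : Rn l d n F G) (hF : OKc b F) : OKc b G := by
  induction h with
  | zero F => exact hF
  | step F c G L n h1 _ _ ih => exact ih (hF.mem (q := (d, c)) (h1.mem_iff.2 List.mem_cons_self))

theorem Rn.size {d : Bool} {n : ℕ} {F G : Fd} (h : Rn l d n F G) : G.size + n ≤ F.size := by
  induction h with
  | zero F => exact le_rfl
  | step F c G L n h1 _ _ ih =>
    have h3 : c.size < F.size := AEB.size_lt_of_mem (h1.mem_iff.2 List.mem_cons_self : (d, c) ∈ F.trees)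
    omega

/-- paths to the branches of the spine -/
theorem Rn.ptT {d : Bool} {n : ℕ} {F G : Fd} (h : Rn l d n F G) (hn : 1 ≤ n) (d0 : Bool) :
    ∃ m, AESK.PtT 0 (d0, F) (d, G) m := by
  induction h generalizing d0 with
  | zero F => omega
  | step F c G L n h1 _ h3 ih =>
    have h5 : AESK.PtT 0 (d0, F) (d, c) (0 + if d = d0 then 0 else 1) :=
      AESK.PtT.step _ _ _ AESK.PtT.refl (h1.mem_iff.2 List.mem_cons_self) (Nat.zero_le _)
    rcases Nat.eq_zero_or_pos n with hn | hn
    · subst hn
      cases h3 with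
      | zero => exact ⟨_, h5⟩
    · obtain ⟨m, hm⟩ := ih hn d
      exact ⟨_, h5.trans hm⟩

/-! ### closures -/

theorem clo_eq (d : Bool) (F : Fd) : clo d F = (F.trees.map (clq d)).sum := by
  induction F with
  | nil => cases d <;> simp [clo, AELT.dcl, AEB.blk, Fd.trees]
  | node e c s _ ihs =>
    simp only [Fd.trees, List.map_cons, List.sum_cons, ← ihs]
    cases d <;> cases e <;> simp [clo, clq, AELT.dcl, AEB.blk]

theorem clo_perm (d : Bool) {F : Fd} {p : Bool × Fd} {L : List (Bool × Fd)} (h : F.trees.Perm (p :: L)) :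
    clo d F = clq d p + (L.map (clq d)).sum := by
  rw [clo_eq, (h.map _).sum_eq, List.map_cons, List.sum_cons]

theorem size_perm {F : Fd} {p : Bool × Fd} {L : List (Bool × Fd)} (h : F.trees.Perm (p :: L)) :
    F.size = p.2.size + 1 + (L.map (fun q => q.2.size + 1)).sum := by
  rw [Fd.size_eq, (h.map _).sum_eq, List.map_cons, List.sum_cons]

theorem clq_add (q : Bool × Fd) : clq true q + clq false q ≤ q.2.size + 1 := by
  have h1 := AEJ.dcl_add_blk_le q.2
  cases h : q.1
  · simp only [clq, clo, h, Bool.false_eq_true, if_false, if_true]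
    omega
  · simp only [clq, clo, h, Bool.true_eq_false, if_false, if_true]
    omega

theorem clq_le (d : Bool) (q : Bool × Fd) : clq d q ≤ q.2.size + 1 := by
  have := clq_add q
  cases d <;> omega

theorem clq_sum (d : Bool) (L : List (Bool × Fd)) : (L.map (clq d)).sum ≤ (L.map (fun q => q.2.size + 1)).sum := by
  induction L with
  | nil => simp
  | cons q L ih =>
    simp only [List.map_cons, List.sum_cons]
    have := clq_le d q
    omega

theorem clo_two {F : Fd} {p : Bool × Fd} {L : List (Bool × Fd)} (h : F.trees.Perm (p :: L)) :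
    dcl F + AEB.blk F + (p.2.size + 1) ≤ F.size + clq p.1 p := by
  have h1 := clo_perm true h
  have h2 := clo_perm false h
  simp only [clo, if_true, Bool.false_eq_true, if_false] at h1 h2
  have h3 := size_perm h
  have h4 : (L.map (clq true)).sum + (L.map (clq false)).sum ≤ (L.map (fun q => q.2.size + 1)).sum := by
    clear h h1 h2 h3
    induction L with
    | nil => simp
    | cons q L ih =>
      simp only [List.map_cons, List.sum_cons]
      have := clq_add q
      omega
  have h5 : clq true p + clq false p = clq p.1 p := by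
    cases hp : p.1 <;> simp [clq, hp]
  omega

theorem rb_clq {q : Bool × Fd} (h : RBq l q) (hb : 1 ≤ b) (hl : q.2.len ≤ b) (hd : q.2.Deg b) (d : Bool) :
    clq d q ≤ AEB.ab b l := by
  have key : ∀ q : Bool × Fd, AEB.InR l 0 (.node q.1 q.2 .nil) → q.2.len ≤ b → q.2.Deg b → clq false q ≤ AEB.ab b l := by
    intro q h hl hd
    have h1 : AEB.FOK b l 0 (.node q.1 q.2 .nil) := ⟨by simp [Fd.len]; exact hb, ⟨hl, hd, trivial⟩, h⟩
    have h2 := h1.blk_le (Nat.zero_le _)
    have h3 : clq false q = AEB.blk (.node q.1 q.2 .nil) := by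
      cases hq : q.1 <;> simp [clq, clo, AEB.blk, hq]
    rw [h3, AEB.ab]
    simpa using (Nat.le_succ _).trans h2
  cases d with
  | false => exact key q h.1 hl hd
  | true =>
    have h1 := key (!q.1, AEK.mrr q.2) h.mrr.1 (by rw [mrr_len]; exact hl) (mrr_deg hd)
    have h2 : clq false (!q.1, AEK.mrr q.2) = clq true q := by
      cases hq : q.1 <;> simp [clq, hq, clo_mrr]
    rwa [h2] at h1

theorem rb_sum {L : List (Bool × Fd)} {B : ℕ} {f : Bool × Fd → ℕ} (h : ∀ q ∈ L, f q ≤ B) : (L.map f).sum ≤ L.length * B := by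
  induction L with
  | nil => simp
  | cons q L ih =>
    simp only [List.map_cons, List.sum_cons, List.length_cons, add_mul, one_mul]
    have h1 := h q List.mem_cons_self
    have h2 := ih fun q hq => h q (List.mem_cons_of_mem _ hq)
    omega

/-- the bound on the closures -/
def Db (b l : ℕ) : ℕ := b * AEB.ab b l

theorem rb_clo {G : Fd} (hb : 1 ≤ b) (hG : OKc b G) (h : ∀ q ∈ G.trees, RBq l q) (d : Bool) : clo d G ≤ Db b l := by
  rw [clo_eq]
  have h1 : ∀ q ∈ G.trees, clq d q ≤ AEB.ab b l := fun q hq => rb_clq (h q hq) hb (hG.mem hq).2.1 (hG.mem hq).2.2 d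
  refine (rb_sum h1).trans (Nat.mul_le_mul_right _ ?_)
  rw [← Fd.len_eq]
  exact hG.2.1

/-- the closure in the direction against the spine -/
theorem opp_clo {F c : Fd} {d : Bool} {L : List (Bool × Fd)} (hb : 1 ≤ b) (hF : OKc b F) (h1 : F.trees.Perm ((d, c) :: L))
    (h2 : ∀ q ∈ L, RBq l q) : clo (!d) F ≤ Db b l := by
  rw [clo_perm _ h1]
  have h3 : clq (!d) (d, c) = 0 := by cases d <;> simp [clq]
  have h4 : ∀ q ∈ L, clq (!d) q ≤ AEB.ab b l := fun q hq => by
    have := hF.mem (h1.mem_iff.2 (List.mem_cons_of_mem _ hq))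
    exact rb_clq (h2 q hq) hb this.2.1 this.2.2 _
  have h5 := rb_sum h4
  have h6 : L.length ≤ b := by
    have := h1.length_eq
    rw [List.length_cons, ← Fd.len_eq] at this
    have := hF.2.1
    omega
  have h7 : L.length * AEB.ab b l ≤ b * AEB.ab b l := Nat.mul_le_mul_right _ h6
  unfold Db
  omega

theorem Rn.opp {d : Bool} {n : ℕ} {F G : Fd} (h : Rn l d n F G) (hn : 1 ≤ n) (hb : 1 ≤ b) (hF : OKc b F) :
    clo (!d) F ≤ Db b l := by
  cases h with
  | zero => omega
  | step _ c _ L n h1 h2 _ => exact opp_clo hb hF h1 h2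

theorem En.clo {d : Bool} {G : Fd} (h : En l d G) (hb : 1 ≤ b) (hG : OKc b G) : clo d G ≤ Db b l := by
  rcases h with h | ⟨c, L, h1, h2, -⟩
  · exact rb_clo hb hG h d
  · have := opp_clo hb hG h1 h2
    rwa [Bool.not_not] at this

theorem Rn.clo {d : Bool} {n : ℕ} {F G : Fd} (h : Rn l d n F G) : clo d F + G.size ≤ F.size + clo d G := by
  induction h with
  | zero F => omega
  | step F c G L n h1 _ _ ih =>
    have h2 := clo_perm d h1
    have h3 := size_perm h1
    have h4 := clq_sum d L
    have h5 : clq d (d, c) = AESY.clo d c + 1 := by simp [clq]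
    simp only at h3
    omega

/-- both closures of the first vertex of a run -/
theorem Rn.both {d : Bool} {n : ℕ} {F G : Fd} (h : Rn l d n F G) (hn : 1 ≤ n) (hG : En l d G) (hb : 1 ≤ b) (hF : OKc b F) :
    dcl F + AEB.blk F + G.size ≤ F.size + 2 * Db b l := by
  have h1 := h.clo
  have h2 := h.opp hn hb hF
  have h3 := hG.clo hb (h.ok hF)
  cases d
  · simp only [AESY.clo, Bool.false_eq_true, if_false, Bool.not_false, if_true] at h1 h2 h3
    omega
  · simp only [AESY.clo, Bool.not_true, Bool.false_eq_true, if_false, if_true] at h1 h2 h3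
    omega

/-! ### without large branches at the root, the spine is the main chain -/

theorem nbp_size {F c : Fd} {d : Bool} {L : List (Bool × Fd)} (hF : OKc b F) (h1 : F.trees.Perm ((d, c) :: L))
    (h2 : ∀ q ∈ L, RBq l q) (h3 : ¬ BP b l F) : 3 * F.size ≤ 4 * c.size + 5 := by
  have h4 : ∀ q ∈ L, 4 * b * (q.2.size + 1) ≤ F.size := by
    intro q hq
    by_contra h
    exact h3 ⟨q, h1.mem_iff.2 (List.mem_cons_of_mem _ hq), h2 q hq, by omega⟩
  have h5 := size_perm h1
  have h6 : L.length ≤ b := by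
    have := h1.length_eq
    rw [List.length_cons, ← Fd.len_eq] at this
    have := hF.2.1
    omega
  have h7 : 4 * b * (L.map (fun q => q.2.size + 1)).sum ≤ L.length * F.size := by
    clear h1 h2 h3 h5 h6
    induction L with
    | nil => simp
    | cons q L ih =>
      simp only [List.map_cons, List.sum_cons, List.length_cons, add_mul, one_mul, mul_add]
      have h8 := ih fun q hq => h4 q (List.mem_cons_of_mem _ hq)
      have h9 := h4 q List.mem_cons_self
      simp only [mul_add] at h8 h9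
      omega
  have h8 : L.length * F.size ≤ b * F.size := Nat.mul_le_mul_right _ h6
  rcases Nat.eq_zero_or_pos b with hb | hb
  · subst hb
    have := h1.length_eq
    rw [List.length_cons, ← Fd.len_eq] at this
    have := hF.2.1
    omega
  · have h9 : b * (4 * (L.map (fun q => q.2.size + 1)).sum) ≤ b * F.size := by
      refine le_trans (le_of_eq ?_) (h7.trans h8)
      ring
    have h10 := Nat.le_of_mul_le_mul_left h9 hb
    simp only at h5
    omega

theorem nbp_first {F c : Fd} {d : Bool} {L : List (Bool × Fd)} (hb : 1 ≤ b) (hF : OKc b F)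
    (h1 : F.trees.Perm ((d, c) :: L)) (h2 : ∀ q ∈ L, RBq l q) (h3 : ¬ BP b l F) :
    ∃ s : Fd, F = .node d c s ∧ s.trees.Perm L := by
  have h4 := nbp_size hF h1 h2 h3
  have h5 : ∀ q ∈ L, q.2.size < c.size := by
    intro q hq
    by_contra h
    refine h3 ⟨q, h1.mem_iff.2 (List.mem_cons_of_mem _ hq), h2 q hq, ?_⟩
    have h6 : 4 * (q.2.size + 1) ≤ 4 * b * (q.2.size + 1) := Nat.mul_le_mul_right _ (by omega)
    have h7 : 1 ≤ F.size := by
      have : q.2.size < F.size := AEB.size_lt_of_mem (h1.mem_iff.2 (List.mem_cons_of_mem _ hq))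
      omega
    have h8 := size_perm h1
    omega
  cases F with
  | nil =>
    have := h1.length_eq
    simp [Fd.trees] at this
  | node e c' s =>
    have h6 : (e, c') ∈ (d, c) :: L := h1.mem_iff.1 (by simp [Fd.trees])
    have h7 : (d, c) ∈ (Fd.node e c' s).trees := h1.mem_iff.2 List.mem_cons_self
    simp only [Fd.trees, List.mem_cons] at h6 h7
    rcases h6 with h6 | h6
    · simp only [Prod.mk.injEq] at h6
      obtain ⟨rfl, rfl⟩ := h6
      exact ⟨s, rfl, List.Perm.cons_inv h1⟩
    · have h8 := h5 _ h6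
      rcases h7 with h7 | h7
      · simp only [Prod.mk.injEq] at h7
        rw [h7.2] at h8
        exact absurd h8 (lt_irrefl _)
      · have h9 := hF.1.2.2 rfl _ h7
        simp only at h8 h9
        omega

end AESY
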