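import Pool.Agent.AESY.T2YDefs
import Pool.Agent.AESY.PlaceB
import Pool.Agent.AESY.Pnd

/-!
# Free ends without the cleanliness condition, case T2: the routes of one and of two steps
-/

set_option autoImplicit false

namespace AESY

open Finset AE15 AED AELT AEB AESF
open scoped Classical

variable {V : Type} {R : V → V → Prop}

/-- the trees which hang by arcs away from the root are wide at most `b` -/
private theorem outs_deg' {b : ℕ} {F : Fd} (h : F.Deg b) : ∀ D ∈ outs F, D.len ≤ b ∧ D.Deg b := by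
  intro D hD
  exact pnd_deg h D (mem_pnd.2 (Or.inl hD))

/-- R0: `y → z`, `z` a host with many hosts before it -/
theorem route0 (hT : AE32.Tour R) {b q m : ℕ} {t σ : ℝ} {Ic H : Fd → Prop} {X U S I Gd : Finset V} {F c₁ : Fd} {y z : V}
    (hF : NY b q t Ic F) (hc : c₁ ∈ outs F) (hH : H c₁) (hσ : σ ≤ (c₁.size : ℝ)) (hIX : I ⊆ X) (hyI : y ∉ I)
    (hz : z ∈ I) (hzS : z ∉ S) (hyz : R y z) (hin : 4 * q + 4 ≤ ((I.filter (fun a => R a z)) \ S).card)
    (hm : b + b * q ≤ m) : Ky R X U S I Gd F y b (1 + q) m 0 t σ Ic H := by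
  have hA : ∀ a ∈ (I.filter (fun a => R a z)) \ S, a ∈ I ∧ R a z ∧ a ∉ S := by
    intro a ha
    rw [mem_sdiff, mem_filter] at ha
    exact ⟨ha.1.1, ha.1.2, ha.2⟩
  obtain ⟨B, P, hB, hBc, hP, hPB, hPl⟩ := incore hT hF.len hF.deg hF.blk (fun a ha => (hA a ha).2.1) hin
  have hBI : ∀ a ∈ B, a ∈ I ∧ R a z ∧ a ∉ S := fun a ha => hA a (hB ha)
  refine ⟨z, B, (outs F).map (fun c => (z, c)) ++ P, [], [], hyz, ?_, ?_, ?_, ?_, ?_, ?_, ?_, ?_, ?_, by simp, by simp,
    by simp⟩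
  · exact fun h => hT.irr _ (hBI z h).2.1
  · exact insert_subset (hIX hz) fun a ha => hIX (hBI a ha).1
  · rw [mem_insert, not_or]
    exact ⟨fun h => hyI (h ▸ hz), fun h => hyI (hBI y h).1⟩
  · have := card_insert_le z B
    omega
  · rw [disjoint_insert_right, disjoint_right]
    exact ⟨hzS, fun a ha => (hBI a ha).2.2⟩
  · simpa [List.map_append, List.map_map, Function.comp_def] using hP
  · intro p hp
    rcases List.mem_append.1 hp with h | h
    · obtain ⟨c, hc', rfl⟩ := List.mem_map.1 h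
      exact ⟨hz, hF.out c hc'⟩
    · obtain ⟨h1, h2⟩ := hPB p h
      exact ⟨(hBI _ h1).1, (hF.pin _ h2).1⟩
  · rw [List.length_append, List.length_map]
    have h1 := (length_outs F).trans hF.len
    omega
  · exact ⟨(z, c₁), List.mem_append_left _ (List.mem_map.2 ⟨c₁, hc, rfl⟩), hH, hσ⟩

/-- R1: `y → v → z`, `v ∈ U`, `z` a host with many hosts before it -/
theorem route1 (hT : AE32.Tour R) {b q m : ℕ} {t σ : ℝ} {Ic H : Fd → Prop} {X U S I Gd A : Finset V} {F c₁ c₂ : Fd}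
    {y v z : V} (hF : NY b q t Ic F) (hc : c₁ ∈ outs F) (hF1 : NY b q t Ic c₁) (hc2 : c₂ ∈ outs c₁) (hH : H c₂)
    (hσ : σ ≤ (c₂.size : ℝ)) (hUX : U ⊆ X) (hIX : I ⊆ X) (hyI : y ∉ I) (hv : v ∈ U) (hvS : v ∉ S) (hvy : v ≠ y)
    (hz : z ∈ I) (hzS : z ∉ S) (hyv : R y v) (hvz : R v z) (hA : A ⊆ U \ insert y S)
    (hAv : ∀ a ∈ A, R a v) (hAz : z ∉ A) (hAc : 4 * q + 4 ≤ A.card)
    (hin : 5 * q + 5 ≤ ((I.filter (fun a => R a z)) \ S).card)
    (hm : b + b * q ≤ m) : Ky R X U S I Gd F y b (2 + 2 * q) m 0 t σ Ic H := by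
  obtain ⟨B, P, hB, hBc, hP, hPB, hPl⟩ := incore hT hF.len hF.deg hF.blk hAv hAc
  have hBU : ∀ a ∈ B, a ∈ U ∧ a ≠ y ∧ a ∉ S := by
    intro a ha
    have h1 := hA (hB ha)
    rw [mem_sdiff, mem_insert, not_or] at h1
    exact h1
  have hvB : v ∉ B := fun h => hT.irr _ (hAv v (hB h))
  -- the tree `c₁` in front
  obtain ⟨ts, hts⟩ := List.append_of_mem hc
  obtain ⟨ts', hts⟩ := hts
  have hP1 : PGq R F v B ((v, true, c₁) :: ((ts ++ ts').map (fun c => (v, true, c)) ++
      P.map (fun p => (p.1, true, p.2)))) := by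
    refine hP.perm ?_
    rw [hts, List.map_append, List.map_cons, List.append_assoc, List.cons_append]
    refine List.perm_middle.trans ?_
    rw [List.map_append, List.append_assoc]
  obtain ⟨Az, hAz'⟩ : ∃ Az, Az = ((I.filter (fun a => R a z)) \ S) \ insert v B := ⟨_, rfl⟩
  have hAzm : ∀ a ∈ Az, a ∈ I ∧ R a z ∧ a ∉ S ∧ a ≠ v ∧ a ∉ B := by
    intro a ha
    rw [hAz', mem_sdiff, mem_sdiff, mem_filter, mem_insert, not_or] at ha
    exact ⟨ha.1.1.1, ha.1.1.2, ha.1.2, ha.2.1, ha.2.2⟩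
  have hAzc : 4 * q + 4 ≤ Az.card := by
    have h1 := le_card_sdiff (insert v B) ((I.filter (fun a => R a z)) \ S)
    have h2 := card_insert_le v B
    rw [hAz']
    omega
  obtain ⟨D, P', hD, hDc, hzD, hPD, hPD2, hPDl⟩ := open_one hT hF1 hP1 hvz (fun h => hAz (hB h))
    (fun a ha => (hAzm a ha).2.1) (by
      rw [disjoint_right]
      exact fun a ha => (hAzm a ha).2.2.2.2) hAzc
  have hDm : ∀ a ∈ D, a ∈ I ∧ R a z ∧ a ∉ S ∧ a ≠ v ∧ a ∉ B := fun a ha => hAzm a (hD ha)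
  have hvz' : v ≠ z := fun h => hT.irr _ (h ▸ hvz)
  refine ⟨v, B ∪ insert z D, (outs c₁).map (fun e => (z, e)) ++ P', [], (ts ++ ts').map (fun c => (v, true, c)) ++
    P.map (fun p => (p.1, true, p.2)), hyv, ?_, ?_, ?_, ?_, ?_, ?_, ?_, ?_, ?_, by simp, by simp, ?_⟩
  · rw [mem_union, mem_insert, not_or, not_or]
    exact ⟨hvB, hvz', fun h => (hDm v h).2.2.2.1 rfl⟩
  · refine insert_subset (hUX hv) (union_subset (fun a ha => hUX (hBU a ha).1) ?_)
    exact insert_subset (hIX hz) fun a ha => hIX (hDm a ha).1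
  · rw [mem_insert, mem_union, mem_insert, not_or, not_or, not_or]
    exact ⟨hvy.symm, fun h => (hBU y h).2.1 rfl, fun h => hyI (h ▸ hz), fun h => hyI (hDm y h).1⟩
  · have h1 := card_insert_le v (B ∪ insert z D)
    have h2 := card_union_le B (insert z D)
    have h3 := card_insert_le z D
    omega
  · rw [disjoint_insert_right, disjoint_union_right, disjoint_insert_right, disjoint_right, disjoint_right]
    exact ⟨hvS, fun a ha => (hBU a ha).2.2, hzS, fun a ha => (hDm a ha).2.2.1⟩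
  · simpa [List.map_append, List.map_map, Function.comp_def, List.append_assoc] using hPD
  · intro p hp
    rcases List.mem_append.1 hp with h | h
    · obtain ⟨c, hc', rfl⟩ := List.mem_map.1 h
      exact ⟨hz, hF1.out c hc'⟩
    · obtain ⟨h1, h2⟩ := hPD2 p h
      exact ⟨(hDm _ h1).1, (hF1.pin _ h2).1⟩
  · rw [List.length_append, List.length_map]
    have h1 := (length_outs c₁).trans hF1.len
    omega
  · exact ⟨(z, c₂), List.mem_append_left _ (List.mem_map.2 ⟨c₂, hc2, rfl⟩), hH, hσ⟩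
  · intro r hr
    rcases List.mem_append.1 hr with h | h
    · obtain ⟨c, hc', rfl⟩ := List.mem_map.1 h
      have h1 : c ∈ outs F := by
        rw [hts]
        rcases List.mem_append.1 hc' with h | h
        · exact List.mem_append_left _ h
        · exact List.mem_append_right _ (List.mem_cons_of_mem _ h)
      obtain ⟨h2, h3⟩ := outs_deg' hF.deg c h1
      exact ⟨hv, rfl, h2, h3⟩
    · obtain ⟨p, hp, rfl⟩ := List.mem_map.1 h
      obtain ⟨h1, h2⟩ := hPB p hp
      obtain ⟨h3, h4⟩ := pin_deg hF.deg _ h2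
      exact ⟨(hBU _ h1).1, rfl, h3, h4⟩

end AESY
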