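import Pool.Agent.AESY.T2YDefs
import Pool.Agent.AESY.PlaceC

/-!
# Free ends without the cleanliness condition, case T2: a broadcast over middle vertices
-/

set_option autoImplicit false
set_option linter.unusedVariables false

namespace AESY

open Finset AE15 AED AELT AEB AESF
open scoped Classical

variable {V : Type} {R : V → V → Prop}

/-- R2: a broadcast over the vertices `f j`.
Proof: incore for `F` at `w` in `A` (S_w), then mid_open with T := F, y := w, S := S_w, u := q, cs := outs F,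
Gd' := Gd \ (I ∪ image f (range b) ∪ {w}), Hs := I \ S; if A ⊆ U the P of incore is G₁, if A ⊆ Gd it belongs to Ps. -/
theorem route2 (hT : AE32.Tour R) {b q m z₀ p₀ : ℕ} {t σ : ℝ} {Ic H : Fd → Prop} {X U S I Gd A Hg : Finset V} {F : Fd}
    {y w : V} {f : ℕ → V} (hF : Top3Y b q t Ic H F)
    (hσ : ∀ c₁ c₂ c₃ : Fd, c₁ ∈ outs F → c₂ ∈ outs c₁ → c₃ ∈ outs c₂ → F.size ≤ b * (c₁.size + 1) →
      c₁.size ≤ b * (c₂.size + 1) → c₂.size ≤ b * (c₃.size + 1) → σ ≤ (c₃.size : ℝ))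
    (hUX : U ⊆ X) (hSU : S ⊆ U) (hIX : I ⊆ X) (hyU : y ∈ U) (hyS : y ∉ S) (hyI : y ∉ I) (hyw : R y w) (hwX : w ∈ X)
    (hwS : w ∉ S) (hwy : w ≠ y) (hwI : w ∉ I) (hGd : Gd ⊆ X \ U) (hA : A ⊆ U \ insert y S ∨ A ⊆ Gd)
    (hAI : Disjoint A I) (hAf : ∀ j < b, f j ∉ A) (hAw : ∀ a ∈ A, R a w) (hAc : 4 * q + 4 ≤ A.card) (hHg : Hg ⊆ I \ U)
    (hf : ∀ j < b, f j ∈ X ∧ f j ∉ U ∧ f j ∉ I ∧ f j ≠ w ∧ R w (f j) ∧
      q + b * (b * (q + 1)) + 1 ≤ (Hg.filter (fun a => R (f j) a)).card ∧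
      6 * q + b * q + 6 + I.card + b ≤ (Gd.filter (fun a => R a (f j))).card)
    (hfi : ∀ i < b, ∀ j < b, f i = f j → i = j)
    (hin : ∀ z ∈ Hg, 5 * q + b * (b * (q + 1)) + 4 ≤ ((I.filter (fun a => R a z)) \ S).card)
    (hm : b * (b * (b + b * q)) ≤ m) (hz₀ : 1 + q + b * (1 + q + b * (q + 1)) ≤ z₀) (hp₀ : b * (b * q) + b * q ≤ p₀) :
    Ky R X U S I Gd F y b z₀ m p₀ t σ Ic H := by
  have hlen : (outs F).length ≤ b := (length_outs F).trans hF.n0.len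
  -- the in-core of `F` at `w`
  obtain ⟨Sw, P₀, hSw, hSwc, hP₀, hP₀m, hP₀l⟩ := incore hT hF.n0.len hF.n0.deg hF.n0.blk hAw hAc
  obtain ⟨Gd', hGd'⟩ : ∃ Gd', Gd' = Gd \ (I ∪ (range b).image f ∪ {w}) := ⟨_, rfl⟩
  obtain ⟨Hs, hHs⟩ : ∃ Hs, Hs = I \ S := ⟨_, rfl⟩
  have hGG : ∀ a ∈ Gd', a ∈ Gd ∧ a ∉ I ∧ (∀ j < b, a ≠ f j) ∧ a ≠ w := by
    intro a ha
    rw [hGd', mem_sdiff, mem_union, mem_union, mem_singleton, mem_image] at ha
    refine ⟨ha.1, fun h => ha.2 (Or.inl (Or.inl h)), fun j hj h => ?_, fun h => ha.2 (Or.inr h)⟩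
    exact ha.2 (Or.inl (Or.inr ⟨j, mem_range.2 hj, h.symm⟩))
  have hHS : ∀ a ∈ Hs, a ∈ I ∧ a ∉ S := by
    intro a ha
    rw [hHs, mem_sdiff] at ha
    exact ha
  have hGU : ∀ a ∈ Gd, a ∈ X ∧ a ∉ U := fun a ha => mem_sdiff.1 (hGd ha)
  obtain ⟨Z, L, P, z1, z2, z3, z4, z5, z6, z7, z8, z9⟩ := mid_open hT (b := b) (q := q) (t := t) (I := Ic) (T := F)
    (y := w) (w := w) (G := P₀.map (fun p => (p.1, true, p.2))) Gd' Hs Hg (by
      intro a ha
      obtain ⟨h1, h2⟩ := mem_sdiff.1 (hHg ha)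
      rw [hHs, mem_sdiff]
      exact ⟨h1, fun h => h2 (hSU h)⟩) (by
      rw [disjoint_left]
      intro a ha h
      exact (hGG a ha).2.1 (hHS a h).1) (outs F) (fun c hc => ⟨hF.n1 c hc, fun c' hc' => hF.n2 c hc c' hc'⟩) hP₀
    (u := q) ((card_le_card inter_subset_left).trans hSwc) f
    (fun i hi j hj hij => hfi i (by omega) j (by omega) hij) (fun j hj => by
      have hj' : j < b := by omega
      obtain ⟨a1, a2, a3, a4, a5, a6, a7⟩ := hf j hj'
      have h1 : (outs F).length * (b * (q + 1)) ≤ b * (b * (q + 1)) := Nat.mul_le_mul_right _ hlen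
      have h2 : (outs F).length * q ≤ b * q := Nat.mul_le_mul_right _ hlen
      refine ⟨a5, fun h => hAf j hj' (hSw h), fun h => (hGG _ h).2.2.1 j hj' rfl, fun h => a3 (hHS _ h).1,
        by omega, ?_⟩
      have h3 : Gd.filter (fun a => R a (f j)) ⊆ Gd'.filter (fun a => R a (f j)) ∪ (I ∪ (range b).image f ∪ {w}) := by
        intro a ha
        rw [mem_filter] at ha
        rw [mem_union, mem_filter, hGd', mem_sdiff]
        tauto
      have h4 := (card_le_card h3).trans (card_union_le _ _)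
      have h5 := card_union_le (I ∪ (range b).image f) {w}
      have h6 := card_union_le I ((range b).image f)
      have h7 : ((range b).image f).card ≤ b := card_image_le.trans (by rw [card_range])
      rw [card_singleton] at h5
      omega) (fun z hz => by
      have h1 : (outs F).length * (b * (q + 1)) ≤ b * (b * (q + 1)) := Nat.mul_le_mul_right _ hlen
      have h2 := hin z hz
      have h3 : (I.filter (fun a => R a z)) \ S = Hs.filter (fun a => R a z) := by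
        rw [hHs]
        ext a
        rw [mem_sdiff, mem_filter, mem_filter, mem_sdiff]
        tauto
      rw [h3] at h2
      omega)
  -- where the vertices are
  have hAX : ∀ a ∈ Sw, a ∈ X ∧ a ≠ y ∧ a ∉ S := by
    intro a ha
    rcases hA with hA | hA
    · obtain ⟨h1, h2⟩ := mem_sdiff.1 (hA (hSw ha))
      exact ⟨hUX h1, fun h => h2 (h ▸ mem_insert_self _ _), fun h => h2 (mem_insert_of_mem h)⟩
    · obtain ⟨h1, h2⟩ := hGU a (hA (hSw ha))
      exact ⟨h1, fun h => h2 (h ▸ hyU), fun h => h2 (hSU h)⟩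
  have hZX : ∀ a ∈ Z, a ∈ X ∧ a ≠ y ∧ a ∉ S ∧ a ≠ w := by
    intro a ha
    rcases z1 a ha with h | h | ⟨j, hj, rfl⟩
    · obtain ⟨h1, h2, h3, h4⟩ := hGG a h
      obtain ⟨h5, h6⟩ := hGU a h1
      exact ⟨h5, fun h => h6 (h ▸ hyU), fun h => h6 (hSU h), h4⟩
    · obtain ⟨h1, h2⟩ := hHS a h
      exact ⟨hIX h1, fun h => hyI (h ▸ h1), h2, fun h => hwI (h ▸ h1)⟩
    · obtain ⟨a1, a2, a3, a4, a5, a6, a7⟩ := hf j (by omega)
      exact ⟨a1, fun h => a2 (h ▸ hyU), fun h => a2 (hSU h), a4⟩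
  have hwSw : w ∉ Sw := fun h => hT.irr _ (hAw w (hSw h))
  have hbZ : (outs F).length * (1 + q + b * (q + 1)) ≤ b * (1 + q + b * (q + 1)) := Nat.mul_le_mul_right _ hlen
  have hbL : (outs F).length * (b * (b + b * q)) ≤ b * (b * (b + b * q)) := Nat.mul_le_mul_right _ hlen
  have hbP : (outs F).length * (b * q) ≤ b * (b * q) := Nat.mul_le_mul_right _ hlen
  have hP₀d : ∀ p ∈ P₀, p.1 ∈ Sw ∧ p.2.len ≤ b ∧ p.2.Deg b ∧ (p.2.size + 1 : ℝ) ≤ t := by
    intro p hp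
    obtain ⟨h1, h2⟩ := hP₀m p hp
    obtain ⟨h3, h4⟩ := pin_deg hF.n0.deg _ h2
    exact ⟨h1, h3, h4, (hF.n0.pin _ h2).2⟩
  have hcard : (insert w (Sw ∪ Z)).card ≤ z₀ := by
    have h1 := card_insert_le w (Sw ∪ Z)
    have h2 := card_union_le Sw Z
    omega
  have hsub : insert w (Sw ∪ Z) ⊆ X := by
    intro a ha
    rw [mem_insert, mem_union] at ha
    rcases ha with rfl | ha | ha
    · exact hwX
    · exact (hAX a ha).1
    · exact (hZX a ha).1
  have hynot : y ∉ insert w (Sw ∪ Z) := by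
    rw [mem_insert, mem_union]
    rintro (h | h | h)
    · exact hwy h.symm
    · exact (hAX y h).2.1 rfl
    · exact (hZX y h).2.1 rfl
  have hdisj : Disjoint S (insert w (Sw ∪ Z)) := by
    rw [disjoint_right]
    intro a ha
    rw [mem_insert, mem_union] at ha
    rcases ha with rfl | ha | ha
    · exact hwS
    · exact (hAX a ha).2.2
    · exact (hZX a ha).2.2.1
  have hwZ : w ∉ Sw ∪ Z := by
    rw [mem_union]
    rintro (h | h)
    · exact hwSw h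
    · exact (hZX w h).2.2.2 rfl
  have hheavy : ∃ p ∈ L, H p.2 ∧ σ ≤ (p.2.size : ℝ) := by
    obtain ⟨c₁, c₂, c₃, h1, h2, h3, -, -, h6, h7, h8, h9⟩ := hF.heavy
    obtain ⟨p, hp, hp3⟩ := z9 c₁ h1 c₂ h2 c₃ h3
    refine ⟨p, hp, ?_, ?_⟩
    · rw [hp3]
      exact h6
    · rw [hp3]
      exact hσ c₁ c₂ c₃ h1 h2 h3 h7 h8 h9
  have hLI : ∀ p ∈ L, p.1 ∈ I ∧ Ic p.2 := fun p hp => ⟨(hHS _ (z7 p hp).1).1, (z7 p hp).2⟩
  have hPG : ∀ p ∈ P, p.1 ∈ Gd ∧ p.2.len ≤ b ∧ p.2.Deg b ∧ (p.2.size + 1 : ℝ) ≤ t := by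
    intro p hp
    obtain ⟨h1, -, h3, h4, h5⟩ := z8 p hp
    exact ⟨(hGG _ h1).1, h3, h4, h5⟩
  rcases hA with hA | hA
  · refine ⟨w, Sw ∪ Z, L, P, P₀.map (fun p => (p.1, true, p.2)), hyw, hwZ, hsub, hynot, hcard, hdisj, z4, hLI,
      z5.trans (hbL.trans hm), hheavy, hPG, by omega, ?_⟩
    intro p hp
    rw [List.mem_map] at hp
    obtain ⟨r, hr, rfl⟩ := hp
    obtain ⟨h1, h2, h3, -⟩ := hP₀d r hr
    exact ⟨(mem_sdiff.1 (hA (hSw h1))).1, rfl, h2, h3⟩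
  · refine ⟨w, Sw ∪ Z, L, P ++ P₀, [], hyw, hwZ, hsub, hynot, hcard, hdisj, ?_, hLI,
      z5.trans (hbL.trans hm), hheavy, ?_, by rw [List.length_append]; omega, by simp⟩
    · refine z4.perm ?_
      rw [List.map_append, List.append_nil]
    · intro p hp
      rcases List.mem_append.1 hp with hp | hp
      · exact hPG p hp
      · obtain ⟨h1, h2, h3, h4⟩ := hP₀d p hp
        exact ⟨hA (hSw h1), h2, h3, h4⟩

end AESY
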