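import Pool.Agent.AESY.Defs
import Pool.Agent.AESF.T2

/-!
# Free ends without the cleanliness condition, case T2: the routes
-/

set_option autoImplicit false

namespace AESY

open Finset AE15 AED AELT AEB AESF
open scoped Classical

/-- a route from `y`: the root of `F` is placed at `w`, an out-neighbour of `y`, the first levels of `F` at `Z`; the large
trees `L` are pending at hosts (`I`), small trees `Ps` at vertices of `Gd`, the trees `G₁` at vertices of `U` -/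
def Ky {V : Type} (R : V → V → Prop) (X U S I Gd : Finset V) (F : Fd) (y : V) (b z₀ m p₀ : ℕ) (t σ : ℝ)
    (Ic H : Fd → Prop) : Prop :=
  ∃ (w : V) (Z : Finset V) (L Ps : List (V × Fd)) (G₁ : List (V × Bool × Fd)), R y w ∧ w ∉ Z ∧ insert w Z ⊆ X ∧
    y ∉ insert w Z ∧ (insert w Z).card ≤ z₀ ∧ Disjoint S (insert w Z) ∧
    PGq R F w Z (L.map (fun p => (p.1, true, p.2)) ++ (Ps.map (fun p => (p.1, true, p.2)) ++ G₁)) ∧
    (∀ p ∈ L, p.1 ∈ I ∧ Ic p.2) ∧ L.length ≤ m ∧ (∃ p ∈ L, H p.2 ∧ σ ≤ (p.2.size : ℝ)) ∧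
    (∀ p ∈ Ps, p.1 ∈ Gd ∧ p.2.len ≤ b ∧ p.2.Deg b ∧ (p.2.size + 1 : ℝ) ≤ t) ∧ Ps.length ≤ p₀ ∧
    ∀ q ∈ G₁, q.1 ∈ U ∧ q.2.1 = true ∧ q.2.2.len ≤ b ∧ q.2.2.Deg b

end AESY
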