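import Pool.Agent.AESY.T2YA
import Pool.Agent.AESY.T2YB

/-!
# Free ends without the cleanliness condition, case T2: a route exists
-/

set_option autoImplicit false

namespace AESY

open Finset AE15 AED AELT AEB AESF
open scoped Classical

/-- short routes from `y` to `Q` -/
def RtY {V : Type} (R : V → V → Prop) (X U P Fb Q : Finset V) (y : V) (b B : ℕ) : Prop :=
  (∃ x ∈ Q, ∃ v ∈ P, v ∉ Fb ∧ R y v ∧ R v x) ∨
  ∃ w ∈ X, (w ∈ P ∨ w ∉ U) ∧ w ∉ Fb ∧ R y w ∧ ∃ f : ℕ → V, (∀ j < b, f j ∈ X ∧ f j ∉ U ∧ f j ∉ Fb ∧ f j ≠ w ∧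
    R w (f j) ∧ B ≤ (Q.filter (fun x => R (f j) x)).card) ∧ ∀ i < b, ∀ j < b, f i = f j → i = j

theorem Ky.mono {V : Type} {R : V → V → Prop} {X U S I Gd : Finset V} {F : Fd} {y : V} {b z₀ z₁ m p₀ p₁ : ℕ} {t σ : ℝ}
    {Ic H : Fd → Prop} (h : Ky R X U S I Gd F y b z₀ m p₀ t σ Ic H) (hz : z₀ ≤ z₁) (hp : p₀ ≤ p₁) :
    Ky R X U S I Gd F y b z₁ m p₁ t σ Ic H := by
  obtain ⟨w, Z, L, Ps, G₁, h1, h2, h3, h4, h5, h6, h7, h8, h9, h10, h11, h12, h13⟩ := h
  exact ⟨w, Z, L, Ps, G₁, h1, h2, h3, h4, h5.trans hz, h6, h7, h8, h9, h10, h11, h12.trans hp, h13⟩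

theorem t2_key {V : Type} {R : V → V → Prop} (hT : AE32.Tour R) {b q C₁ J N₁ M' N z₀ m p₀ : ℕ} {t σ : ℝ}
    {Ic H : Fd → Prop} {X U P₁ P₂ S I Ig Gd Bad Wb Fb : Finset V} {F : Fd} {y : V}
    (hM : M' = J + 5 * q + b * (b * (q + 1)) + 6) (hN : N = C₁ + 3 * J + 1 + N₁ + 2 * M')
    (hm : m = b * (b * (b + b * q)) + (b + b * q)) (hz₀ : z₀ = 2 + 2 * q + b * (1 + q + b * (q + 1)))
    (hp₀ : p₀ = b * (b * q) + b * q) (hUX : U ⊆ X) (hyU : y ∈ U) (hP₁ : P₁ ⊆ U) (hP₂ : P₂ ⊆ U) (hyP₂ : y ∉ P₂)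
    (hdis : Disjoint P₁ P₂) (hUc : U.card ≤ P₁.card + P₂.card + C₁) (hSU : S ⊆ U) (hyS : y ∉ S)
    (hSJ : (S \ P₁).card ≤ J) (hIX : ∀ a ∈ I, a ∈ X ∧ a ∉ P₁ ∧ a ≠ y) (hIc : I.card = N)
    (hIg : Ig = I.filter (fun z => M' ≤ (I.filter (fun a => R a z)).card)) (hGd : Gd ⊆ X \ U)
    (hBad : Bad = (X \ U).filter (fun f => (nI R Gd f).card < 6 * q + b * q + 6 + N + b))
    (hWb : Wb = P₂.filter (fun v => (P₂.filter (fun a => R a v)).card < 4 * q + 4 + J + N))
    (hFb : Fb = insert y (I ∪ (S \ P₁)) ∪ Wb ∪ Bad)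
    (hpack : 3 * J < (Ig ∩ P₂).card → ∃ x ∈ Ig ∩ P₂, x ∉ S ∧ (R y x ∨ ∃ v ∈ P₂, v ∉ S ∧ R y v ∧ R v x ∧
      4 * q + 4 ≤ ((U \ insert y S).filter (fun z => R z v)).card))
    (hroute : N₁ ≤ (Ig \ U).card → RtY R X U P₂ Fb (Ig \ U) y b (q + b * (b * (q + 1)) + 1))
    (hF : Top3Y b q t Ic H F)
    (hσ : ∀ c₁ c₂ c₃ : Fd, c₁ ∈ outs F → c₂ ∈ outs c₁ → c₃ ∈ outs c₂ → F.size ≤ b * (c₁.size + 1) →
      c₁.size ≤ b * (c₂.size + 1) → c₂.size ≤ b * (c₃.size + 1) → σ ≤ (c₃.size : ℝ)) :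
    Ky R X U S I Gd F y b z₀ m p₀ t σ Ic H := by
  obtain ⟨c₁, c₂, c₃, hc₁, hc₂, hc₃, j1, j2, j3, e1, e2, e3⟩ := hF.heavy
  have k3 := hσ c₁ c₂ c₃ hc₁ hc₂ hc₃ e1 e2 e3
  have k2 : σ ≤ (c₂.size : ℝ) := by
    have := size_lt_of_mem (mem_outs.1 hc₃)
    have h1 : (c₃.size : ℝ) ≤ c₂.size := by exact_mod_cast this.le
    linarith
  have k1 : σ ≤ (c₁.size : ℝ) := by
    have := size_lt_of_mem (mem_outs.1 hc₂)
    have h1 : (c₂.size : ℝ) ≤ c₁.size := by exact_mod_cast this.le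
    linarith
  have hIX' : I ⊆ X := fun a ha => (hIX a ha).1
  have hyI : y ∉ I := fun h => (hIX y h).2.2 rfl
  have hSI : ∀ {A : Finset V}, (A ∩ (S ∪ I)) ⊆ (S \ P₁) ∪ I ∪ (A ∩ P₁) := by
    intro A a ha
    simp only [mem_inter, mem_union, mem_sdiff] at ha ⊢
    tauto
  -- the good hosts
  have hgood : ∀ z ∈ Ig, z ∈ I ∧ 5 * q + b * (b * (q + 1)) + 6 ≤ ((I.filter (fun a => R a z)) \ S).card := by
    intro z hz
    rw [hIg, mem_filter] at hz
    refine ⟨hz.1, ?_⟩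
    have h1 : I.filter (fun a => R a z) ⊆ ((I.filter (fun a => R a z)) \ S) ∪ (S \ P₁) := by
      intro a ha
      rw [mem_union, mem_sdiff, mem_sdiff]
      by_cases h : a ∈ S
      · exact Or.inr ⟨h, (hIX a (mem_filter.1 ha).1).2.1⟩
      · exact Or.inl ⟨ha, h⟩
    have h2 := (card_le_card h1).trans (card_union_le _ _)
    have h3 := hz.2
    omega
  have hm1 : b + b * q ≤ m := by rw [hm]; exact Nat.le_add_left _ _
  have hm2 : b * (b * (b + b * q)) ≤ m := by rw [hm]; exact Nat.le_add_right _ _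
  by_cases hcase : 3 * J < (Ig ∩ P₂).card
  · obtain ⟨x, hx, hxS, h1 | ⟨v, hv, hvS, hyv, hvx, hvc⟩⟩ := hpack hcase
    · obtain ⟨hxI, hxg⟩ := hgood x (mem_inter.1 hx).1
      exact (route0 hT hF.n0 hc₁ j1 k1 hIX' hyI hxI hxS h1 (by omega) hm1).mono (by omega) (Nat.zero_le _)
    · obtain ⟨hxI, hxg⟩ := hgood x (mem_inter.1 hx).1
      refine (route1 (A := (U \ insert y S).filter (fun z => R z v)) hT hF.n0 hc₁ (hF.n1 _ hc₁) hc₂ j2 k2 hUX hIX' hyI
        (hP₂ hv) hvS (fun h => hyP₂ (h ▸ hv)) hxI hxS hyv hvx (filter_subset _ _) (fun a ha => (mem_filter.1 ha).2) ?_ hvc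
        (by omega) hm1).mono (by omega) (Nat.zero_le _)
      intro h
      exact hT.asym _ _ hvx (mem_filter.1 h).2
  · -- the hosts outside `U`
    have h2 : ((Ig ∩ U) \ P₂).card ≤ C₁ := by
      have h3 : (Ig ∩ U) \ P₂ ⊆ U \ (P₁ ∪ P₂) := by
        intro a ha
        rw [mem_sdiff, mem_inter] at ha
        rw [mem_sdiff, mem_union, not_or]
        exact ⟨ha.1.2, (hIX a (hgood a ha.1.1).1).2.1, ha.2⟩
      have h4 := card_sdiff_add_card_eq_card (union_subset hP₁ hP₂)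
      rw [card_union_of_disjoint hdis] at h4
      have h5 := card_le_card h3
      omega
    have hIgc : N ≤ Ig.card + 2 * M' := by
      have h5 := low_in hT I M'
      have h6 : I.card ≤ Ig.card + (I.filter (fun z => (I.filter (fun a => R a z)).card < M')).card := by
        rw [hIg]
        refine le_trans (card_le_card ?_) (card_union_le _ _)
        intro a ha
        rw [mem_union, mem_filter, mem_filter]
        by_cases h : M' ≤ (I.filter (fun c => R c a)).card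
        · exact Or.inl ⟨ha, h⟩
        · exact Or.inr ⟨ha, by omega⟩
      omega
    have h3 : N₁ ≤ (Ig \ U).card := by
      have h4 : Ig.card ≤ (Ig \ U).card + ((Ig ∩ U) \ P₂).card + (Ig ∩ P₂).card := by
        have h5 : Ig ⊆ (Ig \ U) ∪ ((Ig ∩ U) \ P₂) ∪ (Ig ∩ P₂) := by
          intro a ha
          simp only [mem_union, mem_sdiff, mem_inter]
          tauto
        refine (card_le_card h5).trans ((card_union_le _ _).trans ?_)
        have := card_union_le (Ig \ U) ((Ig ∩ U) \ P₂)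
        omega
      omega
    -- the place of the in-core
    have hplace : ∀ v ∈ P₂, v ∉ Fb → ∃ A : Finset V, A ⊆ U \ insert y S ∧ Disjoint A I ∧ (∀ a ∈ A, R a v) ∧
        4 * q + 4 ≤ A.card := by
      intro v hv hvF
      have hvW : v ∉ Wb := fun h => hvF (by rw [hFb]; exact mem_union_left _ (mem_union_right _ h))
      have hvc : 4 * q + 4 + J + N ≤ (P₂.filter (fun a => R a v)).card := by
        by_contra h
        exact hvW (by rw [hWb]; exact mem_filter.2 ⟨hv, by omega⟩)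
      refine ⟨(P₂.filter (fun a => R a v)) \ (S ∪ I), ?_, ?_, ?_, ?_⟩
      · intro a ha
        rw [mem_sdiff, mem_filter, mem_union, not_or] at ha
        rw [mem_sdiff, mem_insert, not_or]
        exact ⟨hP₂ ha.1.1, fun h => hyP₂ (h ▸ ha.1.1), ha.2.1⟩
      · rw [disjoint_left]
        intro a ha
        rw [mem_sdiff, mem_union, not_or] at ha
        exact ha.2.2
      · intro a ha
        rw [mem_sdiff, mem_filter] at ha
        exact ha.1.2
      · have h4 : P₂.filter (fun a => R a v) ⊆ ((P₂.filter (fun a => R a v)) \ (S ∪ I)) ∪ ((S \ P₁) ∪ I) := by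
          intro a ha
          by_cases h : a ∈ S ∪ I
          · refine mem_union_right _ ?_
            rcases mem_union.1 h with h | h
            · exact mem_union_left _ (mem_sdiff.2 ⟨h, disjoint_right.1 hdis (mem_filter.1 ha).1⟩)
            · exact mem_union_right _ h
          · exact mem_union_left _ (mem_sdiff.2 ⟨ha, h⟩)
        have h5 := (card_le_card h4).trans (card_union_le _ _)
        have h6 := card_union_le (S \ P₁) I
        omega
    have hFbI : ∀ a ∉ Fb, a ≠ y ∧ a ∉ I ∧ ¬ (a ∈ S ∧ a ∉ P₁) := by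
      intro a ha
      rw [hFb, mem_union, mem_union, mem_insert, mem_union, mem_sdiff] at ha
      tauto
    rcases hroute h3 with ⟨x, hx, v, hv, hvF, hyv, hvx⟩ | ⟨w, hwX, hwP, hwF, hyw, f, hf, hfi⟩
    · obtain ⟨A, hA, hAI, hAv, hAc⟩ := hplace v hv hvF
      obtain ⟨hxg', hxU⟩ := mem_sdiff.1 hx
      obtain ⟨hxI, hxg⟩ := hgood x hxg'
      obtain ⟨v1, v2, v3⟩ := hFbI v hvF
      have hvS : v ∉ S := fun h => v3 ⟨h, disjoint_right.1 hdis hv⟩
      exact (route1 hT hF.n0 hc₁ (hF.n1 _ hc₁) hc₂ j2 k2 hUX hIX' hyI (hP₂ hv) hvS v1 hxI (fun h => hxU (hSU h)) hyv hvx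
        hA hAv (fun h => disjoint_left.1 hAI h hxI) hAc (by omega) hm1).mono (by omega) (Nat.zero_le _)
    · obtain ⟨w1, w2, w3⟩ := hFbI w hwF
      have hfj : ∀ j < b, f j ∈ X ∧ f j ∉ U ∧ f j ∉ I ∧ f j ≠ w ∧ R w (f j) ∧
          q + b * (b * (q + 1)) + 1 ≤ ((Ig \ U).filter (fun a => R (f j) a)).card ∧
          6 * q + b * q + 6 + I.card + b ≤ (Gd.filter (fun a => R a (f j))).card := by
        intro j hj
        obtain ⟨f1, f2, f3, f4, f5, f6⟩ := hf j hj
        refine ⟨f1, f2, (hFbI _ f3).2.1, f4, f5, f6, ?_⟩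
        by_contra h
        refine f3 ?_
        rw [hFb, hBad]
        refine mem_union_right _ (mem_filter.2 ⟨mem_sdiff.2 ⟨f1, f2⟩, ?_⟩)
        have h4 : (nI R Gd (f j)).card = (Gd.filter (fun a => R a (f j))).card := by
          congr 1
        omega
      have hwS : w ∉ S := by
        rcases hwP with h | h
        · exact fun h' => w3 ⟨h', disjoint_right.1 hdis h⟩
        · exact fun h' => h (hSU h')
      have hplace2 : ∃ A : Finset V, (A ⊆ U \ insert y S ∨ A ⊆ Gd) ∧ Disjoint A I ∧ (∀ j < b, f j ∉ A) ∧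
          (∀ a ∈ A, R a w) ∧ 4 * q + 4 ≤ A.card := by
        rcases hwP with hwP | hwU
        · obtain ⟨A, hA, hAI, hAv, hAc⟩ := hplace w hwP hwF
          exact ⟨A, Or.inl hA, hAI, fun j hj h => (hf j hj).2.1 (mem_sdiff.1 (hA h)).1, hAv, hAc⟩
        · have hwc : 6 * q + b * q + 6 + N + b ≤ (nI R Gd w).card := by
            by_contra h
            refine hwF ?_
            rw [hFb, hBad]
            exact mem_union_right _ (mem_filter.2 ⟨mem_sdiff.2 ⟨hwX, hwU⟩, by omega⟩)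
          refine ⟨(nI R Gd w) \ (I ∪ (range b).image f), Or.inr ?_, ?_, ?_, ?_, ?_⟩
          · intro a ha
            exact (mem_nI.1 (mem_sdiff.1 ha).1).1
          · rw [disjoint_left]
            intro a ha h
            exact (mem_sdiff.1 ha).2 (mem_union_left _ h)
          · intro j hj h
            exact (mem_sdiff.1 h).2 (mem_union_right _ (mem_image_of_mem f (mem_range.2 hj)))
          · intro a ha
            exact (mem_nI.1 (mem_sdiff.1 ha).1).2
          · have h4 := le_card_sdiff (I ∪ (range b).image f) (nI R Gd w)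
            have h5 := card_union_le I ((range b).image f)
            have h6 : ((range b).image f).card ≤ b := card_image_le.trans (by rw [card_range])
            omega
      obtain ⟨A, hA, hAI, hAf, hAw, hAc⟩ := hplace2
      refine route2 (A := A) (Hg := Ig \ U) (f := f) hT hF hσ hUX hSU hIX' hyU hyS hyI hyw hwX hwS w1 w2 hGd hA hAI hAf hAw
        hAc ?_ hfj hfi ?_ hm2 (by omega) (by omega)
      · intro a ha
        rw [mem_sdiff] at ha ⊢
        exact ⟨(hgood a ha.1).1, ha.2⟩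
      · intro z hz
        have h4 := (hgood z (mem_sdiff.1 hz).1).2
        omega

end AESY
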